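import Mathlib

set_option autoImplicit false
set_option linter.all false

open MeasureTheory Set Filter Topology

namespace HW287

noncomputable def hh (σ x : ℝ) : ℝ := x ^ 2 * (x + σ) ^ (-(1/2) : ℝ)

noncomputable def hh1 (σ x : ℝ) : ℝ :=
  2 * x * (x + σ) ^ (-(1/2) : ℝ) - (1/2) * x ^ 2 * (x + σ) ^ (-(3/2) : ℝ)

noncomputable def hh2 (σ x : ℝ) : ℝ :=
  2 * (x + σ) ^ (-(1/2) : ℝ) - 2 * x * (x + σ) ^ (-(3/2) : ℝ)
    + (3/4) * x ^ 2 * (x + σ) ^ (-(5/2) : ℝ)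

/-- the point with logarithmic polar coordinates x, θ -/
noncomputable def zz (x θ : ℝ) : ℂ := Complex.exp (-(x : ℂ) + (θ : ℂ) * Complex.I)

/-- logarithmic derivative -/
noncomputable def LL (S : ℂ → ℂ) (x θ : ℝ) : ℂ := zz x θ * deriv S (zz x θ)

noncomputable def pt (t φ : ℝ) : ℂ := (t : ℂ) + (φ : ℂ) * Complex.I

noncomputable def d1 (q : ℂ → ℝ) (s : ℂ) : ℝ := fderiv ℝ q s 1

noncomputable def d2 (q : ℂ → ℝ) (s : ℂ) : ℝ := fderiv ℝ q s Complex.I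

noncomputable def JJ (S : ℂ → ℂ) (X : ℝ) (q : ℂ → ℝ) (η : ℝ → ℝ → ℝ) (t φ : ℝ) : ℝ :=
  ∫ x in (0:ℝ)..X, ∫ θ in (0:ℝ)..(2 * Real.pi), q (pt t φ - S (zz x θ)) * η x θ

structure Ker (ε : ℝ) (p : ℂ → ℝ) (a : ℝ → ℝ) : Prop where
  smooth : ContDiff ℝ 3 p
  nonneg : ∀ s, 0 ≤ p s
  per : ∀ s, p (s + 2 * Real.pi * Complex.I) = p s
  supp : ∀ s, p s ≠ 0 → |s.re| < ε ∧ ∃ n : ℤ, |s.im - 2 * Real.pi * n| < ε
  acont : Continuous a
  anonneg : ∀ t, 0 ≤ a t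
  asupp : ∀ t, a t ≠ 0 → |t| < ε
  aint : ∀ c : ℝ, ε ≤ c → ∫ t in (-c)..c, a t = 1
  marg : ∀ t v : ℝ, ∫ φ in (0:ℝ)..(2 * Real.pi), p (pt t (φ - v)) = a t

structure Fam (G G1 G2 G11 G22 : ℝ → ℝ → ℝ) (ta : ℝ) : Prop where
  c0 : Continuous (Function.uncurry G)
  c1 : Continuous (Function.uncurry G1)
  c2 : Continuous (Function.uncurry G2)
  c11 : Continuous (Function.uncurry G11)
  c22 : Continuous (Function.uncurry G22)
  pos : ∀ t φ, ta ≤ t → 0 < G t φ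
  per : ∀ t φ, G t (φ + 2 * Real.pi) = G t φ
  per1 : ∀ t φ, G1 t (φ + 2 * Real.pi) = G1 t φ
  per2 : ∀ t φ, G2 t (φ + 2 * Real.pi) = G2 t φ
  per11 : ∀ t φ, G11 t (φ + 2 * Real.pi) = G11 t φ
  per22 : ∀ t φ, G22 t (φ + 2 * Real.pi) = G22 t φ
  e1 : ∀ t φ, ta ≤ t → HasDerivAt (fun u => G u φ) (G1 t φ) t
  e2 : ∀ t φ, ta ≤ t → HasDerivAt (fun u => G t u) (G2 t φ) φ
  e11 : ∀ t φ, ta ≤ t → HasDerivAt (fun u => G1 u φ) (G11 t φ) t
  e22 : ∀ t φ, ta ≤ t → HasDerivAt (fun u => G2 t u) (G22 t φ) φ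
  grad : ∀ t φ, ta ≤ t → G1 t φ ^ 2 + G2 t φ ^ 2 ≤ 3 * G t φ * (G11 t φ + G22 t φ)

noncomputable def AA (G : ℝ → ℝ → ℝ) (t : ℝ) : ℝ :=
  ∫ φ in (0:ℝ)..(2 * Real.pi), G t φ ^ (4/3 : ℝ)

noncomputable def AA1 (G G1 : ℝ → ℝ → ℝ) (t : ℝ) : ℝ :=
  ∫ φ in (0:ℝ)..(2 * Real.pi), (4/3) * G t φ ^ (1/3 : ℝ) * G1 t φ

noncomputable def AA2 (G G1 G11 : ℝ → ℝ → ℝ) (t : ℝ) : ℝ :=
  ∫ φ in (0:ℝ)..(2 * Real.pi), ((4/3) * G t φ ^ (1/3 : ℝ) * G11 t φ
    + (4/9) * G t φ ^ (-(2/3) : ℝ) * G1 t φ ^ 2)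

/-- windows: punctures just below and just above each level -/
structure Win (s : ℕ → ℂ) (d : ℝ → ℝ) (t0 : ℝ) : Prop where
  cont : Continuous d
  pos : ∀ t, t0 ≤ t → 0 < d t
  win : ∀ t, t0 ≤ t → ∃ j k, (s j).re ∈ Icc (t - d t) t ∧ (s k).re ∈ Icc (t + d t) (t + 2 * d t)
  int : IntegrableOn d (Ici t0)
  lim : Tendsto d atTop (𝓝 0)

/-- S omits all the values s j + 2 pi i n on the unit ball -/
def Omit (S : ℂ → ℂ) (s : ℕ → ℂ) : Prop :=
  ∀ z ∈ Metric.ball (0:ℂ) 1, ∀ j : ℕ, ∀ n : ℤ, S z ≠ s j + 2 * Real.pi * n * Complex.I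

noncomputable def GT (S : ℂ → ℂ) (X σ τ N : ℝ) (p : ℂ → ℝ) (t φ : ℝ) : ℝ :=
  JJ S X p (fun x θ => hh σ x * ‖LL S x θ‖ ^ 2) t φ + τ * Real.exp (N * t)

noncomputable def GT1 (S : ℂ → ℂ) (X σ τ N : ℝ) (p : ℂ → ℝ) (t φ : ℝ) : ℝ :=
  -JJ S X p (fun x θ => hh1 σ x * (LL S x θ).re) t φ + τ * N * Real.exp (N * t)

noncomputable def GT2 (S : ℂ → ℂ) (X σ : ℝ) (p : ℂ → ℝ) (t φ : ℝ) : ℝ :=
  -JJ S X p (fun x θ => hh1 σ x * (LL S x θ).im) t φ

noncomputable def GT11 (S : ℂ → ℂ) (X σ τ N : ℝ) (p : ℂ → ℝ) (t φ : ℝ) : ℝ :=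
  -JJ S X (d1 p) (fun x θ => hh1 σ x * (LL S x θ).re) t φ + τ * N ^ 2 * Real.exp (N * t)

noncomputable def GT22 (S : ℂ → ℂ) (X σ : ℝ) (p : ℂ → ℝ) (t φ : ℝ) : ℝ :=
  -JJ S X (d2 p) (fun x θ => hh1 σ x * (LL S x θ).im) t φ

def Land (C : ℝ) : Prop := ∀ E : ℂ → ℂ, DifferentiableOn ℂ E (Metric.ball 0 1) →
    (∀ z ∈ Metric.ball (0:ℂ) 1, E z ≠ 0 ∧ E z ≠ 1) → ∀ z ∈ Metric.ball (0:ℂ) 1,
    ‖E z‖ ≤ 4 → ‖deriv E z‖ * (1 - ‖z‖ ^ 2) ≤ C * ‖E z‖ ^ (5/6 : ℝ)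

/-- the numerical choices -/
structure Nums (C C1 K d0 CN : ℝ) : Prop where
  hc1 : 0 < C1
  hk4 : 4 ≤ K
  hd0 : 0 < d0
  hd01 : d0 ≤ 1/10
  hcd : C1 * d0 ≤ 1/8
  hcn : 0 < CN
  hone : ∀ d, 0 < d → d ≤ d0 →
    4 * ((1/2 - C1 * d) * Real.tan ((1/2 - C1 * d) * Real.pi)) ≤
      (1 / ((C / 2) * (3 * d) ^ (5/6 : ℝ) * ((K + 3) * d) ^ (1/6 : ℝ)) ^ 2 - 1/2
        - 2 * ((1/2 - C1 * d) * Real.tan ((1/2 - C1 * d) * Real.pi)) ^ 2) * (2 * d)
  honen : ∀ d, 0 < d → d ≤ d0 →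
    1 / ((C / 2) * (3 * d) ^ (5/6 : ℝ) * ((K + 3) * d) ^ (1/6 : ℝ)) ^ 2 ≤ CN / d ^ 2
  htwo : ∀ d Δ, 0 < d → d ≤ d0 → K * d ≤ Δ → Δ ≤ Real.pi →
    4 * (2 / (Δ / 2)) ≤ (1 / ((C / 2) * (3 * d) ^ (5/6 : ℝ) * (2 * Δ) ^ (1/6 : ℝ)) ^ 2 - 1/2
        - 2 * (2 / (Δ / 2)) ^ 2) * (2 * d)
  htwon : ∀ d Δ, 0 < d → d ≤ d0 → K * d ≤ Δ → Δ ≤ Real.pi →
    1 / ((C / 2) * (3 * d) ^ (5/6 : ℝ) * (2 * Δ) ^ (1/6 : ℝ)) ^ 2 ≤ CN / d ^ 2

/-! ### Hh -/

section

theorem hh_props_pow (y : ℝ) (hy : 0 < y) :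
    y ^ (-(3/2) : ℝ) = y ^ (-(1/2) : ℝ) / y ∧ y ^ (-(5/2) : ℝ) = y ^ (-(1/2) : ℝ) / y ^ 2 := by
  constructor
  · rw [show (-(3/2) : ℝ) = -(1/2) - 1 by norm_num, Real.rpow_sub_one hy.ne']
  · rw [show (-(5/2) : ℝ) = -(1/2) - (2 : ℕ) by norm_num, Real.rpow_sub_natCast hy.ne']

theorem hh_props_d (σ x r : ℝ) (h : 0 < x + σ) :
    HasDerivAt (fun z : ℝ => (z + σ) ^ r) (r * (x + σ) ^ (r - 1)) x := by
  have h1 : HasDerivAt (fun z : ℝ => z + σ) 1 x := (hasDerivAt_id x).add_const σ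
  have h2 := h1.rpow_const (p := r) (Or.inl h.ne')
  convert h2 using 1
  ring

theorem hh_props (σ x : ℝ) (hσ : 0 < σ) (hx : 0 ≤ x) :
    HasDerivAt (hh σ) (hh1 σ x) x ∧ HasDerivAt (hh1 σ) (hh2 σ x) x ∧
    0 ≤ hh σ x ∧ 0 ≤ hh1 σ x ∧ hh1 σ x ^ 2 ≤ 3 * hh σ x * hh2 σ x ∧
    (3/4) * (x + σ) ^ (-(1/2) : ℝ) ≤ hh2 σ x ∧ hh2 σ x ≤ 3 * (x + σ) ^ (-(1/2) : ℝ) ∧
    hh σ x ≤ x ^ (3/2 : ℝ) ∧ hh1 σ x ≤ 2 * x ^ (1/2 : ℝ) ∧
    hh σ 0 = 0 ∧ hh1 σ 0 = 0 := by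
  have hy : 0 < x + σ := by linarith
  obtain ⟨e3, e5⟩ := hh_props_pow (x + σ) hy
  have hw : 0 < (x + σ) ^ (-(1/2) : ℝ) := Real.rpow_pos_of_pos hy _
  have hxw : ∀ hx0 : 0 < x, (x + σ) ^ (-(1/2) : ℝ) ≤ x ^ (-(1/2) : ℝ) := fun hx0 =>
    Real.rpow_le_rpow_of_nonpos hx0 (by linarith) (by norm_num)
  have hd1 : HasDerivAt (hh σ) (hh1 σ x) x := by
    have h1 : HasDerivAt (fun z : ℝ => z ^ 2 * (z + σ) ^ (-(1/2) : ℝ)) _ x :=
      (hasDerivAt_pow 2 x).mul (hh_props_d σ x (-(1/2)) hy)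
    refine HasDerivAt.congr_deriv (f := hh σ) h1 ?_
    unfold hh1
    rw [show (-(1/2) - 1 : ℝ) = -(3/2) by norm_num]
    push_cast
    ring
  have hd2 : HasDerivAt (hh1 σ) (hh2 σ x) x := by
    have h1 : HasDerivAt (fun z : ℝ => 2 * z * (z + σ) ^ (-(1/2) : ℝ)
        - (1/2) * z ^ 2 * (z + σ) ^ (-(3/2) : ℝ)) _ x :=
      (((hasDerivAt_id x).const_mul 2).mul (hh_props_d σ x (-(1/2)) hy)).sub
        (((hasDerivAt_pow 2 x).const_mul (1/2)).mul (hh_props_d σ x (-(3/2)) hy))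
    refine HasDerivAt.congr_deriv (f := hh1 σ) h1 ?_
    unfold hh2
    rw [show (-(1/2) - 1 : ℝ) = -(3/2) by norm_num, show (-(3/2) - 1 : ℝ) = -(5/2) by norm_num]
    push_cast
    simp only [id]
    ring
  refine ⟨hd1, hd2, ?_⟩
  unfold hh hh1 hh2
  rw [e3, e5]
  generalize hwd : (x + σ) ^ (-(1/2) : ℝ) = w at *
  have hu0 : 0 ≤ x / (x + σ) := by positivity
  have hu1 : x / (x + σ) ≤ 1 := by rw [div_le_one hy]; linarith
  have g1 : 2 * x * w - 1 / 2 * x ^ 2 * (w / (x + σ)) = x * w * (2 - (x / (x + σ)) / 2) := by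
    field_simp
  have g2 : 2 * w - 2 * x * (w / (x + σ)) + 3 / 4 * x ^ 2 * (w / (x + σ) ^ 2)
      = w * (2 - 2 * (x / (x + σ)) + 3 / 4 * (x / (x + σ)) ^ 2) := by
    field_simp
  rw [g1, g2]
  generalize x / (x + σ) = u at *
  refine ⟨by positivity, ?_, ?_, ?_, ?_, ?_, ?_, by norm_num, by norm_num⟩
  · have : 0 ≤ 2 - u / 2 := by linarith
    positivity
  · nlinarith [mul_nonneg (mul_nonneg (sq_nonneg x) (sq_nonneg w)) (sq_nonneg (1 - u))]
  · nlinarith [mul_nonneg hw.le (mul_nonneg (sub_nonneg.2 hu1) (by linarith : (0:ℝ) ≤ 5 / 4 - 3 / 4 * u))]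
  · nlinarith [mul_nonneg hw.le hu0, mul_nonneg hw.le (mul_nonneg hu0 (sub_nonneg.2 hu1))]
  · rcases hx.eq_or_lt with h0 | h0
    · rw [← h0]; rw [Real.zero_rpow (by norm_num)]; norm_num
    · have e : x ^ (3/2 : ℝ) = x ^ 2 * x ^ (-(1/2) : ℝ) := by
        rw [← Real.rpow_natCast x 2, ← Real.rpow_add h0]; norm_num
      rw [e]
      exact mul_le_mul_of_nonneg_left (hxw h0) (by positivity)
  · rcases hx.eq_or_lt with h0 | h0
    · rw [← h0]; rw [Real.zero_rpow (by norm_num)]; norm_num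
    · have e : x ^ (1/2 : ℝ) = x * x ^ (-(1/2) : ℝ) := by
        nth_rewrite 2 [← Real.rpow_one x]
        rw [← Real.rpow_add h0]; norm_num
      rw [e]
      have h1 : x * w ≤ x * x ^ (-(1/2) : ℝ) := mul_le_mul_of_nonneg_left (hxw h0) hx
      have h2 : 0 ≤ x * w := by positivity
      nlinarith [mul_nonneg h2 hu0]

theorem hh_cont (σ : ℝ) (hσ : 0 < σ) :
    ContinuousOn (hh σ) (Ici 0) ∧ ContinuousOn (hh1 σ) (Ici 0) ∧ ContinuousOn (hh2 σ) (Ici 0) := by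
  have hne : ∀ z ∈ Ici (0:ℝ), z + σ ≠ 0 ∨ 0 ≤ (0:ℝ) := fun z _ => Or.inr le_rfl
  have hr : ∀ r : ℝ, ContinuousOn (fun z : ℝ => (z + σ) ^ r) (Ici 0) := fun r =>
    (by fun_prop : ContinuousOn (fun z : ℝ => z + σ) (Ici 0)).rpow_const
      (fun z hz => Or.inl (by
        have : (0:ℝ) ≤ z := hz
        have : 0 < z + σ := by linarith
        exact this.ne'))
  have h1 := hr (-(1/2))
  have h3 := hr (-(3/2))
  have h5 := hr (-(5/2))
  refine ⟨?_, ?_, ?_⟩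
  · exact (by fun_prop : ContinuousOn (fun z : ℝ => z ^ 2) (Ici 0)).mul h1
  · exact ((by fun_prop : ContinuousOn (fun z : ℝ => 2 * z) (Ici 0)).mul h1).sub
      ((by fun_prop : ContinuousOn (fun z : ℝ => (1/2) * z ^ 2) (Ici 0)).mul h3)
  · exact (((by fun_prop : ContinuousOn (fun z : ℝ => (2:ℝ)) (Ici 0)).mul h1).sub
      ((by fun_prop : ContinuousOn (fun z : ℝ => 2 * z) (Ici 0)).mul h3)).add
      ((by fun_prop : ContinuousOn (fun z : ℝ => (3/4) * z ^ 2) (Ici 0)).mul h5)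

end

/-! ### Zzl -/

section

theorem zz_norm (x θ : ℝ) : ‖zz x θ‖ = Real.exp (-x) := by
  unfold zz
  rw [Complex.norm_exp]
  simp

theorem zz_per (x θ : ℝ) : zz x (θ + 2 * Real.pi) = zz x θ := by
  unfold zz
  have h1 : -(x : ℂ) + ((θ + 2 * Real.pi : ℝ) : ℂ) * Complex.I =
      (-(x : ℂ) + (θ : ℂ) * Complex.I) + 2 * Real.pi * Complex.I := by
    push_cast
    ring
  rw [h1, Complex.exp_add, Complex.exp_two_pi_mul_I, mul_one]

theorem zzl_mem (R : ℝ) (hR : 1 < R) (x θ : ℝ) (hx : 0 ≤ x) : zz x θ ∈ Metric.ball (0:ℂ) R := by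
  rw [mem_ball_zero_iff, zz_norm]
  have : Real.exp (-x) ≤ 1 := Real.exp_le_one_iff.mpr (by linarith)
  linarith

theorem zzl_cont : Continuous (fun q : ℝ × ℝ => zz q.1 q.2) := by
  unfold zz
  fun_prop

theorem zzl_d1 (x θ : ℝ) : HasDerivAt (fun u : ℝ => zz u θ) (-zz x θ) x := by
  unfold zz
  have h1 : HasDerivAt (fun u : ℝ => -(u : ℂ) + (θ : ℂ) * Complex.I) (-1) x := by
    have h2 : HasDerivAt (fun u : ℝ => (u : ℂ)) 1 x := by
      simpa using (hasDerivAt_id x).ofReal_comp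
    exact h2.neg.add_const _
  refine h1.cexp.congr_deriv ?_
  ring

theorem zzl_d2 (x θ : ℝ) : HasDerivAt (fun u : ℝ => zz x u) (Complex.I * zz x θ) θ := by
  unfold zz
  have h1 : HasDerivAt (fun u : ℝ => -(x : ℂ) + (u : ℂ) * Complex.I) (Complex.I) θ := by
    have h2 : HasDerivAt (fun u : ℝ => (u : ℂ)) 1 θ := by
      simpa using (hasDerivAt_id θ).ofReal_comp
    simpa using (h2.mul_const Complex.I).const_add (-(x : ℂ))
  refine h1.cexp.congr_deriv ?_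
  ring

theorem S_cont (S : ℂ → ℂ) (R : ℝ) (hR : 1 < R) (hS : DifferentiableOn ℂ S (Metric.ball 0 R)) :
    ContinuousOn (fun q : ℝ × ℝ => S (zz q.1 q.2)) {q | 0 ≤ q.1} ∧
    ContinuousOn (fun q : ℝ × ℝ => LL S q.1 q.2) {q | 0 ≤ q.1} := by
  have hm : MapsTo (fun q : ℝ × ℝ => zz q.1 q.2) {q | 0 ≤ q.1} (Metric.ball (0:ℂ) R) :=
    fun q hq => zzl_mem R hR q.1 q.2 hq
  refine ⟨hS.continuousOn.comp zzl_cont.continuousOn hm, ?_⟩
  unfold LL
  exact zzl_cont.continuousOn.mul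
    ((hS.deriv Metric.isOpen_ball).continuousOn.comp zzl_cont.continuousOn hm)

theorem S_derivs (S : ℂ → ℂ) (R : ℝ) (hR : 1 < R) (hS : DifferentiableOn ℂ S (Metric.ball 0 R))
    (x θ : ℝ) (hx : 0 ≤ x) :
    HasDerivAt (fun u : ℝ => S (zz u θ)) (-LL S x θ) x ∧
    HasDerivAt (fun u : ℝ => S (zz x u)) (Complex.I * LL S x θ) θ ∧
    ∃ L' : ℂ, HasDerivAt (fun u : ℝ => LL S u θ) (-L') x ∧
      HasDerivAt (fun u : ℝ => LL S x u) (Complex.I * L') θ ∧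
      L' = LL S x θ + zz x θ ^ 2 * deriv (deriv S) (zz x θ) := by
  have hmem := zzl_mem R hR x θ hx
  have hn : Metric.ball (0:ℂ) R ∈ 𝓝 (zz x θ) := Metric.isOpen_ball.mem_nhds hmem
  have h1 : HasDerivAt S (deriv S (zz x θ)) (zz x θ) := (hS.differentiableAt hn).hasDerivAt
  have h2 : HasDerivAt (deriv S) (deriv (deriv S) (zz x θ)) (zz x θ) :=
    ((hS.deriv Metric.isOpen_ball).differentiableAt hn).hasDerivAt
  have e1 := zzl_d1 x θ
  have e2 := zzl_d2 x θ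
  refine ⟨?_, ?_, _, ?_, ?_, rfl⟩
  · refine (HasDerivAt.comp (h₂ := S) (h := fun u : ℝ => zz u θ) x h1 e1).congr_deriv ?_
    unfold LL
    ring
  · refine (HasDerivAt.comp (h₂ := S) (h := fun u : ℝ => zz x u) θ h1 e2).congr_deriv ?_
    unfold LL
    ring
  · refine (e1.mul (HasDerivAt.comp (h₂ := deriv S) (h := fun u : ℝ => zz u θ) x h2
      e1)).congr_deriv ?_
    simp only [Function.comp_apply]
    unfold LL
    ring
  · refine (e2.mul (HasDerivAt.comp (h₂ := deriv S) (h := fun u : ℝ => zz x u) θ h2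
      e2)).congr_deriv ?_
    simp only [Function.comp_apply]
    unfold LL
    ring

end

/-! ### Jjc -/

section

theorem JJ_cont (S : ℂ → ℂ) (R X : ℝ) (hR : 1 < R) (hS : DifferentiableOn ℂ S (Metric.ball 0 R))
    (hX : 0 ≤ X) (q : ℂ → ℝ) (hq : Continuous q) (η : ℝ → ℝ → ℝ)
    (hη : ContinuousOn (Function.uncurry η) {r : ℝ × ℝ | 0 ≤ r.1}) :
    Continuous (Function.uncurry (JJ S X q η)) := by
  have hcl : Continuous (fun r : ℝ × ℝ => ((max r.1 0, r.2) : ℝ × ℝ)) := by fun_prop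
  have hmem : ∀ r : ℝ × ℝ, ((max r.1 0, r.2) : ℝ × ℝ) ∈ {r : ℝ × ℝ | 0 ≤ r.1} := by
    intro r
    show (0 : ℝ) ≤ max r.1 0
    exact le_max_right _ _
  have hS' : Continuous (fun r : ℝ × ℝ => S (zz (max r.1 0) r.2)) :=
    (S_cont S R hR hS).1.comp_continuous hcl hmem
  have hη' : Continuous (fun r : ℝ × ℝ => η (max r.1 0) r.2) :=
    hη.comp_continuous hcl hmem
  have hpt : Continuous (fun r : ℝ × ℝ => pt r.1 r.2) := by
    unfold pt
    fun_prop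
  have e : Function.uncurry (JJ S X q η) = fun p : ℝ × ℝ => ∫ x in (0:ℝ)..X,
      ∫ θ in (0:ℝ)..(2 * Real.pi), q (pt p.1 p.2 - S (zz (max x 0) θ)) * η (max x 0) θ := by
    ext ⟨t, φ⟩
    show (∫ x in (0:ℝ)..X, ∫ θ in (0:ℝ)..(2 * Real.pi), q (pt t φ - S (zz x θ)) * η x θ) = _
    refine intervalIntegral.integral_congr ?_
    intro x hx
    rw [uIcc_of_le hX] at hx
    have hx0 : max x 0 = x := max_eq_left hx.1
    simp only [hx0]
  rw [e]
  have h1 : Continuous (Function.uncurry (fun (p : (ℝ × ℝ) × ℝ) (θ : ℝ) =>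
      q (pt p.1.1 p.1.2 - S (zz (max p.2 0) θ)) * η (max p.2 0) θ)) := by
    have a1 : Continuous (fun r : ((ℝ × ℝ) × ℝ) × ℝ => pt r.1.1.1 r.1.1.2) :=
      hpt.comp (by fun_prop : Continuous (fun r : ((ℝ × ℝ) × ℝ) × ℝ => r.1.1))
    have a2 : Continuous (fun r : ((ℝ × ℝ) × ℝ) × ℝ => S (zz (max r.1.2 0) r.2)) :=
      hS'.comp (by fun_prop : Continuous (fun r : ((ℝ × ℝ) × ℝ) × ℝ => (r.1.2, r.2)))
    have a3 : Continuous (fun r : ((ℝ × ℝ) × ℝ) × ℝ => η (max r.1.2 0) r.2) :=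
      hη'.comp (by fun_prop : Continuous (fun r : ((ℝ × ℝ) × ℝ) × ℝ => (r.1.2, r.2)))
    exact (hq.comp (a1.sub a2)).mul a3
  have h2 := intervalIntegral.continuous_parametric_intervalIntegral_of_continuous'
    (μ := volume) h1 0 (2 * Real.pi)
  have h3 : Continuous (Function.uncurry (fun (p : ℝ × ℝ) (x : ℝ) =>
      ∫ θ in (0:ℝ)..(2 * Real.pi), q (pt p.1 p.2 - S (zz (max x 0) θ)) * η (max x 0) θ)) := h2
  exact intervalIntegral.continuous_parametric_intervalIntegral_of_continuous'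
    (μ := volume) h3 0 X

theorem JJ_per (S : ℂ → ℂ) (X : ℝ) (q : ℂ → ℝ)
    (hq : ∀ s, q (s + 2 * Real.pi * Complex.I) = q s) (η : ℝ → ℝ → ℝ) (t φ : ℝ) :
    JJ S X q η t (φ + 2 * Real.pi) = JJ S X q η t φ := by
  unfold JJ
  congr 1
  ext x
  congr 1
  ext θ
  have h1 : pt t (φ + 2 * Real.pi) - S (zz x θ) =
      (pt t φ - S (zz x θ)) + 2 * Real.pi * Complex.I := by
    unfold pt
    push_cast
    ring
  rw [h1, hq]

end

/-! ### Jjd1 -/

section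

theorem jjd1_param (F F' : ℝ → ℝ → ℝ) (a b : ℝ) (hF : Continuous (Function.uncurry F))
    (hF' : Continuous (Function.uncurry F')) (hd : ∀ u x, HasDerivAt (fun v => F v x) (F' u x) u) (u : ℝ) :
    HasDerivAt (fun v => ∫ x in a..b, F v x) (∫ x in a..b, F' u x) u := by
  obtain ⟨C, hC⟩ : ∃ C, ∀ p ∈ (Icc (u-1) (u+1)) ×ˢ (uIcc a b), ‖Function.uncurry F' p‖ ≤ C :=
    (isCompact_Icc.prod isCompact_uIcc).exists_bound_of_continuousOn hF'.continuousOn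
  refine (intervalIntegral.hasDerivAt_integral_of_dominated_loc_of_deriv_le (F := F) (F' := F')
    (s := Icc (u-1) (u+1)) (bound := fun _ => C) (Icc_mem_nhds (by linarith) (by linarith)) ?_ ?_ ?_ ?_ ?_ ?_).2
  · refine Filter.Eventually.of_forall (fun v => ?_)
    exact (hF.comp (continuous_const.prodMk continuous_id)).aestronglyMeasurable
  · exact (hF.comp (continuous_const.prodMk continuous_id)).intervalIntegrable _ _
  · exact (hF'.comp (continuous_const.prodMk continuous_id)).aestronglyMeasurable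
  · refine Filter.Eventually.of_forall (fun x hx v hv => ?_)
    exact hC (v, x) ⟨hv, uIoc_subset_uIcc hx⟩
  · exact intervalIntegrable_const
  · exact Filter.Eventually.of_forall (fun x _ v _ => hd v x)

theorem JJ_deriv1 (S : ℂ → ℂ) (R X : ℝ) (hR : 1 < R) (hS : DifferentiableOn ℂ S (Metric.ball 0 R))
    (hX : 0 ≤ X) (q : ℂ → ℝ) (hq : ContDiff ℝ 1 q) (η : ℝ → ℝ → ℝ)
    (hη : ContinuousOn (Function.uncurry η) {r : ℝ × ℝ | 0 ≤ r.1}) (t φ : ℝ) :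
    HasDerivAt (fun u => JJ S X q η u φ) (JJ S X (d1 q) η t φ) t := by
  obtain ⟨hSc, -⟩ := S_cont S R hR hS
  set P : ℝ × ℝ → ℂ := fun p => S (zz (max p.1 0) p.2) with hP
  set E : ℝ × ℝ → ℝ := fun p => η (max p.1 0) p.2 with hE
  have hmx : Continuous (fun p : ℝ × ℝ => ((max p.1 0, p.2) : ℝ × ℝ)) := by fun_prop
  have hPc : Continuous P := by
    have := hSc.comp_continuous hmx (fun p => (le_max_right p.1 0 : (0:ℝ) ≤ max p.1 0))
    exact this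
  have hEc : Continuous E := by
    have := hη.comp_continuous hmx (fun p => (le_max_right p.1 0 : (0:ℝ) ≤ max p.1 0))
    exact this
  have hqc : Continuous q := hq.continuous
  have hd1c : Continuous (d1 q) := by
    unfold d1
    exact (hq.continuous_fderiv (by norm_num)).clm_apply continuous_const
  have hptc : Continuous (fun u : ℝ => pt u φ) := by unfold pt; fun_prop
  -- the integrands
  let F : ℝ → ℝ → ℝ → ℝ := fun u x θ => q (pt u φ - P (x, θ)) * E (x, θ)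
  let F' : ℝ → ℝ → ℝ → ℝ := fun u x θ => d1 q (pt u φ - P (x, θ)) * E (x, θ)
  have hFc : Continuous (fun r : (ℝ × ℝ) × ℝ => F r.1.1 r.1.2 r.2) := by
    have h1 : Continuous (fun r : (ℝ × ℝ) × ℝ => pt r.1.1 φ - P (r.1.2, r.2)) := by
      refine Continuous.sub ?_ ?_
      · exact hptc.comp (continuous_fst.comp continuous_fst)
      · exact hPc.comp (by fun_prop)
    exact (hqc.comp h1).mul (hEc.comp (by fun_prop))
  have hFc' : Continuous (fun r : (ℝ × ℝ) × ℝ => F' r.1.1 r.1.2 r.2) := by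
    have h1 : Continuous (fun r : (ℝ × ℝ) × ℝ => pt r.1.1 φ - P (r.1.2, r.2)) := by
      refine Continuous.sub ?_ ?_
      · exact hptc.comp (continuous_fst.comp continuous_fst)
      · exact hPc.comp (by fun_prop)
    exact (hd1c.comp h1).mul (hEc.comp (by fun_prop))
  have hder : ∀ x θ u, HasDerivAt (fun v => F v x θ) (F' u x θ) u := by
    intro x θ u
    have hpt : HasDerivAt (fun v : ℝ => pt v φ - P (x, θ)) 1 u := by
      unfold pt
      have h0 : HasDerivAt (fun v : ℝ => (v : ℂ)) 1 u := by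
        simpa using (hasDerivAt_id u).ofReal_comp
      exact ((h0.add_const _).sub_const _)
    have hqd : HasFDerivAt q (fderiv ℝ q (pt u φ - P (x, θ))) (pt u φ - P (x, θ)) :=
      (hq.differentiable (by norm_num) _).hasFDerivAt
    have h2 : HasDerivAt (fun v : ℝ => q (pt v φ - P (x, θ))) (fderiv ℝ q (pt u φ - P (x, θ)) 1) u :=
      hqd.comp_hasDerivAt u hpt
    exact h2.mul_const _
  -- inner integrals
  let G : ℝ → ℝ → ℝ := fun u x => ∫ θ in (0:ℝ)..(2 * Real.pi), F u x θ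
  let G' : ℝ → ℝ → ℝ := fun u x => ∫ θ in (0:ℝ)..(2 * Real.pi), F' u x θ
  have hGc : Continuous (Function.uncurry G) :=
    intervalIntegral.continuous_parametric_intervalIntegral_of_continuous'
      (f := fun (p : ℝ × ℝ) θ => F p.1 p.2 θ) hFc _ _
  have hGc' : Continuous (Function.uncurry G') :=
    intervalIntegral.continuous_parametric_intervalIntegral_of_continuous'
      (f := fun (p : ℝ × ℝ) θ => F' p.1 p.2 θ) hFc' _ _
  have hGd : ∀ u x, HasDerivAt (fun v => G v x) (G' u x) u := by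
    intro u x
    refine jjd1_param (fun v θ => F v x θ) (fun v θ => F' v x θ) 0 (2 * Real.pi) ?_ ?_ (fun v θ => hder x θ v) u
    · exact hFc.comp (f := fun r : ℝ × ℝ => (((r.1, x), r.2) : (ℝ × ℝ) × ℝ)) (by fun_prop)
    · exact hFc'.comp (f := fun r : ℝ × ℝ => (((r.1, x), r.2) : (ℝ × ℝ) × ℝ)) (by fun_prop)
  have hmain := jjd1_param G G' 0 X hGc hGc' hGd t
  have e1 : ∀ x, 0 ≤ x → ∀ θ, P (x, θ) = S (zz x θ) ∧ E (x, θ) = η x θ := by
    intro x hx θ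
    simp only [hP, hE, max_eq_left hx, and_self]
  have eJ : ∀ u, JJ S X q η u φ = ∫ x in (0:ℝ)..X, G u x := by
    intro u
    unfold JJ
    refine intervalIntegral.integral_congr (fun x hx => ?_)
    rw [uIcc_of_le hX] at hx
    show _ = ∫ θ in (0:ℝ)..(2 * Real.pi), F u x θ
    refine intervalIntegral.integral_congr (fun θ _ => ?_)
    show _ = q (pt u φ - P (x, θ)) * E (x, θ)
    rw [(e1 x hx.1 θ).1, (e1 x hx.1 θ).2]
  have eJ' : JJ S X (d1 q) η t φ = ∫ x in (0:ℝ)..X, G' t x := by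
    unfold JJ
    refine intervalIntegral.integral_congr (fun x hx => ?_)
    rw [uIcc_of_le hX] at hx
    show _ = ∫ θ in (0:ℝ)..(2 * Real.pi), F' t x θ
    refine intervalIntegral.integral_congr (fun θ _ => ?_)
    show _ = d1 q (pt t φ - P (x, θ)) * E (x, θ)
    rw [(e1 x hx.1 θ).1, (e1 x hx.1 θ).2]
  rw [eJ']
  have : (fun u => JJ S X q η u φ) = fun u => ∫ x in (0:ℝ)..X, G u x := funext eJ
  rw [this]
  exact hmain

end

/-! ### Jjd2 -/

section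

theorem param_w (F F' : ℝ → ℝ → ℝ) (hF : Continuous (Function.uncurry F))
    (hF' : Continuous (Function.uncurry F'))
    (hd : ∀ u x, HasDerivAt (fun v => F v x) (F' u x) u) (a b φ : ℝ) :
    HasDerivAt (fun u => ∫ x in a..b, F u x) (∫ x in a..b, F' φ x) φ := by
  have hK : IsCompact (Icc (φ - 1) (φ + 1) ×ˢ uIcc a b) := isCompact_Icc.prod isCompact_uIcc
  obtain ⟨C, hC⟩ := hK.exists_bound_of_continuousOn (f := Function.uncurry F') hF'.continuousOn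
  have h1 : ∀ u, Continuous (F u) := fun u => hF.comp (Continuous.prodMk_right u)
  have h1' : ∀ u, Continuous (F' u) := fun u => hF'.comp (Continuous.prodMk_right u)
  refine (intervalIntegral.hasDerivAt_integral_of_dominated_loc_of_deriv_le
    (F := F) (F' := F') (bound := fun _ => C) (s := Ioo (φ - 1) (φ + 1))
    (Ioo_mem_nhds (by linarith) (by linarith)) ?_ ?_ ?_ ?_ ?_ ?_).2
  · exact Filter.Eventually.of_forall fun u => (h1 u).aestronglyMeasurable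
  · exact (h1 φ).intervalIntegrable a b
  · exact (h1' φ).aestronglyMeasurable
  · refine Filter.Eventually.of_forall fun x hx u hu => ?_
    exact hC (u, x) ⟨⟨hu.1.le, hu.2.le⟩, uIoc_subset_uIcc hx⟩
  · exact intervalIntegrable_const
  · exact Filter.Eventually.of_forall fun x _ u _ => hd u x

theorem param2_w (F F' : ℝ → ℝ → ℝ → ℝ) (hF : Continuous (fun p : ℝ × ℝ × ℝ => F p.1 p.2.1 p.2.2))
    (hF' : Continuous (fun p : ℝ × ℝ × ℝ => F' p.1 p.2.1 p.2.2))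
    (hd : ∀ u x y, HasDerivAt (fun v => F v x y) (F' u x y) u) (a b c d φ : ℝ) :
    HasDerivAt (fun u => ∫ x in a..b, ∫ y in c..d, F u x y)
      (∫ x in a..b, ∫ y in c..d, F' φ x y) φ := by
  apply param_w (fun u x => ∫ y in c..d, F u x y) (fun u x => ∫ y in c..d, F' u x y)
  · have := intervalIntegral.continuous_parametric_intervalIntegral_of_continuous'
      (f := fun (p : ℝ × ℝ) (y : ℝ) => F p.1 p.2 y) (μ := volume)
      (by
        have e : Function.uncurry (fun (p : ℝ × ℝ) (y : ℝ) => F p.1 p.2 y) =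
          (fun p : ℝ × ℝ × ℝ => F p.1 p.2.1 p.2.2) ∘ (fun q : (ℝ × ℝ) × ℝ => (q.1.1, q.1.2, q.2)) := rfl
        rw [e]
        exact hF.comp (by fun_prop)) c d
    exact this
  · have := intervalIntegral.continuous_parametric_intervalIntegral_of_continuous'
      (f := fun (p : ℝ × ℝ) (y : ℝ) => F' p.1 p.2 y) (μ := volume)
      (by
        have e : Function.uncurry (fun (p : ℝ × ℝ) (y : ℝ) => F' p.1 p.2 y) =
          (fun p : ℝ × ℝ × ℝ => F' p.1 p.2.1 p.2.2) ∘ (fun q : (ℝ × ℝ) × ℝ => (q.1.1, q.1.2, q.2)) := rfl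
        rw [e]
        exact hF'.comp (by fun_prop)) c d
    exact this
  · intro u x
    apply param_w (fun u y => F u x y) (fun u y => F' u x y)
    · have e : Function.uncurry (fun u y => F u x y) =
        (fun p : ℝ × ℝ × ℝ => F p.1 p.2.1 p.2.2) ∘ (fun q : ℝ × ℝ => (q.1, x, q.2)) := rfl
      rw [e]
      exact hF.comp (by fun_prop)
    · have e : Function.uncurry (fun u y => F' u x y) =
        (fun p : ℝ × ℝ × ℝ => F' p.1 p.2.1 p.2.2) ∘ (fun q : ℝ × ℝ => (q.1, x, q.2)) := rfl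
      rw [e]
      exact hF'.comp (by fun_prop)
    · intro u y
      exact hd u x y

theorem JJ_deriv2 (S : ℂ → ℂ) (R X : ℝ) (hR : 1 < R) (hS : DifferentiableOn ℂ S (Metric.ball 0 R))
    (hX : 0 ≤ X) (q : ℂ → ℝ) (hq : ContDiff ℝ 1 q) (η : ℝ → ℝ → ℝ)
    (hη : ContinuousOn (Function.uncurry η) {r : ℝ × ℝ | 0 ≤ r.1}) (t φ : ℝ) :
    HasDerivAt (fun u => JJ S X q η t u) (JJ S X (d2 q) η t φ) φ := by
  have hSc := (S_cont S R hR hS).1
  have hg : Continuous (fun p : ℝ × ℝ => S (zz (max p.1 0) p.2)) := by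
    have h1 : Continuous (fun p : ℝ × ℝ => ((max p.1 0, p.2) : ℝ × ℝ)) := by fun_prop
    exact hSc.comp_continuous h1 (fun p => le_max_right p.1 0)
  have he : Continuous (fun p : ℝ × ℝ => η (max p.1 0) p.2) := by
    have h1 : Continuous (fun p : ℝ × ℝ => ((max p.1 0, p.2) : ℝ × ℝ)) := by fun_prop
    exact hη.comp_continuous h1 (fun p => le_max_right p.1 0)
  have hpt : Continuous (fun u : ℝ => pt t u) := by
    unfold pt
    fun_prop
  have harg : Continuous (fun p : ℝ × ℝ × ℝ => pt t p.1 - S (zz (max p.2.1 0) p.2.2)) :=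
    (hpt.comp continuous_fst).sub (hg.comp continuous_snd)
  have hee : Continuous (fun p : ℝ × ℝ × ℝ => η (max p.2.1 0) p.2.2) := he.comp continuous_snd
  have hd2 : Continuous (d2 q) := by
    unfold d2
    exact (hq.continuous_fderiv (by norm_num)).clm_apply continuous_const
  have key := param2_w (fun u x θ => q (pt t u - S (zz (max x 0) θ)) * η (max x 0) θ)
    (fun u x θ => d2 q (pt t u - S (zz (max x 0) θ)) * η (max x 0) θ)
    ((hq.continuous.comp harg).mul hee) ((hd2.comp harg).mul hee) (by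
      intro u x θ
      have h1 : HasDerivAt (fun v : ℝ => pt t v - S (zz (max x 0) θ)) Complex.I u := by
        unfold pt
        have h2 := (((Complex.ofRealCLM.hasDerivAt (x := u)).mul_const Complex.I).const_add
          (t : ℂ)).sub_const (S (zz (max x 0) θ))
        simpa using h2
      have h3 := ((hq.differentiable (by norm_num)) (pt t u - S (zz (max x 0) θ))).hasFDerivAt
      have h4 := (h3.comp_hasDerivAt u h1).mul_const (η (max x 0) θ)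
      exact h4) 0 X 0 (2 * Real.pi) φ
  have hcongr : ∀ (q' : ℂ → ℝ) (u : ℝ), JJ S X q' η t u =
      ∫ x in (0:ℝ)..X, ∫ θ in (0:ℝ)..(2 * Real.pi),
        q' (pt t u - S (zz (max x 0) θ)) * η (max x 0) θ := by
    intro q' u
    unfold JJ
    apply intervalIntegral.integral_congr
    intro x hx
    rw [uIcc_of_le hX] at hx
    simp only [max_eq_left hx.1]
  have e1 : (fun u => JJ S X q η t u) = fun u => ∫ x in (0:ℝ)..X, ∫ θ in (0:ℝ)..(2 * Real.pi),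
        q (pt t u - S (zz (max x 0) θ)) * η (max x 0) θ := funext fun u => hcongr q u
  rw [e1, hcongr (d2 q) φ]
  exact key

end

end HW287
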