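import Pool.Agent.Helper287.HW.Base

set_option autoImplicit false
set_option linter.all false

open MeasureTheory Set Filter Topology

namespace HW287

/-! ### Aad -/

section

theorem aad_param (F F' : ℝ → ℝ → ℝ) (ta t c : ℝ) (ht : ta < t)
    (hF : ∀ u, ta < u → Continuous (F u))
    (hF' : ContinuousOn (Function.uncurry F') (Set.Ioi ta ×ˢ univ))
    (hd : ∀ u, ta < u → ∀ φ, HasDerivAt (fun u => F u φ) (F' u φ) u) :
    HasDerivAt (fun u => ∫ φ in (0:ℝ)..c, F u φ) (∫ φ in (0:ℝ)..c, F' t φ) t := by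
  obtain ⟨r, hr⟩ : ∃ r, r = (t - ta) / 2 := ⟨_, rfl⟩
  have hr0 : 0 < r := by rw [hr]; linarith
  have hK : IsCompact (Icc (t - r) (t + r) ×ˢ uIcc 0 c) := isCompact_Icc.prod isCompact_uIcc
  have hsub : Icc (t - r) (t + r) ×ˢ uIcc 0 c ⊆ Set.Ioi ta ×ˢ univ := by
    rintro ⟨u, φ⟩ ⟨hu, _⟩
    refine ⟨?_, mem_univ _⟩
    have hu1 : t - r ≤ u := hu.1
    show ta < u
    rw [hr] at hu1
    linarith
  obtain ⟨C, hC⟩ := hK.exists_bound_of_continuousOn (hF'.mono hsub)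
  have hFt : ∀ u, ta < u → Continuous (F' u) := by
    intro u hu
    have h1 : Continuous (fun φ : ℝ => (u, φ)) := by fun_prop
    have h2 : ContinuousOn (fun φ : ℝ => Function.uncurry F' (u, φ)) univ :=
      hF'.comp h1.continuousOn (fun φ _ => ⟨hu, mem_univ _⟩)
    exact continuousOn_univ.1 h2
  have hev : Ioi ta ∈ 𝓝 t := Ioi_mem_nhds ht
  refine (intervalIntegral.hasDerivAt_integral_of_dominated_loc_of_deriv_le
    (F := F) (F' := F') (s := Icc (t - r) (t + r)) (bound := fun _ => C)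
    (Icc_mem_nhds (by linarith) (by linarith)) ?_ ((hF t ht).intervalIntegrable _ _)
    (hFt t ht).aestronglyMeasurable ?_ intervalIntegrable_const ?_).2
  · filter_upwards [hev] with u hu
    exact (hF u hu).aestronglyMeasurable
  · refine Filter.Eventually.of_forall fun φ hφ u hu => ?_
    exact hC (u, φ) ⟨hu, uIoc_subset_uIcc hφ⟩
  · refine Filter.Eventually.of_forall fun φ hφ u hu => ?_
    exact hd u (hsub (a := (u, φ)) ⟨hu, uIoc_subset_uIcc hφ⟩).1 φ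

theorem AA_deriv (G G1 G2 G11 G22 : ℝ → ℝ → ℝ) (ta : ℝ) (F : Fam G G1 G2 G11 G22 ta)
    (t : ℝ) (ht : ta < t) : HasDerivAt (AA G) (AA1 G G1 t) t := by
  refine aad_param (fun t φ => G t φ ^ (4/3 : ℝ)) (fun t φ => (4/3) * G t φ ^ (1/3 : ℝ) * G1 t φ)
    ta t _ ht ?_ ?_ ?_
  · intro u hu
    have h1 : Continuous (G u) := F.c0.comp (by fun_prop : Continuous fun φ : ℝ => (u, φ))
    exact h1.rpow_const fun φ => Or.inl (F.pos u φ hu.le).ne'
  · have h1 : ContinuousOn (Function.uncurry G) (Set.Ioi ta ×ˢ univ) := F.c0.continuousOn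
    have h2 : ContinuousOn (Function.uncurry G1) (Set.Ioi ta ×ˢ univ) := F.c1.continuousOn
    exact (continuousOn_const.mul (h1.rpow_const fun x hx =>
      Or.inl (F.pos x.1 x.2 (le_of_lt hx.1)).ne')).mul h2
  · intro u hu φ
    have h1 := (F.e1 u φ hu.le).rpow_const (p := 4/3) (Or.inl (F.pos u φ hu.le).ne')
    convert h1 using 1
    rw [show (4/3 : ℝ) - 1 = 1/3 by norm_num]
    ring

theorem AA1_deriv (G G1 G2 G11 G22 : ℝ → ℝ → ℝ) (ta : ℝ) (F : Fam G G1 G2 G11 G22 ta)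
    (t : ℝ) (ht : ta < t) : HasDerivAt (AA1 G G1) (AA2 G G1 G11 t) t := by
  refine aad_param (fun t φ => (4/3) * G t φ ^ (1/3 : ℝ) * G1 t φ)
    (fun t φ => (4/3) * G t φ ^ (1/3 : ℝ) * G11 t φ
    + (4/9) * G t φ ^ (-(2/3) : ℝ) * G1 t φ ^ 2)
    ta t _ ht ?_ ?_ ?_
  · intro u hu
    have h1 : Continuous (G u) := F.c0.comp (by fun_prop : Continuous fun φ : ℝ => (u, φ))
    have h2 : Continuous (G1 u) := F.c1.comp (by fun_prop : Continuous fun φ : ℝ => (u, φ))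
    exact (continuous_const.mul (h1.rpow_const fun φ => Or.inl (F.pos u φ hu.le).ne')).mul h2
  · have h1 : ContinuousOn (Function.uncurry G) (Set.Ioi ta ×ˢ univ) := F.c0.continuousOn
    have h2 : ContinuousOn (Function.uncurry G1) (Set.Ioi ta ×ˢ univ) := F.c1.continuousOn
    have h3 : ContinuousOn (Function.uncurry G11) (Set.Ioi ta ×ˢ univ) := F.c11.continuousOn
    exact ((continuousOn_const.mul (h1.rpow_const fun x hx =>
      Or.inl (F.pos x.1 x.2 (le_of_lt hx.1)).ne')).mul h3).add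
      ((continuousOn_const.mul (h1.rpow_const fun x hx =>
      Or.inl (F.pos x.1 x.2 (le_of_lt hx.1)).ne')).mul (h2.pow 2))
  · intro u hu φ
    have h1 := (F.e1 u φ hu.le).rpow_const (p := 1/3) (Or.inl (F.pos u φ hu.le).ne')
    have h2 := (h1.const_mul (4/3 : ℝ)).mul (F.e11 u φ hu.le)
    refine HasDerivAt.congr_deriv h2 ?_
    rw [show (1/3 : ℝ) - 1 = -(2/3) by norm_num]
    ring

end

/-! ### Aa2 -/

section

theorem AA2_eq (G G1 G2 G11 G22 : ℝ → ℝ → ℝ) (ta : ℝ) (F : Fam G G1 G2 G11 G22 ta)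
    (t : ℝ) (ht : ta ≤ t) : AA2 G G1 G11 t =
      ∫ φ in (0:ℝ)..(2 * Real.pi), ((4/3) * G t φ ^ (1/3 : ℝ) * (G11 t φ + G22 t φ)
        + ((2/3) * G t φ ^ (-(1/3) : ℝ) * G2 t φ) ^ 2
        + ((2/3) * G t φ ^ (-(1/3) : ℝ) * G1 t φ) ^ 2) := by
  have hc0 : Continuous fun φ => G t φ := F.c0.comp (by fun_prop : Continuous fun φ : ℝ => (t, φ))
  have hc1 : Continuous fun φ => G1 t φ := F.c1.comp (by fun_prop : Continuous fun φ : ℝ => (t, φ))
  have hc2 : Continuous fun φ => G2 t φ := F.c2.comp (by fun_prop : Continuous fun φ : ℝ => (t, φ))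
  have hc11 : Continuous fun φ => G11 t φ :=
    F.c11.comp (by fun_prop : Continuous fun φ : ℝ => (t, φ))
  have hc22 : Continuous fun φ => G22 t φ :=
    F.c22.comp (by fun_prop : Continuous fun φ : ℝ => (t, φ))
  have hp : ∀ φ, 0 < G t φ := fun φ => F.pos t φ ht
  have hr : ∀ r : ℝ, Continuous fun φ => G t φ ^ r := fun r =>
    hc0.rpow_const fun φ => Or.inl (hp φ).ne'
  have hsq : ∀ φ, (G t φ ^ (-(1/3) : ℝ)) ^ 2 = G t φ ^ (-(2/3) : ℝ) := by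
    intro φ
    rw [← Real.rpow_natCast, ← Real.rpow_mul (hp φ).le]
    congr 1
    norm_num
  obtain ⟨D, hD⟩ : ∃ D : ℝ → ℝ, ∀ φ, D φ = (4/9) * G t φ ^ (-(2/3) : ℝ) * G2 t φ ^ 2
      + (4/3) * G t φ ^ (1/3 : ℝ) * G22 t φ := ⟨_, fun _ => rfl⟩
  have hDe : D = fun φ => (4/9) * G t φ ^ (-(2/3) : ℝ) * G2 t φ ^ 2
      + (4/3) * G t φ ^ (1/3 : ℝ) * G22 t φ := funext hD
  have hDc : Continuous D := by
    rw [hDe]
    exact ((continuous_const.mul (hr _)).mul (hc2.pow 2)).add ((continuous_const.mul (hr _)).mul hc22)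
  have hderiv : ∀ φ, HasDerivAt (fun φ => (4/3) * G t φ ^ (1/3 : ℝ) * G2 t φ) (D φ) φ := by
    intro φ
    have h1 : HasDerivAt (fun u => G t u ^ (1/3 : ℝ)) (G2 t φ * (1/3 : ℝ) * G t φ ^ ((1/3 : ℝ) - 1)) φ :=
      (F.e2 t φ ht).rpow_const (Or.inl (hp φ).ne')
    have h2 := ((h1.const_mul (4/3 : ℝ)).mul (F.e22 t φ ht))
    refine h2.congr_deriv ?_
    rw [hD]
    have e : (1/3 : ℝ) - 1 = -(2/3) := by norm_num
    rw [e]
    ring
  have hint : ∫ φ in (0:ℝ)..(2 * Real.pi), D φ = 0 := by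
    rw [intervalIntegral.integral_eq_sub_of_hasDerivAt (fun φ _ => hderiv φ)
      (hDc.intervalIntegrable _ _)]
    have e1 := F.per t 0
    have e2 := F.per2 t 0
    rw [zero_add] at e1 e2
    rw [e1, e2]
    ring
  obtain ⟨E, hE⟩ : ∃ E : ℝ → ℝ, ∀ φ, E φ = ((4/3) * G t φ ^ (1/3 : ℝ) * G11 t φ
    + (4/9) * G t φ ^ (-(2/3) : ℝ) * G1 t φ ^ 2) := ⟨_, fun _ => rfl⟩
  have hEe : E = fun φ => ((4/3) * G t φ ^ (1/3 : ℝ) * G11 t φ
    + (4/9) * G t φ ^ (-(2/3) : ℝ) * G1 t φ ^ 2) := funext hE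
  have hEc : Continuous E := by
    rw [hEe]
    exact ((continuous_const.mul (hr _)).mul hc11).add ((continuous_const.mul (hr _)).mul (hc1.pow 2))
  have hAA : AA2 G G1 G11 t = ∫ φ in (0:ℝ)..(2 * Real.pi), E φ := by
    unfold AA2
    rw [hEe]
  rw [hAA]
  have hR : ∀ φ, ((4/3) * G t φ ^ (1/3 : ℝ) * (G11 t φ + G22 t φ)
        + ((2/3) * G t φ ^ (-(1/3) : ℝ) * G2 t φ) ^ 2
        + ((2/3) * G t φ ^ (-(1/3) : ℝ) * G1 t φ) ^ 2) = E φ + D φ := by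
    intro φ
    rw [hE, hD, ← hsq φ]
    ring
  rw [intervalIntegral.integral_congr (g := fun φ => E φ + D φ) (fun φ _ => hR φ),
    intervalIntegral.integral_add (hEc.intervalIntegrable _ _) (hDc.intervalIntegrable _ _), hint,
    add_zero]

end

/-! ### Ci1 -/

section

/-- the auxiliary solution of the Riccati equation -/
theorem CI_one_q (β p : ℝ) (hβ : 0 < β) (hβ2 : β < 1/2) : ∃ q : ℝ → ℝ,
    (∀ φ ∈ Icc p (p + 2 * Real.pi), HasDerivAt q (-β ^ 2 - q φ ^ 2) φ) ∧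
    (∀ φ ∈ Icc p (p + 2 * Real.pi), q φ ^ 2 ≤ (β * Real.tan (β * Real.pi)) ^ 2) ∧
    q p = β * Real.tan (β * Real.pi) ∧ q (p + 2 * Real.pi) = -(β * Real.tan (β * Real.pi)) := by
  have hπ := Real.pi_pos
  have hx : ∀ φ ∈ Icc p (p + 2 * Real.pi), -(β * Real.pi) ≤ β * (φ - p - Real.pi) ∧
      β * (φ - p - Real.pi) ≤ β * Real.pi := by
    intro φ hφ
    constructor
    · have : -Real.pi ≤ φ - p - Real.pi := by linarith [hφ.1]
      nlinarith
    · have : φ - p - Real.pi ≤ Real.pi := by linarith [hφ.2]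
      exact mul_le_mul_of_nonneg_left this hβ.le
  have hβπ : β * Real.pi < Real.pi / 2 := by nlinarith
  have hβπ0 : 0 < β * Real.pi := by positivity
  refine ⟨fun φ => -(β * Real.tan (β * (φ - p - Real.pi))), ?_, ?_, ?_, ?_⟩
  · intro φ hφ
    obtain ⟨h1, h2⟩ := hx φ hφ
    have hc : 0 < Real.cos (β * (φ - p - Real.pi)) :=
      Real.cos_pos_of_mem_Ioo ⟨by linarith, by linarith⟩
    have hin : HasDerivAt (fun φ => β * (φ - p - Real.pi)) (β * 1) φ :=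
      (((hasDerivAt_id φ).sub_const p).sub_const Real.pi).const_mul β
    have h3 := ((Real.hasDerivAt_tan hc.ne').comp φ hin).const_mul β |>.neg
    refine h3.congr_deriv ?_
    show -(β * (1 / Real.cos (β * (φ - p - Real.pi)) ^ 2 * (β * 1))) =
      -β ^ 2 - (-(β * Real.tan (β * (φ - p - Real.pi)))) ^ 2
    rw [Real.tan_eq_sin_div_cos]
    have h4 := Real.sin_sq_add_cos_sq (β * (φ - p - Real.pi))
    field_simp
    linear_combination h4
  · intro φ hφ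
    obtain ⟨h1, h2⟩ := hx φ hφ
    show (-(β * Real.tan (β * (φ - p - Real.pi)))) ^ 2 ≤ (β * Real.tan (β * Real.pi)) ^ 2
    rw [neg_sq, mul_pow, mul_pow]
    apply mul_le_mul_of_nonneg_left _ (sq_nonneg β)
    have hm := Real.strictMonoOn_tan.monotoneOn
    have m1 : Real.tan (β * (φ - p - Real.pi)) ≤ Real.tan (β * Real.pi) :=
      hm ⟨by linarith, by linarith⟩ ⟨by linarith, by linarith⟩ h2
    have m2 : Real.tan (-(β * Real.pi)) ≤ Real.tan (β * (φ - p - Real.pi)) :=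
      hm ⟨by linarith, by linarith⟩ ⟨by linarith, by linarith⟩ h1
    rw [Real.tan_neg] at m2
    exact sq_le_sq' m2 m1
  · show -(β * Real.tan (β * (p - p - Real.pi))) = _
    have : β * (p - p - Real.pi) = -(β * Real.pi) := by ring
    rw [this, Real.tan_neg]
    ring
  · show -(β * Real.tan (β * (p + 2 * Real.pi - p - Real.pi))) = _
    have : β * (p + 2 * Real.pi - p - Real.pi) = β * Real.pi := by ring
    rw [this]

theorem CI_one (Y Y' Z W : ℝ → ℝ) (hY : ∀ φ, HasDerivAt Y (Y' φ) φ) (hY' : Continuous Y')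
    (hZ : Continuous Z) (hW : Continuous W) (pY : ∀ φ, Y (φ + 2 * Real.pi) = Y φ)
    (pZ : ∀ φ, Z (φ + 2 * Real.pi) = Z φ) (pW : ∀ φ, W (φ + 2 * Real.pi) = W φ)
    (hge : ∀ φ, Y' φ ^ 2 + Z φ ^ 2 ≤ W φ) (c δ Λ b β : ℝ) (hδ : 0 < δ) (hδ1 : δ ≤ 1)
    (hwall : ∀ φ, |φ - c| ≤ δ → Λ * Y φ ^ 2 ≤ W φ) (hβ : 0 < β) (hβ2 : β < 1/2)
    (hΛ : 4 * (β * Real.tan (β * Real.pi))
      ≤ (Λ - 2 * b ^ 2 - 2 * (β * Real.tan (β * Real.pi)) ^ 2) * (2 * δ)) :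
    4 * b * (∫ φ in (0:ℝ)..(2 * Real.pi), Y φ * Z φ)
      - 2 * b ^ 2 * (∫ φ in (0:ℝ)..(2 * Real.pi), Y φ ^ 2)
      + 2 * β ^ 2 * (∫ φ in (0:ℝ)..(2 * Real.pi), Y φ ^ 2)
      ≤ ∫ φ in (0:ℝ)..(2 * Real.pi), (W φ + Y' φ ^ 2 + Z φ ^ 2) := by
  have hπ := Real.pi_pos
  have hπ3 := Real.pi_gt_three
  have cY : Continuous Y := continuous_iff_continuousAt.2 fun φ => (hY φ).continuousAt
  have pY' : ∀ φ, Y' (φ + 2 * Real.pi) = Y' φ := by
    intro φ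
    have h1 : HasDerivAt (fun x => Y (x + 2 * Real.pi)) (Y' (φ + 2 * Real.pi)) φ :=
      (hY (φ + 2 * Real.pi)).comp_add_const φ (2 * Real.pi)
    have h2 : (fun x => Y (x + 2 * Real.pi)) = Y := funext pY
    rw [h2] at h1
    exact h1.unique (hY φ)
  obtain ⟨Q, hQ⟩ : ∃ Q, Q = β * Real.tan (β * Real.pi) := ⟨_, rfl⟩
  have hβπ : β * Real.pi < Real.pi / 2 := by nlinarith
  have hβπ0 : 0 < β * Real.pi := by positivity
  have hQ0 : 0 < Q := by
    rw [hQ]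
    exact mul_pos hβ (Real.tan_pos_of_pos_of_lt_pi_div_two hβπ0 hβπ)
  -- the point of minimum
  obtain ⟨p, hp, hmin⟩ := (isCompact_Icc (a := c - δ) (b := c + δ)).exists_isMinOn
    ⟨c, by linarith, by linarith⟩ ((cY.pow 2).continuousOn)
  have hmin' : ∀ x ∈ Icc (c - δ) (c + δ), Y p ^ 2 ≤ Y x ^ 2 := fun x hx => hmin hx
  obtain ⟨q, hq, hqQ, hqp, hqe⟩ := CI_one_q β p hβ hβ2
  rw [← hQ] at hqQ hqp hqe hΛ
  have hcq : ContinuousOn q (Icc p (p + 2 * Real.pi)) := fun φ hφ =>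
    (hq φ hφ).continuousAt.continuousWithinAt
  have hpe : p ≤ p + 2 * Real.pi := by linarith
  -- periodicity
  have per : ∀ f : ℝ → ℝ, (∀ φ, f (φ + 2 * Real.pi) = f φ) →
      ∫ φ in (0:ℝ)..(2 * Real.pi), f φ = ∫ φ in p..(p + 2 * Real.pi), f φ := by
    intro f hf
    have h := Function.Periodic.intervalIntegral_add_eq (f := f) (T := 2 * Real.pi) hf 0 p
    rw [zero_add] at h
    exact h
  rw [per (fun φ => Y φ * Z φ) (fun φ => by rw [pY, pZ]), per (fun φ => Y φ ^ 2) (fun φ => by rw [pY]),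
    per (fun φ => W φ + Y' φ ^ 2 + Z φ ^ 2) (fun φ => by rw [pW, pY', pZ])]
  -- the total derivative
  obtain ⟨F', hF'⟩ : ∃ F' : ℝ → ℝ, F' = fun φ =>
    2 * ((-β ^ 2 - q φ ^ 2) * Y φ ^ 2 + q φ * (2 * Y φ * Y' φ)) := ⟨_, rfl⟩
  have cF' : ContinuousOn F' (Icc p (p + 2 * Real.pi)) := by
    rw [hF']
    have c1 := cY.continuousOn (s := Icc p (p + 2 * Real.pi))
    have c2 := hY'.continuousOn (s := Icc p (p + 2 * Real.pi))
    fun_prop
  have iF' : IntervalIntegrable F' volume p (p + 2 * Real.pi) := by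
    apply ContinuousOn.intervalIntegrable
    rw [uIcc_of_le hpe]
    exact cF'
  have hFTC : ∫ φ in p..(p + 2 * Real.pi), F' φ = -(4 * Q * Y p ^ 2) := by
    have h1 : ∀ x ∈ uIcc p (p + 2 * Real.pi), HasDerivAt (fun φ => 2 * (q φ * Y φ ^ 2)) (F' x) x := by
      intro x hx
      rw [uIcc_of_le hpe] at hx
      have h2 := ((hq x hx).mul ((hY x).pow 2)).const_mul 2
      refine h2.congr_deriv ?_
      rw [hF']
      simp
    rw [intervalIntegral.integral_eq_sub_of_hasDerivAt h1 iF', hqp, hqe, pY]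
    ring
  obtain ⟨E, hE⟩ : ∃ E : ℝ → ℝ, E = fun φ => W φ + Y' φ ^ 2 + Z φ ^ 2 - F' φ -
    (2 * β ^ 2 * Y φ ^ 2 + 4 * b * (Y φ * Z φ) - 2 * b ^ 2 * Y φ ^ 2) := ⟨_, rfl⟩
  have cE : ContinuousOn E (Icc p (p + 2 * Real.pi)) := by
    rw [hE]
    have c1 := cY.continuousOn (s := Icc p (p + 2 * Real.pi))
    have c2 := hY'.continuousOn (s := Icc p (p + 2 * Real.pi))
    have c3 := hZ.continuousOn (s := Icc p (p + 2 * Real.pi))
    have c4 := hW.continuousOn (s := Icc p (p + 2 * Real.pi))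
    fun_prop
  have iE : ∀ u v, u ∈ Icc p (p + 2 * Real.pi) → v ∈ Icc p (p + 2 * Real.pi) →
      IntervalIntegrable E volume u v := by
    intro u v hu hv
    apply ContinuousOn.intervalIntegrable
    exact cE.mono (uIcc_subset_Icc hu hv)
  have iY2 : IntervalIntegrable (fun φ => Y φ ^ 2) volume p (p + 2 * Real.pi) :=
    (cY.pow 2).intervalIntegrable _ _
  have iYZ : IntervalIntegrable (fun φ => Y φ * Z φ) volume p (p + 2 * Real.pi) :=
    (cY.mul hZ).intervalIntegrable _ _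
  -- decomposition
  have hdec : ∫ φ in p..(p + 2 * Real.pi), (W φ + Y' φ ^ 2 + Z φ ^ 2) =
      (∫ φ in p..(p + 2 * Real.pi), E φ) + (∫ φ in p..(p + 2 * Real.pi), F' φ) +
      (2 * β ^ 2 * (∫ φ in p..(p + 2 * Real.pi), Y φ ^ 2) +
        4 * b * (∫ φ in p..(p + 2 * Real.pi), Y φ * Z φ) -
        2 * b ^ 2 * ∫ φ in p..(p + 2 * Real.pi), Y φ ^ 2) := by
    have i1 := iE p (p + 2 * Real.pi) ⟨le_refl _, hpe⟩ ⟨hpe, le_refl _⟩
    have i2 : IntervalIntegrable (fun φ => 2 * β ^ 2 * Y φ ^ 2) volume p (p + 2 * Real.pi) :=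
      iY2.const_mul _
    have i3 : IntervalIntegrable (fun φ => 4 * b * (Y φ * Z φ)) volume p (p + 2 * Real.pi) :=
      iYZ.const_mul _
    have i4 : IntervalIntegrable (fun φ => 2 * b ^ 2 * Y φ ^ 2) volume p (p + 2 * Real.pi) :=
      iY2.const_mul _
    have i5 : IntervalIntegrable (fun φ => 2 * β ^ 2 * Y φ ^ 2 + 4 * b * (Y φ * Z φ)) volume p
      (p + 2 * Real.pi) := i2.add i3
    have i6 : IntervalIntegrable (fun φ => 2 * β ^ 2 * Y φ ^ 2 + 4 * b * (Y φ * Z φ) -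
      2 * b ^ 2 * Y φ ^ 2) volume p (p + 2 * Real.pi) := i5.sub i4
    have i7 : IntervalIntegrable (fun φ => E φ + F' φ) volume p (p + 2 * Real.pi) := i1.add iF'
    rw [← intervalIntegral.integral_const_mul, ← intervalIntegral.integral_const_mul,
      ← intervalIntegral.integral_const_mul, ← intervalIntegral.integral_add i2 i3,
      ← intervalIntegral.integral_sub i5 i4, ← intervalIntegral.integral_add i1 iF',
      ← intervalIntegral.integral_add i7 i6]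
    apply intervalIntegral.integral_congr
    intro φ _
    show W φ + Y' φ ^ 2 + Z φ ^ 2 = E φ + F' φ + (2 * β ^ 2 * Y φ ^ 2 + 4 * b * (Y φ * Z φ) -
      2 * b ^ 2 * Y φ ^ 2)
    rw [hE]
    ring
  rw [hdec, hFTC]
  obtain ⟨K, hK⟩ : ∃ K, K = Λ - 2 * b ^ 2 - 2 * Q ^ 2 := ⟨_, rfl⟩
  rw [← hK] at hΛ
  have hK0 : 0 ≤ K := by
    by_contra h
    push Not at h
    have : K * (2 * δ) < 0 := mul_neg_of_neg_of_pos h (by linarith)
    linarith
  have hE0 : ∀ φ, 0 ≤ E φ := by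
    intro φ
    have h1 := hge φ
    rw [hE, hF']
    have h2 := sq_nonneg (Y' φ - q φ * Y φ)
    have h3 := sq_nonneg (Z φ - b * Y φ)
    show 0 ≤ W φ + Y' φ ^ 2 + Z φ ^ 2 - 2 * ((-β ^ 2 - q φ ^ 2) * Y φ ^ 2 + q φ * (2 * Y φ * Y' φ)) -
      (2 * β ^ 2 * Y φ ^ 2 + 4 * b * (Y φ * Z φ) - 2 * b ^ 2 * Y φ ^ 2)
    nlinarith
  have hEK : ∀ φ ∈ Icc p (p + 2 * Real.pi), Λ * Y φ ^ 2 ≤ W φ → Y p ^ 2 ≤ Y φ ^ 2 →
      K * Y p ^ 2 ≤ E φ := by
    intro φ hφ h1 h5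
    have h4 := hqQ φ hφ
    have h2 := sq_nonneg (Y' φ - 2 * q φ * Y φ)
    have h3 := sq_nonneg (Z φ - 2 * b * Y φ)
    have h6 : K * Y p ^ 2 ≤ K * Y φ ^ 2 := mul_le_mul_of_nonneg_left h5 hK0
    have h7 : q φ ^ 2 * Y φ ^ 2 ≤ Q ^ 2 * Y φ ^ 2 := mul_le_mul_of_nonneg_right h4 (sq_nonneg _)
    refine h6.trans ?_
    rw [hE, hF', hK]
    show (Λ - 2 * b ^ 2 - 2 * Q ^ 2) * Y φ ^ 2 ≤ W φ + Y' φ ^ 2 + Z φ ^ 2 -
      2 * ((-β ^ 2 - q φ ^ 2) * Y φ ^ 2 + q φ * (2 * Y φ * Y' φ)) -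
      (2 * β ^ 2 * Y φ ^ 2 + 4 * b * (Y φ * Z φ) - 2 * b ^ 2 * Y φ ^ 2)
    nlinarith
  have m1 : c + δ ∈ Icc p (p + 2 * Real.pi) := ⟨hp.2, by linarith [hp.1]⟩
  have m2 : c - δ + 2 * Real.pi ∈ Icc p (p + 2 * Real.pi) := ⟨by linarith [hp.2], by linarith [hp.1]⟩
  have m0 : p ∈ Icc p (p + 2 * Real.pi) := ⟨le_refl _, hpe⟩
  have m3 : p + 2 * Real.pi ∈ Icc p (p + 2 * Real.pi) := ⟨hpe, le_refl _⟩
  have hsplit : ∫ φ in p..(p + 2 * Real.pi), E φ = (∫ φ in p..(c + δ), E φ) +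
      (∫ φ in (c + δ)..(c - δ + 2 * Real.pi), E φ) +
      ∫ φ in (c - δ + 2 * Real.pi)..(p + 2 * Real.pi), E φ := by
    rw [intervalIntegral.integral_add_adjacent_intervals (iE _ _ m0 m1) (iE _ _ m1 m2),
      intervalIntegral.integral_add_adjacent_intervals (iE _ _ m0 m2) (iE _ _ m2 m3)]
  have g1 : K * Y p ^ 2 * (c + δ - p) ≤ ∫ φ in p..(c + δ), E φ := by
    have h1 := intervalIntegral.integral_mono_on (f := fun _ => K * Y p ^ 2) (g := E) hp.2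
      intervalIntegrable_const (iE _ _ m0 m1) (fun φ hφ => by
        apply hEK φ ⟨hφ.1, by linarith [hφ.2, hp.1]⟩
        · apply hwall
          rw [abs_le]
          exact ⟨by linarith [hφ.1, hp.1], by linarith [hφ.2]⟩
        · exact hmin' φ ⟨by linarith [hφ.1, hp.1], hφ.2⟩)
    rw [intervalIntegral.integral_const, smul_eq_mul] at h1
    linarith
  have g2 : 0 ≤ ∫ φ in (c + δ)..(c - δ + 2 * Real.pi), E φ :=
    intervalIntegral.integral_nonneg (by linarith) (fun φ _ => hE0 φ)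
  have g3 : K * Y p ^ 2 * (p - (c - δ)) ≤
      ∫ φ in (c - δ + 2 * Real.pi)..(p + 2 * Real.pi), E φ := by
    have h1 := intervalIntegral.integral_mono_on (f := fun _ => K * Y p ^ 2) (g := E)
      (a := c - δ + 2 * Real.pi) (b := p + 2 * Real.pi) (by linarith [hp.1])
      intervalIntegrable_const (iE _ _ m2 m3) (fun φ hφ => by
        have e1 : Y φ = Y (φ - 2 * Real.pi) := by
          rw [← pY (φ - 2 * Real.pi)]; congr 1; ring
        have e2 : W φ = W (φ - 2 * Real.pi) := by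
          rw [← pW (φ - 2 * Real.pi)]; congr 1; ring
        apply hEK φ ⟨by linarith [hφ.1, hp.2], hφ.2⟩
        · rw [e1, e2]
          apply hwall
          rw [abs_le]
          exact ⟨by linarith [hφ.1], by linarith [hφ.2, hp.2]⟩
        · rw [e1]
          exact hmin' _ ⟨by linarith [hφ.1], by linarith [hφ.2, hp.2]⟩)
    rw [intervalIntegral.integral_const, smul_eq_mul] at h1
    linarith
  have g4 : 4 * Q * Y p ^ 2 ≤ K * Y p ^ 2 * (2 * δ) := by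
    have := mul_le_mul_of_nonneg_right hΛ (sq_nonneg (Y p))
    linarith
  rw [hsplit]
  have g5 : K * Y p ^ 2 * (c + δ - p) + K * Y p ^ 2 * (p - (c - δ)) = K * Y p ^ 2 * (2 * δ) := by
    ring
  linarith

end

/-! ### Ci2 -/

section

lemma CI_two_tan (l x : ℝ) (hl : 0 < l) (hl' : l ≤ Real.pi) (hx : |x| ≤ Real.pi/2 - l/4) :
    |-(1/2) * Real.tan x| ≤ 2/l ∧ Real.cos x ≠ 0 := by
  have hpi := Real.pi_pos
  have hx1 := abs_le.1 hx
  have hlt : x < Real.pi/2 := by linarith [hx1.2]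
  have hgt : -(Real.pi/2) < x := by linarith [hx1.1]
  have hcos : 0 < Real.cos x := Real.cos_pos_of_mem_Ioo ⟨hgt, hlt⟩
  refine ⟨?_, hcos.ne'⟩
  have hy : l/4 < Real.tan (l/4) := Real.lt_tan (by linarith) (by linarith)
  have ht : Real.tan (Real.pi/2 - l/4) = (Real.tan (l/4))⁻¹ := Real.tan_pi_div_two_sub _
  have ht2 : (Real.tan (l/4))⁻¹ ≤ 4/l := by
    have h3 : (Real.tan (l/4))⁻¹ ≤ (l/4)⁻¹ := inv_anti₀ (by linarith) hy.le
    rwa [inv_div] at h3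
  have hub : Real.tan x ≤ Real.tan (Real.pi/2 - l/4) :=
    Real.strictMonoOn_tan.monotoneOn ⟨hgt, hlt⟩ ⟨by linarith, by linarith⟩ hx1.2
  have hlb : Real.tan (-(Real.pi/2 - l/4)) ≤ Real.tan x :=
    Real.strictMonoOn_tan.monotoneOn ⟨by linarith, by linarith⟩ ⟨hgt, hlt⟩ (by linarith [hx1.1])
  rw [Real.tan_neg] at hlb
  have h5 : |Real.tan x| ≤ 4/l := abs_le.2 ⟨by linarith, by linarith⟩
  have e : 2/l = 1/2 * (4/l) := by ring
  have e2 : |-(1/2) * Real.tan x| = 1/2 * |Real.tan x| := by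
    rw [abs_mul, abs_neg, abs_of_pos (by norm_num : (0:ℝ) < 1/2)]
  rw [e, e2]; linarith

lemma CI_two_seg (Y Y' Z W q : ℝ → ℝ) (b c u v : ℝ) (hY : ∀ φ, HasDerivAt Y (Y' φ) φ)
    (hY' : Continuous Y') (hZ : Continuous Z) (hW : Continuous W) (huv : u ≤ v)
    (hq : ∀ φ ∈ Icc u v, HasDerivAt q (-(1/4) - q φ ^ 2) φ)
    (hp : ∀ φ ∈ Icc u v, 4 * q φ * Y φ * Y' φ - 2 * q φ ^ 2 * Y φ ^ 2 + 4 * b * Y φ * Z φ
      - 2 * b^2 * Y φ ^ 2 + c ≤ W φ + Y' φ ^ 2 + Z φ ^ 2) :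
    2 * (q v * Y v ^ 2 - q u * Y u ^ 2) + c * (v - u) ≤
      ∫ φ in u..v, (W φ + Y' φ ^ 2 + Z φ ^ 2
        - ((1/2) * Y φ ^ 2 + 4 * b * (Y φ * Z φ) - 2 * b ^ 2 * Y φ ^ 2)) := by
  have hYc : Continuous Y := continuous_iff_continuousAt.2 fun x => (hY x).continuousAt
  have hd : ∀ φ ∈ Icc u v, HasDerivAt (fun φ => 2 * (q φ * Y φ ^ 2) + c * φ)
      (2 * ((-(1/4) - q φ ^ 2) * Y φ ^ 2 + q φ * (2 * Y φ * Y' φ)) + c) φ := by
    intro φ hφ
    have h1 := (hq φ hφ).mul ((hY φ).pow 2)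
    have h2 := (h1.const_mul 2).add ((hasDerivAt_id φ).const_mul c)
    refine HasDerivAt.congr_deriv (f := fun φ => 2 * (q φ * Y φ ^ 2) + c * φ) h2 ?_
    norm_num
  have h := intervalIntegral.sub_le_integral_of_hasDeriv_right_of_le
    (g := fun φ => 2 * (q φ * Y φ ^ 2) + c * φ)
    (g' := fun φ => 2 * ((-(1/4) - q φ ^ 2) * Y φ ^ 2 + q φ * (2 * Y φ * Y' φ)) + c)
    (φ := fun φ => W φ + Y' φ ^ 2 + Z φ ^ 2
        - ((1/2) * Y φ ^ 2 + 4 * b * (Y φ * Z φ) - 2 * b ^ 2 * Y φ ^ 2)) huv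
    (fun x hx => (hd x hx).continuousAt.continuousWithinAt)
    (fun x hx => (hd x (Ioo_subset_Icc_self hx)).hasDerivWithinAt)
    (Continuous.integrableOn_Icc (by fun_prop))
    (fun x hx => by
      have := hp x (Ioo_subset_Icc_self hx)
      nlinarith)
  nlinarith

theorem CI_two (Y Y' Z W : ℝ → ℝ) (hY : ∀ φ, HasDerivAt Y (Y' φ) φ) (hY' : Continuous Y')
    (hZ : Continuous Z) (hW : Continuous W) (pY : ∀ φ, Y (φ + 2 * Real.pi) = Y φ)
    (pZ : ∀ φ, Z (φ + 2 * Real.pi) = Z φ) (pW : ∀ φ, W (φ + 2 * Real.pi) = W φ)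
    (hge : ∀ φ, Y' φ ^ 2 + Z φ ^ 2 ≤ W φ) (c1 c2 δ Λ b l : ℝ) (hδ : 0 < δ) (hδ1 : δ ≤ 1)
    (hl : 0 < l) (hc : l + 2 * δ ≤ c2 - c1) (hc' : l + 2 * δ ≤ c1 + 2 * Real.pi - c2)
    (hwall : ∀ φ, (|φ - c1| ≤ δ ∨ |φ - c2| ≤ δ) → Λ * Y φ ^ 2 ≤ W φ)
    (hΛ : 4 * (2 / l) ≤ (Λ - 2 * b ^ 2 - 2 * (2 / l) ^ 2) * (2 * δ)) :
    4 * b * (∫ φ in (0:ℝ)..(2 * Real.pi), Y φ * Z φ)
      - 2 * b ^ 2 * (∫ φ in (0:ℝ)..(2 * Real.pi), Y φ ^ 2)
      + 2 * (1/4) * (∫ φ in (0:ℝ)..(2 * Real.pi), Y φ ^ 2)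
      ≤ ∫ φ in (0:ℝ)..(2 * Real.pi), (W φ + Y' φ ^ 2 + Z φ ^ 2) := by
  have hYc : Continuous Y := continuous_iff_continuousAt.2 fun x => (hY x).continuousAt
  have hpi := Real.pi_pos
  have hlpi : l ≤ Real.pi := by linarith
  -- minimisers
  obtain ⟨p1, hp1, hm1⟩ := (isCompact_Icc (a := c1 - δ) (b := c1 + δ)).exists_isMinOn
    ⟨c1, by constructor <;> linarith⟩ (f := fun φ => Y φ ^ 2) (by fun_prop)
  obtain ⟨p2, hp2, hm2⟩ := (isCompact_Icc (a := c2 - δ) (b := c2 + δ)).exists_isMinOn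
    ⟨c2, by constructor <;> linarith⟩ (f := fun φ => Y φ ^ 2) (by fun_prop)
  have hmin1 : ∀ φ, c1 - δ ≤ φ → φ ≤ c1 + δ → Y p1 ^ 2 ≤ Y φ ^ 2 := fun φ h1 h2 => hm1 ⟨h1, h2⟩
  have hmin2 : ∀ φ, c2 - δ ≤ φ → φ ≤ c2 + δ → Y p2 ^ 2 ≤ Y φ ^ 2 := fun φ h1 h2 => hm2 ⟨h1, h2⟩
  obtain ⟨hp1a, hp1b⟩ := hp1
  obtain ⟨hp2a, hp2b⟩ := hp2
  obtain ⟨Q, hQ⟩ : ∃ Q, Q = 2 / l := ⟨_, rfl⟩
  have hQpos : 0 < Q := by rw [hQ]; positivity
  obtain ⟨K, hK⟩ : ∃ K, K = Λ - 2 * b ^ 2 - 2 * Q ^ 2 := ⟨_, rfl⟩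
  rw [← hQ, ← hK] at hΛ
  have hKpos : 0 < K := by
    by_contra hcon
    push Not at hcon
    nlinarith
  -- derivative and bounds of q
  have hq : ∀ m φ, |φ - m| ≤ Real.pi - l/2 →
      HasDerivAt (fun φ => -(1/2) * Real.tan ((φ - m)/2)) (-(1/4) - (-(1/2) * Real.tan ((φ - m)/2)) ^ 2) φ
      ∧ |-(1/2) * Real.tan ((φ - m)/2)| ≤ Q := by
    intro m φ h
    have h' : |(φ - m)/2| ≤ Real.pi/2 - l/4 := by
      rw [abs_div, abs_of_pos (by norm_num : (0:ℝ) < 2)]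
      linarith
    obtain ⟨h1, h2⟩ := CI_two_tan l ((φ - m)/2) hl hlpi h'
    refine ⟨?_, hQ ▸ h1⟩
    have h3 := Real.hasDerivAt_tan h2
    have h4 : HasDerivAt (fun φ => (φ - m)/2) (1/2) φ := ((hasDerivAt_id φ).sub_const m).div_const 2
    have h5 := (h3.comp φ h4).const_mul (-(1/2))
    refine HasDerivAt.congr_deriv (f := fun φ => -(1/2) * Real.tan ((φ - m)/2)) h5 ?_
    rw [Real.tan_eq_sin_div_cos]
    have h6 := Real.sin_sq_add_cos_sq ((φ - m)/2)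
    field_simp
    nlinarith
  -- pointwise
  have hpt0 : ∀ q φ : ℝ, 4 * q * Y φ * Y' φ - 2 * q ^ 2 * Y φ ^ 2 + 4 * b * Y φ * Z φ
      - 2 * b^2 * Y φ ^ 2 + 0 ≤ W φ + Y' φ ^ 2 + Z φ ^ 2 := by
    intro q φ
    have := hge φ
    nlinarith [sq_nonneg (Y' φ - q * Y φ), sq_nonneg (Z φ - b * Y φ)]
  have hpt1 : ∀ q φ M : ℝ, |q| ≤ Q → Λ * Y φ ^ 2 ≤ W φ → M ≤ Y φ ^ 2 →
      4 * q * Y φ * Y' φ - 2 * q ^ 2 * Y φ ^ 2 + 4 * b * Y φ * Z φ
      - 2 * b^2 * Y φ ^ 2 + K * M ≤ W φ + Y' φ ^ 2 + Z φ ^ 2 := by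
    intro q φ M h1 h2 h3
    have h4 : K * M ≤ K * Y φ ^ 2 := mul_le_mul_of_nonneg_left h3 hKpos.le
    have h5 : q ^ 2 ≤ Q ^ 2 := sq_le_sq.2 (by rwa [abs_of_pos hQpos])
    have h6 : q ^ 2 * Y φ ^ 2 ≤ Q ^ 2 * Y φ ^ 2 := mul_le_mul_of_nonneg_right h5 (sq_nonneg _)
    rw [hK] at h4
    rw [hK]
    nlinarith [sq_nonneg (Y' φ - 2 * q * Y φ), sq_nonneg (Z φ - 2 * b * Y φ)]
  obtain ⟨F, hF⟩ : ∃ F : ℝ → ℝ, F = fun φ => W φ + Y' φ ^ 2 + Z φ ^ 2
        - ((1/2) * Y φ ^ 2 + 4 * b * (Y φ * Z φ) - 2 * b ^ 2 * Y φ ^ 2) := ⟨_, rfl⟩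
  have hFc : Continuous F := by rw [hF]; fun_prop
  have hFi : ∀ u v, IntervalIntegrable F volume u v := fun u v => hFc.intervalIntegrable u v
  have pY' : ∀ φ, Y' (φ + 2 * Real.pi) = Y' φ := by
    intro φ
    have h1 : HasDerivAt (fun x => Y (x + 2 * Real.pi)) (Y' (φ + 2 * Real.pi)) φ :=
      (hY (φ + 2 * Real.pi)).comp_add_const φ (2 * Real.pi)
    have h2 : (fun x => Y (x + 2 * Real.pi)) = Y := funext pY
    rw [h2] at h1
    exact h1.unique (hY φ)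
  have hFp : Function.Periodic F (2 * Real.pi) := by
    intro φ
    simp only [hF, pY, pY', pZ, pW]
  have hper : ∫ φ in (0:ℝ)..(2 * Real.pi), F φ = ∫ φ in p1..(p1 + 2 * Real.pi), F φ := by
    have := hFp.intervalIntegral_add_eq 0 p1
    rwa [zero_add] at this
  -- segments
  obtain ⟨m1, hm1d⟩ : ∃ m, m = (p1 + p2)/2 := ⟨_, rfl⟩
  obtain ⟨m2, hm2d⟩ : ∃ m, m = (p2 + (p1 + 2 * Real.pi))/2 := ⟨_, rfl⟩
  have hin1 : ∀ φ, p1 ≤ φ → φ ≤ p2 → |φ - m1| ≤ Real.pi - l/2 := by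
    intro φ h1 h2
    rw [abs_le]; constructor <;> linarith
  have hin2 : ∀ φ, p2 ≤ φ → φ ≤ p1 + 2 * Real.pi → |φ - m2| ≤ Real.pi - l/2 := by
    intro φ h1 h2
    rw [abs_le]; constructor <;> linarith
  obtain ⟨q1, hq1⟩ : ∃ q : ℝ → ℝ, q = fun φ => -(1/2) * Real.tan ((φ - m1)/2) := ⟨_, rfl⟩
  obtain ⟨q2, hq2⟩ : ∃ q : ℝ → ℝ, q = fun φ => -(1/2) * Real.tan ((φ - m2)/2) := ⟨_, rfl⟩
  have hd1 : ∀ φ, p1 ≤ φ → φ ≤ p2 → HasDerivAt q1 (-(1/4) - q1 φ ^ 2) φ ∧ |q1 φ| ≤ Q := by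
    intro φ h1 h2
    rw [hq1]
    exact hq m1 φ (hin1 φ h1 h2)
  have hd2 : ∀ φ, p2 ≤ φ → φ ≤ p1 + 2 * Real.pi →
      HasDerivAt q2 (-(1/4) - q2 φ ^ 2) φ ∧ |q2 φ| ≤ Q := by
    intro φ h1 h2
    rw [hq2]
    exact hq m2 φ (hin2 φ h1 h2)
  have s1 := CI_two_seg Y Y' Z W q1 b (K * Y p1 ^ 2) p1 (c1 + δ) hY hY' hZ hW hp1b
    (fun φ h => (hd1 φ h.1 (by linarith [h.2])).1)
    (fun φ h => hpt1 (q1 φ) φ _ (hd1 φ h.1 (by linarith [h.2])).2
      (hwall φ (Or.inl (abs_le.2 ⟨by linarith [h.1], by linarith [h.2]⟩)))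
      (hmin1 φ (by linarith [h.1]) h.2))
  have s2 := CI_two_seg Y Y' Z W q1 b 0 (c1 + δ) (c2 - δ) hY hY' hZ hW (by linarith)
    (fun φ h => (hd1 φ (by linarith [h.1]) (by linarith [h.2])).1)
    (fun φ h => hpt0 (q1 φ) φ)
  have s3 := CI_two_seg Y Y' Z W q1 b (K * Y p2 ^ 2) (c2 - δ) p2 hY hY' hZ hW hp2a
    (fun φ h => (hd1 φ (by linarith [h.1]) h.2).1)
    (fun φ h => hpt1 (q1 φ) φ _ (hd1 φ (by linarith [h.1]) h.2).2
      (hwall φ (Or.inr (abs_le.2 ⟨by linarith [h.1], by linarith [h.2]⟩)))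
      (hmin2 φ h.1 (by linarith [h.2])))
  have s4 := CI_two_seg Y Y' Z W q2 b (K * Y p2 ^ 2) p2 (c2 + δ) hY hY' hZ hW hp2b
    (fun φ h => (hd2 φ h.1 (by linarith [h.2])).1)
    (fun φ h => hpt1 (q2 φ) φ _ (hd2 φ h.1 (by linarith [h.2])).2
      (hwall φ (Or.inr (abs_le.2 ⟨by linarith [h.1], by linarith [h.2]⟩)))
      (hmin2 φ (by linarith [h.1]) h.2))
  have s5 := CI_two_seg Y Y' Z W q2 b 0 (c2 + δ) (c1 - δ + 2 * Real.pi) hY hY' hZ hW (by linarith)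
    (fun φ h => (hd2 φ (by linarith [h.1]) (by linarith [h.2])).1)
    (fun φ h => hpt0 (q2 φ) φ)
  have s6 := CI_two_seg Y Y' Z W q2 b (K * Y p1 ^ 2) (c1 - δ + 2 * Real.pi) (p1 + 2 * Real.pi)
    hY hY' hZ hW (by linarith)
    (fun φ h => (hd2 φ (by linarith [h.1]) h.2).1)
    (fun φ h => by
      have e : Y φ = Y (φ - 2 * Real.pi) := by rw [← pY (φ - 2 * Real.pi)]; congr 1; ring
      have eW : W φ = W (φ - 2 * Real.pi) := by rw [← pW (φ - 2 * Real.pi)]; congr 1; ring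
      refine hpt1 (q2 φ) φ _ (hd2 φ (by linarith [h.1]) h.2).2 ?_ ?_
      · rw [e, eW]
        exact hwall _ (Or.inl (abs_le.2 ⟨by linarith [h.1], by linarith [h.2]⟩))
      · rw [e]
        exact hmin1 _ (by linarith [h.1]) (by linarith [h.2]))
  have hsum : ∫ φ in p1..(p1 + 2 * Real.pi), F φ =
      (∫ φ in p1..(c1 + δ), F φ) + (∫ φ in (c1 + δ)..(c2 - δ), F φ) + (∫ φ in (c2 - δ)..p2, F φ)
      + (∫ φ in p2..(c2 + δ), F φ) + (∫ φ in (c2 + δ)..(c1 - δ + 2 * Real.pi), F φ)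
      + (∫ φ in (c1 - δ + 2 * Real.pi)..(p1 + 2 * Real.pi), F φ) := by
    rw [intervalIntegral.integral_add_adjacent_intervals (hFi _ _) (hFi _ _),
      intervalIntegral.integral_add_adjacent_intervals (hFi _ _) (hFi _ _),
      intervalIntegral.integral_add_adjacent_intervals (hFi _ _) (hFi _ _),
      intervalIntegral.integral_add_adjacent_intervals (hFi _ _) (hFi _ _),
      intervalIntegral.integral_add_adjacent_intervals (hFi _ _) (hFi _ _)]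
  have hF0 : 0 ≤ ∫ φ in (0:ℝ)..(2 * Real.pi), F φ := by
    rw [hper, hsum, hF]
    have b1 := abs_le.1 (hd1 p1 le_rfl (by linarith)).2
    have b2 := abs_le.1 (hd1 p2 (by linarith) le_rfl).2
    have b3 := abs_le.1 (hd2 p2 le_rfl (by linarith)).2
    have b4 := abs_le.1 (hd2 (p1 + 2 * Real.pi) (by linarith) le_rfl).2
    have y1 : Y (p1 + 2 * Real.pi) = Y p1 := pY p1
    rw [y1] at s6
    have n1 := sq_nonneg (Y p1)
    have n2 := sq_nonneg (Y p2)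
    have t1 : q1 p1 * Y p1 ^ 2 ≤ Q * Y p1 ^ 2 := mul_le_mul_of_nonneg_right b1.2 n1
    have t2 : -Q * Y p2 ^ 2 ≤ q1 p2 * Y p2 ^ 2 := mul_le_mul_of_nonneg_right b2.1 n2
    have t3 : q2 p2 * Y p2 ^ 2 ≤ Q * Y p2 ^ 2 := mul_le_mul_of_nonneg_right b3.2 n2
    have t4 : -Q * Y p1 ^ 2 ≤ q2 (p1 + 2 * Real.pi) * Y p1 ^ 2 :=
      mul_le_mul_of_nonneg_right b4.1 n1
    have t5 : 4 * Q * Y p1 ^ 2 ≤ K * (2 * δ) * Y p1 ^ 2 := mul_le_mul_of_nonneg_right hΛ n1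
    have t6 : 4 * Q * Y p2 ^ 2 ≤ K * (2 * δ) * Y p2 ^ 2 := mul_le_mul_of_nonneg_right hΛ n2
    nlinarith [s1, s2, s3, s4, s5, s6]
  have hsplit : ∫ φ in (0:ℝ)..(2 * Real.pi), F φ =
      (∫ φ in (0:ℝ)..(2 * Real.pi), (W φ + Y' φ ^ 2 + Z φ ^ 2))
      - ((1/2) * (∫ φ in (0:ℝ)..(2 * Real.pi), Y φ ^ 2)
        + 4 * b * (∫ φ in (0:ℝ)..(2 * Real.pi), Y φ * Z φ)
        - 2 * b ^ 2 * (∫ φ in (0:ℝ)..(2 * Real.pi), Y φ ^ 2)) := by
    rw [hF]
    rw [intervalIntegral.integral_sub (Continuous.intervalIntegrable (by fun_prop) _ _)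
      (Continuous.intervalIntegrable (by fun_prop) _ _),
      intervalIntegral.integral_sub (Continuous.intervalIntegrable (by fun_prop) _ _)
      (Continuous.intervalIntegrable (by fun_prop) _ _),
      intervalIntegral.integral_add (f := fun φ => (1/2) * Y φ ^ 2)
        (g := fun φ => 4 * b * (Y φ * Z φ)) (Continuous.intervalIntegrable (by fun_prop) _ _)
      (Continuous.intervalIntegrable (by fun_prop) _ _),
      intervalIntegral.integral_const_mul, intervalIntegral.integral_const_mul,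
      intervalIntegral.integral_const_mul]
  rw [hsplit] at hF0
  linarith

end

/-! ### Carl1 -/

section

theorem carl_one (G G1 G2 G11 G22 : ℝ → ℝ → ℝ) (ta : ℝ) (F : Fam G G1 G2 G11 G22 ta)
    (t : ℝ) (ht : ta ≤ t) (c δ Λ β : ℝ) (hδ : 0 < δ) (hδ1 : δ ≤ 1)
    (hwall : ∀ φ, |φ - c| ≤ δ → (3/4) * Λ * G t φ ≤ G11 t φ + G22 t φ)
    (hβ : 0 < β) (hβ2 : β < 1/2)
    (hΛ : 4 * (β * Real.tan (β * Real.pi))
      ≤ (Λ - 1/2 - 2 * (β * Real.tan (β * Real.pi)) ^ 2) * (2 * δ))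
    (hb : -AA G t ≤ AA1 G G1 t) (hb0 : AA1 G G1 t ≤ 0) :
    AA1 G G1 t ^ 2 / (2 * AA G t) + 2 * β ^ 2 * AA G t ≤ AA2 G G1 G11 t := by
  have gpos : ∀ φ, 0 < G t φ := fun φ => F.pos t φ ht
  have upos : ∀ φ, 0 < G t φ ^ (1/3 : ℝ) := fun φ => Real.rpow_pos_of_pos (gpos φ) _
  have e3 : ∀ φ, G t φ = (G t φ ^ (1/3 : ℝ)) ^ 3 := by
    intro φ
    rw [← Real.rpow_natCast, ← Real.rpow_mul (gpos φ).le]
    norm_num
  have e23 : ∀ φ, G t φ ^ (2/3 : ℝ) = (G t φ ^ (1/3 : ℝ)) ^ 2 := by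
    intro φ
    rw [← Real.rpow_natCast, ← Real.rpow_mul (gpos φ).le]
    norm_num
  have e43 : ∀ φ, G t φ ^ (4/3 : ℝ) = (G t φ ^ (1/3 : ℝ)) ^ 4 := by
    intro φ
    rw [← Real.rpow_natCast, ← Real.rpow_mul (gpos φ).le]
    norm_num
  have em : ∀ φ, G t φ ^ (-(1/3) : ℝ) = (G t φ ^ (1/3 : ℝ))⁻¹ := by
    intro φ
    rw [Real.rpow_neg (gpos φ).le]
  have cg : Continuous (fun φ => G t φ) := F.c0.comp (continuous_const.prodMk continuous_id)
  have cg1 : Continuous (fun φ => G1 t φ) := F.c1.comp (continuous_const.prodMk continuous_id)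
  have cg2 : Continuous (fun φ => G2 t φ) := F.c2.comp (continuous_const.prodMk continuous_id)
  have cg11 : Continuous (fun φ => G11 t φ) := F.c11.comp (continuous_const.prodMk continuous_id)
  have cg22 : Continuous (fun φ => G22 t φ) := F.c22.comp (continuous_const.prodMk continuous_id)
  have cr : ∀ r : ℝ, Continuous (fun φ => G t φ ^ r) := fun r =>
    cg.rpow_const (fun φ => Or.inl (gpos φ).ne')
  have hAApos : 0 < AA G t := by
    unfold AA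
    apply intervalIntegral.integral_pos (by positivity) (cr _).continuousOn
    · intro φ _
      exact (Real.rpow_pos_of_pos (gpos φ) _).le
    · exact ⟨0, ⟨le_refl _, by positivity⟩, Real.rpow_pos_of_pos (gpos 0) _⟩
  have hb1 : -(1/2) ≤ AA1 G G1 t / (2 * AA G t) := by
    rw [le_div_iff₀ (by positivity)]
    linarith
  have hb2 : AA1 G G1 t / (2 * AA G t) ≤ 0 := div_nonpos_of_nonpos_of_nonneg hb0 (by positivity)
  have key := CI_one (fun φ => G t φ ^ (2/3 : ℝ)) (fun φ => (2/3) * G t φ ^ (-(1/3) : ℝ) * G2 t φ)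
    (fun φ => (2/3) * G t φ ^ (-(1/3) : ℝ) * G1 t φ)
    (fun φ => (4/3) * G t φ ^ (1/3 : ℝ) * (G11 t φ + G22 t φ))
    (by
      intro φ
      have h1 := (F.e2 t φ ht).rpow_const (p := (2/3 : ℝ)) (Or.inl (gpos φ).ne')
      refine h1.congr_deriv ?_
      have : (2/3 : ℝ) - 1 = -(1/3) := by norm_num
      rw [this]
      ring)
    (((continuous_const.mul (cr _)).mul cg2))
    (((continuous_const.mul (cr _)).mul cg1))
    (((continuous_const.mul (cr _)).mul (cg11.add cg22)))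
    (by intro φ; simp only [F.per])
    (by intro φ; simp only [F.per, F.per1])
    (by intro φ; simp only [F.per, F.per11, F.per22])
    (by
      intro φ
      have h1 := F.grad t φ ht
      have h2 := upos φ
      rw [em φ]
      have h3 := e3 φ
      generalize G t φ ^ (1/3 : ℝ) = u at h2 h3
      rw [h3] at h1
      have h4 : (4/9) * (u⁻¹) ^ 2 * (G1 t φ ^ 2 + G2 t φ ^ 2) ≤
          (4/9) * (u⁻¹) ^ 2 * (3 * u ^ 3 * (G11 t φ + G22 t φ)) :=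
        mul_le_mul_of_nonneg_left h1 (by positivity)
      have h5 : (4/9) * (u⁻¹) ^ 2 * (3 * u ^ 3 * (G11 t φ + G22 t φ)) = 4/3 * u * (G11 t φ + G22 t φ) := by
        field_simp
        ring
      rw [h5] at h4
      calc _ = (4/9) * (u⁻¹) ^ 2 * (G1 t φ ^ 2 + G2 t φ ^ 2) := by ring
        _ ≤ _ := h4)
    c δ Λ (AA1 G G1 t / (2 * AA G t)) β hδ hδ1
    (by
      intro φ hφ
      have h1 := hwall φ hφ
      have h2 := upos φ
      rw [e23 φ]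
      have h3 := e3 φ
      generalize G t φ ^ (1/3 : ℝ) = u at h2 h3
      rw [h3] at h1
      have h4 := mul_le_mul_of_nonneg_left h1 (show 0 ≤ (4/3) * u by positivity)
      calc _ = (4/3) * u * ((3/4) * Λ * u ^ 3) := by ring
        _ ≤ _ := h4)
    hβ hβ2
    (by
      refine le_trans hΛ ?_
      apply mul_le_mul_of_nonneg_right _ (by positivity)
      have : 2 * (AA1 G G1 t / (2 * AA G t)) ^ 2 ≤ 1 / 2 := by nlinarith
      linarith)
  have i1 : (∫ φ in (0:ℝ)..(2 * Real.pi), (fun φ => G t φ ^ (2/3 : ℝ)) φ ^ 2) = AA G t := by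
    unfold AA
    congr 1
    funext φ
    simp only []
    rw [e23 φ, e43 φ]
    ring
  have i2 : (∫ φ in (0:ℝ)..(2 * Real.pi), (fun φ => G t φ ^ (2/3 : ℝ)) φ *
      (fun φ => (2/3) * G t φ ^ (-(1/3) : ℝ) * G1 t φ) φ) = AA1 G G1 t / 2 := by
    unfold AA1
    rw [← intervalIntegral.integral_div]
    congr 1
    funext φ
    simp only []
    rw [e23 φ, em φ]
    have h2 := upos φ
    field_simp
    ring
  rw [AA2_eq G G1 G2 G11 G22 ta F t ht]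
  rw [i1, i2] at key
  refine le_trans (le_of_eq ?_) key
  field_simp
  ring

end

/-! ### Carl2 -/

section

theorem carl_two (G G1 G2 G11 G22 : ℝ → ℝ → ℝ) (ta : ℝ) (F : Fam G G1 G2 G11 G22 ta)
    (t : ℝ) (ht : ta ≤ t) (c1 c2 δ Λ l : ℝ) (hδ : 0 < δ) (hδ1 : δ ≤ 1)
    (hl : 0 < l) (hc : l + 2 * δ ≤ c2 - c1) (hc' : l + 2 * δ ≤ c1 + 2 * Real.pi - c2)
    (hwall : ∀ φ, (|φ - c1| ≤ δ ∨ |φ - c2| ≤ δ) → (3/4) * Λ * G t φ ≤ G11 t φ + G22 t φ)
    (hΛ : 4 * (2 / l) ≤ (Λ - 1/2 - 2 * (2 / l) ^ 2) * (2 * δ))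
    (hb : -AA G t ≤ AA1 G G1 t) (hb0 : AA1 G G1 t ≤ 0) :
    AA1 G G1 t ^ 2 / (2 * AA G t) + 2 * (1/4) * AA G t ≤ AA2 G G1 G11 t := by
  have hg : ∀ φ, 0 < G t φ := fun φ => F.pos t φ ht
  have cg : Continuous (fun φ => G t φ) := F.c0.comp (by fun_prop : Continuous fun φ : ℝ => (t, φ))
  have cg1 : Continuous (fun φ => G1 t φ) := F.c1.comp (by fun_prop : Continuous fun φ : ℝ => (t, φ))
  have cg2 : Continuous (fun φ => G2 t φ) := F.c2.comp (by fun_prop : Continuous fun φ : ℝ => (t, φ))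
  have cg11 : Continuous (fun φ => G11 t φ) :=
    F.c11.comp (by fun_prop : Continuous fun φ : ℝ => (t, φ))
  have cg22 : Continuous (fun φ => G22 t φ) :=
    F.c22.comp (by fun_prop : Continuous fun φ : ℝ => (t, φ))
  have crp : ∀ p : ℝ, Continuous (fun φ => G t φ ^ p) := fun p =>
    cg.rpow_const fun φ => Or.inl (hg φ).ne'
  have r1 : ∀ φ, G t φ ^ (-(1/3) : ℝ) * G t φ ^ (-(1/3) : ℝ) * G t φ = G t φ ^ (1/3 : ℝ) := by
    intro φ
    rw [← Real.rpow_add (hg φ)]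
    nth_rewrite 2 [← Real.rpow_one (G t φ)]
    rw [← Real.rpow_add (hg φ)]
    norm_num
  have r2 : ∀ φ, G t φ ^ (2/3 : ℝ) * G t φ ^ (2/3 : ℝ) = G t φ ^ (4/3 : ℝ) := by
    intro φ
    rw [← Real.rpow_add (hg φ)]
    norm_num
  have r3 : ∀ φ, G t φ ^ (1/3 : ℝ) * G t φ = G t φ ^ (4/3 : ℝ) := by
    intro φ
    nth_rewrite 2 [← Real.rpow_one (G t φ)]
    rw [← Real.rpow_add (hg φ)]
    norm_num
  have r4 : ∀ φ, G t φ ^ (2/3 : ℝ) * G t φ ^ (-(1/3) : ℝ) = G t φ ^ (1/3 : ℝ) := by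
    intro φ
    rw [← Real.rpow_add (hg φ)]
    norm_num
  have hAA : 0 < AA G t := by
    unfold AA
    exact intervalIntegral.intervalIntegral_pos_of_pos ((crp _).intervalIntegrable _ _)
      (fun φ => Real.rpow_pos_of_pos (hg φ) _) (by positivity)
  set b : ℝ := AA1 G G1 t / (2 * AA G t) with hbd
  have hb1 : -(1/2) ≤ b := by
    rw [hbd, le_div_iff₀ (by positivity)]
    linarith
  have hb2 : b ≤ 0 := div_nonpos_of_nonpos_of_nonneg hb0 (by positivity)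
  have hbb : 2 * b ^ 2 ≤ 1/2 := by nlinarith
  have hmain := CI_two (fun φ => G t φ ^ (2/3 : ℝ))
    (fun φ => (2/3) * G t φ ^ (-(1/3) : ℝ) * G2 t φ)
    (fun φ => (2/3) * G t φ ^ (-(1/3) : ℝ) * G1 t φ)
    (fun φ => (4/3) * G t φ ^ (1/3 : ℝ) * (G11 t φ + G22 t φ))
    (by
      intro φ
      have h := (F.e2 t φ ht).rpow_const (p := (2/3 : ℝ)) (Or.inl (hg φ).ne')
      refine h.congr_deriv ?_
      have : (2/3 : ℝ) - 1 = -(1/3) := by norm_num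
      rw [this]; ring)
    ((continuous_const.mul (crp _)).mul cg2)
    ((continuous_const.mul (crp _)).mul cg1)
    ((continuous_const.mul (crp _)).mul (cg11.add cg22))
    (by intro φ; simp only [F.per t φ])
    (by intro φ; simp only [F.per t φ, F.per1 t φ])
    (by intro φ; simp only [F.per t φ, F.per11 t φ, F.per22 t φ])
    (by
      intro φ
      have h := F.grad t φ ht
      have h0 : 0 ≤ G t φ ^ (-(1/3) : ℝ) * G t φ ^ (-(1/3) : ℝ) :=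
        mul_self_nonneg _
      have h1 := mul_le_mul_of_nonneg_left h h0
      rw [← r1 φ]
      nlinarith)
    c1 c2 δ Λ b l hδ hδ1 hl hc hc'
    (by
      intro φ hφ
      have h := hwall φ hφ
      have h0 : 0 ≤ G t φ ^ (1/3 : ℝ) := (Real.rpow_pos_of_pos (hg φ) _).le
      have h1 := mul_le_mul_of_nonneg_left h h0
      rw [sq, r2, ← r3]
      nlinarith)
    (by
      refine hΛ.trans ?_
      refine mul_le_mul_of_nonneg_right ?_ (by positivity)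
      linarith)
  have e1 : (∫ φ in (0:ℝ)..(2 * Real.pi), G t φ ^ (2/3 : ℝ) *
      ((2/3) * G t φ ^ (-(1/3) : ℝ) * G1 t φ)) = AA1 G G1 t / 2 := by
    unfold AA1
    rw [← intervalIntegral.integral_div]
    refine intervalIntegral.integral_congr fun φ _ => ?_
    rw [← r4 φ]
    ring
  have e2 : (∫ φ in (0:ℝ)..(2 * Real.pi), (G t φ ^ (2/3 : ℝ)) ^ 2) = AA G t := by
    unfold AA
    refine intervalIntegral.integral_congr fun φ _ => ?_
    rw [sq, r2]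
  rw [← AA2_eq G G1 G2 G11 G22 ta F t ht, e1, e2] at hmain
  refine le_trans (le_of_eq ?_) hmain
  rw [hbd]
  field_simp
  ring

end

/-! ### Carl0 -/

section

theorem carl_zero (G G1 G2 G11 G22 : ℝ → ℝ → ℝ) (ta : ℝ) (F : Fam G G1 G2 G11 G22 ta)
    (t : ℝ) (ht : ta ≤ t) : 0 ≤ AA2 G G1 G11 t ∧ 0 < AA G t := by
  have hpi := Real.pi_pos
  constructor
  · rw [AA2_eq G G1 G2 G11 G22 ta F t ht]
    apply intervalIntegral.integral_nonneg (by positivity)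
    intro φ _
    have hG := F.pos t φ ht
    have hg := F.grad t φ ht
    have h0 : 0 ≤ G1 t φ ^ 2 + G2 t φ ^ 2 := by positivity
    have h1 : 0 ≤ G11 t φ + G22 t φ := by
      by_contra hneg
      push Not at hneg
      have h2 : 3 * G t φ * (G11 t φ + G22 t φ) < 0 :=
        mul_neg_of_pos_of_neg (by positivity) hneg
      linarith
    have h2 : 0 ≤ G t φ ^ (1/3 : ℝ) := Real.rpow_nonneg hG.le _
    positivity
  · have hc : Continuous (fun φ => G t φ) := F.c0.comp (by fun_prop : Continuous fun φ : ℝ => (t, φ))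
    have hc2 : Continuous (fun φ => G t φ ^ (4/3 : ℝ)) :=
      hc.rpow_const (fun φ => Or.inl (F.pos t φ ht).ne')
    exact intervalIntegral.intervalIntegral_pos_of_pos (hc2.intervalIntegrable _ _)
      (fun φ => Real.rpow_pos_of_pos (F.pos t φ ht) _) (by positivity)

end

end HW287
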