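import Pool.Agent.Helper287.HW.Base

set_option autoImplicit false
set_option linter.all false

open MeasureTheory Set Filter Topology

namespace HW287

/-! ### Ode -/

section

theorem ode_persist (A A1 A2 bs bs' μ : ℝ → ℝ) (t1 T : ℝ) (h : t1 ≤ T)
    (hA : ∀ t ∈ Icc t1 T, HasDerivAt A (A1 t) t) (hA1 : ∀ t ∈ Icc t1 T, HasDerivAt A1 (A2 t) t)
    (hpos : ∀ t ∈ Icc t1 T, 0 < A t) (hconv : ∀ t ∈ Icc t1 T, 0 ≤ A2 t)
    (hbs : ∀ t ∈ Icc t1 T, HasDerivAt bs (bs' t) t)
    (hb1 : ∀ t ∈ Icc t1 T, -(1/2) ≤ bs t ∧ bs t ≤ 0)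
    (hric : ∀ t ∈ Icc t1 T, bs' t + bs t ^ 2 ≤ μ t)
    (hode : ∀ t ∈ Icc t1 T, -A t ≤ A1 t → A1 t ≤ 0 →
      A1 t ^ 2 / (2 * A t) + 2 * μ t * A t ≤ A2 t)
    (hstart : 2 * bs t1 * A t1 < A1 t1) :
    A t1 * Real.exp (-(T - t1)) ≤ A T := by
  -- A1 is monotone
  have hmono : MonotoneOn A1 (Icc t1 T) := by
    refine monotoneOn_of_deriv_nonneg (convex_Icc _ _)
      (fun x hx => (hA1 x hx).continuousAt.continuousWithinAt)
      (fun x hx => (hA1 x (interior_subset hx)).differentiableAt.differentiableWithinAt) ?_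
    intro x hx
    rw [(hA1 x (interior_subset hx)).deriv]
    exact hconv x (interior_subset hx)
  -- the main claim
  have claim : ∀ t ∈ Icc t1 T, -A t ≤ A1 t := by
    intro t2 ht2
    by_contra hcon
    push Not at hcon
    have hsub : Icc t1 t2 ⊆ Icc t1 T := Icc_subset_Icc_right ht2.2
    have hA10 : ∀ t ∈ Icc t1 t2, A1 t ≤ 0 := by
      intro t ht
      have h1 := hmono (hsub ht) ht2 ht.2
      have h2 := hpos t2 ht2
      linarith
    set g : ℝ → ℝ := fun t => A1 t - 2 * bs t * A t with hg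
    have hgc : ContinuousOn g (Icc t1 t2) := by
      intro x hx
      have h1 := (hA1 x (hsub hx)).continuousAt
      have h2 := (hbs x (hsub hx)).continuousAt
      have h3 := (hA x (hsub hx)).continuousAt
      exact (h1.sub ((continuousAt_const.mul h2).mul h3)).continuousWithinAt
    have hg2 : g t2 ≤ 0 := by
      have h1 := hb1 t2 ht2
      have h2 := hpos t2 ht2
      simp only [hg]
      nlinarith [h1.1, h2]
    have hSc : IsCompact (Icc t1 t2 ∩ g ⁻¹' (Iic 0)) := by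
      have h1 : IsClosed (Icc t1 t2 ∩ g ⁻¹' (Iic 0)) :=
        hgc.preimage_isClosed_of_isClosed isClosed_Icc isClosed_Iic
      exact (isCompact_Icc (a := t1) (b := t2)).of_isClosed_subset h1 inter_subset_left
    obtain ⟨t3, ht3, hmin⟩ := hSc.exists_isLeast ⟨t2, ⟨ht2.1, le_rfl⟩, hg2⟩
    have ht3m : t3 ∈ Icc t1 t2 := ht3.1
    have hg3 : g t3 ≤ 0 := ht3.2
    have hgpos : ∀ t ∈ Icc t1 t3, t ≠ t3 → 0 < g t := by
      intro t ht hne
      by_contra hc
      push Not at hc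
      have : t3 ≤ t := hmin ⟨⟨ht.1, ht.2.trans ht3m.2⟩, hc⟩
      exact hne (le_antisymm ht.2 this)
    have hsub3 : Icc t1 t3 ⊆ Icc t1 T := (Icc_subset_Icc_right ht3m.2).trans hsub
    set D : ℝ → ℝ := fun t => A1 t / (2 * A t) - bs t with hD
    have hDd : ∀ t ∈ Icc t1 T, HasDerivAt D
        ((A2 t * (2 * A t) - A1 t * (2 * A1 t)) / (2 * A t) ^ 2 - bs' t) t := by
      intro t ht
      have h0 : (2 * A t) ≠ 0 := by have := hpos t ht; positivity
      have h1 := (hA1 t ht).div ((hA t ht).const_mul 2) h0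
      exact h1.sub (hbs t ht)
    have hDmono : MonotoneOn D (Icc t1 t3) := by
      refine monotoneOn_of_deriv_nonneg (convex_Icc _ _)
        (fun x hx => (hDd x (hsub3 hx)).continuousAt.continuousWithinAt)
        (fun x hx => (hDd x (hsub3 (interior_subset hx))).differentiableAt.differentiableWithinAt) ?_
      intro x hx
      rw [interior_Icc] at hx
      have hxm : x ∈ Icc t1 t3 := ⟨hx.1.le, hx.2.le⟩
      have hxT := hsub3 hxm
      rw [(hDd x hxT).deriv]
      have hgx := hgpos x hxm (ne_of_lt hx.2)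
      have hAx := hpos x hxT
      have hbx := hb1 x hxT
      have hA1x : A1 x ≤ 0 := hA10 x ⟨hxm.1, hxm.2.trans ht3m.2⟩
      simp only [hg] at hgx
      have hAA : -A x ≤ A1 x := by nlinarith [hbx.1]
      have ho := hode x hxT hAA hA1x
      have hr := hric x hxT
      -- set b
      obtain ⟨b, hb⟩ : ∃ b, b = A1 x / (2 * A x) := ⟨_, rfl⟩
      have hbA : A1 x = 2 * b * A x := by
        rw [hb]; field_simp
      have hbgt : bs x < b := by
        rw [hbA] at hgx
        by_contra hc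
        push Not at hc
        nlinarith
      have hb0 : b ≤ 0 := by
        by_contra hc
        push Not at hc
        rw [hbA] at hA1x
        nlinarith [mul_pos hc hAx]
      have e1 : A1 x ^ 2 / (2 * A x) = 2 * b ^ 2 * A x := by
        rw [hbA]; field_simp
        try ring
      have e2 : (A2 x * (2 * A x) - A1 x * (2 * A1 x)) / (2 * A x) ^ 2
          = A2 x / (2 * A x) - 2 * b ^ 2 := by
        rw [hbA]; field_simp
        try ring
      rw [e1] at ho
      rw [e2]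
      have h5 : b ^ 2 + μ x ≤ A2 x / (2 * A x) := by
        rw [le_div_iff₀ (by positivity)]
        nlinarith
      have h6 : 0 ≤ (b - bs x) * (-(b + bs x)) :=
        mul_nonneg (by linarith) (by linarith [hbx.2])
      nlinarith
    have h7 := hDmono (left_mem_Icc.2 ht3m.1) (right_mem_Icc.2 ht3m.1) ht3m.1
    have hA1' := hpos t1 (hsub3 (left_mem_Icc.2 ht3m.1))
    have hA3' := hpos t3 (hsub3 (right_mem_Icc.2 ht3m.1))
    have h8 : 0 < D t1 := by
      simp only [hD]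
      rw [sub_pos, lt_div_iff₀ (by positivity)]
      linarith
    have h9 : D t3 ≤ 0 := by
      simp only [hD]
      simp only [hg] at hg3
      rw [sub_nonpos, div_le_iff₀ (by positivity)]
      linarith
    linarith
  -- conclusion
  have hmono2 : MonotoneOn (fun t => A t * Real.exp t) (Icc t1 T) := by
    have hd : ∀ t ∈ Icc t1 T, HasDerivAt (fun t => A t * Real.exp t)
        (A1 t * Real.exp t + A t * Real.exp t) t := fun t ht =>
      (hA t ht).mul (Real.hasDerivAt_exp t)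
    refine monotoneOn_of_deriv_nonneg (convex_Icc _ _)
      (fun x hx => (hd x hx).continuousAt.continuousWithinAt)
      (fun x hx => (hd x (interior_subset hx)).differentiableAt.differentiableWithinAt) ?_
    intro x hx
    rw [(hd x (interior_subset hx)).deriv]
    have h1 := claim x (interior_subset hx)
    have h2 := Real.exp_pos x
    nlinarith
  have h10 := hmono2 (left_mem_Icc.2 h) (right_mem_Icc.2 h) h
  simp only at h10
  have h11 : Real.exp (-(T - t1)) = Real.exp t1 * Real.exp (-T) := by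
    rw [← Real.exp_add]; congr 1; ring
  have h12 : Real.exp T * Real.exp (-T) = 1 := by
    rw [← Real.exp_add]; simp
  rw [h11]
  have h13 := Real.exp_pos (-T)
  calc A t1 * (Real.exp t1 * Real.exp (-T)) = (A t1 * Real.exp t1) * Real.exp (-T) := by ring
    _ ≤ (A T * Real.exp T) * Real.exp (-T) := mul_le_mul_of_nonneg_right h10 h13.le
    _ = A T * (Real.exp T * Real.exp (-T)) := by ring
    _ = A T := by rw [h12, mul_one]

theorem ode_decay (A A1 A2 bs bs' μ : ℝ → ℝ) (t1 T : ℝ) (h : t1 ≤ T)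
    (hA : ∀ t ∈ Icc t1 T, HasDerivAt A (A1 t) t) (hA1 : ∀ t ∈ Icc t1 T, HasDerivAt A1 (A2 t) t)
    (hpos : ∀ t ∈ Icc t1 T, 0 < A t) (hconv : ∀ t ∈ Icc t1 T, 0 ≤ A2 t)
    (hbs : ∀ t ∈ Icc t1 T, HasDerivAt bs (bs' t) t)
    (hb1 : ∀ t ∈ Icc t1 T, -(1/2) ≤ bs t ∧ bs t ≤ 0)
    (hric : ∀ t ∈ Icc t1 T, bs' t + bs t ^ 2 ≤ μ t)
    (hode : ∀ t ∈ Icc t1 T, -A t ≤ A1 t → A1 t ≤ 0 →
      A1 t ^ 2 / (2 * A t) + 2 * μ t * A t ≤ A2 t)
    (t : ℝ) (ht : t ∈ Icc t1 T) :
    A t ≤ A t1 * Real.exp (∫ u in t1..t, 2 * bs u) + A T * Real.exp (T - t1) := by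
  have hTT : T ∈ Icc t1 T := right_mem_Icc.2 h
  have h11 : t1 ∈ Icc t1 T := left_mem_Icc.2 h
  obtain ⟨κ, hκ⟩ : ∃ κ, κ = A T * Real.exp (T - t1) := ⟨_, rfl⟩
  rw [← hκ]
  -- dichotomy
  have dich : ∀ τ ∈ Icc t1 T, κ < A τ → A1 τ ≤ 2 * bs τ * A τ := by
    intro τ hτ hκτ
    by_contra hc
    push Not at hc
    have hsub : Icc τ T ⊆ Icc t1 T := Icc_subset_Icc_left hτ.1
    have h1 := ode_persist A A1 A2 bs bs' μ τ T hτ.2 (fun x hx => hA x (hsub hx))
      (fun x hx => hA1 x (hsub hx)) (fun x hx => hpos x (hsub hx)) (fun x hx => hconv x (hsub hx))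
      (fun x hx => hbs x (hsub hx)) (fun x hx => hb1 x (hsub hx)) (fun x hx => hric x (hsub hx))
      (fun x hx => hode x (hsub hx)) hc
    have h2 : A τ ≤ A T * Real.exp (T - τ) := by
      have h3 : Real.exp (-(T - τ)) * Real.exp (T - τ) = 1 := by
        rw [← Real.exp_add]; simp
      calc A τ = A τ * (Real.exp (-(T - τ)) * Real.exp (T - τ)) := by rw [h3, mul_one]
        _ = (A τ * Real.exp (-(T - τ))) * Real.exp (T - τ) := by ring
        _ ≤ A T * Real.exp (T - τ) := mul_le_mul_of_nonneg_right h1 (Real.exp_pos _).le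
    have h4 : Real.exp (T - τ) ≤ Real.exp (T - t1) := Real.exp_le_exp.2 (by linarith [hτ.1])
    have h5 := mul_le_mul_of_nonneg_left h4 (hpos T hTT).le
    linarith
  have hbc : ContinuousOn bs (Icc t1 T) := fun x hx => (hbs x hx).continuousAt.continuousWithinAt
  set B : ℝ → ℝ := fun τ => ∫ u in t1..τ, 2 * bs u with hB
  have hint : ∀ a ∈ Icc t1 T, ∀ b ∈ Icc t1 T, IntervalIntegrable (fun u => 2 * bs u) volume a b := by
    intro a ha b hb
    apply ContinuousOn.intervalIntegrable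
    refine (continuousOn_const.mul hbc).mono ?_
    exact Set.uIcc_subset_Icc ha hb
  have hBc : ContinuousOn B (Icc t1 T) := by
    have h1 := intervalIntegral.continuousOn_primitive_interval (a := t1) (b := T)
      (f := fun u => 2 * bs u) (μ := volume) (by
        have h2 := hint t1 h11 T hTT
        rw [intervalIntegrable_iff_integrableOn_Icc_of_le h] at h2
        rwa [uIcc_of_le h])
    rwa [uIcc_of_le h] at h1
  have hBd : ∀ τ ∈ Ioo t1 T, HasDerivAt B (2 * bs τ) τ := by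
    intro τ hτ
    have hτ' : τ ∈ Icc t1 T := ⟨hτ.1.le, hτ.2.le⟩
    refine intervalIntegral.integral_hasDerivAt_right (hint t1 h11 τ hτ') ?_ ?_
    · have h1 : ContinuousOn (fun u => 2 * bs u) (Ioo t1 T) :=
        (continuousOn_const.mul hbc).mono Ioo_subset_Icc_self
      exact h1.stronglyMeasurableAtFilter isOpen_Ioo τ hτ
    · exact continuousAt_const.mul (hbs τ hτ').continuousAt
  have hBdiff : ∀ a b, a ∈ Icc t1 T → b ∈ Icc t1 T → a ≤ b → B b ≤ B a := by
    intro a b ha hb hab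
    have h1 : B b - B a = ∫ u in a..b, 2 * bs u := by
      simp only [hB]
      rw [intervalIntegral.integral_interval_sub_left (hint t1 h11 b hb) (hint t1 h11 a ha)]
    have h2 : ∫ u in a..b, 2 * bs u ≤ 0 := by
      have h3 : 0 ≤ ∫ u in a..b, -(2 * bs u) := by
        apply intervalIntegral.integral_nonneg hab
        intro u hu
        have := (hb1 u ⟨ha.1.trans hu.1, hu.2.trans hb.2⟩).2
        linarith
      rw [intervalIntegral.integral_neg] at h3
      linarith
    linarith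
  have hB1 : B t1 = 0 := by simp [hB]
  -- h antitone on intervals where A > κ
  have hanti : ∀ a ∈ Icc t1 T, a ≤ t → (∀ τ ∈ Ioo a t, κ < A τ) →
      A t * Real.exp (-B t) ≤ A a * Real.exp (-B a) := by
    intro a ha hat hgt
    have hsub : Icc a t ⊆ Icc t1 T := Icc_subset_Icc ha.1 ht.2
    have hsubo : Ioo a t ⊆ Ioo t1 T := Ioo_subset_Ioo ha.1 ht.2
    have hd : ∀ x ∈ Ioo a t, HasDerivAt (fun τ => A τ * Real.exp (-B τ))
        (A1 x * Real.exp (-B x) + A x * (Real.exp (-B x) * (-(2 * bs x)))) x := by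
      intro x hx
      exact (hA x (hsub ⟨hx.1.le, hx.2.le⟩)).mul ((hBd x (hsubo hx)).neg.exp)
    have hcont : ContinuousOn (fun τ => A τ * Real.exp (-B τ)) (Icc a t) := by
      refine ContinuousOn.mul (fun x hx => (hA x (hsub hx)).continuousAt.continuousWithinAt) ?_
      exact Real.continuous_exp.comp_continuousOn ((hBc.mono hsub).neg)
    have hant : AntitoneOn (fun τ => A τ * Real.exp (-B τ)) (Icc a t) := by
      refine antitoneOn_of_deriv_nonpos (convex_Icc _ _) hcont ?_ ?_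
      · intro x hx
        rw [interior_Icc] at hx
        exact (hd x hx).differentiableAt.differentiableWithinAt
      · intro x hx
        rw [interior_Icc] at hx
        rw [(hd x hx).deriv]
        have h1 := dich x (hsub ⟨hx.1.le, hx.2.le⟩) (hgt x hx)
        have h2 := Real.exp_pos (-B x)
        nlinarith
    exact hant (left_mem_Icc.2 hat) (right_mem_Icc.2 hat) hat
  have key : ∀ a ∈ Icc t1 T, a ≤ t → (∀ τ ∈ Ioo a t, κ < A τ) →
      A t ≤ A a * Real.exp (B t - B a) := by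
    intro a ha hat hgt
    have h1 := hanti a ha hat hgt
    have h2 : Real.exp (-B t) * Real.exp (B t) = 1 := by
      rw [← Real.exp_add]; simp
    have h3 : Real.exp (-B a) * Real.exp (B t) = Real.exp (B t - B a) := by
      rw [← Real.exp_add]; congr 1; ring
    calc A t = A t * (Real.exp (-B t) * Real.exp (B t)) := by rw [h2, mul_one]
      _ = (A t * Real.exp (-B t)) * Real.exp (B t) := by ring
      _ ≤ (A a * Real.exp (-B a)) * Real.exp (B t) :=
        mul_le_mul_of_nonneg_right h1 (Real.exp_pos _).le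
      _ = A a * Real.exp (B t - B a) := by rw [mul_assoc, h3]
  have hκpos : 0 < κ := by rw [hκ]; exact mul_pos (hpos T hTT) (Real.exp_pos _)
  have hE : 0 < A t1 * Real.exp (B t) := mul_pos (hpos t1 h11) (Real.exp_pos _)
  by_cases hne : (Icc t1 t ∩ A ⁻¹' (Iic κ)).Nonempty
  · have hAc : ContinuousOn A (Icc t1 t) := fun x hx =>
      (hA x ⟨hx.1, hx.2.trans ht.2⟩).continuousAt.continuousWithinAt
    have hSc : IsCompact (Icc t1 t ∩ A ⁻¹' (Iic κ)) := by
      have h1 : IsClosed (Icc t1 t ∩ A ⁻¹' (Iic κ)) :=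
        hAc.preimage_isClosed_of_isClosed isClosed_Icc isClosed_Iic
      exact (isCompact_Icc (a := t1) (b := t)).of_isClosed_subset h1 inter_subset_left
    obtain ⟨t2, ht2, hmax⟩ := hSc.exists_isGreatest hne
    have ht2T : t2 ∈ Icc t1 T := ⟨ht2.1.1, ht2.1.2.trans ht.2⟩
    have h1 := key t2 ht2T ht2.1.2 (by
      intro τ hτ
      by_contra hc
      push Not at hc
      have : τ ≤ t2 := hmax ⟨⟨ht2.1.1.trans hτ.1.le, hτ.2.le⟩, hc⟩
      linarith [hτ.1])
    have h2 : Real.exp (B t - B t2) ≤ 1 := by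
      rw [Real.exp_le_one_iff]
      linarith [hBdiff t2 t ht2T ht ht2.1.2]
    have h3 : A t2 * Real.exp (B t - B t2) ≤ A t2 * 1 :=
      mul_le_mul_of_nonneg_left h2 (hpos t2 ht2T).le
    have h4 : A t2 ≤ κ := ht2.2
    linarith
  · have h1 := key t1 h11 ht.1 (by
      intro τ hτ
      by_contra hc
      push Not at hc
      exact hne ⟨τ, ⟨hτ.1.le, hτ.2.le⟩, hc⟩)
    rw [hB1, sub_zero] at h1
    linarith

end

/-! ### Bs -/

section

theorem bs_exists (d : ℝ → ℝ) (t0 C : ℝ) (hC : 0 < C) (hd : Continuous d)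
    (hpos : ∀ t, t0 ≤ t → 0 < d t) (hint : IntegrableOn d (Ici t0)) :
    ∃ t1, t0 ≤ t1 ∧ ∃ e e' : ℝ → ℝ, ∃ K : ℝ, (∀ t, t1 ≤ t → HasDerivAt e (e' t) t) ∧
      (∀ t, t1 ≤ t → 0 ≤ e t ∧ e t ≤ 1/2) ∧
      (∀ t, t1 ≤ t → e' t - e t + e t ^ 2 ≤ -(C * d t)) ∧
      (∀ t, t1 ≤ t → ∫ u in t1..t, e u ≤ K) := by
  have hdI : IntegrableOn d (Ioi t0) := hint.mono_set Ioi_subset_Ici_self
  set g : ℝ → ℝ := fun s => Real.exp (-s/2) * d s with hg
  have hgc : Continuous g := by rw [hg]; fun_prop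
  have hgI : IntegrableOn g (Ioi t0) := by
    refine Integrable.mono' (hdI.const_mul (Real.exp (-t0/2))) hgc.aestronglyMeasurable ?_
    refine (ae_restrict_iff' measurableSet_Ioi).2 (Eventually.of_forall ?_)
    intro s hs
    have hs' : t0 < s := hs
    have h1 := hpos s hs'.le
    rw [Real.norm_eq_abs, abs_of_nonneg (mul_nonneg (Real.exp_pos _).le h1.le)]
    exact mul_le_mul_of_nonneg_right (Real.exp_le_exp.2 (by linarith)) h1.le
  set I : ℝ := ∫ s in Ioi t0, g s with hI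
  set D : ℝ := ∫ s in Ioi t0, d s with hD
  -- tails
  have tailg : ∀ t, t0 ≤ t → I - ∫ s in t0..t, g s = ∫ s in Ioi t, g s := by
    intro t ht
    have h1 : IntegrableOn g (Ioc t0 t) := hgI.mono_set Ioc_subset_Ioi_self
    have h2 : IntegrableOn g (Ioi t) := hgI.mono_set (Ioi_subset_Ioi ht)
    have := setIntegral_union (Ioc_disjoint_Ioi le_rfl) measurableSet_Ioi h1 h2
    rw [Ioc_union_Ioi_eq_Ioi ht] at this
    rw [hI, intervalIntegral.integral_of_le ht, this]; ring
  have taild : ∀ t, t0 ≤ t → D - ∫ s in t0..t, d s = ∫ s in Ioi t, d s := by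
    intro t ht
    have h1 : IntegrableOn d (Ioc t0 t) := hdI.mono_set Ioc_subset_Ioi_self
    have h2 : IntegrableOn d (Ioi t) := hdI.mono_set (Ioi_subset_Ioi ht)
    have := setIntegral_union (Ioc_disjoint_Ioi le_rfl) measurableSet_Ioi h1 h2
    rw [Ioc_union_Ioi_eq_Ioi ht] at this
    rw [hD, intervalIntegral.integral_of_le ht, this]; ring
  have hlim : Tendsto (fun t => 2 * C * (D - ∫ s in t0..t, d s)) atTop (𝓝 0) := by
    have h1 := intervalIntegral_tendsto_integral_Ioi t0 hdI tendsto_id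
    have h2 := (h1.const_sub D).const_mul (2 * C)
    simpa [hD] using h2
  obtain ⟨t2, ht2⟩ := eventually_atTop.1 (hlim.eventually (ge_mem_nhds (show (0:ℝ) < 1/2 by norm_num)))
  set t1 := max t0 t2 with ht1
  have h01 : t0 ≤ t1 := le_max_left _ _
  set e : ℝ → ℝ := fun t => 2 * C * Real.exp (t/2) * (I - ∫ s in t0..t, g s) with he
  have hder : ∀ t, HasDerivAt e (e t / 2 - 2 * C * d t) t := by
    intro t
    have h1 : HasDerivAt (fun t => ∫ s in t0..t, g s) (g t) t :=
      intervalIntegral.integral_hasDerivAt_right (hgc.intervalIntegrable _ _)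
        hgc.aestronglyMeasurable.stronglyMeasurableAtFilter hgc.continuousAt
    have h2 : HasDerivAt (fun t : ℝ => Real.exp (t/2)) (Real.exp (t/2) * (1/2)) t := by
      have := ((hasDerivAt_id t).div_const 2).exp
      simpa using this
    have h3 := (h2.const_mul (2 * C)).mul (h1.const_sub I)
    have h4 : Real.exp (t/2) * g t = d t := by
      rw [hg]
      show Real.exp (t/2) * (Real.exp (-t/2) * d t) = d t
      rw [← mul_assoc, ← Real.exp_add, show t/2 + -t/2 = 0 by ring, Real.exp_zero, one_mul]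
    refine h3.congr_deriv ?_
    rw [he, ← h4]
    ring
  have hbound : ∀ t, t0 ≤ t → 0 ≤ e t ∧ e t ≤ 2 * C * (D - ∫ s in t0..t, d s) := by
    intro t ht
    have hm : ∀ s ∈ Ioi t, 0 ≤ g s ∧ g s ≤ Real.exp (-t/2) * d s := by
      intro s hs
      have hs' : t < s := hs
      have h1 := hpos s (ht.trans hs'.le)
      exact ⟨mul_nonneg (Real.exp_pos _).le h1.le,
        mul_le_mul_of_nonneg_right (Real.exp_le_exp.2 (by linarith)) h1.le⟩
    have h2 : IntegrableOn g (Ioi t) := hgI.mono_set (Ioi_subset_Ioi ht)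
    have h2' : IntegrableOn d (Ioi t) := hdI.mono_set (Ioi_subset_Ioi ht)
    have h3 : 0 ≤ ∫ s in Ioi t, g s := setIntegral_nonneg measurableSet_Ioi fun s hs => (hm s hs).1
    have h4 : ∫ s in Ioi t, g s ≤ Real.exp (-t/2) * ∫ s in Ioi t, d s := by
      rw [← integral_const_mul]
      exact setIntegral_mono_on h2 (h2'.const_mul _) measurableSet_Ioi fun s hs => (hm s hs).2
    have h5 : 0 < Real.exp (t/2) := Real.exp_pos _
    have h6 : Real.exp (t/2) * Real.exp (-t/2) = 1 := by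
      rw [← Real.exp_add, show t/2 + -t/2 = 0 by ring, Real.exp_zero]
    rw [he, taild t ht]
    simp only [tailg t ht]
    refine ⟨by positivity, ?_⟩
    calc 2 * C * Real.exp (t/2) * ∫ s in Ioi t, g s
        ≤ 2 * C * Real.exp (t/2) * (Real.exp (-t/2) * ∫ s in Ioi t, d s) :=
          mul_le_mul_of_nonneg_left h4 (by positivity)
      _ = 2 * C * (Real.exp (t/2) * Real.exp (-t/2)) * ∫ s in Ioi t, d s := by ring
      _ = 2 * C * ∫ s in Ioi t, d s := by rw [h6]; ring
  have hb : ∀ t, t1 ≤ t → 0 ≤ e t ∧ e t ≤ 1/2 := by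
    intro t ht
    have h1 := hbound t (h01.trans ht)
    exact ⟨h1.1, h1.2.trans (ht2 t ((le_max_right _ _).trans ht))⟩
  have hec : Continuous e := continuous_iff_continuousAt.2 fun t => (hder t).continuousAt
  refine ⟨t1, h01, e, fun t => e t / 2 - 2 * C * d t, 1 + 4 * C * D, fun t _ => hder t, hb, ?_, ?_⟩
  · intro t ht
    obtain ⟨h1, h2⟩ := hb t ht
    have h3 := hpos t (h01.trans ht)
    have h4 : 0 < C * d t := mul_pos hC h3
    nlinarith
  · intro t ht
    have h1 : ∫ u in t1..t, (e u / 2 - 2 * C * d u) = e t - e t1 :=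
      intervalIntegral.integral_eq_sub_of_hasDerivAt (fun u _ => hder u)
        (by apply Continuous.intervalIntegrable; fun_prop)
    rw [intervalIntegral.integral_sub (by apply Continuous.intervalIntegrable; fun_prop)
      (by apply Continuous.intervalIntegrable; fun_prop), intervalIntegral.integral_div,
      intervalIntegral.integral_const_mul] at h1
    have h2 : ∫ u in t1..t, d u ≤ D := by
      rw [hD, intervalIntegral.integral_of_le ht]
      refine setIntegral_mono_set hdI ?_ ?_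
      · refine (ae_restrict_iff' measurableSet_Ioi).2 (Eventually.of_forall ?_)
        intro s hs
        exact (hpos s (le_of_lt hs)).le
      · exact (Ioc_subset_Ioi_self.trans (Ioi_subset_Ioi h01)).eventuallyLE
    have h3 := hb t ht
    have h4 := hb t1 le_rfl
    have h5 : C * (∫ u in t1..t, d u) ≤ C * D := mul_le_mul_of_nonneg_left h2 hC.le
    linarith [h3.2, h4.1]

end

/-! ### Ker -/

section

theorem h396_round (v : ℝ) : ∃ n : ℤ, |v - 2 * Real.pi * n| ≤ Real.pi := by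
  have hpi := Real.pi_pos
  refine ⟨round (v / (2 * Real.pi)), ?_⟩
  have h1 := abs_sub_round (v / (2 * Real.pi))
  have e : v - 2 * Real.pi * (round (v / (2 * Real.pi)) : ℝ) =
      (2 * Real.pi) * (v / (2 * Real.pi) - (round (v / (2 * Real.pi)) : ℝ)) := by
    field_simp
  rw [e, abs_mul, abs_of_pos (by positivity : (0:ℝ) < 2 * Real.pi)]
  calc 2 * Real.pi * |v / (2 * Real.pi) - (round (v / (2 * Real.pi)) : ℝ)|
      ≤ 2 * Real.pi * (1 / 2) := mul_le_mul_of_nonneg_left h1 (by positivity)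
    _ = Real.pi := by ring

/-- periodic bump -/
noncomputable def h396_c (ε κ : ℝ) (v : ℝ) : ℝ := κ * expNegInvGlue (Real.cos v - Real.cos ε)

theorem h396_c_contDiff (ε κ : ℝ) : ContDiff ℝ 3 (h396_c ε κ) := by
  unfold h396_c
  exact contDiff_const.mul (expNegInvGlue.contDiff.comp (Real.contDiff_cos.sub contDiff_const))

theorem h396_c_per (ε κ : ℝ) : Function.Periodic (h396_c ε κ) (2 * Real.pi) := by
  intro v
  unfold h396_c
  rw [Real.cos_add_two_pi]

theorem h396_c_supp (ε κ : ℝ) (hε : 0 < ε) (hε1 : ε ≤ 1) (v : ℝ) (h : h396_c ε κ v ≠ 0) :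
    ∃ n : ℤ, |v - 2 * Real.pi * n| < ε := by
  have hpi := Real.pi_gt_three
  obtain ⟨n, hn⟩ := h396_round v
  refine ⟨n, ?_⟩
  have h1 : expNegInvGlue (Real.cos v - Real.cos ε) ≠ 0 := by
    intro h0
    apply h
    unfold h396_c
    rw [h0, mul_zero]
  have h2 : 0 < Real.cos v - Real.cos ε := by
    by_contra hc
    push Not at hc
    exact h1 (expNegInvGlue.zero_of_nonpos hc)
  have h3 : Real.cos |v - 2 * Real.pi * n| = Real.cos v := by
    rw [Real.cos_abs]
    have e : v - 2 * Real.pi * (n : ℝ) = v - (n : ℝ) * (2 * Real.pi) := by ring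
    rw [e]
    exact Real.cos_sub_int_mul_two_pi v n
  have h4 : Real.cos ε < Real.cos |v - 2 * Real.pi * n| := by rw [h3]; linarith
  exact (Real.strictAntiOn_cos.lt_iff_gt ⟨hε.le, by linarith⟩ ⟨abs_nonneg _, hn⟩).1 h4

theorem h396_c_int (ε : ℝ) (hε : 0 < ε) (hε1 : ε ≤ 1) :
    0 < ∫ v in (0:ℝ)..(2 * Real.pi), expNegInvGlue (Real.cos v - Real.cos ε) := by
  have hpi := Real.pi_gt_three
  apply intervalIntegral.integral_pos (by positivity)
  · have hc : ContDiff ℝ 0 expNegInvGlue := expNegInvGlue.contDiff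
    exact (hc.continuous.comp (Real.continuous_cos.sub continuous_const)).continuousOn
  · intro v _
    exact expNegInvGlue.nonneg _
  · refine ⟨0, ⟨le_refl _, by positivity⟩, ?_⟩
    apply expNegInvGlue.pos_of_pos
    have h4 : Real.cos ε < Real.cos 0 :=
      Real.strictAntiOn_cos ⟨le_refl _, by linarith⟩ ⟨hε.le, by linarith⟩ hε
    linarith

theorem ker_exists (ε : ℝ) (hε : 0 < ε) (hε1 : ε ≤ 1) : ∃ p a, Ker ε p a := by
  have hpi := Real.pi_gt_three
  let f : ContDiffBump (0 : ℝ) := ⟨ε / 2, ε, by positivity, by linarith⟩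
  have hrOut : f.rOut = ε := rfl
  obtain ⟨I0, hI0⟩ : ∃ I0, I0 = ∫ v in (0:ℝ)..(2 * Real.pi),
    expNegInvGlue (Real.cos v - Real.cos ε) := ⟨_, rfl⟩
  have hI0pos : 0 < I0 := by rw [hI0]; exact h396_c_int ε hε hε1
  have hsuppa : ∀ t, f.normed volume t ≠ 0 → |t| < ε := by
    intro t ht
    have h1 : t ∈ Function.support (f.normed volume) := ht
    rw [f.support_normed_eq, Metric.mem_ball, dist_zero_right, Real.norm_eq_abs, hrOut] at h1
    exact h1
  refine ⟨fun s => f.normed volume s.re * h396_c ε I0⁻¹ s.im, f.normed volume, ?_⟩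
  refine ⟨?_, ?_, ?_, ?_, ?_, ?_, ?_, ?_, ?_⟩
  · have h1 : ContDiff ℝ 3 (f.normed (volume : Measure ℝ)) := f.contDiff_normed
    exact (h1.comp Complex.reCLM.contDiff).mul
      ((h396_c_contDiff ε I0⁻¹).comp Complex.imCLM.contDiff)
  · intro s
    apply mul_nonneg (f.nonneg_normed _)
    unfold h396_c
    exact mul_nonneg (by positivity) (expNegInvGlue.nonneg _)
  · intro s
    have e1 : (s + 2 * Real.pi * Complex.I).re = s.re := by simp
    have e2 : (s + 2 * Real.pi * Complex.I).im = s.im + 2 * Real.pi := by simp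
    simp only [e1, e2]
    rw [h396_c_per]
  · intro s hs
    exact ⟨hsuppa _ (left_ne_zero_of_mul hs),
      h396_c_supp ε _ hε hε1 _ (right_ne_zero_of_mul hs)⟩
  · exact f.continuous_normed
  · intro t
    exact f.nonneg_normed t
  · exact hsuppa
  · intro c hc
    rw [intervalIntegral.integral_eq_integral_of_support_subset]
    · exact f.integral_normed
    · intro t ht
      have h1 := abs_lt.1 (hsuppa t ht)
      exact ⟨by linarith, by linarith⟩
  · intro t v
    have e1 : ∀ φ : ℝ, (pt t (φ - v)).re = t := fun φ => by simp [pt]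
    have e2 : ∀ φ : ℝ, (pt t (φ - v)).im = φ - v := fun φ => by simp [pt]
    simp only [e1, e2]
    rw [intervalIntegral.integral_const_mul,
      intervalIntegral.integral_comp_sub_right (fun x => h396_c ε I0⁻¹ x) v]
    have e3 : 2 * Real.pi - v = (0 - v) + 2 * Real.pi := by ring
    rw [e3, (h396_c_per ε I0⁻¹).intervalIntegral_add_eq (0 - v) 0, zero_add]
    unfold h396_c
    rw [intervalIntegral.integral_const_mul, ← hI0, inv_mul_cancel₀ hI0pos.ne', mul_one]

end

/-! ### Nums -/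

section

theorem nx_split (d : ℝ) (hd : 0 < d) : d ^ (5/6 : ℝ) * d ^ (1/6 : ℝ) = d := by
  rw [← Real.rpow_add hd]
  norm_num

theorem nx_lam1 (C K d : ℝ) (hK : 0 < K + 3) (hd : 0 < d) :
    (C / 2) * (3 * d) ^ (5/6 : ℝ) * ((K + 3) * d) ^ (1/6 : ℝ) =
      ((C / 2) * 3 ^ (5/6 : ℝ) * (K + 3) ^ (1/6 : ℝ)) * d := by
  rw [Real.mul_rpow (by norm_num) hd.le, Real.mul_rpow hK.le hd.le]
  have := nx_split d hd
  calc C / 2 * (3 ^ (5/6 : ℝ) * d ^ (5/6 : ℝ)) * ((K + 3) ^ (1/6 : ℝ) * d ^ (1/6 : ℝ))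
      = (C / 2 * 3 ^ (5/6 : ℝ) * (K + 3) ^ (1/6 : ℝ)) * (d ^ (5/6 : ℝ) * d ^ (1/6 : ℝ)) := by ring
    _ = _ := by rw [this]

theorem nx_lam2 (C d Δ κ : ℝ) (hκ : 0 < κ) (hd : 0 < d) (h : κ ^ 6 * d ≤ Δ) :
    ∃ ρ, κ ≤ ρ ∧ Δ = ρ ^ 6 * d ∧
      (C / 2) * (3 * d) ^ (5/6 : ℝ) * (2 * Δ) ^ (1/6 : ℝ) =
      ((C / 2) * 3 ^ (5/6 : ℝ) * 2 ^ (1/6 : ℝ)) * (d * ρ) := by
  have hk6 : 0 < κ ^ 6 := by positivity
  have hΔ : 0 < Δ := lt_of_lt_of_le (by positivity) h
  have hr : 0 < Δ / d := div_pos hΔ hd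
  have h6 : ((Δ / d) ^ (1/6 : ℝ)) ^ 6 = Δ / d := by
    rw [← Real.rpow_natCast, ← Real.rpow_mul hr.le]
    norm_num
  have hρ0 : 0 < (Δ / d) ^ (1/6 : ℝ) := Real.rpow_pos_of_pos hr _
  have hΔe : Δ = ((Δ / d) ^ (1/6 : ℝ)) ^ 6 * d := by
    rw [h6]
    field_simp
  refine ⟨(Δ / d) ^ (1/6 : ℝ), ?_, hΔe, ?_⟩
  · by_contra hcon
    push Not at hcon
    have h1 : ((Δ / d) ^ (1/6 : ℝ)) ^ 6 < κ ^ 6 := pow_lt_pow_left₀ hcon hρ0.le (by norm_num)
    rw [h6, div_lt_iff₀ hd] at h1
    linarith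
  · have h2 : Δ ^ (1/6 : ℝ) = (Δ / d) ^ (1/6 : ℝ) * d ^ (1/6 : ℝ) := by
      rw [← Real.mul_rpow hr.le hd.le]
      congr 1
      field_simp
    rw [Real.mul_rpow (by norm_num) hd.le, Real.mul_rpow (by norm_num) hΔ.le, h2]
    have := nx_split d hd
    calc C / 2 * (3 ^ (5/6 : ℝ) * d ^ (5/6 : ℝ)) *
          (2 ^ (1/6 : ℝ) * ((Δ / d) ^ (1/6 : ℝ) * d ^ (1/6 : ℝ)))
        = (C / 2 * 3 ^ (5/6 : ℝ) * 2 ^ (1/6 : ℝ)) *
          ((d ^ (5/6 : ℝ) * d ^ (1/6 : ℝ)) * (Δ / d) ^ (1/6 : ℝ)) := by ring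
      _ = _ := by rw [this]

theorem nums_exist (C : ℝ) (hC : 0 < C) : ∃ C1 K d0 CN, Nums C C1 K d0 CN := by
  have hpi3 := Real.pi_gt_three
  have hpi4 := Real.pi_lt_four
  set Y : ℝ := (C / 2) * 3 ^ (5/6 : ℝ) * 2 ^ (1/6 : ℝ) with hY
  have hYp : 0 < Y := by positivity
  set B : ℝ := 1 / Y ^ 2 with hB
  have hBp : 0 < B := by positivity
  set κ : ℝ := 2 + 20 / B with hκ
  have hκ2 : 2 ≤ κ := by
    have : 0 < 20 / B := by positivity
    linarith
  have hκ0 : 0 < κ := by linarith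
  have hκB : 20 ≤ B * κ := by
    rw [hκ, mul_add, mul_div_cancel₀ _ hBp.ne']
    linarith
  set K : ℝ := κ ^ 6 with hK
  have hK4 : 4 ≤ K := by
    have : (2 : ℝ) ^ 6 ≤ κ ^ 6 := pow_le_pow_left₀ (by norm_num) hκ2 6
    rw [hK]
    linarith [this, (by norm_num : (2 : ℝ) ^ 6 = 64)]
  set X : ℝ := (C / 2) * 3 ^ (5/6 : ℝ) * (K + 3) ^ (1/6 : ℝ) with hX
  have hXp : 0 < X := by positivity
  set A : ℝ := 1 / X ^ 2 with hA
  have hAp : 0 < A := by positivity
  set C1 : ℝ := 1 + 3 / A with hC1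
  have hC1p : 1 < C1 := by
    have : 0 < 3 / A := by positivity
    linarith
  have hlam1 : ∀ d, 0 < d →
      1 / ((C / 2) * (3 * d) ^ (5/6 : ℝ) * ((K + 3) * d) ^ (1/6 : ℝ)) ^ 2 = A / d ^ 2 := by
    intro d hd
    rw [nx_lam1 C K d (by linarith) hd, ← hX, mul_pow, hA, div_div]
  have hlam2 : ∀ d Δ, 0 < d → K * d ≤ Δ → ∃ ρ, κ ≤ ρ ∧ Δ = ρ ^ 6 * d ∧
      1 / ((C / 2) * (3 * d) ^ (5/6 : ℝ) * (2 * Δ) ^ (1/6 : ℝ)) ^ 2 = B / (d * ρ) ^ 2 := by
    intro d Δ hd h
    obtain ⟨ρ, h1, h2, h3⟩ := nx_lam2 C d Δ κ hκ0 hd h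
    refine ⟨ρ, h1, h2, ?_⟩
    rw [h3, ← hY, mul_pow, hB, div_div]
  refine ⟨C1, K, min (1/10) (min (1 / (8 * C1)) A), A + B, ?_⟩
  have hd0A : ∀ d, d ≤ min (1/10) (min (1 / (8 * C1)) A) → d ≤ 1/10 ∧ d ≤ 1 / (8 * C1) ∧ d ≤ A := by
    intro d hd
    exact ⟨hd.trans (min_le_left _ _), hd.trans ((min_le_right _ _).trans (min_le_left _ _)),
      hd.trans ((min_le_right _ _).trans (min_le_right _ _))⟩
  refine ⟨by linarith, hK4, ?_, min_le_left _ _, ?_, by positivity, ?_, ?_, ?_, ?_⟩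
  · refine lt_min (by norm_num) (lt_min (by positivity) hAp)
  · have h1 := (hd0A _ le_rfl).2.1
    have h2 : C1 * (1 / (8 * C1)) = 1 / 8 := by field_simp
    calc C1 * min (1/10) (min (1 / (8 * C1)) A) ≤ C1 * (1 / (8 * C1)) :=
          mul_le_mul_of_nonneg_left h1 (by linarith)
      _ = 1 / 8 := h2
      _ ≤ 1 / 8 := le_rfl
  · intro d hd hdd
    obtain ⟨hd1, hd2, hd3⟩ := hd0A d hdd
    rw [hlam1 d hd]
    have hC1d : C1 * d ≤ 1 / 8 := by
      have : C1 * d ≤ C1 * (1 / (8 * C1)) := mul_le_mul_of_nonneg_left hd2 (by linarith)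
      have h2 : C1 * (1 / (8 * C1)) = 1 / 8 := by field_simp
      linarith
    have hC1d0 : 0 < C1 * d := by positivity
    set x : ℝ := C1 * d * Real.pi with hx
    have hx0 : 0 < x := by positivity
    have hx1 : x < Real.pi / 2 := by
      rw [hx]
      have := mul_le_mul_of_nonneg_right hC1d Real.pi_pos.le
      linarith
    have htan : x < Real.tan x := Real.lt_tan hx0 hx1
    have harg : (1/2 - C1 * d) * Real.pi = Real.pi / 2 - x := by rw [hx]; ring
    rw [harg, Real.tan_pi_div_two_sub]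
    set T : ℝ := (Real.tan x)⁻¹ with hT
    have hT0 : 0 < T := inv_pos.mpr (hx0.trans htan)
    have hT1 : T ≤ 1 / x := by
      rw [hT, ← one_div]
      exact one_div_le_one_div_of_le hx0 htan.le
    set Q : ℝ := (1/2 - C1 * d) * T with hQ
    have hQ0 : 0 < Q := mul_pos (by linarith) hT0
    -- p = 1 / (pi C1)
    set p : ℝ := 1 / (Real.pi * C1) with hp
    have hp0 : 0 < p := by positivity
    have hQ1 : Q ≤ p / (2 * d) := by
      have h1 : Q ≤ (1/2) * (1 / x) :=
        mul_le_mul (by linarith) hT1 hT0.le (by norm_num)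
      refine h1.trans (le_of_eq ?_)
      rw [hx, hp]
      field_simp
    have hpC : p ≤ 1 / C1 := by
      rw [hp]
      apply one_div_le_one_div_of_le (by linarith)
      exact le_mul_of_one_le_left (by linarith) (by linarith)
    have hp1 : p ≤ 1 := by
      refine hpC.trans ?_
      rw [div_le_one (by linarith)]
      linarith
    have hpA : p ≤ A / 3 := by
      refine hpC.trans ?_
      rw [div_le_iff₀ (by linarith), hC1]
      have : A / 3 * (1 + 3 / A) = A / 3 + 1 := by field_simp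
      rw [this]
      linarith
    have hdA : d ^ 2 ≤ A := (pow_le_of_le_one hd.le (by linarith) two_ne_zero).trans hd3
    -- goal
    have e1 : (A / d ^ 2 - 1/2 - 2 * Q ^ 2) * (2 * d) - 4 * Q =
        (2 * A - d ^ 2 - 4 * (Q * d) ^ 2 - 4 * (Q * d)) / d := by
      field_simp
      ring
    have hQd : Q * d ≤ p / 2 := by
      have := mul_le_mul_of_nonneg_right hQ1 hd.le
      have h2 : p / (2 * d) * d = p / 2 := by field_simp
      linarith
    have hQd0 : 0 < Q * d := by positivity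
    have e2 : 0 ≤ 2 * A - d ^ 2 - 4 * (Q * d) ^ 2 - 4 * (Q * d) := by
      have h3 : (Q * d) ^ 2 ≤ (p / 2) ^ 2 := pow_le_pow_left₀ hQd0.le hQd 2
      have h4 : p ^ 2 ≤ p := pow_le_of_le_one hp0.le hp1 two_ne_zero
      have h5 : (p / 2) ^ 2 = p ^ 2 / 4 := by ring
      rw [h5] at h3
      linarith
    have e3 := div_nonneg e2 hd.le
    linarith
  · intro d hd hdd
    rw [hlam1 d hd]
    have : A ≤ A + B := by linarith
    gcongr
  · intro d Δ hd hdd h1 h2
    obtain ⟨hd1, hd2, hd3⟩ := hd0A d hdd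
    obtain ⟨ρ, hρ, hΔ, hl⟩ := hlam2 d Δ hd h1
    rw [hl]
    have hρ0 : 0 < ρ := by linarith
    have hΔ0 : 0 < Δ := by rw [hΔ]; positivity
    have hBρ : 20 ≤ B * ρ ^ 4 := by
      have h3 : κ ≤ ρ ^ 4 := by
        have h4 : ρ ≤ ρ ^ 4 := le_self_pow₀ (by linarith) (by norm_num)
        linarith
      have := mul_le_mul_of_nonneg_left h3 hBp.le
      linarith
    have e1 : B / (d * ρ) ^ 2 * (2 * d) = 2 * (B * ρ ^ 4) / Δ := by
      rw [hΔ]
      field_simp
    have e2 : 4 * (2 / (Δ / 2)) = 16 / Δ := by field_simp; norm_num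
    have e3 : (B / (d * ρ) ^ 2 - 1/2 - 2 * (2 / (Δ / 2)) ^ 2) * (2 * d) =
        2 * (B * ρ ^ 4) / Δ - d - 64 * d / Δ ^ 2 := by
      rw [← e1]
      field_simp
      ring
    rw [e2, e3]
    have h4d : 4 * d ≤ Δ := (mul_le_mul_of_nonneg_right hK4 hd.le).trans h1
    have h5 : 64 * d / Δ ^ 2 ≤ 16 / Δ := by
      rw [div_le_div_iff₀ (by positivity) hΔ0]
      have := mul_nonneg hΔ0.le (sub_nonneg.mpr h4d)
      linarith [this, (by ring : Δ * (Δ - 4 * d) = Δ ^ 2 - 4 * d * Δ)]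
    have h6 : d ≤ 8 / Δ := by
      rw [le_div_iff₀ hΔ0]
      have := mul_le_mul hd1 (h2.trans hpi4.le) hΔ0.le (by norm_num)
      linarith
    have h7 : 40 / Δ ≤ 2 * (B * ρ ^ 4) / Δ := by
      apply div_le_div_of_nonneg_right _ hΔ0.le
      linarith
    have h8 : 40 / Δ = 16 / Δ + 16 / Δ + 8 / Δ := by ring
    linarith
  · intro d Δ hd hdd h1 h2
    obtain ⟨ρ, hρ, hΔ, hl⟩ := hlam2 d Δ hd h1
    rw [hl]
    have hρ1 : 1 ≤ ρ := by linarith
    have h3 : B ≤ A + B := by linarith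
    have h4 : d ^ 2 ≤ (d * ρ) ^ 2 := by
      apply pow_le_pow_left₀ hd.le
      exact le_mul_of_one_le_right hd.le hρ1
    calc B / (d * ρ) ^ 2 ≤ B / d ^ 2 := by gcongr
      _ ≤ (A + B) / d ^ 2 := by gcongr

end

/-! ### Ntr -/

section

theorem ntrick (M I : ℝ → ℝ) (K B : ℝ) (hK : 0 < K) (hB : 1 ≤ B)
    (hM : MonotoneOn M (Ioo 0 1)) (hI : MonotoneOn I (Ioo 0 1))
    (hM0 : ∀ r ∈ Ioo (0:ℝ) 1, 0 ≤ M r) (hI0 : ∀ r ∈ Ioo (0:ℝ) 1, 0 ≤ I r)
    (ha : ∀ r ∈ Ioo (0:ℝ) 1, ∀ x ∈ Ioc (0:ℝ) (Real.log 2),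
      I (r * Real.exp (-x)) ≤ K * x ^ (-(1/2) : ℝ) * (max (M r) B) ^ (1/4 : ℝ))
    (hb : ∀ r ∈ Ioo (0:ℝ) 1, ∀ x ∈ Ioc (0:ℝ) (Real.log 2),
      M (r * Real.exp (-x)) ≤ K / x * I r) :
    ∃ C : ℝ, ∀ r ∈ Ioo (0:ℝ) 1, I r ≤ C / (1 - r) := by
  have hlog0 : (0:ℝ) < Real.log 2 := Real.log_pos (by norm_num)
  have hlog1 : Real.log 2 ≤ 1 := by
    have := Real.log_two_lt_d9
    linarith
  have hlog4 : (1/4:ℝ) ≤ Real.log 2 := by
    have := Real.log_two_gt_d9
    linarith
  have hmem : ∀ r ∈ Ioo (0:ℝ) 1, ∀ x : ℝ, 0 < x → r * Real.exp (-x) ∈ Ioo (0:ℝ) 1 := by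
    intro r hr x hx
    refine ⟨mul_pos hr.1 (Real.exp_pos _), ?_⟩
    have h1 : Real.exp (-x) ≤ 1 := by
      rw [Real.exp_le_one_iff]; linarith
    nlinarith [hr.1, hr.2, Real.exp_pos (-x)]
  -- power facts
  have hpow : ∀ (x D W : ℝ), 0 < x → 0 ≤ D → 0 ≤ W → W ≤ D / x ^ 2 →
      W ^ (1/4 : ℝ) ≤ D ^ (1/4 : ℝ) * x ^ (-(1/2) : ℝ) := by
    intro x D W hx hD hW h
    have h1 : W ^ (1/4 : ℝ) ≤ (D / x ^ 2) ^ (1/4 : ℝ) :=
      Real.rpow_le_rpow hW h (by norm_num)
    have h2 : (D / x ^ 2) = D * x ^ (-2 : ℝ) := by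
      rw [Real.rpow_neg hx.le, div_eq_mul_inv]
      norm_cast
    rw [h2, Real.mul_rpow hD (Real.rpow_nonneg hx.le _), ← Real.rpow_mul hx.le] at h1
    have h3 : (-2 : ℝ) * (1/4) = -(1/2) := by norm_num
    rwa [h3] at h1
  have hsq : ∀ x : ℝ, 0 < x → x ^ (-(1/2) : ℝ) * x ^ (-(1/2) : ℝ) = 1 / x := by
    intro x hx
    rw [← Real.rpow_add hx]
    have : (-(1/2) : ℝ) + -(1/2) = -1 := by norm_num
    rw [this, Real.rpow_neg_one, one_div]
  -- step 1 and 2
  set c : ℝ := K * K with hc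
  have hc0 : 0 < c := by positivity
  have hstep : ∀ r ∈ Ioo (0:ℝ) 1, ∀ x ∈ Ioc (0:ℝ) (Real.log 2),
      M (r * Real.exp (-x) * Real.exp (-x)) ≤
        c / x * (x ^ (-(1/2) : ℝ) * (max (M r) B) ^ (1/4 : ℝ)) := by
    intro r hr x hx
    have h1 := ha r hr x hx
    have h2 := hb (r * Real.exp (-x)) (hmem r hr x hx.1) x hx
    have h3 : K / x * I (r * Real.exp (-x)) ≤
        K / x * (K * x ^ (-(1/2) : ℝ) * (max (M r) B) ^ (1/4 : ℝ)) :=
      mul_le_mul_of_nonneg_left h1 (by have := hx.1; positivity)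
    refine h2.trans (h3.trans (le_of_eq ?_))
    rw [hc]; ring
  set D : ℝ := max 1 ((16 * c + B) ^ 2) with hD
  have hD1 : 1 ≤ D := le_max_left _ _
  have hkey : ∀ r0 ∈ Ioo (0:ℝ) 1, ∀ y ∈ Ioc (0:ℝ) (Real.log 2),
      max (M (r0 * Real.exp (-y))) B ≤ D / y ^ 2 := by
    intro r0 hr0
    set T : Set ℝ := (fun y => y ^ 2 * max (M (r0 * Real.exp (-y))) B) '' Ioc (0:ℝ) (Real.log 2)
      with hT
    have hbdd : BddAbove T := by
      refine ⟨max (M r0) B, ?_⟩
      rintro _ ⟨y, hy, rfl⟩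
      have hm := hmem r0 hr0 y hy.1
      have hle : r0 * Real.exp (-y) ≤ r0 := by
        have h1 : Real.exp (-y) ≤ 1 := by
          rw [Real.exp_le_one_iff]; linarith [hy.1]
        nlinarith [hr0.1]
      have h2 : M (r0 * Real.exp (-y)) ≤ M r0 := hM hm hr0 hle
      have h3 : max (M (r0 * Real.exp (-y))) B ≤ max (M r0) B := max_le_max h2 le_rfl
      have h4 : y ^ 2 ≤ 1 := by
        have := hy.1; have := hy.2; nlinarith
      have h5 : 0 ≤ max (M (r0 * Real.exp (-y))) B := le_trans (by linarith) (le_max_right _ _)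
      show y ^ 2 * max (M (r0 * Real.exp (-y))) B ≤ max (M r0) B
      nlinarith [sq_nonneg y]
    have hne : T.Nonempty := ⟨_, ⟨Real.log 2, ⟨hlog0, le_rfl⟩, rfl⟩⟩
    set N := sSup T with hN
    have hupN : ∀ y ∈ Ioc (0:ℝ) (Real.log 2), max (M (r0 * Real.exp (-y))) B ≤ N / y ^ 2 := by
      intro y hy
      have h1 : y ^ 2 * max (M (r0 * Real.exp (-y))) B ≤ N := le_csSup hbdd ⟨y, hy, rfl⟩
      rw [le_div_iff₀ (by have := hy.1; positivity)]
      linarith
    have hN0 : 0 ≤ N := by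
      have h1 : (Real.log 2) ^ 2 * max (M (r0 * Real.exp (-Real.log 2))) B ≤ N :=
        le_csSup hbdd ⟨Real.log 2, ⟨hlog0, le_rfl⟩, rfl⟩
      have h5 : 0 ≤ max (M (r0 * Real.exp (-Real.log 2))) B :=
        le_trans (by linarith) (le_max_right _ _)
      have : 0 ≤ (Real.log 2) ^ 2 * max (M (r0 * Real.exp (-Real.log 2))) B := by positivity
      linarith
    have hNle : N ≤ 16 * c * N ^ (1/4 : ℝ) + B := by
      refine csSup_le hne ?_
      rintro _ ⟨y, hy, rfl⟩
      show y ^ 2 * max (M (r0 * Real.exp (-y))) B ≤ _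
      have hy0 := hy.1
      have hy1 := hy.2
      have hy2 : y / 2 ∈ Ioc (0:ℝ) (Real.log 2) := ⟨by linarith, by linarith⟩
      have hy4 : y / 2 / 2 ∈ Ioc (0:ℝ) (Real.log 2) := ⟨by linarith, by linarith⟩
      -- use r = r0 e^{-y/2}, x = y/4
      have h1 := hstep (r0 * Real.exp (-(y/2))) (hmem r0 hr0 _ hy2.1) (y/2/2) hy4
      have h2 : r0 * Real.exp (-(y/2)) * Real.exp (-(y/2/2)) * Real.exp (-(y/2/2))
          = r0 * Real.exp (-y) := by
        rw [mul_assoc, mul_assoc, ← Real.exp_add, ← Real.exp_add]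
        congr 2; ring
      rw [h2] at h1
      have h3 := hpow (y/2) N _ hy2.1 hN0 (le_trans (by linarith) (le_max_right _ _))
        (hupN (y/2) hy2)
      have h4 : (y/2) ^ (-(1/2) : ℝ) ≤ (y/2/2) ^ (-(1/2) : ℝ) :=
        Real.rpow_le_rpow_of_nonpos hy4.1 (by linarith) (by norm_num)
      have h5 := hsq (y/2/2) hy4.1
      have hp0 : 0 ≤ (y/2/2) ^ (-(1/2) : ℝ) := Real.rpow_nonneg hy4.1.le _
      have hNp : 0 ≤ N ^ (1/4 : ℝ) := Real.rpow_nonneg hN0 _
      have h6 : M (r0 * Real.exp (-y)) ≤ 16 * c * N ^ (1/4 : ℝ) / y ^ 2 := by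
        calc M (r0 * Real.exp (-y)) ≤ c / (y/2/2) * ((y/2/2) ^ (-(1/2) : ℝ) *
              (max (M (r0 * Real.exp (-(y/2)))) B) ^ (1/4 : ℝ)) := h1
          _ ≤ c / (y/2/2) * ((y/2/2) ^ (-(1/2) : ℝ) * (N ^ (1/4 : ℝ) * (y/2/2) ^ (-(1/2) : ℝ))) := by
              have : 0 < y/2/2 := hy4.1
              have h7 : (max (M (r0 * Real.exp (-(y/2)))) B) ^ (1/4 : ℝ) ≤
                  N ^ (1/4 : ℝ) * (y/2/2) ^ (-(1/2) : ℝ) :=
                h3.trans (mul_le_mul_of_nonneg_left h4 hNp)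
              exact mul_le_mul_of_nonneg_left (mul_le_mul_of_nonneg_left h7 hp0) (by positivity)
          _ = c / (y/2/2) * (N ^ (1/4 : ℝ) * ((y/2/2) ^ (-(1/2) : ℝ) * (y/2/2) ^ (-(1/2) : ℝ))) := by
              ring
          _ = c / (y/2/2) * (N ^ (1/4 : ℝ) * (1 / (y/2/2))) := by rw [h5]
          _ = 16 * c * N ^ (1/4 : ℝ) / y ^ 2 := by
              field_simp
              try ring
      have hy22 : 0 < y ^ 2 := by positivity
      rw [le_div_iff₀ hy22] at h6
      have hyle : y ^ 2 ≤ 1 := by nlinarith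
      rcases le_total (M (r0 * Real.exp (-y))) B with h | h
      · rw [max_eq_right h]
        have : 0 ≤ 16 * c * N ^ (1/4 : ℝ) := by positivity
        nlinarith
      · rw [max_eq_left h]
        linarith
    have hND : N ≤ D := by
      by_cases h : N ≤ 1
      · exact h.trans hD1
      · push Not at h
        have h1 : 1 ≤ N ^ (1/4 : ℝ) := Real.one_le_rpow h.le (by norm_num)
        have h2 : N ≤ (16 * c + B) * N ^ (1/4 : ℝ) := by nlinarith
        have h3 : N ^ (1/4:ℝ) ≤ N ^ (1/2 : ℝ) := Real.rpow_le_rpow_of_exponent_le h.le (by norm_num)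
        have h4 : N ^ (1/2:ℝ) * N ^ (1/2 : ℝ) = N := by
          rw [← Real.rpow_add (by linarith)]; norm_num
        have h5 : 1 ≤ N ^ (1/2 : ℝ) := Real.one_le_rpow h.le (by norm_num)
        have h6 : N ^ (1/2 : ℝ) ≤ 16 * c + B := by
          have h7 : N ^ (1/2:ℝ) * N ^ (1/2 : ℝ) ≤ (16 * c + B) * N ^ (1/2 : ℝ) := by
            rw [h4]
            refine h2.trans ?_
            exact mul_le_mul_of_nonneg_left h3 (by linarith)
          exact le_of_mul_le_mul_right h7 (by linarith)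
        calc N = N ^ (1/2:ℝ) * N ^ (1/2 : ℝ) := h4.symm
          _ ≤ (16 * c + B) ^ 2 := by nlinarith
          _ ≤ D := le_max_right _ _
    intro y hy
    refine (hupN y hy).trans ?_
    exact div_le_div_of_nonneg_right hND (by positivity)
  refine ⟨4 * K * D ^ (1/4 : ℝ), ?_⟩
  intro r hr
  have hr0 := hr.1
  have hr1 := hr.2
  set x : ℝ := (1 - r) / 4 with hx
  have hx0 : 0 < x := by rw [hx]; linarith
  have hxm : x ∈ Ioc (0:ℝ) (Real.log 2) := ⟨hx0, by rw [hx]; linarith⟩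
  set r0 : ℝ := r * Real.exp (2 * x) with hr0'
  have hr0mem : r0 ∈ Ioo (0:ℝ) 1 := by
    refine ⟨by positivity, ?_⟩
    have h1 : 1 - 2 * x ≤ Real.exp (-(2 * x)) := by
      have := Real.add_one_le_exp (-(2 * x)); linarith
    have h2 : Real.exp (2 * x) * Real.exp (-(2 * x)) = 1 := by
      rw [← Real.exp_add]; simp
    have h3 : r < Real.exp (-(2 * x)) := by
      have : r < 1 - 2 * x := by rw [hx]; linarith
      linarith
    calc r0 = r * Real.exp (2 * x) := rfl
      _ < Real.exp (-(2 * x)) * Real.exp (2 * x) := mul_lt_mul_of_pos_right h3 (Real.exp_pos _)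
      _ = 1 := by rw [mul_comm]; exact h2
  have h1 := ha (r0 * Real.exp (-x)) (hmem r0 hr0mem x hx0) x hxm
  have h2 : r0 * Real.exp (-x) * Real.exp (-x) = r := by
    rw [hr0', mul_assoc, mul_assoc, ← Real.exp_add, ← Real.exp_add]
    have : 2 * x + (-x + -x) = 0 := by ring
    rw [this, Real.exp_zero, mul_one]
  rw [h2] at h1
  have h3 := hkey r0 hr0mem x hxm
  have h4 := hpow x D _ hx0 (by linarith) (le_trans (by linarith) (le_max_right _ _)) h3
  have hxp : 0 ≤ x ^ (-(1/2) : ℝ) := Real.rpow_nonneg hx0.le _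
  calc I r ≤ K * x ^ (-(1/2) : ℝ) * (max (M (r0 * Real.exp (-x))) B) ^ (1/4 : ℝ) := h1
    _ ≤ K * x ^ (-(1/2) : ℝ) * (D ^ (1/4 : ℝ) * x ^ (-(1/2) : ℝ)) :=
        mul_le_mul_of_nonneg_left h4 (by positivity)
    _ = K * D ^ (1/4 : ℝ) * (x ^ (-(1/2) : ℝ) * x ^ (-(1/2) : ℝ)) := by ring
    _ = K * D ^ (1/4 : ℝ) * (1 / x) := by rw [hsq x hx0]
    _ = 4 * K * D ^ (1/4 : ℝ) / (1 - r) := by
        rw [hx]
        have : (1 - r) ≠ 0 := by linarith
        field_simp

end

/-! ### Winu -/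

section

theorem win_u (u : ℕ → ℝ) (hu : StrictMono u) (ht : Tendsto u atTop atTop)
    (hs : Summable fun n => (u (n + 1) - u n) ^ 2) (C0 : ℝ) (hC0 : 0 < C0) :
    ∃ d : ℝ → ℝ, ∃ t0 : ℝ, Continuous d ∧ (∀ t, t0 ≤ t → C0 * Real.exp (-t) ≤ d t) ∧
      IntegrableOn d (Ici t0) ∧ Tendsto d atTop (𝓝 0) ∧
      ∀ t, t0 ≤ t → ∀ a, |a - t| ≤ 3 * d t → ∃ j, u j ∈ Icc a (a + d t / 3) := by
  obtain ⟨δ, hδ⟩ : ∃ δ : ℕ → ℝ, ∀ n, δ n = u (n + 1) - u n := ⟨_, fun _ => rfl⟩
  have hδpos : ∀ n, 0 < δ n := fun n => by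
    rw [hδ]; exact sub_pos.2 (hu (Nat.lt_succ_self n))
  have hδ2 : Summable fun n => δ n ^ 2 := by simpa only [hδ] using hs
  have hδ0 : Tendsto δ atTop (𝓝 0) := by
    have h := hδ2.tendsto_atTop_zero
    have h2 := (Real.continuous_sqrt.tendsto 0).comp h
    rw [Real.sqrt_zero] at h2
    refine h2.congr (fun n => ?_)
    exact Real.sqrt_sq (hδpos n).le
  obtain ⟨M, hM⟩ := hδ0.bddAbove_range
  have hM' : ∀ n, δ n ≤ M := fun n => hM ⟨n, rfl⟩
  have hMpos : 0 < M := lt_of_lt_of_le (hδpos 0) (hM' 0)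
  obtain ⟨D, hD⟩ : ∃ D : ℕ → ℝ → ℝ, ∀ i t, D i t = max 0 (max (u i - t) (t - u (i + 1))) :=
    ⟨_, fun _ _ => rfl⟩
  obtain ⟨f, hf⟩ : ∃ f : ℕ → ℝ → ℝ, ∀ i t, f i t = max 0 (δ i - D i t / 24) :=
    ⟨_, fun _ _ => rfl⟩
  have hD0 : ∀ i t, 0 ≤ D i t := fun i t => by rw [hD]; exact le_max_left _ _
  have hf0 : ∀ i t, 0 ≤ f i t := fun i t => by rw [hf]; exact le_max_left _ _
  have hfδ : ∀ i t, f i t ≤ δ i := fun i t => by
    rw [hf]
    refine max_le (hδpos i).le ?_
    have := hD0 i t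
    linarith
  have hfM : ∀ i t, f i t ≤ M := fun i t => (hfδ i t).trans (hM' i)
  have hDl : ∀ i t s, D i s ≤ D i t + |t - s| := by
    intro i t s
    have h1 := abs_nonneg (t - s)
    have h2 := le_abs_self (t - s)
    have h3 := neg_abs_le (t - s)
    have e1 : u i - t ≤ D i t := by rw [hD]; exact (le_max_left _ _).trans (le_max_right _ _)
    have e2 : t - u (i + 1) ≤ D i t := by
      rw [hD]; exact (le_max_right _ _).trans (le_max_right _ _)
    have e3 := hD0 i t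
    rw [hD i s]
    refine max_le (by linarith) (max_le (by linarith) (by linarith))
  have hfl : ∀ i t s, f i t ≤ f i s + |t - s| := by
    intro i t s
    have h1 := abs_nonneg (t - s)
    have h2 := hDl i t s
    have e1 : δ i - D i s / 24 ≤ f i s := by rw [hf]; exact le_max_right _ _
    have e2 := hf0 i s
    rw [hf i t]
    refine max_le (by linarith) (by linarith)
  obtain ⟨g, hg⟩ : ∃ g : ℝ → ℝ, ∀ t, g t = ⨆ i, f i t := ⟨_, fun _ => rfl⟩
  have hbdd : ∀ t, BddAbove (range fun i => f i t) := by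
    intro t
    refine ⟨M, ?_⟩
    rintro _ ⟨i, rfl⟩
    exact hfM i t
  have hfg : ∀ i t, f i t ≤ g t := fun i t => by rw [hg]; exact le_ciSup (hbdd t) i
  have hgle : ∀ t c, (∀ i, f i t ≤ c) → g t ≤ c := fun t c h => by rw [hg]; exact ciSup_le h
  have hg0 : ∀ t, 0 ≤ g t := fun t => (hf0 0 t).trans (hfg 0 t)
  have hgl : LipschitzWith 1 g := by
    refine LipschitzWith.of_le_add (fun t s => ?_)
    refine hgle t _ (fun i => ?_)
    rw [Real.dist_eq]
    have h1 := hfl i t s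
    have h2 := hfg i s
    linarith
  have hgc : Continuous g := hgl.continuous
  have hgint : Integrable g := by
    refine ⟨hgc.aestronglyMeasurable, ?_⟩
    rw [hasFiniteIntegral_iff_ofReal (Filter.Eventually.of_forall hg0)]
    have hle : ∀ t, ENNReal.ofReal (g t) ≤ ∑' i, ENNReal.ofReal (f i t) := by
      intro t
      have hS : (⨆ i, ENNReal.ofReal (f i t)) ≠ ⊤ := by
        refine ne_of_lt (lt_of_le_of_lt (iSup_le (fun i => ENNReal.ofReal_le_ofReal (hfM i t)))
          ENNReal.ofReal_lt_top)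
      have h1 : g t ≤ (⨆ i, ENNReal.ofReal (f i t)).toReal := by
        refine hgle t _ (fun i => ?_)
        have h2 := ENNReal.toReal_mono hS (le_iSup (fun i => ENNReal.ofReal (f i t)) i)
        rwa [ENNReal.toReal_ofReal (hf0 i t)] at h2
      calc ENNReal.ofReal (g t) ≤ ENNReal.ofReal ((⨆ i, ENNReal.ofReal (f i t)).toReal) :=
            ENNReal.ofReal_le_ofReal h1
        _ = ⨆ i, ENNReal.ofReal (f i t) := ENNReal.ofReal_toReal hS
        _ ≤ ∑' i, ENNReal.ofReal (f i t) := iSup_le (fun i => ENNReal.le_tsum i)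
    have hfc : ∀ i, Continuous (f i) := fun i =>
      (LipschitzWith.of_le_add (fun t s => by rw [Real.dist_eq]; exact hfl i t s)).continuous
    have hfint : ∀ i, ∫⁻ t, ENNReal.ofReal (f i t) ≤ ENNReal.ofReal (49 * δ i ^ 2) := by
      intro i
      have hdi := hδ i
      have hb : ∀ t, ENNReal.ofReal (f i t) ≤
          (Icc (u i - 24 * δ i) (u (i + 1) + 24 * δ i)).indicator
            (fun _ => ENNReal.ofReal (δ i)) t := by
        intro t
        by_cases hmem : t ∈ Icc (u i - 24 * δ i) (u (i + 1) + 24 * δ i)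
        · rw [indicator_of_mem hmem]
          exact ENNReal.ofReal_le_ofReal (hfδ i t)
        · rw [indicator_of_notMem hmem]
          have : f i t = 0 := by
            rw [hf]
            refine max_eq_left ?_
            rw [mem_Icc, not_and_or, not_le, not_le] at hmem
            have e1 : u i - t ≤ D i t := by
              rw [hD]; exact (le_max_left _ _).trans (le_max_right _ _)
            have e2 : t - u (i + 1) ≤ D i t := by
              rw [hD]; exact (le_max_right _ _).trans (le_max_right _ _)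
            rcases hmem with h | h <;> linarith
          rw [this, ENNReal.ofReal_zero]
      calc ∫⁻ t, ENNReal.ofReal (f i t) ≤ ∫⁻ t,
            (Icc (u i - 24 * δ i) (u (i + 1) + 24 * δ i)).indicator
            (fun _ => ENNReal.ofReal (δ i)) t := lintegral_mono hb
        _ = ENNReal.ofReal (δ i) * volume (Icc (u i - 24 * δ i) (u (i + 1) + 24 * δ i)) := by
            rw [lintegral_indicator_const measurableSet_Icc]
        _ = ENNReal.ofReal (49 * δ i ^ 2) := by
            rw [Real.volume_Icc, ← ENNReal.ofReal_mul (hδpos i).le]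
            congr 1
            rw [hdi]; ring
    calc ∫⁻ t, ENNReal.ofReal (g t) ≤ ∫⁻ t, ∑' i, ENNReal.ofReal (f i t) := lintegral_mono hle
      _ = ∑' i, ∫⁻ t, ENNReal.ofReal (f i t) :=
          lintegral_tsum (fun i => ((hfc i).measurable.ennreal_ofReal).aemeasurable)
      _ ≤ ∑' i, ENNReal.ofReal (49 * δ i ^ 2) := ENNReal.tsum_le_tsum hfint
      _ = ENNReal.ofReal (∑' i, 49 * δ i ^ 2) :=
          (ENNReal.ofReal_tsum_of_nonneg (fun i => by positivity) (hδ2.mul_left 49)).symm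
      _ < ⊤ := ENNReal.ofReal_lt_top
  have hglim : Tendsto g atTop (𝓝 0) := by
    rw [Metric.tendsto_atTop]
    intro ε hε
    obtain ⟨I, hI⟩ := (Metric.tendsto_atTop.1 hδ0) (ε / 2) (by linarith)
    refine ⟨u I + 24 * M, fun t htt => ?_⟩
    rw [Real.dist_eq, sub_zero, abs_of_nonneg (hg0 t)]
    refine lt_of_le_of_lt (hgle t (ε / 2) (fun i => ?_)) (by linarith)
    by_cases hi : I ≤ i
    · have h1 := hI i hi
      rw [Real.dist_eq, sub_zero, abs_of_pos (hδpos i)] at h1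
      exact (hfδ i t).trans h1.le
    · have h1 : u (i + 1) ≤ u I := hu.monotone (by omega)
      have e2 : t - u (i + 1) ≤ D i t := by
        rw [hD]; exact (le_max_right _ _).trans (le_max_right _ _)
      have h2 := hM' i
      rw [hf]
      refine max_le (by linarith) (by linarith)
  have hexplim : Tendsto (fun t : ℝ => C0 * Real.exp (-t)) atTop (𝓝 0) := by
    have := (Real.tendsto_exp_neg_atTop_nhds_zero).const_mul C0
    simpa using this
  have hdlim : Tendsto (fun t : ℝ => 6 * g t + C0 * Real.exp (-t)) atTop (𝓝 0) := by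
    have := (hglim.const_mul 6).add hexplim
    simpa using this
  obtain ⟨T, hT⟩ := (Metric.tendsto_atTop.1 hdlim) 1 one_pos
  refine ⟨fun t => 6 * g t + C0 * Real.exp (-t), max T (u 0 + 3), ?_, ?_, ?_, hdlim, ?_⟩
  · exact (continuous_const.mul hgc).add
      (continuous_const.mul (Real.continuous_exp.comp continuous_neg))
  · intro t _
    have := hg0 t
    simp only
    linarith
  · refine (hgint.const_mul 6).integrableOn.add ?_
    rw [integrableOn_Ici_iff_integrableOn_Ioi]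
    have h1 := exp_neg_integrableOn_Ioi (max T (u 0 + 3)) (b := 1) one_pos
    have h2 := h1.const_mul C0
    refine h2.congr (Filter.Eventually.of_forall (fun t => ?_))
    simp
  · intro t htt a ha
    simp only at ha ⊢
    have hTt : T ≤ t := (le_max_left _ _).trans htt
    have hut : u 0 + 3 ≤ t := (le_max_right _ _).trans htt
    set d : ℝ := 6 * g t + C0 * Real.exp (-t) with hd
    have hexp : 0 < C0 * Real.exp (-t) := by positivity
    have hdpos : 0 < d := by have := hg0 t; linarith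
    have hd1 : d < 1 := by
      have h1 := hT t hTt
      rw [Real.dist_eq, sub_zero] at h1
      exact lt_of_le_of_lt (le_abs_self _) h1
    have hab := abs_le.1 ha
    have ha0 : u 0 ≤ a := by linarith [hab.1]
    by_contra hcon
    push Not at hcon
    have hex : ∃ n, a ≤ u n := by
      obtain ⟨n, hn⟩ := (tendsto_atTop.1 ht a).exists
      exact ⟨n, hn⟩
    classical
    have hn := Nat.find_spec hex
    have hn0 : Nat.find hex ≠ 0 := by
      intro h0
      rw [h0] at hn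
      apply hcon 0
      exact ⟨hn, by linarith⟩
    obtain ⟨i, hi⟩ := Nat.exists_eq_succ_of_ne_zero hn0
    have hi1 : u i < a := by
      by_contra hc
      push Not at hc
      have := Nat.find_min' hex hc
      omega
    rw [hi] at hn
    have hi2 : a + d / 3 < u (i + 1) := by
      by_contra hc
      push Not at hc
      exact hcon (i + 1) ⟨hn, hc⟩
    have hDi : D i t ≤ 3 * d := by
      rw [hD]
      have hn' : a ≤ u (i + 1) := hn
      refine max_le (by linarith) (max_le (by linarith [hab.1]) (by linarith [hab.2, hab.1]))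
    have hfi : δ i - D i t / 24 ≤ f i t := by rw [hf]; exact le_max_right _ _
    have hfgi := hfg i t
    have hdi := hδ i
    linarith

end

/-! ### Winex -/

section

theorem win_exists_aux (z w0 : ℂ) (h0 : 0 < ‖w0‖) (hz : 2 * ‖w0‖ ≤ ‖z‖) :
    |Real.log ‖z - w0‖ - Real.log ‖z‖| ≤ 2 * ‖w0‖ * Real.exp (-Real.log ‖z‖) := by
  have ha : 0 < ‖z‖ := by linarith
  have h1 : |‖z - w0‖ - ‖z‖| ≤ ‖w0‖ := by
    have := abs_norm_sub_norm_le (z - w0) z
    have e : z - w0 - z = -w0 := by ring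
    rwa [e, norm_neg] at this
  have h2 := abs_le.1 h1
  have hb : ‖z‖ / 2 ≤ ‖z - w0‖ := by linarith [h2.1]
  have hb0 : 0 < ‖z - w0‖ := by linarith
  rw [Real.exp_neg, Real.exp_log ha]
  have e1 : Real.log ‖z - w0‖ - Real.log ‖z‖ ≤ 2 * ‖w0‖ * ‖z‖⁻¹ := by
    rw [← Real.log_div hb0.ne' ha.ne']
    have h3 := Real.log_le_sub_one_of_pos (div_pos hb0 ha)
    refine h3.trans ?_
    rw [← div_eq_mul_inv, le_div_iff₀ ha, sub_mul, div_mul_cancel₀ _ ha.ne', one_mul]
    linarith [h2.2]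
  have e2 : Real.log ‖z‖ - Real.log ‖z - w0‖ ≤ 2 * ‖w0‖ * ‖z‖⁻¹ := by
    rw [← Real.log_div ha.ne' hb0.ne']
    have h3 := Real.log_le_sub_one_of_pos (div_pos ha hb0)
    refine h3.trans ?_
    have h4 : ‖z‖ / ‖z - w0‖ - 1 ≤ ‖w0‖ / ‖z - w0‖ := by
      rw [le_div_iff₀ hb0, sub_mul, div_mul_cancel₀ _ hb0.ne', one_mul]
      linarith [h2.1]
    refine h4.trans ?_
    rw [div_le_iff₀ hb0]
    have h5 : 2 * ‖w0‖ * ‖z‖⁻¹ * (‖z‖ / 2) = ‖w0‖ := by field_simp
    calc ‖w0‖ = 2 * ‖w0‖ * ‖z‖⁻¹ * (‖z‖ / 2) := h5.symm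
      _ ≤ _ := mul_le_mul_of_nonneg_left hb (by positivity)
  rw [abs_le]
  constructor <;> linarith

theorem win_exists (w : ℕ → ℂ) (h0 : 0 < ‖w 0‖) (hm : StrictMono (fun k : ℕ => ‖w k‖))
    (ht : Tendsto (fun k : ℕ => ‖w k‖) atTop atTop)
    (hs : Summable (fun n : ℕ => (Real.log (‖w (n + 1)‖ / ‖w n‖)) ^ 2)) :
    ∃ d t0, Win (fun k => Complex.log (w (k + 1) - w 0)) d t0 := by
  have hpos : ∀ k, 0 < ‖w k‖ := fun k => h0.trans_le (hm.monotone (Nat.zero_le k))
  have hu : StrictMono fun j : ℕ => Real.log ‖w (j + 1)‖ := by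
    intro i j hij
    exact Real.log_lt_log (hpos _) (hm (by omega))
  have hut : Tendsto (fun j : ℕ => Real.log ‖w (j + 1)‖) atTop atTop :=
    Real.tendsto_log_atTop.comp (ht.comp (tendsto_add_atTop_nat 1))
  have hus : Summable fun n : ℕ => (Real.log ‖w (n + 1 + 1)‖ - Real.log ‖w (n + 1)‖) ^ 2 := by
    have h := (summable_nat_add_iff 1).2 hs
    refine h.congr fun n => ?_
    rw [Real.log_div (hpos _).ne' (hpos _).ne']
  obtain ⟨d, t0, hdc, hd1, hd2, hd3, hd4⟩ := win_u (fun j : ℕ => Real.log ‖w (j + 1)‖) hu hut hus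
    (12 * ‖w 0‖) (by positivity)
  obtain ⟨t1, ht1⟩ := eventually_atTop.1 (hd3.eventually (ge_mem_nhds (zero_lt_one' ℝ)))
  refine ⟨d, max t0 (max t1 (Real.log (2 * ‖w 0‖) + 1)), hdc, ?_, ?_, ?_, hd3⟩
  · intro t htt
    have := hd1 t ((le_max_left _ _).trans htt)
    have h2 : 0 < 12 * ‖w 0‖ * Real.exp (-t) := by positivity
    linarith
  · intro t htt
    have k0 : t0 ≤ t := (le_max_left _ _).trans htt
    have k1 : t1 ≤ t := ((le_max_left _ _).trans (le_max_right _ _)).trans htt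
    have k2 : Real.log (2 * ‖w 0‖) + 1 ≤ t := ((le_max_right _ _).trans (le_max_right _ _)).trans htt
    have hd : d t ≤ 1 := ht1 t k1
    have hdl := hd1 t k0
    have hexp : 0 < Real.exp (-t) := Real.exp_pos _
    have hdp : 0 < d t := by
      have h2 : 0 < 12 * ‖w 0‖ * Real.exp (-t) := by positivity
      linarith
    have key : ∀ j : ℕ, t - 2 * d t / 3 ≤ Real.log ‖w (j + 1)‖ →
        |(Complex.log (w (j + 1) - w 0)).re - Real.log ‖w (j + 1)‖| ≤ d t / 3 := by
      intro j hj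
      rw [Complex.log_re]
      have h2 : 2 * ‖w 0‖ ≤ ‖w (j + 1)‖ := by
        have : Real.log (2 * ‖w 0‖) ≤ Real.log ‖w (j + 1)‖ := by linarith
        exact (Real.log_le_log_iff (by positivity) (hpos _)).1 this
      refine (win_exists_aux (w (j + 1)) (w 0) h0 h2).trans ?_
      have h3 : Real.exp (-Real.log ‖w (j + 1)‖) ≤ 2 * Real.exp (-t) := by
        have h4 : Real.exp (-Real.log ‖w (j + 1)‖) ≤ Real.exp (2 / 3 + -t) := by
          apply Real.exp_le_exp.2
          linarith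
        rw [Real.exp_add] at h4
        have h5 : Real.exp (2 / 3) ≤ 2 := by
          rw [← Real.le_log_iff_exp_le (by norm_num)]
          have := Real.log_two_gt_d9
          linarith
        exact h4.trans (mul_le_mul_of_nonneg_right h5 hexp.le)
      calc 2 * ‖w 0‖ * Real.exp (-Real.log ‖w (j + 1)‖) ≤ 2 * ‖w 0‖ * (2 * Real.exp (-t)) :=
            mul_le_mul_of_nonneg_left h3 (by positivity)
        _ = (12 * ‖w 0‖ * Real.exp (-t)) / 3 := by ring
        _ ≤ d t / 3 := by linarith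
    obtain ⟨j, hj1, hj2⟩ := hd4 t k0 (t - 2 * d t / 3) (by
      rw [abs_le]; constructor <;> linarith)
    obtain ⟨k, hk1, hk2⟩ := hd4 t k0 (t + 4 * d t / 3) (by
      rw [abs_le]; constructor <;> linarith)
    have e1 := abs_le.1 (key j hj1)
    have e2 := abs_le.1 (key k (by linarith))
    refine ⟨j, k, ⟨?_, ?_⟩, ⟨?_, ?_⟩⟩
    · linarith [e1.1]
    · linarith [e1.2]
    · linarith [e2.1]
    · linarith [e2.2]
  · exact hd2.mono_set (Ici_subset_Ici.2 (le_max_left _ _))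

end

/-! ### Init1 -/

section

theorem init_one_pow {x : ℝ} (hx : 0 ≤ x) : x ^ (4/3 : ℝ) = x * x ^ (1/3 : ℝ) := by
  have e : (4/3 : ℝ) = 1 + 1/3 := by norm_num
  rw [e, Real.rpow_one_add' hx (by norm_num)]

theorem init_one (g g' : ℝ → ℝ) (hg : ∀ φ, HasDerivAt g (g' φ) φ) (hg' : Continuous g')
    (h0 : ∀ φ, 0 ≤ g φ) :
    ∫ φ in (0:ℝ)..(2 * Real.pi), g φ ^ (4/3 : ℝ) ≤
      ((∫ φ in (0:ℝ)..(2 * Real.pi), g φ) + ∫ φ in (0:ℝ)..(2 * Real.pi), |g' φ|) ^ (4/3 : ℝ) := by
  have hgc : Continuous g := continuous_iff_continuousAt.2 fun x => (hg x).continuousAt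
  have hac : Continuous (fun φ => |g' φ|) := hg'.abs
  have hP : (0 : ℝ) < 2 * Real.pi := by positivity
  have hP1 : (1 : ℝ) ≤ 2 * Real.pi := by linarith [Real.pi_gt_three]
  set m : ℝ := ∫ φ in (0:ℝ)..(2 * Real.pi), g φ with hm
  set n : ℝ := ∫ φ in (0:ℝ)..(2 * Real.pi), |g' φ| with hn
  have hm0 : 0 ≤ m := intervalIntegral.integral_nonneg hP.le fun φ _ => h0 φ
  have hn0 : 0 ≤ n := intervalIntegral.integral_nonneg hP.le fun φ _ => abs_nonneg _
  obtain ⟨φ0, hφ0, hmin⟩ := isCompact_Icc.exists_isMinOn (nonempty_Icc.2 hP.le) hgc.continuousOn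
  have h1 : g φ0 ≤ m := by
    have h2 : ∫ φ in (0:ℝ)..(2 * Real.pi), g φ0 ≤ m :=
      intervalIntegral.integral_mono_on hP.le (continuous_const.intervalIntegrable _ _)
        (hgc.intervalIntegrable _ _) fun φ hφ => hmin hφ
    rw [intervalIntegral.integral_const, smul_eq_mul, sub_zero] at h2
    nlinarith [h0 φ0]
  have hbd : ∀ a b, 0 ≤ a → a ≤ b → b ≤ 2 * Real.pi → |g b - g a| ≤ n := by
    intro a b ha hab hb
    have e : ∫ φ in a..b, g' φ = g b - g a :=
      intervalIntegral.integral_eq_sub_of_hasDerivAt (fun x _ => hg x)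
        (hg'.intervalIntegrable _ _)
    rw [← e]
    refine (intervalIntegral.abs_integral_le_integral_abs hab).trans ?_
    exact intervalIntegral.integral_mono_interval ha hab hb
      (Filter.Eventually.of_forall fun φ => abs_nonneg _) (hac.intervalIntegrable _ _)
  have hub : ∀ φ ∈ Icc (0:ℝ) (2 * Real.pi), g φ ≤ m + n := by
    intro φ hφ
    rcases le_total φ0 φ with h | h
    · have := hbd φ0 φ hφ0.1 h hφ.2
      have := (abs_le.1 this).2
      linarith
    · have := hbd φ φ0 hφ.1 h hφ0.2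
      have := (abs_le.1 this).1
      linarith
  have hs0 : 0 ≤ m + n := by linarith
  calc ∫ φ in (0:ℝ)..(2 * Real.pi), g φ ^ (4/3 : ℝ)
      ≤ ∫ φ in (0:ℝ)..(2 * Real.pi), g φ * (m + n) ^ (1/3 : ℝ) := by
        refine intervalIntegral.integral_mono_on hP.le ?_ ?_ ?_
        · exact (hgc.rpow_const fun x => Or.inr (by norm_num)).intervalIntegrable _ _
        · exact (hgc.mul continuous_const).intervalIntegrable _ _
        · intro φ hφ
          rw [init_one_pow (h0 φ)]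
          exact mul_le_mul_of_nonneg_left
            (Real.rpow_le_rpow (h0 φ) (hub φ hφ) (by norm_num)) (h0 φ)
    _ = m * (m + n) ^ (1/3 : ℝ) := by
        rw [intervalIntegral.integral_mul_const]
    _ ≤ (m + n) * (m + n) ^ (1/3 : ℝ) :=
        mul_le_mul_of_nonneg_right (by linarith) (Real.rpow_nonneg hs0 _)
    _ = (m + n) ^ (4/3 : ℝ) := (init_one_pow hs0).symm

end

end HW287
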