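import Pool.Agent.Helper287.HW.Walls
import Pool.Agent.Helper287.HW.Real

set_option autoImplicit false
set_option linter.all false

open MeasureTheory Set Filter Topology

namespace HW287

/-! ### Initb -/

section

lemma swapc (g : ℝ → ℝ → ℝ) (hg : Continuous (Function.uncurry g)) {a b c d : ℝ}
    (hab : a ≤ b) (hcd : c ≤ d) :
    ∫ x in a..b, ∫ y in c..d, g x y = ∫ y in c..d, ∫ x in a..b, g x y := by
  simp only [intervalIntegral.integral_of_le hab, intervalIntegral.integral_of_le hcd]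
  apply MeasureTheory.integral_integral_swap
  rw [Measure.prod_restrict]
  exact (hg.continuousOn.integrableOn_compact (isCompact_Icc.prod isCompact_Icc)).mono_set
    (Set.prod_mono Ioc_subset_Icc_self Ioc_subset_Icc_self)

lemma aint_le {ε : ℝ} {p : ℂ → ℝ} {a : ℝ → ℝ} (hk : Ker ε p a) (t0 f : ℝ) :
    ∫ t in t0..(t0 + 1), a (t - f) ≤ 1 := by
  have h1 : ∫ t in t0..(t0 + 1), a (t - f) = ∫ t in (t0 - f)..(t0 + 1 - f), a t := by
    rw [intervalIntegral.integral_comp_sub_right (fun t => a t) f]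
  rw [h1]
  set c : ℝ := max ε (|t0 - f| + 1) with hc
  have hc1 : ε ≤ c := le_max_left _ _
  have hc2 : |t0 - f| + 1 ≤ c := le_max_right _ _
  have habs := abs_le.mp (le_refl |t0 - f|)
  refine le_trans ?_ (le_of_eq (hk.aint c hc1))
  apply intervalIntegral.integral_mono_interval
  · linarith [habs.1]
  · linarith
  · linarith [habs.2]
  · exact Filter.Eventually.of_forall (fun t => hk.anonneg t)
  · exact hk.acont.intervalIntegrable _ _

lemma cont3 (S : ℂ → ℂ) (R : ℝ) (a : ℝ → ℝ) (ha : Continuous a) (hR : 1 < R)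
    (hS : DifferentiableOn ℂ S (Metric.ball 0 R)) (η : ℝ → ℝ → ℝ)
    (hη : ContinuousOn (Function.uncurry η) {r : ℝ × ℝ | 0 ≤ r.1}) :
    Continuous (fun q : ℝ × ℝ × ℝ => a (q.1 - (S (zz (max q.2.1 0) q.2.2)).re) *
      η (max q.2.1 0) q.2.2) := by
  obtain ⟨h1, h2⟩ := S_cont S R hR hS
  have e1 : Continuous (fun q : ℝ × ℝ × ℝ => ((max q.2.1 0, q.2.2) : ℝ × ℝ)) := by fun_prop
  have hm : ∀ q : ℝ × ℝ × ℝ, ((max q.2.1 0, q.2.2) : ℝ × ℝ) ∈ {r : ℝ × ℝ | 0 ≤ r.1} := by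
    intro q
    show (0:ℝ) ≤ max q.2.1 0
    exact le_max_right _ _
  have e2 : Continuous (fun q : ℝ × ℝ × ℝ => S (zz (max q.2.1 0) q.2.2)) :=
    h1.comp_continuous e1 hm
  have e3 : Continuous (fun q : ℝ × ℝ × ℝ => η (max q.2.1 0) q.2.2) :=
    hη.comp_continuous e1 hm
  have e4 : Continuous (fun q : ℝ × ℝ × ℝ => (S (zz (max q.2.1 0) q.2.2)).re) :=
    Complex.continuous_re.comp e2
  exact (ha.comp (continuous_fst.sub e4)).mul e3

lemma keyb (S : ℂ → ℂ) (R X ε t0 c : ℝ) (p : ℂ → ℝ) (a : ℝ → ℝ) (hR : 1 < R)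
    (hS : DifferentiableOn ℂ S (Metric.ball 0 R)) (hX0 : 0 < X) (hX1 : X ≤ 1) (hε : ε ≤ 1)
    (hk : Ker ε p a) (η : ℝ → ℝ → ℝ)
    (hη : ContinuousOn (Function.uncurry η) {r : ℝ × ℝ | 0 ≤ r.1}) (hc : 0 ≤ c)
    (hb : ∀ x θ, 0 < x → t0 - 1 ≤ (S (zz x θ)).re → (S (zz x θ)).re ≤ t0 + 2 →
      η x θ ≤ c * x ^ (-(1/2) : ℝ)) :
    Continuous (fun t : ℝ => ∫ x in (0:ℝ)..X, ∫ θ in (0:ℝ)..(2 * Real.pi),
      a (t - (S (zz x θ)).re) * η x θ) ∧
    ∫ t in t0..(t0 + 1), (∫ x in (0:ℝ)..X, ∫ θ in (0:ℝ)..(2 * Real.pi),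
      a (t - (S (zz x θ)).re) * η x θ) ≤ 4 * Real.pi * c := by
  have hpi := Real.pi_pos
  set W : ℝ → ℝ → ℝ → ℝ := fun t x θ => a (t - (S (zz (max x 0) θ)).re) * η (max x 0) θ with hW
  have hWc : Continuous (fun q : ℝ × ℝ × ℝ => W q.1 q.2.1 q.2.2) :=
    cont3 S R a hk.acont hR hS η hη
  have heq : ∀ t : ℝ, (∫ x in (0:ℝ)..X, ∫ θ in (0:ℝ)..(2 * Real.pi),
      a (t - (S (zz x θ)).re) * η x θ) = ∫ x in (0:ℝ)..X, ∫ θ in (0:ℝ)..(2 * Real.pi), W t x θ := by
    intro t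
    apply intervalIntegral.integral_congr
    intro x hx
    rw [uIcc_of_le hX0.le] at hx
    simp only [hW, max_eq_left hx.1]
  simp only [heq]
  have hV : Continuous (Function.uncurry (fun t x : ℝ => ∫ θ in (0:ℝ)..(2 * Real.pi), W t x θ)) := by
    have : Continuous (Function.uncurry (fun (q : ℝ × ℝ) (θ : ℝ) => W q.1 q.2 θ)) :=
      hWc.comp (by fun_prop : Continuous (fun q : (ℝ × ℝ) × ℝ => ((q.1.1, q.1.2, q.2) : ℝ × ℝ × ℝ)))
    exact intervalIntegral.continuous_parametric_intervalIntegral_of_continuous' this _ _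
  refine ⟨intervalIntegral.continuous_parametric_intervalIntegral_of_continuous' hV _ _, ?_⟩
  rw [swapc _ hV (by linarith) hX0.le]
  have h2 : ∀ x : ℝ, ∫ t in t0..(t0 + 1), ∫ θ in (0:ℝ)..(2 * Real.pi), W t x θ =
      ∫ θ in (0:ℝ)..(2 * Real.pi), ∫ t in t0..(t0 + 1), W t x θ := by
    intro x
    apply swapc (fun t θ => W t x θ) _ (by linarith) (by linarith)
    exact hWc.comp (by fun_prop : Continuous (fun q : ℝ × ℝ => ((q.1, x, q.2) : ℝ × ℝ × ℝ)))
  have h3 : ∀ x : ℝ, 0 < x → ∫ t in t0..(t0 + 1), ∫ θ in (0:ℝ)..(2 * Real.pi), W t x θ ≤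
      2 * Real.pi * c * x ^ (-(1/2) : ℝ) := by
    intro x hx
    rw [h2 x]
    have hxc : 0 ≤ c * x ^ (-(1/2) : ℝ) := mul_nonneg hc (Real.rpow_nonneg hx.le _)
    have h4 : ∀ θ : ℝ, ∫ t in t0..(t0 + 1), W t x θ ≤ c * x ^ (-(1/2) : ℝ) := by
      intro θ
      calc ∫ t in t0..(t0 + 1), W t x θ
          ≤ ∫ t in t0..(t0 + 1), a (t - (S (zz x θ)).re) * (c * x ^ (-(1/2) : ℝ)) := by
            apply intervalIntegral.integral_mono_on (by linarith)
            · exact (hWc.comp (by fun_prop : Continuous (fun t : ℝ =>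
                ((t, x, θ) : ℝ × ℝ × ℝ)))).intervalIntegrable _ _
            · exact ((hk.acont.comp (continuous_id.sub continuous_const)).mul
                continuous_const).intervalIntegrable _ _
            · intro t ht
              simp only [hW, max_eq_left hx.le]
              by_cases h0 : a (t - (S (zz x θ)).re) = 0
              · rw [h0]; simp
              · have := hk.asupp _ h0
                rw [abs_lt] at this
                apply mul_le_mul_of_nonneg_left _ (hk.anonneg _)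
                apply hb x θ hx
                · linarith [ht.1, this.2]
                · linarith [ht.2, this.1]
        _ = (∫ t in t0..(t0 + 1), a (t - (S (zz x θ)).re)) * (c * x ^ (-(1/2) : ℝ)) := by
            rw [intervalIntegral.integral_mul_const]
        _ ≤ 1 * (c * x ^ (-(1/2) : ℝ)) := by
            apply mul_le_mul_of_nonneg_right (aint_le hk t0 _) hxc
        _ = _ := one_mul _
    calc ∫ θ in (0:ℝ)..(2 * Real.pi), ∫ t in t0..(t0 + 1), W t x θ
        ≤ ∫ θ in (0:ℝ)..(2 * Real.pi), c * x ^ (-(1/2) : ℝ) := by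
          apply intervalIntegral.integral_mono_on (by linarith)
          · apply Continuous.intervalIntegrable
            apply intervalIntegral.continuous_parametric_intervalIntegral_of_continuous'
            exact hWc.comp (by fun_prop : Continuous (fun q : ℝ × ℝ =>
                ((q.2, x, q.1) : ℝ × ℝ × ℝ)))
          · exact continuous_const.intervalIntegrable _ _
          · intro θ _
            exact h4 θ
      _ = 2 * Real.pi * c * x ^ (-(1/2) : ℝ) := by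
          rw [intervalIntegral.integral_const, smul_eq_mul]; ring
  have hint : IntervalIntegrable (fun x : ℝ => 2 * Real.pi * c * x ^ (-(1/2) : ℝ)) volume 0 X :=
    (intervalIntegral.intervalIntegrable_rpow' (by norm_num)).const_mul _
  calc ∫ x in (0:ℝ)..X, ∫ t in t0..(t0 + 1), ∫ θ in (0:ℝ)..(2 * Real.pi), W t x θ
      ≤ ∫ x in (0:ℝ)..X, 2 * Real.pi * c * x ^ (-(1/2) : ℝ) := by
        apply intervalIntegral.integral_mono_on_of_le_Ioo hX0.le
        · apply Continuous.intervalIntegrable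
          apply intervalIntegral.continuous_parametric_intervalIntegral_of_continuous'
          exact hV.comp continuous_swap
        · exact hint
        · intro x hx
          exact h3 x hx.1
    _ = 2 * Real.pi * c * (2 * X ^ (1/2 : ℝ)) := by
        rw [intervalIntegral.integral_const_mul, integral_rpow (Or.inl (by norm_num)),
          show (-(1/2) : ℝ) + 1 = 1/2 by norm_num, Real.zero_rpow (by norm_num)]
        ring
    _ ≤ 2 * Real.pi * c * (2 * 1) := by
        apply mul_le_mul_of_nonneg_left _ (by positivity)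
        apply mul_le_mul_of_nonneg_left _ (by norm_num)
        exact Real.rpow_le_one hX0.le hX1 (by norm_num)
    _ = 4 * Real.pi * c := by ring

theorem init_bound (κ : ℝ) (hκ : 0 < κ) : ∃ K0 : ℝ, 0 < K0 ∧
    ∀ (S : ℂ → ℂ) (R X σ ε t0 : ℝ) (p : ℂ → ℝ) (a : ℝ → ℝ), 1 < R →
    DifferentiableOn ℂ S (Metric.ball 0 R) → 0 < X → X ≤ 1 → 0 < σ → ε ≤ 1 → Ker ε p a →
    (∀ x θ : ℝ, 0 < x → t0 - 1 ≤ (S (zz x θ)).re → (S (zz x θ)).re ≤ t0 + 2 →
      x * ‖LL S x θ‖ ≤ κ) →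
    ∃ t ∈ Icc t0 (t0 + 1),
      (∫ φ in (0:ℝ)..(2 * Real.pi), JJ S X p (fun x θ => hh σ x * ‖LL S x θ‖ ^ 2) t φ)
      + (∫ φ in (0:ℝ)..(2 * Real.pi), |JJ S X p (fun x θ => hh1 σ x * (LL S x θ).im) t φ|)
      ≤ K0 := by
  have hpi := Real.pi_pos
  refine ⟨4 * Real.pi * κ ^ 2 + 4 * Real.pi * (2 * κ) + 1, by positivity, ?_⟩
  intro S R X σ ε t0 p a hR hS hX0 hX1 hσ hε hk hL
  obtain ⟨hc1, hc2⟩ := S_cont S R hR hS
  obtain ⟨hh0, hh01, -⟩ := hh_cont σ hσ
  have hfst : ContinuousOn (fun q : ℝ × ℝ => q.1) {q : ℝ × ℝ | 0 ≤ q.1} :=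
    continuous_fst.continuousOn
  have hHc : ContinuousOn (fun q : ℝ × ℝ => hh σ q.1) {q : ℝ × ℝ | 0 ≤ q.1} :=
    hh0.comp hfst (fun q hq => hq)
  have hH1c : ContinuousOn (fun q : ℝ × ℝ => hh1 σ q.1) {q : ℝ × ℝ | 0 ≤ q.1} :=
    hh01.comp hfst (fun q hq => hq)
  have hη1 : ContinuousOn (Function.uncurry (fun x θ => hh σ x * ‖LL S x θ‖ ^ 2))
      {r : ℝ × ℝ | 0 ≤ r.1} := hHc.mul (hc2.norm.pow 2)
  have hη3 : ContinuousOn (Function.uncurry (fun x θ => hh1 σ x * ‖LL S x θ‖))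
      {r : ℝ × ℝ | 0 ≤ r.1} := hH1c.mul hc2.norm
  have hη2 : ContinuousOn (Function.uncurry (fun x θ => hh1 σ x * (LL S x θ).im))
      {r : ℝ × ℝ | 0 ≤ r.1} := hH1c.mul (Complex.continuous_im.comp_continuousOn hc2)
  have hLx : ∀ x θ, 0 < x → t0 - 1 ≤ (S (zz x θ)).re → (S (zz x θ)).re ≤ t0 + 2 →
      ‖LL S x θ‖ ≤ κ * x⁻¹ := by
    intro x θ hx h1 h2
    have := hL x θ hx h1 h2
    rw [← div_eq_mul_inv, le_div_iff₀ hx]
    linarith
  obtain ⟨hA1, hA2⟩ := keyb S R X ε t0 (κ ^ 2) p a hR hS hX0 hX1 hε hk _ hη1 (by positivity) (by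
    intro x θ hx h1 h2
    have h3 := hLx x θ hx h1 h2
    obtain ⟨-, -, -, -, -, -, -, h4, -, -, -⟩ := hh_props σ x hσ hx.le
    calc hh σ x * ‖LL S x θ‖ ^ 2 ≤ x ^ (3/2 : ℝ) * (κ * x⁻¹) ^ 2 := by
          apply mul_le_mul h4 _ (by positivity) (by positivity)
          exact pow_le_pow_left₀ (norm_nonneg _) h3 2
      _ = κ ^ 2 * x ^ (-(1/2) : ℝ) := by
          have : x ^ (-(1/2) : ℝ) = x ^ (3/2 : ℝ) * (x⁻¹) ^ 2 := by
            rw [show (-(1/2) : ℝ) = 3/2 + (-2) by norm_num, Real.rpow_add hx]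
            congr 1
            rw [Real.rpow_neg hx.le, inv_pow]
            norm_num
          rw [this]; ring)
  obtain ⟨hB1, hB2⟩ := keyb S R X ε t0 (2 * κ) p a hR hS hX0 hX1 hε hk _ hη3 (by positivity) (by
    intro x θ hx h1 h2
    have h3 := hLx x θ hx h1 h2
    obtain ⟨-, -, -, -, -, -, -, -, h4, -, -⟩ := hh_props σ x hσ hx.le
    calc hh1 σ x * ‖LL S x θ‖ ≤ (2 * x ^ (1/2 : ℝ)) * (κ * x⁻¹) := by
          apply mul_le_mul h4 h3 (norm_nonneg _) (by positivity)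
      _ = 2 * κ * x ^ (-(1/2) : ℝ) := by
          have : x ^ (-(1/2) : ℝ) = x ^ (1/2 : ℝ) * x⁻¹ := by
            rw [show (-(1/2) : ℝ) = 1/2 + (-1) by norm_num, Real.rpow_add hx]
            congr 1
            rw [Real.rpow_neg hx.le, Real.rpow_one]
          rw [this]; ring)
  by_contra hcon
  push Not at hcon
  -- pointwise bound for the second integral
  have hn : ∀ t : ℝ, (∫ φ in (0:ℝ)..(2 * Real.pi),
      |JJ S X p (fun x θ => hh1 σ x * (LL S x θ).im) t φ|) ≤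
      ∫ x in (0:ℝ)..X, ∫ θ in (0:ℝ)..(2 * Real.pi),
        a (t - (S (zz x θ)).re) * (hh1 σ x * ‖LL S x θ‖) := by
    intro t
    rw [← JJ_marg S R X ε hR hS hX0.le p a hk (fun x θ => hh1 σ x * ‖LL S x θ‖) hη3 t]
    have hpc : Continuous p := hk.smooth.continuous
    have hJ2 := JJ_cont S R X hR hS hX0.le p hpc _ hη2
    have hJ3 := JJ_cont S R X hR hS hX0.le p hpc _ hη3
    apply intervalIntegral.integral_mono_on (by linarith)
    · exact ((hJ2.comp (by fun_prop : Continuous (fun φ : ℝ => ((t, φ) : ℝ × ℝ)))).abs).intervalIntegrable _ _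
    · exact (hJ3.comp (by fun_prop : Continuous (fun φ : ℝ => ((t, φ) : ℝ × ℝ)))).intervalIntegrable _ _
    · intro φ _
      have hJ4 : ∀ x : ℝ, 0 ≤ x → ∀ θ : ℝ, |p (pt t φ - S (zz x θ)) * (hh1 σ x * (LL S x θ).im)| ≤
          p (pt t φ - S (zz x θ)) * (hh1 σ x * ‖LL S x θ‖) := by
        intro x hx θ
        obtain ⟨-, -, -, h4, -⟩ := hh_props σ x hσ hx
        rw [abs_mul, abs_mul, abs_of_nonneg (hk.nonneg _), abs_of_nonneg h4]
        apply mul_le_mul_of_nonneg_left _ (hk.nonneg _)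
        exact mul_le_mul_of_nonneg_left (Complex.abs_im_le_norm _) h4
      -- continuity of the integrands
      have hcc : Continuous (fun q : ℝ × ℝ => p (pt t φ - S (zz (max q.1 0) q.2)) *
          (hh1 σ (max q.1 0) * ‖LL S (max q.1 0) q.2‖)) := by
        have e1 : Continuous (fun q : ℝ × ℝ => ((max q.1 0, q.2) : ℝ × ℝ)) := by fun_prop
        have hm : ∀ q : ℝ × ℝ, ((max q.1 0, q.2) : ℝ × ℝ) ∈ {r : ℝ × ℝ | 0 ≤ r.1} := by
          intro q
          show (0:ℝ) ≤ max q.1 0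
          exact le_max_right _ _
        have e2 : Continuous (fun q : ℝ × ℝ => S (zz (max q.1 0) q.2)) :=
          hc1.comp_continuous e1 hm
        have e3 : Continuous (fun q : ℝ × ℝ => hh1 σ (max q.1 0) * ‖LL S (max q.1 0) q.2‖) :=
          hη3.comp_continuous e1 hm
        exact (hpc.comp (continuous_const.sub e2)).mul e3
      have hcc2 : Continuous (fun q : ℝ × ℝ => p (pt t φ - S (zz (max q.1 0) q.2)) *
          (hh1 σ (max q.1 0) * (LL S (max q.1 0) q.2).im)) := by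
        have e1 : Continuous (fun q : ℝ × ℝ => ((max q.1 0, q.2) : ℝ × ℝ)) := by fun_prop
        have hm : ∀ q : ℝ × ℝ, ((max q.1 0, q.2) : ℝ × ℝ) ∈ {r : ℝ × ℝ | 0 ≤ r.1} := by
          intro q
          show (0:ℝ) ≤ max q.1 0
          exact le_max_right _ _
        have e2 : Continuous (fun q : ℝ × ℝ => S (zz (max q.1 0) q.2)) :=
          hc1.comp_continuous e1 hm
        have e3 : Continuous (fun q : ℝ × ℝ => hh1 σ (max q.1 0) * (LL S (max q.1 0) q.2).im) :=
          hη2.comp_continuous e1 hm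
        exact (hpc.comp (continuous_const.sub e2)).mul e3
      have hi3 : ∀ x : ℝ, 0 ≤ x → |∫ θ in (0:ℝ)..(2 * Real.pi),
          p (pt t φ - S (zz x θ)) * (hh1 σ x * (LL S x θ).im)| ≤
          ∫ θ in (0:ℝ)..(2 * Real.pi), p (pt t φ - S (zz x θ)) * (hh1 σ x * ‖LL S x θ‖) := by
        intro x hx
        calc |∫ θ in (0:ℝ)..(2 * Real.pi),
            p (pt t φ - S (zz x θ)) * (hh1 σ x * (LL S x θ).im)|
            ≤ ∫ θ in (0:ℝ)..(2 * Real.pi),
              |p (pt t φ - S (zz x θ)) * (hh1 σ x * (LL S x θ).im)| :=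
              intervalIntegral.abs_integral_le_integral_abs (by linarith)
          _ ≤ _ := by
              have e5 : Continuous (fun θ : ℝ => p (pt t φ - S (zz x θ)) *
                  (hh1 σ x * ‖LL S x θ‖)) := by
                have := hcc.comp (by fun_prop : Continuous (fun θ : ℝ => ((x, θ) : ℝ × ℝ)))
                simpa only [Function.comp_def, max_eq_left hx] using this
              have e6 : Continuous (fun θ : ℝ => p (pt t φ - S (zz x θ)) *
                  (hh1 σ x * (LL S x θ).im)) := by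
                have := hcc2.comp (by fun_prop : Continuous (fun θ : ℝ => ((x, θ) : ℝ × ℝ)))
                simpa only [Function.comp_def, max_eq_left hx] using this
              apply intervalIntegral.integral_mono_on (by linarith)
                (e6.abs.intervalIntegrable _ _) (e5.intervalIntegrable _ _)
              intro θ _
              exact hJ4 x hx θ
      have eF3 : Continuous (fun x : ℝ => ∫ θ in (0:ℝ)..(2 * Real.pi),
          p (pt t φ - S (zz (max x 0) θ)) * (hh1 σ (max x 0) * ‖LL S (max x 0) θ‖)) :=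
        intervalIntegral.continuous_parametric_intervalIntegral_of_continuous'
          (f := fun x θ => p (pt t φ - S (zz (max x 0) θ)) *
            (hh1 σ (max x 0) * ‖LL S (max x 0) θ‖)) hcc _ _
      have eF2 : Continuous (fun x : ℝ => ∫ θ in (0:ℝ)..(2 * Real.pi),
          p (pt t φ - S (zz (max x 0) θ)) * (hh1 σ (max x 0) * (LL S (max x 0) θ).im)) :=
        intervalIntegral.continuous_parametric_intervalIntegral_of_continuous'
          (f := fun x θ => p (pt t φ - S (zz (max x 0) θ)) *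
            (hh1 σ (max x 0) * (LL S (max x 0) θ).im)) hcc2 _ _
      have hJe3 : JJ S X p (fun x θ => hh1 σ x * ‖LL S x θ‖) t φ =
          ∫ x in (0:ℝ)..X, ∫ θ in (0:ℝ)..(2 * Real.pi),
          p (pt t φ - S (zz (max x 0) θ)) * (hh1 σ (max x 0) * ‖LL S (max x 0) θ‖) := by
        unfold JJ
        apply intervalIntegral.integral_congr
        intro x hx
        rw [uIcc_of_le hX0.le] at hx
        simp only [max_eq_left hx.1]
      have hJe2 : JJ S X p (fun x θ => hh1 σ x * (LL S x θ).im) t φ =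
          ∫ x in (0:ℝ)..X, ∫ θ in (0:ℝ)..(2 * Real.pi),
          p (pt t φ - S (zz (max x 0) θ)) * (hh1 σ (max x 0) * (LL S (max x 0) θ).im) := by
        unfold JJ
        apply intervalIntegral.integral_congr
        intro x hx
        rw [uIcc_of_le hX0.le] at hx
        simp only [max_eq_left hx.1]
      rw [hJe2, hJe3]
      refine (intervalIntegral.abs_integral_le_integral_abs hX0.le).trans ?_
      apply intervalIntegral.integral_mono_on hX0.le (eF2.abs.intervalIntegrable _ _)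
        (eF3.intervalIntegrable _ _)
      intro x _
      exact hi3 (max x 0) (le_max_right _ _)
  have hm : ∀ t : ℝ, (∫ φ in (0:ℝ)..(2 * Real.pi),
      JJ S X p (fun x θ => hh σ x * ‖LL S x θ‖ ^ 2) t φ) =
      ∫ x in (0:ℝ)..X, ∫ θ in (0:ℝ)..(2 * Real.pi),
        a (t - (S (zz x θ)).re) * (hh σ x * ‖LL S x θ‖ ^ 2) :=
    fun t => JJ_marg S R X ε hR hS hX0.le p a hk (fun x θ => hh σ x * ‖LL S x θ‖ ^ 2) hη1 t
  have hlow : ∀ t ∈ Icc t0 (t0 + 1), 4 * Real.pi * κ ^ 2 + 4 * Real.pi * (2 * κ) + 1 ≤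
      (∫ x in (0:ℝ)..X, ∫ θ in (0:ℝ)..(2 * Real.pi),
        a (t - (S (zz x θ)).re) * (hh σ x * ‖LL S x θ‖ ^ 2)) +
      ∫ x in (0:ℝ)..X, ∫ θ in (0:ℝ)..(2 * Real.pi),
        a (t - (S (zz x θ)).re) * (hh1 σ x * ‖LL S x θ‖) := by
    intro t ht
    have h1 := hcon t ht
    have h2 := hn t
    rw [hm t] at h1
    linarith
  have hfin : ∫ t in t0..(t0 + 1), (4 * Real.pi * κ ^ 2 + 4 * Real.pi * (2 * κ) + 1) ≤
      ∫ t in t0..(t0 + 1), ((∫ x in (0:ℝ)..X, ∫ θ in (0:ℝ)..(2 * Real.pi),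
        a (t - (S (zz x θ)).re) * (hh σ x * ‖LL S x θ‖ ^ 2)) +
      ∫ x in (0:ℝ)..X, ∫ θ in (0:ℝ)..(2 * Real.pi),
        a (t - (S (zz x θ)).re) * (hh1 σ x * ‖LL S x θ‖)) := by
    apply intervalIntegral.integral_mono_on (by linarith)
      (continuous_const.intervalIntegrable _ _) ((hA1.add hB1).intervalIntegrable _ _)
    exact hlow
  rw [intervalIntegral.integral_add (hA1.intervalIntegrable _ _) (hB1.intervalIntegrable _ _),
    intervalIntegral.integral_const, smul_eq_mul] at hfin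
  have : (t0 + 1 - t0) = 1 := by ring
  rw [this, one_mul] at hfin
  linarith

end

/-! ### Dtau -/

section

theorem decay_tau (C C1 Kn d0 CN : ℝ) (hC : 0 < C) (hland : Land C) (hn : Nums C C1 Kn d0 CN)
    (s : ℕ → ℂ) (d : ℝ → ℝ) (t0 : ℝ) (hw : Win s d t0) (e e' : ℝ → ℝ)
    (t1 T Ke K0 σ τ N ε R : ℝ) (ht1 : t0 ≤ t1) (hdd : ∀ t, t1 ≤ t → d t ≤ d0)
    (he : ∀ t, t1 ≤ t → HasDerivAt e (e' t) t) (he1 : ∀ t, t1 ≤ t → 0 ≤ e t ∧ e t ≤ 1/2)
    (he2 : ∀ t, t1 ≤ t → e' t - e t + e t ^ 2 ≤ -(C1 * d t))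
    (heK : ∀ t, t1 ≤ t → ∫ u in t1..t, e u ≤ Ke)
    (S : ℂ → ℂ) (p : ℂ → ℝ) (a : ℝ → ℝ) (hR : 1 < R)
    (hS : DifferentiableOn ℂ S (Metric.ball 0 R)) (ho : Omit S s)
    (hX : ∀ θ, (S (zz (Real.log 2) θ)).re ≤ t1 - 1)
    (hT : ∀ z ∈ Metric.closedBall (0:ℂ) 1, (S z).re ≤ T) (hT1 : t1 + 1 ≤ T) (hσ : 0 < σ)
    (hk : Ker ε p a) (hε : 0 < ε) (hε1 : ε ≤ 1/4) (hεd : ∀ t ∈ Icc t1 (T + 1), ε ≤ d t / 4)
    (hinit : ∃ t ∈ Icc t1 (t1 + 1),
      (∫ φ in (0:ℝ)..(2 * Real.pi),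
        JJ S (Real.log 2) p (fun x θ => hh σ x * ‖LL S x θ‖ ^ 2) t φ)
      + (∫ φ in (0:ℝ)..(2 * Real.pi),
        |JJ S (Real.log 2) p (fun x θ => hh1 σ x * (LL S x θ).im) t φ|) ≤ K0)
    (hN : 0 < N) (hNd : ∀ t ∈ Icc t1 (T + 1), CN / d t ^ 2 ≤ N ^ 2) (hτ : 0 < τ)
    (hτ1 : τ * Real.exp (N * (T + 1)) ≤ 1) (t : ℝ) (ht : t ∈ Icc (t1 + 1) (T + 1)) :
    AA (GT S (Real.log 2) σ τ N p) t ≤ (K0 + 7) ^ (4/3 : ℝ) * Real.exp (t1 + 1 - t + 2 * Ke)
      + 2 * Real.pi * (τ * Real.exp (N * (T + 1))) ^ (4/3 : ℝ) * Real.exp (T + 1 - t1) := by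
  have hXp : (0:ℝ) < Real.log 2 := Real.log_pos (by norm_num)
  obtain ⟨F, -⟩ := fam_mk S R (Real.log 2) σ τ N ε (t1 - 1 + ε) hR hS hXp hσ hτ hN p a hk
    (fun θ => by linarith [hX θ])
  obtain ⟨ts, hts, hK⟩ := hinit
  have hta : ∀ u, t1 ≤ u → t1 - 1 + ε < u := fun u hu => by linarith
  have hec : ∀ u, t1 ≤ u → ContinuousAt e u := fun u hu => (he u hu).continuousAt
  have heint : ∀ b c, t1 ≤ b → b ≤ c → IntervalIntegrable e volume b c := by
    intro b c hb hbc
    apply ContinuousOn.intervalIntegrable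
    intro x hx
    rw [uIcc_of_le hbc] at hx
    exact (hec x (hb.trans hx.1)).continuousWithinAt
  have hmain := ode_decay (AA (GT S (Real.log 2) σ τ N p))
    (AA1 (GT S (Real.log 2) σ τ N p) (GT1 S (Real.log 2) σ τ N p))
    (AA2 (GT S (Real.log 2) σ τ N p) (GT1 S (Real.log 2) σ τ N p) (GT11 S (Real.log 2) σ τ N p))
    (fun u => -(1/2) + e u) e' (fun u => 1/4 - C1 * d u) ts (T + 1)
    (by linarith [hts.2])
    (fun u hu => AA_deriv _ _ _ _ _ _ F u (hta u (hts.1.trans hu.1)))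
    (fun u hu => AA1_deriv _ _ _ _ _ _ F u (hta u (hts.1.trans hu.1)))
    (fun u hu => (carl_zero _ _ _ _ _ _ F u (hta u (hts.1.trans hu.1)).le).2)
    (fun u hu => (carl_zero _ _ _ _ _ _ F u (hta u (hts.1.trans hu.1)).le).1)
    (fun u hu => (he u (hts.1.trans hu.1)).const_add _)
    (fun u hu => ⟨by linarith [(he1 u (hts.1.trans hu.1)).1],
      by linarith [(he1 u (hts.1.trans hu.1)).2]⟩)
    (fun u hu => by
      have := he2 u (hts.1.trans hu.1)
      nlinarith)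
    (fun u hu hb hb0 => by
      have hu1 : t1 ≤ u := hts.1.trans hu.1
      obtain ⟨j, k, hj, hk'⟩ := hw.win u (ht1.trans hu1)
      refine level_ineq C C1 Kn d0 CN hC hland hn S R (Real.log 2) σ τ N ε (t1 - 1 + ε) hR hS hXp
        hσ hτ hN p a hk (fun θ => by linarith [hX θ]) (s j) (s k) (d u) u (hta u hu1).le
        (hw.pos u (ht1.trans hu1)) (hdd u hu1) (hεd u ⟨hu1, hu.2⟩) hj hk'
        (hNd u ⟨hu1, hu.2⟩) (fun z hz n => ⟨ho z hz j n, ho z hz k n⟩) hb hb0)
    t ⟨by linarith [hts.2, ht.1], ht.2⟩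
  have htst : ts ≤ t := by linarith [hts.2, ht.1]
  -- the exponent
  have hexp : ∫ u in ts..t, 2 * (-(1/2) + e u) ≤ t1 + 1 - t + 2 * Ke := by
    have h1 : ∫ u in ts..t, 2 * (-(1/2) + e u) = -(t - ts) + 2 * ∫ u in ts..t, e u := by
      have : (fun u => 2 * (-(1/2) + e u)) = fun u => (-1 : ℝ) + 2 * e u := by
        funext u; ring
      rw [this, intervalIntegral.integral_add (by simp) ((heint ts t hts.1 htst).const_mul 2),
        intervalIntegral.integral_const_mul]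
      simp
    have h2 : ∫ u in t1..t, e u = (∫ u in t1..ts, e u) + ∫ u in ts..t, e u :=
      (intervalIntegral.integral_add_adjacent_intervals (heint t1 ts le_rfl hts.1)
        (heint ts t hts.1 htst)).symm
    have h3 : 0 ≤ ∫ u in t1..ts, e u :=
      intervalIntegral.integral_nonneg hts.1 (fun u hu => (he1 u hu.1).1)
    have h4 := heK t (hts.1.trans htst)
    linarith [hts.2]
  -- the initial value
  have hA0 : AA (GT S (Real.log 2) σ τ N p) ts ≤ (K0 + 7) ^ (4/3 : ℝ) := by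
    have hc2 : Continuous (fun φ => GT2 S (Real.log 2) σ p ts φ) :=
      F.c2.comp (continuous_const.prodMk continuous_id)
    have hc0 : Continuous (fun φ => GT S (Real.log 2) σ τ N p ts φ) :=
      F.c0.comp (continuous_const.prodMk continuous_id)
    have h1 := init_one (fun φ => GT S (Real.log 2) σ τ N p ts φ)
      (fun φ => GT2 S (Real.log 2) σ p ts φ)
      (fun φ => F.e2 ts φ (hta ts hts.1).le) hc2 (fun φ => (F.pos ts φ (hta ts hts.1).le).le)
    refine h1.trans ?_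
    have hnn1 : 0 ≤ ∫ φ in (0:ℝ)..(2 * Real.pi), GT S (Real.log 2) σ τ N p ts φ :=
      intervalIntegral.integral_nonneg (by positivity)
        (fun φ _ => (F.pos ts φ (hta ts hts.1).le).le)
    have hnn2 : 0 ≤ ∫ φ in (0:ℝ)..(2 * Real.pi), |GT2 S (Real.log 2) σ p ts φ| :=
      intervalIntegral.integral_nonneg (by positivity) (fun φ _ => abs_nonneg _)
    apply Real.rpow_le_rpow (by positivity) _ (by norm_num)
    have h2 : ∫ φ in (0:ℝ)..(2 * Real.pi), |GT2 S (Real.log 2) σ p ts φ| =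
        ∫ φ in (0:ℝ)..(2 * Real.pi),
        |JJ S (Real.log 2) p (fun x θ => hh1 σ x * (LL S x θ).im) ts φ| := by
      simp only [GT2, abs_neg]
    have h3 : ∫ φ in (0:ℝ)..(2 * Real.pi), GT S (Real.log 2) σ τ N p ts φ =
        (∫ φ in (0:ℝ)..(2 * Real.pi),
          JJ S (Real.log 2) p (fun x θ => hh σ x * ‖LL S x θ‖ ^ 2) ts φ)
        + 2 * Real.pi * (τ * Real.exp (N * ts)) := by
      have hJ : (fun φ => JJ S (Real.log 2) p (fun x θ => hh σ x * ‖LL S x θ‖ ^ 2) ts φ) =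
          fun φ => GT S (Real.log 2) σ τ N p ts φ - τ * Real.exp (N * ts) := by
        funext φ; simp [GT]
      have hI := intervalIntegral.integral_sub (hc0.intervalIntegrable (μ := volume) 0 (2 * Real.pi))
        (intervalIntegrable_const (μ := volume) (a := 0) (b := 2 * Real.pi)
          (c := τ * Real.exp (N * ts)))
      have hc : (∫ φ in (0:ℝ)..(2 * Real.pi), τ * Real.exp (N * ts)) =
        2 * Real.pi * (τ * Real.exp (N * ts)) := by
        rw [intervalIntegral.integral_const, smul_eq_mul, sub_zero]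
      rw [hJ]
      rw [hc] at hI
      linarith
    have h4 : τ * Real.exp (N * ts) ≤ 1 := by
      refine le_trans ?_ hτ1
      apply mul_le_mul_of_nonneg_left _ hτ.le
      apply Real.exp_le_exp.mpr
      apply mul_le_mul_of_nonneg_left _ hN.le
      linarith [hts.2]
    have h5 : 2 * Real.pi * (τ * Real.exp (N * ts)) ≤ 7 := by
      have := Real.pi_lt_d2
      have h6 : 0 ≤ τ * Real.exp (N * ts) := by positivity
      nlinarith [Real.pi_pos]
    simp only [h2, h3]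
    linarith
  -- the final value
  have hAT : AA (GT S (Real.log 2) σ τ N p) (T + 1) =
      2 * Real.pi * (τ * Real.exp (N * (T + 1))) ^ (4/3 : ℝ) := by
    have hJ0 : ∀ φ, JJ S (Real.log 2) p (fun x θ => hh σ x * ‖LL S x θ‖ ^ 2) (T + 1) φ = 0 := by
      intro φ
      unfold JJ
      have : ∀ x ∈ uIcc (0:ℝ) (Real.log 2), (∫ θ in (0:ℝ)..(2 * Real.pi),
          p (pt (T + 1) φ - S (zz x θ)) * (hh σ x * ‖LL S x θ‖ ^ 2)) = 0 := by
        intro x hx
        rw [uIcc_of_le hXp.le] at hx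
        have h0 : ∀ θ : ℝ, p (pt (T + 1) φ - S (zz x θ)) = 0 := by
          intro θ
          by_contra hne
          have h1 := (hk.supp _ hne).1
          have hz : zz x θ ∈ Metric.closedBall (0:ℂ) 1 := by
            rw [mem_closedBall_zero_iff]
            unfold zz
            rw [Complex.norm_exp]
            simp
            exact hx.1
          have h2 := hT _ hz
          have h3 : (pt (T + 1) φ - S (zz x θ)).re = T + 1 - (S (zz x θ)).re := by
            simp [pt]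
          rw [h3] at h1
          have h4 := le_abs_self (T + 1 - (S (zz x θ)).re)
          linarith
        simp [h0]
      rw [intervalIntegral.integral_congr (g := fun _ => (0:ℝ)) this]
      simp
    unfold AA
    simp only [GT, hJ0, zero_add]
    simp
  have hexp2 : Real.exp (T + 1 - ts) ≤ Real.exp (T + 1 - t1) :=
    Real.exp_le_exp.mpr (by linarith [hts.1])
  have hA0p : 0 ≤ AA (GT S (Real.log 2) σ τ N p) ts :=
    (carl_zero _ _ _ _ _ _ F ts (hta ts hts.1).le).2.le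
  have hfin1 : AA (GT S (Real.log 2) σ τ N p) ts * Real.exp (∫ u in ts..t, 2 * (-(1/2) + e u)) ≤
      (K0 + 7) ^ (4/3 : ℝ) * Real.exp (t1 + 1 - t + 2 * Ke) :=
    mul_le_mul hA0 (Real.exp_le_exp.mpr hexp) (Real.exp_pos _).le (hA0p.trans hA0)
  have hfin2 : AA (GT S (Real.log 2) σ τ N p) (T + 1) * Real.exp (T + 1 - ts) ≤
      2 * Real.pi * (τ * Real.exp (N * (T + 1))) ^ (4/3 : ℝ) * Real.exp (T + 1 - t1) := by
    rw [hAT]
    exact mul_le_mul_of_nonneg_left hexp2 (by positivity)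
  linarith

end

/-! ### Decay -/

section

theorem decay (C : ℝ) (hC : 0 < C) (hland : Land C) (s : ℕ → ℂ) (d : ℝ → ℝ) (t0 : ℝ)
    (hw : Win s d t0) : ∃ tm, t0 ≤ tm ∧ ∀ t1, tm ≤ t1 → ∃ K : ℝ, 0 < K ∧
    ∀ (S : ℂ → ℂ) (R T σ ε : ℝ) (p : ℂ → ℝ) (a : ℝ → ℝ), 1 < R →
    DifferentiableOn ℂ S (Metric.ball 0 R) → Omit S s →
    (∀ θ, (S (zz (Real.log 2) θ)).re ≤ t1 - 1) →
    (∀ z ∈ Metric.closedBall (0:ℂ) 1, (S z).re ≤ T) → t1 + 1 ≤ T → 0 < σ →
    Ker ε p a → 0 < ε → ε ≤ 1/4 → (∀ t ∈ Icc t1 (T + 1), ε ≤ d t / 4) →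
    ∀ t ∈ Icc (t1 + 1) (T + 1),
      ∫ φ in (0:ℝ)..(2 * Real.pi),
        JJ S (Real.log 2) p (fun x θ => hh σ x * ‖LL S x θ‖ ^ 2) t φ
      ≤ K * Real.exp (-(3/4) * t) := by
  obtain ⟨C1, Kn, d0, CN, hn⟩ := nums_exist C hC
  obtain ⟨t1', ht1', e, e', Kb, he, he1, he2, heK⟩ := bs_exists d t0 C1 hn.hc1 hw.cont hw.pos hw.int
  obtain ⟨κ, hκ, hgr⟩ := grad_region C hC hland
  obtain ⟨K0, hK0, hib⟩ := init_bound κ hκ
  obtain ⟨t2, ht2⟩ : ∃ t2, ∀ t, t2 ≤ t → d t ≤ d0 := by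
    have h1 : ∀ᶠ t in atTop, d t < d0 := hw.lim.eventually (gt_mem_nhds hn.hd0)
    obtain ⟨t2, h2⟩ := eventually_atTop.1 h1
    exact ⟨t2, fun t ht => (h2 t ht).le⟩
  have hl2 : 0 < Real.log 2 := Real.log_pos (by norm_num)
  have hl21 : Real.log 2 ≤ 1 := by
    have := Real.log_two_lt_d9
    linarith
  have hpi := Real.pi_pos
  refine ⟨max (max t0 t1') t2, (le_max_left _ _).trans (le_max_left _ _), fun t1 ht1 => ?_⟩
  have h01 : t0 ≤ t1 := ((le_max_left _ _).trans (le_max_left _ _)).trans ht1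
  have h11 : t1' ≤ t1 := ((le_max_right _ _).trans (le_max_left _ _)).trans ht1
  have h21 : t2 ≤ t1 := (le_max_right _ _).trans ht1
  have hcont : ContinuousOn e (Ici t1') := fun u hu =>
    (he u hu).continuousAt.continuousWithinAt
  have hii : ∀ u v, t1' ≤ u → t1' ≤ v → IntervalIntegrable e volume u v := by
    intro u v hu hv
    apply ContinuousOn.intervalIntegrable
    apply hcont.mono
    intro w hw'
    exact (le_min hu hv).trans hw'.1
  have heK1 : ∀ t, t1 ≤ t → ∫ u in t1..t, e u ≤ Kb := by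
    intro t ht
    have h1 := heK t (h11.trans ht)
    have h2 : (∫ u in t1'..t1, e u) + ∫ u in t1..t, e u = ∫ u in t1'..t, e u :=
      intervalIntegral.integral_add_adjacent_intervals (hii _ _ le_rfl h11)
        (hii _ _ h11 (h11.trans ht))
    have h3 : 0 ≤ ∫ u in t1'..t1, e u :=
      intervalIntegral.integral_nonneg h11 (fun u hu => (he1 u hu.1).1)
    linarith
  refine ⟨(2 * Real.pi) ^ (1/4 : ℝ) * ((K0 + 7) ^ (4/3 : ℝ) * Real.exp (t1 + 1 + 2 * Kb)) ^ (3/4 : ℝ),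
    by positivity, ?_⟩
  intro S R T σ ε p a hR hS ho hX hT hT1 hσ hk hε hε1 hεd t ht
  -- initial bound
  have hreg : ∀ x θ : ℝ, 0 < x → t1 - 1 ≤ (S (zz x θ)).re → (S (zz x θ)).re ≤ t1 + 2 →
      x * ‖LL S x θ‖ ≤ κ := by
    intro x θ hx h1 h2
    obtain ⟨j, k, hj, hk'⟩ := hw.win t1 h01
    have hd1 : d t1 ≤ d0 := ht2 t1 h21
    have hd2 := hn.hd01
    refine hgr S (hS.mono (Metric.ball_subset_ball hR.le)) (s j) (fun z hz n => ho z hz j n) x θ hx ?_
    rw [abs_le]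
    constructor
    · linarith [hj.2]
    · linarith [hj.1]
  have hinit := hib S R (Real.log 2) σ ε t1 p a hR hS hl2 hl21 hσ (by linarith) hk hreg
  -- the minimum of d
  obtain ⟨tq, htq, hmin⟩ := (isCompact_Icc (a := t1) (b := T + 1)).exists_isMinOn
    ⟨t1, left_mem_Icc.2 (by linarith)⟩ hw.cont.continuousOn
  have hm0 : 0 < d tq := hw.pos tq (h01.trans htq.1)
  set N : ℝ := Real.sqrt CN / d tq with hNdef
  have hN : 0 < N := div_pos (Real.sqrt_pos.2 hn.hcn) hm0
  have hN2 : N ^ 2 = CN / d tq ^ 2 := by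
    rw [hNdef, div_pow, Real.sq_sqrt hn.hcn.le]
  have hNd : ∀ u ∈ Icc t1 (T + 1), CN / d u ^ 2 ≤ N ^ 2 := by
    intro u hu
    rw [hN2]
    have h1 : d tq ≤ d u := hmin hu
    have := hn.hcn
    gcongr
  set E : ℝ := Real.exp (N * (T + 1)) with hE
  have hEpos : 0 < E := Real.exp_pos _
  set B : ℝ := (K0 + 7) ^ (4/3 : ℝ) * Real.exp (t1 + 1 - t + 2 * Kb) with hB
  set F : ℝ → ℝ := fun τ => (2 * Real.pi) ^ (1/4 : ℝ) *
    (B + 2 * Real.pi * (τ * E) ^ (4/3 : ℝ) * Real.exp (T + 1 - t1)) ^ (3/4 : ℝ) with hF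
  have hFc : Continuous F := by
    rw [hF]
    apply Continuous.mul continuous_const
    apply Continuous.rpow_const _ (fun _ => Or.inr (by norm_num))
    apply Continuous.add continuous_const
    apply Continuous.mul _ continuous_const
    apply Continuous.mul continuous_const
    exact Continuous.rpow_const (continuous_id.mul continuous_const) (fun _ => Or.inr (by norm_num))
  have hkey : ∀ τ, 0 < τ → τ * E ≤ 1 →
      ∫ φ in (0:ℝ)..(2 * Real.pi),
        JJ S (Real.log 2) p (fun x θ => hh σ x * ‖LL S x θ‖ ^ 2) t φ ≤ F τ := by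
    intro τ hτ hτ1
    refine (m_le_AA S R (Real.log 2) σ τ N ε hR hS hl2 hσ hτ p a hk t).trans ?_
    have h1 := decay_tau C C1 Kn d0 CN hC hland hn s d t0 hw e e' t1 T Kb K0 σ τ N ε R h01
      (fun u hu => ht2 u (h21.trans hu)) (fun u hu => he u (h11.trans hu))
      (fun u hu => he1 u (h11.trans hu)) (fun u hu => he2 u (h11.trans hu)) heK1 S p a hR hS ho
      hX hT hT1 hσ hk hε hε1 hεd hinit hN hNd hτ hτ1 t ht
    have h2 : 0 ≤ AA (GT S (Real.log 2) σ τ N p) t := by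
      unfold AA
      apply intervalIntegral.integral_nonneg (by positivity)
      intro φ _
      apply Real.rpow_nonneg
      unfold GT JJ
      apply add_nonneg _ (by positivity)
      apply intervalIntegral.integral_nonneg hl2.le
      intro x hx
      apply intervalIntegral.integral_nonneg (by positivity)
      intro θ _
      apply mul_nonneg (hk.nonneg _)
      have hx0 : 0 ≤ x := hx.1
      unfold hh
      positivity
    rw [hF]
    have h3 := Real.rpow_le_rpow h2 h1 (by norm_num : (0:ℝ) ≤ 3/4)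
    exact mul_le_mul_of_nonneg_left h3 (by positivity)
  have hlim : Tendsto F (𝓝[>] 0) (𝓝 (F 0)) := (hFc.tendsto 0).mono_left nhdsWithin_le_nhds
  have hev : ∀ᶠ τ in 𝓝[>] (0:ℝ), ∫ φ in (0:ℝ)..(2 * Real.pi),
        JJ S (Real.log 2) p (fun x θ => hh σ x * ‖LL S x θ‖ ^ 2) t φ ≤ F τ := by
    have h1 : ∀ᶠ τ in 𝓝[>] (0:ℝ), τ < 1 / E :=
      nhdsWithin_le_nhds (Iio_mem_nhds (by positivity))
    filter_upwards [h1, self_mem_nhdsWithin] with τ h2 h3
    exact hkey τ h3 ((lt_div_iff₀ hEpos).1 h2).le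
  have hfin := ge_of_tendsto hlim hev
  refine hfin.trans (le_of_eq ?_)
  rw [hF]
  have h4 : ((0:ℝ) * E) ^ (4/3 : ℝ) = 0 := by
    rw [zero_mul]; exact Real.zero_rpow (by norm_num)
  have h7 : B + 2 * Real.pi * ((0:ℝ) * E) ^ (4/3 : ℝ) * Real.exp (T + 1 - t1) = B := by
    rw [h4]; ring
  show (2 * Real.pi) ^ (1/4 : ℝ) *
    (B + 2 * Real.pi * ((0:ℝ) * E) ^ (4/3 : ℝ) * Real.exp (T + 1 - t1)) ^ (3/4 : ℝ) = _
  rw [h7]
  have h5 : Real.exp (t1 + 1 - t + 2 * Kb) = Real.exp (t1 + 1 + 2 * Kb) * Real.exp (-t) := by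
    rw [← Real.exp_add]; congr 1; ring
  have h6 : B ^ (3/4 : ℝ) = ((K0 + 7) ^ (4/3 : ℝ) * Real.exp (t1 + 1 + 2 * Kb)) ^ (3/4 : ℝ) *
      Real.exp (-(3/4) * t) := by
    rw [hB, h5, ← mul_assoc, Real.mul_rpow (by positivity) (by positivity)]
    congr 1
    rw [← Real.exp_mul]
    congr 1; ring
  rw [h6, mul_assoc]

end

end HW287
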