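import Pool.Agent.Helper287.HW.Decay

set_option autoImplicit false
set_option linter.all false

open MeasureTheory Set Filter Topology

namespace HW287

/-! ### Mf -/

section

theorem deriv_int (F F' : ℝ → ℝ → ℝ) (hF : ∀ t φ, HasDerivAt (fun u => F u φ) (F' t φ) t)
    (hFc : Continuous (Function.uncurry F)) (hF' : Continuous (Function.uncurry F')) (t b : ℝ) :
    HasDerivAt (fun t => ∫ φ in (0:ℝ)..b, F t φ) (∫ φ in (0:ℝ)..b, F' t φ) t := by
  have hcomp : IsCompact (Icc (t - 1) (t + 1) ×ˢ uIcc (0:ℝ) b) := isCompact_Icc.prod isCompact_uIcc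
  obtain ⟨C, hC⟩ := hcomp.exists_bound_of_continuousOn hF'.continuousOn
  have hc1 : ∀ u, Continuous (F u) := fun u => hFc.comp (by fun_prop : Continuous fun φ : ℝ => (u, φ))
  have hc2 : ∀ u, Continuous (F' u) := fun u => hF'.comp (by fun_prop : Continuous fun φ : ℝ => (u, φ))
  refine (intervalIntegral.hasDerivAt_integral_of_dominated_loc_of_deriv_le (bound := fun _ => C)
    (s := Icc (t - 1) (t + 1)) (Icc_mem_nhds (by linarith) (by linarith))
    (Eventually.of_forall fun u => (hc1 u).aestronglyMeasurable) ((hc1 t).intervalIntegrable _ _)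
    (hc2 t).aestronglyMeasurable ?_ intervalIntegrable_const ?_).2
  · refine Eventually.of_forall fun φ hφ u hu => ?_
    exact hC (u, φ) ⟨hu, uIoc_subset_uIcc hφ⟩
  · exact Eventually.of_forall fun φ _ u _ => hF u φ

theorem m_facts (S : ℂ → ℂ) (R X σ ε ta : ℝ) (hR : 1 < R)
    (hS : DifferentiableOn ℂ S (Metric.ball 0 R)) (hX : 0 < X) (hσ : 0 < σ)
    (p : ℂ → ℝ) (a : ℝ → ℝ) (hk : Ker ε p a) (hta : ∀ θ, (S (zz X θ)).re + ε ≤ ta) :
    ∃ m m1 m2 : ℝ → ℝ,
      (∀ t, m t = ∫ φ in (0:ℝ)..(2 * Real.pi),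
        JJ S X p (fun x θ => hh σ x * ‖LL S x θ‖ ^ 2) t φ) ∧
      (∀ t, ta < t → HasDerivAt m (m1 t) t) ∧ (∀ t, ta < t → HasDerivAt m1 (m2 t) t) ∧
      Continuous m2 ∧ (∀ t, 0 ≤ m t) ∧
      (∀ t, m2 t = ∫ x in (0:ℝ)..X, ∫ θ in (0:ℝ)..(2 * Real.pi),
        a (t - (S (zz x θ)).re) * hh2 σ x) := by
  obtain ⟨hhc0, hhc1, hhc2⟩ := hh_cont σ hσ
  obtain ⟨_, hL⟩ := S_cont S R hR hS
  have hfst : ContinuousOn (fun q : ℝ × ℝ => q.1) {r : ℝ × ℝ | 0 ≤ r.1} := continuous_fst.continuousOn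
  have hmaps : MapsTo (fun q : ℝ × ℝ => q.1) {r : ℝ × ℝ | 0 ≤ r.1} (Ici 0) := fun q hq => hq
  have c0 := hhc0.comp hfst hmaps
  have c1 := hhc1.comp hfst hmaps
  have c2 := hhc2.comp hfst hmaps
  have hη0 : ContinuousOn (Function.uncurry (fun x θ => hh σ x * ‖LL S x θ‖ ^ 2))
      {r : ℝ × ℝ | 0 ≤ r.1} := c0.mul (hL.norm.pow 2)
  have hη1 : ContinuousOn (Function.uncurry (fun x θ => hh1 σ x * (LL S x θ).re))
      {r : ℝ × ℝ | 0 ≤ r.1} := c1.mul (Complex.continuous_re.comp_continuousOn hL)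
  have hη1' : ContinuousOn (Function.uncurry (fun x θ => hh1 σ x * (LL S x θ).im))
      {r : ℝ × ℝ | 0 ≤ r.1} := c1.mul (Complex.continuous_im.comp_continuousOn hL)
  have hη2 : ContinuousOn (Function.uncurry (fun x _ => hh2 σ x : ℝ → ℝ → ℝ))
      {r : ℝ × ℝ | 0 ≤ r.1} := c2
  have hp1 : ContDiff ℝ 1 p := hk.smooth.of_le (by norm_num)
  have hpc : Continuous p := hp1.continuous
  have hfd : Continuous (fderiv ℝ p) := hp1.continuous_fderiv (by norm_num)
  have hd1 : Continuous (d1 p) := hfd.clm_apply continuous_const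
  have hd2 : Continuous (d2 p) := hfd.clm_apply continuous_const
  have hz : ∀ t, ta ≤ t → ∀ φ θ, p (pt t φ - S (zz X θ)) = 0 := by
    intro t ht φ θ
    by_contra hne
    have h1 := (hk.supp _ hne).1
    have h2 : (pt t φ - S (zz X θ)).re = t - (S (zz X θ)).re := by
      simp [pt]
    rw [h2] at h1
    have h3 := hta θ
    have h4 := le_abs_self (t - (S (zz X θ)).re)
    linarith
  have hd0 : ∀ t, HasDerivAt (fun t => ∫ φ in (0:ℝ)..(2 * Real.pi),
      JJ S X p (fun x θ => hh σ x * ‖LL S x θ‖ ^ 2) t φ)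
      (∫ φ in (0:ℝ)..(2 * Real.pi), JJ S X (d1 p) (fun x θ => hh σ x * ‖LL S x θ‖ ^ 2) t φ) t :=
    fun t => deriv_int _ _ (fun u φ => JJ_deriv1 S R X hR hS hX.le p hp1 _ hη0 u φ)
      (JJ_cont S R X hR hS hX.le p hpc _ hη0) (JJ_cont S R X hR hS hX.le (d1 p) hd1 _ hη0) t _
  have hd1' : ∀ t, HasDerivAt (fun t => ∫ φ in (0:ℝ)..(2 * Real.pi),
      JJ S X p (fun x θ => hh1 σ x * (LL S x θ).re) t φ)
      (∫ φ in (0:ℝ)..(2 * Real.pi), JJ S X (d1 p) (fun x θ => hh1 σ x * (LL S x θ).re) t φ) t :=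
    fun t => deriv_int _ _ (fun u φ => JJ_deriv1 S R X hR hS hX.le p hp1 _ hη1 u φ)
      (JJ_cont S R X hR hS hX.le p hpc _ hη1) (JJ_cont S R X hR hS hX.le (d1 p) hd1 _ hη1) t _
  have hm2 : ∀ t, ∫ x in (0:ℝ)..X, ∫ θ in (0:ℝ)..(2 * Real.pi), a (t - (S (zz x θ)).re) * hh2 σ x
      = ∫ φ in (0:ℝ)..(2 * Real.pi), JJ S X p (fun x θ => hh2 σ x) t φ := fun t =>
    (JJ_marg S R X ε hR hS hX.le p a hk (fun x _ => hh2 σ x) hη2 t).symm
  refine ⟨fun t => ∫ φ in (0:ℝ)..(2 * Real.pi),
      JJ S X p (fun x θ => hh σ x * ‖LL S x θ‖ ^ 2) t φ,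
    fun t => -∫ φ in (0:ℝ)..(2 * Real.pi), JJ S X p (fun x θ => hh1 σ x * (LL S x θ).re) t φ,
    fun t => ∫ x in (0:ℝ)..X, ∫ θ in (0:ℝ)..(2 * Real.pi), a (t - (S (zz x θ)).re) * hh2 σ x,
    fun _ => rfl, ?_, ?_, ?_, ?_, fun _ => rfl⟩
  · intro t ht
    have h1 := hd0 t
    have h2 : ∫ φ in (0:ℝ)..(2 * Real.pi), JJ S X (d1 p) (fun x θ => hh σ x * ‖LL S x θ‖ ^ 2) t φ
        = -∫ φ in (0:ℝ)..(2 * Real.pi), JJ S X p (fun x θ => hh1 σ x * (LL S x θ).re) t φ := by
      rw [← intervalIntegral.integral_neg]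
      refine intervalIntegral.integral_congr fun φ _ => ?_
      exact ibp1 S R X σ hR hS hX hσ p hp1 t φ (hz t ht.le φ)
    rw [h2] at h1
    exact h1
  · intro t ht
    have h1 := (hd1' t).neg
    have h2 : -∫ φ in (0:ℝ)..(2 * Real.pi), JJ S X (d1 p) (fun x θ => hh1 σ x * (LL S x θ).re) t φ
        = ∫ x in (0:ℝ)..X, ∫ θ in (0:ℝ)..(2 * Real.pi), a (t - (S (zz x θ)).re) * hh2 σ x := by
      rw [hm2]
      have hj1 : Continuous (fun φ => JJ S X (d2 p) (fun x θ => hh1 σ x * (LL S x θ).im) t φ) :=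
        (JJ_cont S R X hR hS hX.le (d2 p) hd2 _ hη1').comp
          (by fun_prop : Continuous fun φ : ℝ => (t, φ))
      have hj2 : Continuous (fun φ => JJ S X p (fun x θ => hh2 σ x) t φ) :=
        (JJ_cont S R X hR hS hX.le p hpc _ hη2).comp (by fun_prop : Continuous fun φ : ℝ => (t, φ))
      have h3 : ∫ φ in (0:ℝ)..(2 * Real.pi),
          JJ S X (d2 p) (fun x θ => hh1 σ x * (LL S x θ).im) t φ = 0 := by
        rw [intervalIntegral.integral_eq_sub_of_hasDerivAt
          (fun φ _ => JJ_deriv2 S R X hR hS hX.le p hp1 _ hη1' t φ) (hj1.intervalIntegrable _ _)]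
        have h4 := JJ_per S X p hk.per (fun x θ => hh1 σ x * (LL S x θ).im) t 0
        rw [zero_add] at h4
        rw [h4, sub_self]
      rw [← intervalIntegral.integral_neg]
      have h5 : ∫ φ in (0:ℝ)..(2 * Real.pi),
          -JJ S X (d1 p) (fun x θ => hh1 σ x * (LL S x θ).re) t φ
          = ∫ φ in (0:ℝ)..(2 * Real.pi), (JJ S X (d2 p) (fun x θ => hh1 σ x * (LL S x θ).im) t φ
            + JJ S X p (fun x θ => hh2 σ x) t φ) := by
        refine intervalIntegral.integral_congr fun φ _ => ?_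
        have h6 := ibp3 S R X σ hR hS hX hσ p hp1 t φ (hz t ht.le φ)
        linarith
      rw [h5, intervalIntegral.integral_add (hj1.intervalIntegrable _ _) (hj2.intervalIntegrable _ _),
        h3, zero_add]
    rw [h2] at h1
    exact h1
  · simp only [hm2]
    exact intervalIntegral.continuous_parametric_intervalIntegral_of_continuous'
      (JJ_cont S R X hR hS hX.le p hpc _ hη2) _ _
  · intro t
    refine intervalIntegral.integral_nonneg (by positivity) fun φ _ => ?_
    refine JJ_nonneg S X hX.le p hk.nonneg _ (fun x θ hx => ?_) t φ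
    have := (hh_props σ x hσ hx).2.2.1
    positivity

end

/-! ### Mstep -/

section

theorem ms_swap (F : ℝ → ℝ → ℝ) (hF : Continuous (Function.uncurry F)) (a b c d : ℝ) :
    ∫ x in a..b, ∫ y in c..d, F x y = ∫ y in c..d, ∫ x in a..b, F x y := by
  apply intervalIntegral_intervalIntegral_swap
  exact (hF.continuousOn.integrableOn_compact (isCompact_uIcc.prod isCompact_uIcc)).mono_set
    (Set.prod_mono uIoc_subset_uIcc uIoc_subset_uIcc)

theorem ms_swap3 (F : ℝ → ℝ → ℝ → ℝ) (hF : Continuous (fun q : ℝ × ℝ × ℝ => F q.1 q.2.1 q.2.2))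
    (a b c d e f : ℝ) :
    ∫ t in a..b, ∫ x in c..d, ∫ y in e..f, F t x y =
      ∫ x in c..d, ∫ y in e..f, ∫ t in a..b, F t x y := by
  rw [ms_swap (fun t x => ∫ y in e..f, F t x y)]
  · apply intervalIntegral.integral_congr
    intro x _
    show ∫ t in a..b, ∫ y in e..f, F t x y = ∫ y in e..f, ∫ t in a..b, F t x y
    apply ms_swap (fun t y => F t x y)
    exact hF.comp (by fun_prop : Continuous (fun q : ℝ × ℝ => (q.1, x, q.2)))
  · have h1 : Continuous (Function.uncurry (fun (q : ℝ × ℝ) (y : ℝ) => F q.1 q.2 y)) :=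
      hF.comp (by fun_prop : Continuous (fun q : (ℝ × ℝ) × ℝ => (q.1.1, q.1.2, q.2)))
    exact intervalIntegral.continuous_parametric_intervalIntegral_of_continuous' h1 e f

theorem ms_exp14 : Real.exp (1/4) ≤ 1.3 := by
  have h1 : Real.exp (1/4) ^ 4 = Real.exp 1 := by
    rw [← Real.exp_nat_mul]; norm_num
  have h2 := Real.exp_one_lt_d9
  by_contra hcon
  push Not at hcon
  have h3 : (1.3 : ℝ) ^ 4 < Real.exp (1/4) ^ 4 := pow_lt_pow_left₀ hcon (by norm_num) (by norm_num)
  rw [h1] at h3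
  norm_num at h3
  linarith

theorem ms_exp34 : Real.exp (3/4) ≤ 2.2 := by
  have h1 : Real.exp (3/4) = Real.exp (1/4) ^ 3 := by
    rw [← Real.exp_nat_mul]; norm_num
  rw [h1]
  have h3 : Real.exp (1/4) ^ 3 ≤ 1.3 ^ 3 :=
    pow_le_pow_left₀ (Real.exp_pos _).le ms_exp14 3
  refine h3.trans (by norm_num)

theorem ms_zz_norm (x θ : ℝ) (hx : 0 ≤ x) : ‖zz x θ‖ ≤ 1 := by
  unfold zz
  rw [Complex.norm_exp]
  simp
  exact hx

theorem ms_zz_per (x θ : ℝ) : zz x (θ + 2 * Real.pi) = zz x θ := by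
  unfold zz
  rw [show -(x : ℂ) + ((θ + 2 * Real.pi : ℝ) : ℂ) * Complex.I =
    (-(x : ℂ) + (θ : ℂ) * Complex.I) + 2 * Real.pi * Complex.I by push_cast; ring]
  exact Complex.exp_periodic _

/-- part 1 -/
theorem ms_ta (S : ℂ → ℂ) (R X ε t2 : ℝ) (hR : 1 < R)
    (hS : DifferentiableOn ℂ S (Metric.ball 0 R)) (hX : 0 < X)
    (hta : ∀ θ, (S (zz X θ)).re + ε + 1 < t2) :
    ∃ ta, ta < t2 - 1 ∧ ∀ θ, (S (zz X θ)).re + ε ≤ ta := by
  have hc : Continuous (fun θ : ℝ => (S (zz X θ)).re) := by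
    have h1 : ContinuousOn (fun q : ℝ × ℝ => S (zz q.1 q.2)) {q | 0 ≤ q.1} := (S_cont S R hR hS).1
    have h2 : Continuous (fun θ : ℝ => S (zz X θ)) :=
      h1.comp_continuous (by fun_prop : Continuous (fun θ : ℝ => (X, θ))) (fun θ => hX.le)
    exact Complex.continuous_re.comp h2
  obtain ⟨θ0, -, hθ0⟩ := (isCompact_Icc (a := (0:ℝ)) (b := 2 * Real.pi)).exists_isMaxOn
    (Set.nonempty_Icc.2 (by positivity)) hc.continuousOn
  refine ⟨(S (zz X θ0)).re + ε, by linarith [hta θ0], ?_⟩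
  intro θ
  have hper : Function.Periodic (fun θ : ℝ => (S (zz X θ)).re) (2 * Real.pi) := by
    intro θ
    simp only [ms_zz_per]
  obtain ⟨θ', hθ', he⟩ := hper.exists_mem_Ico₀ (by positivity) θ
  have h3 : (S (zz X θ')).re ≤ (S (zz X θ0)).re := hθ0 (Ico_subset_Icc_self hθ')
  have h4 : (S (zz X θ)).re = (S (zz X θ')).re := he
  linarith

/-- part 3: the upper bound -/
theorem ms_upper (m m1 m2 : ℝ → ℝ) (ta t2 T K : ℝ) (hta : ta < t2 - 1) (h2T : t2 + 1 ≤ T)
    (hK : 0 ≤ K)
    (hm1 : ∀ t, ta < t → HasDerivAt m (m1 t) t) (hm2 : ∀ t, ta < t → HasDerivAt m1 (m2 t) t)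
    (hc2 : Continuous m2) (hpos2 : ∀ t, 0 ≤ m2 t)
    (hz : m (T + 1) = 0) (hz1 : m1 (T + 1) = 0)
    (hdec : ∀ t ∈ Icc (t2 - 1) (T + 1), m t ≤ K * Real.exp (-(3/4) * t)) :
    ∫ t in t2..(T + 1), Real.exp t * m2 t ≤ 7.4 * K * Real.exp (T / 4) := by
  have hle : t2 ≤ T + 1 := by linarith
  have hmc : ContinuousOn m (Icc t2 (T + 1)) := fun t ht =>
    (hm1 t (by linarith [ht.1])).continuousAt.continuousWithinAt
  have hI1 : IntervalIntegrable (fun t => Real.exp t * (m2 t - m t)) volume t2 (T + 1) := by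
    apply ContinuousOn.intervalIntegrable
    rw [uIcc_of_le hle]
    exact Real.continuous_exp.continuousOn.mul (hc2.continuousOn.sub hmc)
  have hI2 : IntervalIntegrable (fun t => Real.exp t * m t) volume t2 (T + 1) := by
    apply ContinuousOn.intervalIntegrable
    rw [uIcc_of_le hle]
    exact Real.continuous_exp.continuousOn.mul hmc
  have h1 : ∫ t in t2..(T + 1), Real.exp t * (m2 t - m t) =
      Real.exp (T + 1) * (m1 (T + 1) - m (T + 1)) - Real.exp t2 * (m1 t2 - m t2) := by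
    apply intervalIntegral.integral_eq_sub_of_hasDerivAt (f := fun t => Real.exp t * (m1 t - m t))
    · intro t ht
      rw [uIcc_of_le hle] at ht
      have hta' : ta < t := by linarith [ht.1]
      have h2 := (Real.hasDerivAt_exp t).mul ((hm2 t hta').sub (hm1 t hta'))
      refine h2.congr_deriv ?_
      simp only [Pi.sub_apply]
      ring
    · exact hI1
  have h2 : ∫ t in t2..(T + 1), Real.exp t * m2 t =
      (∫ t in t2..(T + 1), Real.exp t * (m2 t - m t)) + ∫ t in t2..(T + 1), Real.exp t * m t := by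
    rw [← intervalIntegral.integral_add hI1 hI2]
    apply intervalIntegral.integral_congr
    intro t _
    show Real.exp t * m2 t = Real.exp t * (m2 t - m t) + Real.exp t * m t
    ring
  -- convexity
  obtain ⟨c, hc, hcs⟩ := exists_hasDerivAt_eq_slope m m1 (by linarith : t2 - 1 < t2)
    (fun t ht => (hm1 t (by linarith [ht.1])).continuousAt.continuousWithinAt)
    (fun t ht => hm1 t (by linarith [ht.1]))
  obtain ⟨d, hd, hds⟩ := exists_hasDerivAt_eq_slope m1 m2 hc.2
    (fun t ht => (hm2 t (by linarith [ht.1, hc.1])).continuousAt.continuousWithinAt)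
    (fun t ht => hm2 t (by linarith [ht.1, hc.1]))
  have h3 : m1 c = m t2 - m (t2 - 1) := by
    rw [hcs]
    field_simp
    ring
  have h4 : m1 c ≤ m1 t2 := by
    have h5 := hpos2 d
    rw [hds] at h5
    have h6 : 0 < t2 - c := by linarith [hc.2]
    have h7 := (div_nonneg_iff.1 h5)
    rcases h7 with h7 | h7
    · linarith [h7.1]
    · linarith [h7.2]
  have h5 : m (t2 - 1) ≤ K * Real.exp (-(3/4) * (t2 - 1)) :=
    hdec (t2 - 1) ⟨le_rfl, by linarith⟩
  have h6 : - (Real.exp t2 * (m1 t2 - m t2)) ≤ 2.2 * K * Real.exp (T / 4) := by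
    have e1 : m t2 - m1 t2 ≤ m (t2 - 1) := by linarith
    have e2 : Real.exp t2 * (m t2 - m1 t2) ≤ Real.exp t2 * (K * Real.exp (-(3/4) * (t2 - 1))) :=
      mul_le_mul_of_nonneg_left (e1.trans h5) (Real.exp_pos _).le
    have e3 : Real.exp t2 * (K * Real.exp (-(3/4) * (t2 - 1))) =
        K * (Real.exp (t2 / 4) * Real.exp (3/4)) := by
      rw [← Real.exp_add, mul_left_comm, ← Real.exp_add]
      congr 2
      ring
    have e4 : Real.exp (t2 / 4) ≤ Real.exp (T / 4) := Real.exp_le_exp.2 (by linarith)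
    have e5 : Real.exp (t2 / 4) * Real.exp (3/4) ≤ Real.exp (T / 4) * 2.2 :=
      mul_le_mul e4 ms_exp34 (Real.exp_pos _).le (Real.exp_pos _).le
    have e6 : K * (Real.exp (t2 / 4) * Real.exp (3/4)) ≤ K * (Real.exp (T / 4) * 2.2) :=
      mul_le_mul_of_nonneg_left e5 hK
    linarith
  have h7 : ∫ t in t2..(T + 1), Real.exp t * m t ≤ 5.2 * K * Real.exp (T / 4) := by
    have e1 : ∫ t in t2..(T + 1), Real.exp t * m t ≤
        ∫ t in t2..(T + 1), K * Real.exp (t / 4) := by
      apply intervalIntegral.integral_mono_on hle hI2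
        (Continuous.intervalIntegrable (by fun_prop) _ _)
      intro t ht
      have f1 := hdec t ⟨by linarith [ht.1], ht.2⟩
      have f2 := mul_le_mul_of_nonneg_left f1 (Real.exp_pos t).le
      refine f2.trans (le_of_eq ?_)
      rw [mul_left_comm, ← Real.exp_add]
      congr 2
      ring
    have e2 : ∫ t in t2..(T + 1), K * Real.exp (t / 4) =
        K * (4 * Real.exp ((T + 1) / 4)) - K * (4 * Real.exp (t2 / 4)) := by
      apply intervalIntegral.integral_eq_sub_of_hasDerivAt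
        (f := fun t => K * (4 * Real.exp (t / 4)))
      · intro t _
        have f1 : HasDerivAt (fun t : ℝ => t / 4) (1 / 4) t := (hasDerivAt_id t).div_const 4
        have f2 := ((f1.exp).const_mul 4).const_mul K
        refine f2.congr_deriv ?_
        ring
      · exact Continuous.intervalIntegrable (by fun_prop) _ _
    have e3 : Real.exp ((T + 1) / 4) = Real.exp (T / 4) * Real.exp (1/4) := by
      rw [← Real.exp_add]
      congr 1
      ring
    have e4 : Real.exp (T / 4) * Real.exp (1/4) ≤ Real.exp (T / 4) * 1.3 :=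
      mul_le_mul_of_nonneg_left ms_exp14 (Real.exp_pos _).le
    have e5 : 0 ≤ K * (4 * Real.exp (t2 / 4)) := by positivity
    have e6 : K * (4 * Real.exp ((T + 1) / 4)) ≤ K * (4 * (Real.exp (T / 4) * 1.3)) := by
      rw [e3]
      apply mul_le_mul_of_nonneg_left _ hK
      linarith
    linarith
  rw [h2, h1, hz, hz1]
  have e0 : Real.exp (T + 1) * ((0:ℝ) - 0) = 0 := by ring
  rw [e0]
  linarith

/-- the inner integral -/
theorem ms_inner (ε t2 T u : ℝ) (p : ℂ → ℝ) (a : ℝ → ℝ) (hk : Ker ε p a) (hε : 0 < ε)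
    (hε1 : ε ≤ 1/4) (h2T : t2 + 1 ≤ T) (hu : u ≤ T) :
    Real.exp u ≤ Real.exp (1/4) * (∫ t in t2..(T + 1), Real.exp t * a (t - u)) +
      Real.exp (t2 + 1/4) := by
  have hle : t2 ≤ T + 1 := by linarith
  have hcont : Continuous (fun t => Real.exp t * a (t - u)) :=
    Real.continuous_exp.mul (hk.acont.comp (continuous_id.sub continuous_const))
  have hnn : ∀ t, 0 ≤ Real.exp t * a (t - u) := fun t =>
    mul_nonneg (Real.exp_pos t).le (hk.anonneg _)
  have hF : 0 ≤ ∫ t in t2..(T + 1), Real.exp t * a (t - u) :=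
    intervalIntegral.integral_nonneg hle (fun t _ => hnn t)
  rcases le_or_gt (t2 + ε) u with hc | hc
  · have h1 : ∫ t in (u - ε)..(u + ε), Real.exp t * a (t - u) ≤
        ∫ t in t2..(T + 1), Real.exp t * a (t - u) := by
      apply intervalIntegral.integral_mono_interval (by linarith) (by linarith) (by linarith)
      · exact Filter.Eventually.of_forall hnn
      · exact hcont.intervalIntegrable _ _
    have h2 : ∫ t in (u - ε)..(u + ε), Real.exp (u - ε) * a (t - u) ≤
        ∫ t in (u - ε)..(u + ε), Real.exp t * a (t - u) := by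
      apply intervalIntegral.integral_mono_on (by linarith)
      · exact (continuous_const.mul (hk.acont.comp
          (continuous_id.sub continuous_const))).intervalIntegrable _ _
      · exact hcont.intervalIntegrable _ _
      · intro t ht
        exact mul_le_mul_of_nonneg_right (Real.exp_le_exp.2 ht.1) (hk.anonneg _)
    have h3 : ∫ t in (u - ε)..(u + ε), Real.exp (u - ε) * a (t - u) = Real.exp (u - ε) := by
      rw [intervalIntegral.integral_const_mul]
      have h4 : ∫ t in (u - ε)..(u + ε), a (t - u) = ∫ t in (-ε)..ε, a t := by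
        rw [intervalIntegral.integral_comp_sub_right (fun t => a t) u]
        congr 1 <;> ring
      rw [h4, hk.aint ε le_rfl, mul_one]
    have h5 : Real.exp u = Real.exp ε * Real.exp (u - ε) := by
      rw [← Real.exp_add]
      congr 1
      ring
    have h6 : Real.exp ε ≤ Real.exp (1/4) := Real.exp_le_exp.2 hε1
    have h7 : Real.exp (u - ε) ≤ ∫ t in t2..(T + 1), Real.exp t * a (t - u) := by linarith
    have h8 : Real.exp ε * Real.exp (u - ε) ≤
        Real.exp (1/4) * ∫ t in t2..(T + 1), Real.exp t * a (t - u) :=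
      mul_le_mul h6 h7 (Real.exp_pos _).le (Real.exp_pos _).le
    have h9 := Real.exp_pos (t2 + 1/4)
    linarith
  · have h1 : Real.exp u ≤ Real.exp (t2 + 1/4) := Real.exp_le_exp.2 (by linarith)
    have h2 : 0 ≤ Real.exp (1/4) * (∫ t in t2..(T + 1), Real.exp t * a (t - u)) :=
      mul_nonneg (Real.exp_pos _).le hF
    linarith

theorem ms_hh2_nonneg (σ x : ℝ) (hσ : 0 < σ) (hx : 0 ≤ x) : 0 ≤ hh2 σ x := by
  have h := (hh_props σ x hσ hx).2.2.2.2.2.1
  have : 0 ≤ (3/4) * (x + σ) ^ (-(1/2) : ℝ) := by positivity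
  linarith

theorem ms_int_hh2 (σ X : ℝ) (hσ : 0 < σ) (hX : 0 < X) (hX1 : X ≤ 1) :
    ∫ x in (0:ℝ)..X, hh2 σ x ≤ 2 := by
  have h1 : ∫ x in (0:ℝ)..X, hh2 σ x = hh1 σ X - hh1 σ 0 := by
    apply intervalIntegral.integral_eq_sub_of_hasDerivAt
    · intro x hx
      rw [uIcc_of_le hX.le] at hx
      exact (hh_props σ x hσ hx.1).2.1
    · apply ContinuousOn.intervalIntegrable
      rw [uIcc_of_le hX.le]
      exact (hh_cont σ hσ).2.2.mono (fun x hx => hx.1)
  rw [h1]
  have h2 := (hh_props σ X hσ hX.le).2.2.2.2.2.2.2.2.1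
  have h3 : hh1 σ 0 = 0 := (hh_props σ X hσ hX.le).2.2.2.2.2.2.2.2.2.2
  have h4 : X ^ (1/2 : ℝ) ≤ 1 := Real.rpow_le_one hX.le hX1 (by norm_num)
  rw [h3]
  linarith

theorem mass_step (S : ℂ → ℂ) (R X σ ε t2 T K : ℝ) (hR : 1 < R)
    (hS : DifferentiableOn ℂ S (Metric.ball 0 R)) (hX : 0 < X) (hX1 : X ≤ 1) (hσ : 0 < σ)
    (p : ℂ → ℝ) (a : ℝ → ℝ) (hk : Ker ε p a) (hε : 0 < ε) (hε1 : ε ≤ 1/4)
    (hta : ∀ θ, (S (zz X θ)).re + ε + 1 < t2) (h2T : t2 + 1 ≤ T)
    (hT : ∀ z ∈ Metric.closedBall (0:ℂ) 1, (S z).re ≤ T) (hK : 0 ≤ K)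
    (hdec : ∀ t ∈ Icc (t2 - 1) (T + 1), ∫ φ in (0:ℝ)..(2 * Real.pi),
        JJ S X p (fun x θ => hh σ x * ‖LL S x θ‖ ^ 2) t φ ≤ K * Real.exp (-(3/4) * t)) :
    ∫ x in (0:ℝ)..X, ∫ θ in (0:ℝ)..(2 * Real.pi),
      Real.exp ((S (zz x θ)).re) * hh2 σ x ≤ 12 * K * Real.exp (T / 4) + 110 * Real.exp t2 := by
  have hpi := Real.pi_pos
  obtain ⟨ta, hta1, hta2⟩ := ms_ta S R X ε t2 hR hS hX hta
  obtain ⟨m, m1, m2, hm, hm1, hm2, hc2, hpos, hm2eq⟩ :=
    m_facts S R X σ ε ta hR hS hX hσ p a hk hta2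
  have huT : ∀ x θ, 0 ≤ x → (S (zz x θ)).re ≤ T := by
    intro x θ hx
    apply hT
    rw [mem_closedBall_zero_iff]
    exact ms_zz_norm x θ hx
  -- m2 is nonnegative
  have hpos2 : ∀ t, 0 ≤ m2 t := by
    intro t
    rw [hm2eq]
    apply intervalIntegral.integral_nonneg hX.le
    intro x hx
    apply intervalIntegral.integral_nonneg (by positivity)
    intro θ _
    exact mul_nonneg (hk.anonneg _) (ms_hh2_nonneg σ x hσ hx.1)
  -- m vanishes above T + ε
  have hzero : ∀ t, T + ε < t → m t = 0 := by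
    intro t ht
    rw [hm]
    have h1 : ∀ φ, JJ S X p (fun x θ => hh σ x * ‖LL S x θ‖ ^ 2) t φ = 0 := by
      intro φ
      unfold JJ
      have h2 : ∀ x ∈ uIcc (0:ℝ) X, (∫ θ in (0:ℝ)..(2 * Real.pi),
          p (pt t φ - S (zz x θ)) * (hh σ x * ‖LL S x θ‖ ^ 2)) = 0 := by
        intro x hx
        rw [uIcc_of_le hX.le] at hx
        have h3 : ∀ θ ∈ uIcc (0:ℝ) (2 * Real.pi),
            p (pt t φ - S (zz x θ)) * (hh σ x * ‖LL S x θ‖ ^ 2) = 0 := by
          intro θ _
          have h4 : p (pt t φ - S (zz x θ)) = 0 := by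
            by_contra hne
            have h5 := (hk.supp _ hne).1
            have h6 : (pt t φ - S (zz x θ)).re = t - (S (zz x θ)).re := by
              simp [pt]
            rw [h6] at h5
            have h7 := huT x θ hx.1
            have h8 := (abs_lt.1 h5).2
            linarith
          rw [h4, zero_mul]
        rw [intervalIntegral.integral_congr h3]
        simp
      rw [intervalIntegral.integral_congr h2]
      simp
    simp only [h1]
    simp
  have hz : m (T + 1) = 0 := hzero _ (by linarith)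
  have hz1 : m1 (T + 1) = 0 := by
    have h1 : HasDerivAt m (m1 (T + 1)) (T + 1) := hm1 _ (by linarith)
    have h2 : HasDerivAt m 0 (T + 1) := by
      have h3 : m =ᶠ[𝓝 (T + 1)] fun _ => 0 := by
        filter_upwards [lt_mem_nhds (by linarith : T + ε < T + 1)] with t ht
        exact hzero t ht
      exact (hasDerivAt_const (T + 1) (0:ℝ)).congr_of_eventuallyEq h3
    exact h1.unique h2
  have hupper := ms_upper m m1 m2 ta t2 T K hta1 h2T hK hm1 hm2 hc2 hpos2 hz hz1
    (fun t ht => by rw [hm]; exact hdec t ht)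
  -- globally continuous extensions
  set w : ℝ → ℝ → ℝ := fun x θ => (S (zz (max x 0) θ)).re with hw
  set h : ℝ → ℝ := fun x => hh2 σ (max x 0) with hh
  have hwc : Continuous (fun q : ℝ × ℝ => w q.1 q.2) := by
    have h1 : Continuous (fun q : ℝ × ℝ => S (zz (max q.1 0) q.2)) :=
      (S_cont S R hR hS).1.comp_continuous
        (by fun_prop : Continuous (fun q : ℝ × ℝ => (max q.1 0, q.2)))
        (fun q => show (0:ℝ) ≤ max q.1 0 from le_max_right _ _)
    exact Complex.continuous_re.comp h1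
  have hhc : Continuous h :=
    (hh_cont σ hσ).2.2.comp_continuous (by fun_prop : Continuous (fun x : ℝ => max x 0))
      (fun x => show (0:ℝ) ≤ max x 0 from le_max_right _ _)
  have hh0 : ∀ x, 0 ≤ h x := fun x => ms_hh2_nonneg σ _ hσ (le_max_right _ _)
  have hwT : ∀ x θ, w x θ ≤ T := fun x θ => huT _ θ (le_max_right _ _)
  set F : ℝ → ℝ → ℝ := fun x θ => ∫ t in t2..(T + 1), Real.exp t * a (t - w x θ) with hFdef
  have hFc : Continuous (fun q : ℝ × ℝ => F q.1 q.2) := by
    have h1 : Continuous (Function.uncurry (fun (q : ℝ × ℝ) (t : ℝ) =>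
        Real.exp t * a (t - w q.1 q.2))) := by
      have h2 : Continuous (fun q : (ℝ × ℝ) × ℝ => q.2 - w q.1.1 q.1.2) :=
        continuous_snd.sub (hwc.comp continuous_fst)
      exact (Real.continuous_exp.comp continuous_snd).mul (hk.acont.comp h2)
    exact intervalIntegral.continuous_parametric_intervalIntegral_of_continuous' h1 t2 (T + 1)
  -- Fubini
  have hfub : ∫ t in t2..(T + 1), Real.exp t * m2 t =
      ∫ x in (0:ℝ)..X, ∫ θ in (0:ℝ)..(2 * Real.pi), F x θ * h x := by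
    have h1 : ∫ t in t2..(T + 1), Real.exp t * m2 t =
        ∫ t in t2..(T + 1), ∫ x in (0:ℝ)..X, ∫ θ in (0:ℝ)..(2 * Real.pi),
          Real.exp t * a (t - w x θ) * h x := by
      apply intervalIntegral.integral_congr
      intro t _
      show Real.exp t * m2 t = ∫ x in (0:ℝ)..X, ∫ θ in (0:ℝ)..(2 * Real.pi),
          Real.exp t * a (t - w x θ) * h x
      rw [hm2eq, ← intervalIntegral.integral_const_mul]
      apply intervalIntegral.integral_congr
      intro x hx
      rw [uIcc_of_le hX.le] at hx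
      have hx0 : max x 0 = x := max_eq_left hx.1
      show Real.exp t * ∫ θ in (0:ℝ)..(2 * Real.pi), a (t - (S (zz x θ)).re) * hh2 σ x =
        ∫ θ in (0:ℝ)..(2 * Real.pi), Real.exp t * a (t - (S (zz (max x 0) θ)).re) *
          hh2 σ (max x 0)
      rw [← intervalIntegral.integral_const_mul, hx0]
      apply intervalIntegral.integral_congr
      intro θ _
      show Real.exp t * (a (t - (S (zz x θ)).re) * hh2 σ x) =
        Real.exp t * a (t - (S (zz x θ)).re) * hh2 σ x
      ring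
    rw [h1, ms_swap3 (fun t x θ => Real.exp t * a (t - w x θ) * h x)]
    · apply intervalIntegral.integral_congr
      intro x _
      apply intervalIntegral.integral_congr
      intro θ _
      show ∫ t in t2..(T + 1), Real.exp t * a (t - w x θ) * h x = F x θ * h x
      rw [intervalIntegral.integral_mul_const]
    · have h2 : Continuous (fun q : ℝ × ℝ × ℝ => q.1 - w q.2.1 q.2.2) :=
        continuous_fst.sub (hwc.comp continuous_snd)
      exact ((Real.continuous_exp.comp continuous_fst).mul (hk.acont.comp h2)).mul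
        (hhc.comp (continuous_fst.comp continuous_snd))
  -- pointwise bound
  have hpw : ∀ x θ, Real.exp (w x θ) * h x ≤
      Real.exp (1/4) * (F x θ * h x) + Real.exp (t2 + 1/4) * h x := by
    intro x θ
    have h1 := ms_inner ε t2 T (w x θ) p a hk hε hε1 h2T (hwT x θ)
    have h2 := mul_le_mul_of_nonneg_right h1 (hh0 x)
    refine h2.trans (le_of_eq ?_)
    show (Real.exp (1/4) * F x θ + Real.exp (t2 + 1/4)) * h x = _
    ring
  have hLc : Continuous (fun q : ℝ × ℝ => Real.exp (w q.1 q.2) * h q.1) :=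
    (Real.continuous_exp.comp hwc).mul (hhc.comp continuous_fst)
  have hFhc : Continuous (fun q : ℝ × ℝ => F q.1 q.2 * h q.1) := hFc.mul (hhc.comp continuous_fst)
  have hLHS : ∫ x in (0:ℝ)..X, ∫ θ in (0:ℝ)..(2 * Real.pi),
      Real.exp ((S (zz x θ)).re) * hh2 σ x =
      ∫ x in (0:ℝ)..X, ∫ θ in (0:ℝ)..(2 * Real.pi), Real.exp (w x θ) * h x := by
    apply intervalIntegral.integral_congr
    intro x hx
    rw [uIcc_of_le hX.le] at hx
    have hx0 : max x 0 = x := max_eq_left hx.1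
    show (∫ θ in (0:ℝ)..(2 * Real.pi), Real.exp ((S (zz x θ)).re) * hh2 σ x) =
      ∫ θ in (0:ℝ)..(2 * Real.pi), Real.exp ((S (zz (max x 0) θ)).re) * hh2 σ (max x 0)
    rw [hx0]
  rw [hLHS]
  have hpar : ∀ G : ℝ × ℝ → ℝ, Continuous G →
      Continuous (fun x => ∫ θ in (0:ℝ)..(2 * Real.pi), G (x, θ)) := by
    intro G hG
    have h1 : Continuous (Function.uncurry (fun (x θ : ℝ) => G (x, θ))) := hG
    exact intervalIntegral.continuous_parametric_intervalIntegral_of_continuous' h1 _ _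
  have hstep : ∫ x in (0:ℝ)..X, ∫ θ in (0:ℝ)..(2 * Real.pi), Real.exp (w x θ) * h x ≤
      ∫ x in (0:ℝ)..X, (Real.exp (1/4) * (∫ θ in (0:ℝ)..(2 * Real.pi), F x θ * h x) +
        Real.exp (t2 + 1/4) * (2 * Real.pi) * h x) := by
    apply intervalIntegral.integral_mono_on hX.le
    · exact (hpar _ hLc).intervalIntegrable _ _
    · exact ((continuous_const.mul (hpar _ hFhc)).add
        (continuous_const.mul hhc)).intervalIntegrable _ _
    · intro x _
      have h1 : ∫ θ in (0:ℝ)..(2 * Real.pi), Real.exp (w x θ) * h x ≤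
          ∫ θ in (0:ℝ)..(2 * Real.pi),
            (Real.exp (1/4) * (F x θ * h x) + Real.exp (t2 + 1/4) * h x) := by
        apply intervalIntegral.integral_mono_on (by positivity)
        · exact (hLc.comp (by fun_prop : Continuous (fun θ : ℝ => (x, θ)))).intervalIntegrable _ _
        · exact ((continuous_const.mul (hFhc.comp
            (by fun_prop : Continuous (fun θ : ℝ => (x, θ))))).add
            continuous_const).intervalIntegrable _ _
        · intro θ _
          exact hpw x θ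
      refine h1.trans (le_of_eq ?_)
      rw [intervalIntegral.integral_add, intervalIntegral.integral_const_mul,
        intervalIntegral.integral_const, smul_eq_mul]
      · ring
      · exact (continuous_const.mul (hFhc.comp
            (by fun_prop : Continuous (fun θ : ℝ => (x, θ))))).intervalIntegrable _ _
      · exact continuous_const.intervalIntegrable _ _
  refine hstep.trans ?_
  have i1 : IntervalIntegrable (fun x => Real.exp (1/4) *
      ∫ θ in (0:ℝ)..(2 * Real.pi), F x θ * h x) volume 0 X :=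
    (continuous_const.mul (hpar _ hFhc)).intervalIntegrable _ _
  have i2 : IntervalIntegrable (fun x => Real.exp (t2 + 1/4) * (2 * Real.pi) * h x) volume 0 X :=
    (continuous_const.mul hhc).intervalIntegrable _ _
  rw [intervalIntegral.integral_add i1 i2, intervalIntegral.integral_const_mul, intervalIntegral.integral_const_mul, ← hfub]
  have hint : ∫ x in (0:ℝ)..X, h x ≤ 2 := by
    have h1 : ∫ x in (0:ℝ)..X, h x = ∫ x in (0:ℝ)..X, hh2 σ x := by
      apply intervalIntegral.integral_congr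
      intro x hx
      rw [uIcc_of_le hX.le] at hx
      have hx0 : max x 0 = x := max_eq_left hx.1
      show hh2 σ (max x 0) = hh2 σ x
      rw [hx0]
    rw [h1]
    exact ms_int_hh2 σ X hσ hX hX1
  have b1 : Real.exp (1/4) * (∫ t in t2..(T + 1), Real.exp t * m2 t) ≤
      1.3 * (7.4 * K * Real.exp (T / 4)) := by
    have h1 : 0 ≤ 7.4 * K * Real.exp (T / 4) := by positivity
    calc Real.exp (1/4) * (∫ t in t2..(T + 1), Real.exp t * m2 t) ≤
        Real.exp (1/4) * (7.4 * K * Real.exp (T / 4)) :=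
          mul_le_mul_of_nonneg_left hupper (Real.exp_pos _).le
      _ ≤ 1.3 * (7.4 * K * Real.exp (T / 4)) := mul_le_mul_of_nonneg_right ms_exp14 h1
  have b2 : Real.exp (t2 + 1/4) * (2 * Real.pi) * (∫ x in (0:ℝ)..X, h x) ≤
      110 * Real.exp t2 := by
    have h1 : Real.exp (t2 + 1/4) ≤ Real.exp t2 * 1.3 := by
      rw [Real.exp_add]
      exact mul_le_mul_of_nonneg_left ms_exp14 (Real.exp_pos _).le
    have h2 : 2 * Real.pi ≤ 8 := by linarith [Real.pi_lt_four]
    have h3 : Real.exp (t2 + 1/4) * (2 * Real.pi) ≤ (Real.exp t2 * 1.3) * 8 :=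
      mul_le_mul h1 h2 (by positivity) (by positivity)
    calc Real.exp (t2 + 1/4) * (2 * Real.pi) * (∫ x in (0:ℝ)..X, h x) ≤
        Real.exp (t2 + 1/4) * (2 * Real.pi) * 2 := mul_le_mul_of_nonneg_left hint (by positivity)
      _ ≤ (Real.exp t2 * 1.3) * 8 * 2 := mul_le_mul_of_nonneg_right h3 (by norm_num)
      _ ≤ 110 * Real.exp t2 := by
          have := Real.exp_pos t2
          linarith
  have b3 : 1.3 * (7.4 * K * Real.exp (T / 4)) ≤ 12 * K * Real.exp (T / 4) := by
    have : 0 ≤ K * Real.exp (T / 4) := by positivity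
    linarith
  linarith

end

/-! ### Mass -/

section

theorem mass (s : ℕ → ℂ) (d : ℝ → ℝ) (t0 : ℝ)
    (hw : Win s d t0) : ∃ tm, t0 ≤ tm ∧ ∀ t1, tm ≤ t1 → ∃ K : ℝ, 0 < K ∧
    ∀ (S : ℂ → ℂ) (R T σ : ℝ), 1 < R →
    DifferentiableOn ℂ S (Metric.ball 0 R) → Omit S s →
    (∀ θ, (S (zz (Real.log 2) θ)).re ≤ t1 - 1) →
    (∀ z ∈ Metric.closedBall (0:ℂ) 1, (S z).re ≤ T) → t1 + 3 ≤ T → 0 < σ → σ ≤ 1 →
    ∫ x in (0:ℝ)..(Real.log 2), ∫ θ in (0:ℝ)..(2 * Real.pi),
      Real.exp ((S (zz x θ)).re) * (x + σ) ^ (-(1/2) : ℝ) ≤ K * Real.exp (T / 4) := by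
  obtain ⟨C, hC, hland⟩ := landau_metric
  obtain ⟨tm, htm, hdec⟩ := decay C hC hland s d t0 hw
  refine ⟨tm, htm, fun t1 ht1 => ?_⟩
  obtain ⟨K, hK, hdecK⟩ := hdec t1 ht1
  refine ⟨(4/3) * (12 * K + 110 * Real.exp (t1 + 2 - (t1 + 3) / 4)), by positivity, ?_⟩
  intro S R T σ hR hS homit hlog hT hT3 hσ hσ1
  obtain ⟨tmin, htmin, hmin⟩ := (isCompact_Icc (a := t1) (b := T + 1)).exists_isMinOn
    ⟨t1, ⟨le_refl _, by linarith⟩⟩ hw.cont.continuousOn
  have hdpos : 0 < d tmin := hw.pos tmin (by linarith [htmin.1])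
  set ε : ℝ := min (1/4) (d tmin / 4) with hεdef
  have hε : 0 < ε := lt_min (by norm_num) (by linarith)
  have hε1 : ε ≤ 1/4 := min_le_left _ _
  have hε2 : ε ≤ d tmin / 4 := min_le_right _ _
  obtain ⟨p, a, hk⟩ := ker_exists ε hε (by linarith)
  have hdec' := hdecK S R T σ ε p a hR hS homit hlog hT (by linarith) hσ hk hε hε1
    (fun t ht => by
      have := hmin ht
      simp only [mem_setOf_eq] at this
      linarith)
  have hlog2pos : 0 < Real.log 2 := Real.log_pos (by norm_num)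
  have hlog2le : Real.log 2 ≤ 1 := by
    have := Real.log_two_lt_d9
    linarith
  have hms := mass_step S R (Real.log 2) σ ε (t1 + 2) T K hR hS hlog2pos hlog2le hσ p a hk hε hε1
    (fun θ => by linarith [hlog θ]) (by linarith) hT hK.le
    (fun t ht => hdec' t ⟨by linarith [ht.1], ht.2⟩)
  -- the inner integrals
  set G : ℝ → ℝ → ℝ := fun x θ => Real.exp ((S (zz (max x 0) θ)).re) with hG
  have hGc : Continuous (Function.uncurry G) := by
    have h1 := (S_cont S R hR hS).1
    have h2 : Continuous (fun q : ℝ × ℝ => ((max q.1 0, q.2) : ℝ × ℝ)) := by fun_prop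
    have h3 : Continuous (fun q : ℝ × ℝ => S (zz (max q.1 0) q.2)) := by
      have := h1.comp_continuous h2 (fun q => by simp)
      exact this
    exact Real.continuous_exp.comp (Complex.continuous_re.comp h3)
  have hFc : Continuous (fun x => ∫ θ in (0:ℝ)..(2 * Real.pi), G x θ) :=
    intervalIntegral.continuous_parametric_intervalIntegral_of_continuous' hGc _ _
  have hF0 : ∀ x, 0 ≤ ∫ θ in (0:ℝ)..(2 * Real.pi), G x θ := fun x =>
    intervalIntegral.integral_nonneg (by positivity) (fun θ _ => (Real.exp_pos _).le)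
  have hmax : ∀ x ∈ Icc (0:ℝ) (Real.log 2), ∀ θ, Real.exp ((S (zz x θ)).re) = G x θ := by
    intro x hx θ
    simp only [hG, max_eq_left hx.1]
  have hL : ∫ x in (0:ℝ)..(Real.log 2), ∫ θ in (0:ℝ)..(2 * Real.pi),
      Real.exp ((S (zz x θ)).re) * (x + σ) ^ (-(1/2) : ℝ)
      = ∫ x in (0:ℝ)..(Real.log 2), (∫ θ in (0:ℝ)..(2 * Real.pi), G x θ) * (x + σ) ^ (-(1/2) : ℝ) := by
    refine intervalIntegral.integral_congr (fun x hx => ?_)
    rw [uIcc_of_le hlog2pos.le] at hx
    simp only [hmax x hx]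
    rw [intervalIntegral.integral_mul_const]
  have hR' : ∫ x in (0:ℝ)..(Real.log 2), ∫ θ in (0:ℝ)..(2 * Real.pi),
      Real.exp ((S (zz x θ)).re) * hh2 σ x
      = ∫ x in (0:ℝ)..(Real.log 2), (∫ θ in (0:ℝ)..(2 * Real.pi), G x θ) * hh2 σ x := by
    refine intervalIntegral.integral_congr (fun x hx => ?_)
    rw [uIcc_of_le hlog2pos.le] at hx
    simp only [hmax x hx]
    rw [intervalIntegral.integral_mul_const]
  have hpc : ContinuousOn (fun x : ℝ => (x + σ) ^ (-(1/2) : ℝ)) (Icc 0 (Real.log 2)) := by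
    intro x hx
    refine ContinuousAt.continuousWithinAt ?_
    have hx0 : x + σ ≠ 0 := by
      have := hx.1
      positivity
    exact (continuousAt_id.add continuousAt_const).rpow_const (Or.inl hx0)
  have hhc : ContinuousOn (hh2 σ) (Icc 0 (Real.log 2)) :=
    (hh_cont σ hσ).2.2.mono (fun x hx => hx.1)
  have hmono : ∫ x in (0:ℝ)..(Real.log 2), (∫ θ in (0:ℝ)..(2 * Real.pi), G x θ) * (x + σ) ^ (-(1/2) : ℝ)
      ≤ ∫ x in (0:ℝ)..(Real.log 2), (4/3) * ((∫ θ in (0:ℝ)..(2 * Real.pi), G x θ) * hh2 σ x) := by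
    refine intervalIntegral.integral_mono_on hlog2pos.le ?_ ?_ ?_
    · refine ContinuousOn.intervalIntegrable ?_
      rw [uIcc_of_le hlog2pos.le]
      exact hFc.continuousOn.mul hpc
    · refine ContinuousOn.intervalIntegrable ?_
      rw [uIcc_of_le hlog2pos.le]
      exact continuousOn_const.mul (hFc.continuousOn.mul hhc)
    · intro x hx
      have h34 := (hh_props σ x hσ hx.1).2.2.2.2.2.1
      have := mul_le_mul_of_nonneg_left h34 (hF0 x)
      linarith
  rw [intervalIntegral.integral_const_mul] at hmono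
  rw [hL]
  rw [hR'] at hms
  have hexp : Real.exp (t1 + 2) ≤ Real.exp (t1 + 2 - (t1 + 3) / 4) * Real.exp (T / 4) := by
    rw [← Real.exp_add]
    exact Real.exp_le_exp.mpr (by linarith)
  calc _ ≤ _ := hmono
    _ ≤ (4/3) * (12 * K * Real.exp (T / 4) + 110 * Real.exp (t1 + 2)) := by
        exact mul_le_mul_of_nonneg_left hms (by norm_num)
    _ ≤ _ := by nlinarith [hexp]

end

/-! ### Core -/

section

lemma mul_zz (r x θ : ℝ) : (r:ℂ) * zz x θ = circleMap 0 (r * Real.exp (-x)) θ := by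
  unfold zz; rw [circleMap_zero]; push_cast; rw [Complex.exp_add]; ring

lemma scale_diff (S : ℂ → ℂ) (hS : DifferentiableOn ℂ S (Metric.ball 0 1)) (r : ℝ) (hr : r ∈ Ioo (0:ℝ) 1) :
    DifferentiableOn ℂ (fun z => S ((r:ℂ) * z)) (Metric.ball 0 (1 / r)) := by
  have hr0 := hr.1
  refine hS.comp (by fun_prop) ?_
  intro z hz
  rw [mem_ball_zero_iff] at hz ⊢
  rw [norm_mul, Complex.norm_real, Real.norm_of_nonneg hr0.le]
  calc r * ‖z‖ < r * (1 / r) := by gcongr
    _ = 1 := by field_simp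

theorem core_mean (s : ℕ → ℂ) (d : ℝ → ℝ) (t0 : ℝ) (hw : Win s d t0) (S : ℂ → ℂ)
    (hS : DifferentiableOn ℂ S (Metric.ball 0 1)) (ho : Omit S s) :
    ∃ C : ℝ, ∀ r ∈ Ioo (0:ℝ) 1,
      ∫ θ in (0:ℝ)..(2 * Real.pi), ‖Complex.exp (S (circleMap 0 r θ))‖ ≤ C / (1 - r) := by
  obtain ⟨tm, htm, hmass⟩ := mass s d t0 hw
  have hScont : ContinuousOn S (Metric.ball 0 1) := hS.continuousOn
  have hsub : ∀ r : ℝ, r < 1 → Metric.closedBall (0:ℂ) r ⊆ Metric.ball 0 1 := fun r hr =>
    Metric.closedBall_subset_ball hr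
  -- bound on the half ball
  obtain ⟨b, hb⟩ : ∃ b : ℝ, ∀ z ∈ Metric.closedBall (0:ℂ) (1/2), (S z).re ≤ b := by
    have hc : ContinuousOn (fun z => (S z).re) (Metric.closedBall (0:ℂ) (1/2)) :=
      Complex.continuous_re.comp_continuousOn (hScont.mono (hsub _ (by norm_num)))
    obtain ⟨b, hb⟩ := (isCompact_closedBall (0:ℂ) (1/2)).bddAbove_image hc
    exact ⟨b, fun z hz => hb ⟨z, hz, rfl⟩⟩
  set t1 : ℝ := max (max tm 0) (b + 1) with ht1
  have ht1m : tm ≤ t1 := le_trans (le_max_left _ _) (le_max_left _ _)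
  have ht10 : 0 ≤ t1 := le_trans (le_max_right _ _) (le_max_left _ _)
  have ht1b : b ≤ t1 - 1 := by have := le_max_right (max tm 0) (b + 1); linarith
  obtain ⟨K0, hK0, hK⟩ := hmass t1 ht1m
  set M : ℝ → ℝ := fun r => sSup ((fun z => ‖Complex.exp (S z)‖) '' Metric.closedBall (0:ℂ) r) with hM
  set I : ℝ → ℝ := fun r => ∫ θ in (0:ℝ)..(2 * Real.pi), ‖Complex.exp (S (circleMap 0 r θ))‖ with hI
  have hbdd : ∀ r, r < 1 → BddAbove ((fun z => ‖Complex.exp (S z)‖) '' Metric.closedBall (0:ℂ) r) := by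
    intro r hr
    have hc : ContinuousOn (fun z => ‖Complex.exp (S z)‖) (Metric.closedBall (0:ℂ) r) :=
      ((Complex.continuous_exp.comp_continuousOn (hScont.mono (hsub _ hr)))).norm
    exact (isCompact_closedBall (0:ℂ) r).bddAbove_image hc
  have hMle : ∀ r, r < 1 → ∀ z ∈ Metric.closedBall (0:ℂ) r, ‖Complex.exp (S z)‖ ≤ M r := by
    intro r hr z hz
    exact le_csSup (hbdd r hr) ⟨z, hz, rfl⟩
  have hMpos : ∀ r ∈ Ioo (0:ℝ) 1, 0 < M r := by
    intro r hr
    have h0 : (0:ℂ) ∈ Metric.closedBall (0:ℂ) r := Metric.mem_closedBall_self hr.1.le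
    exact lt_of_lt_of_le (norm_pos_iff.2 (Complex.exp_ne_zero _)) (hMle r hr.2 0 h0)
  have hMmono : MonotoneOn M (Ioo 0 1) := by
    intro r hr r' hr' hrr
    apply csSup_le_csSup (hbdd r' hr'.2)
    · exact ⟨_, ⟨0, Metric.mem_closedBall_self hr.1.le, rfl⟩⟩
    · exact image_mono (Metric.closedBall_subset_closedBall hrr)
  have hdiffF : ∀ r ∈ Ioo (0:ℝ) 1, DifferentiableOn ℂ (fun z => Complex.exp (S ((r:ℂ) * z)))
      (Metric.ball 0 (1 / r)) := fun r hr => (scale_diff S hS r hr).cexp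
  have hR1 : ∀ r ∈ Ioo (0:ℝ) 1, 1 < 1 / r := fun r hr => by
    rw [lt_div_iff₀ hr.1]; linarith [hr.2]
  have hImono : MonotoneOn I (Ioo 0 1) := by
    intro r hr r' hr' hrr
    have h := mean_mono (fun z => Complex.exp (S ((r':ℂ) * z))) (1 / r') (hR1 r' hr') (hdiffF r' hr')
      0 (Real.log (r' / r)) le_rfl (Real.log_nonneg (by rw [le_div_iff₀ hr.1]; linarith))
    have e1 : ∀ θ, (r':ℂ) * zz (Real.log (r' / r)) θ = circleMap 0 r θ := by
      intro θ
      rw [mul_zz, ← Real.log_inv, Real.exp_log (by have := hr.1; have := hr'.1; positivity)]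
      congr 1
      have := hr'.1.ne'; have := hr.1.ne'
      field_simp
    have e2 : ∀ θ, (r':ℂ) * zz 0 θ = circleMap 0 r' θ := by
      intro θ
      rw [mul_zz, neg_zero, Real.exp_zero, mul_one]
    simp only [e1, e2] at h
    exact h
  have hI0 : ∀ r ∈ Ioo (0:ℝ) 1, 0 ≤ I r := by
    intro r hr
    apply intervalIntegral.integral_nonneg (by positivity)
    intro θ _; exact norm_nonneg _
  have hlog : ∀ x ∈ Ioc (0:ℝ) (Real.log 2), x ≤ 1 := fun x hx =>
    le_trans hx.2 (by have := Real.log_two_lt_d9; linarith)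
  have ha : ∀ r ∈ Ioo (0:ℝ) 1, ∀ x ∈ Ioc (0:ℝ) (Real.log 2),
      I (r * Real.exp (-x)) ≤ (max (2 * K0) 1) * x ^ (-(1/2) : ℝ) *
        (max (M r) (Real.exp (t1 + 3))) ^ (1/4 : ℝ) := by
    intro r hr x hx
    set T : ℝ := max (Real.log (M r)) (t1 + 3) with hT
    have hm := hK (fun z => S ((r:ℂ) * z)) (1 / r) T x (hR1 r hr) (scale_diff S hS r hr)
      (by
        intro z hz j n
        have hz' : (r:ℂ) * z ∈ Metric.ball (0:ℂ) 1 := by
          rw [mem_ball_zero_iff] at hz ⊢
          rw [norm_mul, Complex.norm_real, Real.norm_of_nonneg hr.1.le]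
          nlinarith [hr.1, hr.2, norm_nonneg z]
        exact ho _ hz' j n)
      (by
        intro θ
        refine le_trans (hb _ ?_) ht1b
        rw [mem_closedBall_zero_iff, norm_mul, Complex.norm_real, Real.norm_of_nonneg hr.1.le, zz_norm,
          Real.exp_neg, Real.exp_log (by norm_num)]
        have := hr.2
        have := hr.1
        linarith)
      (by
        intro z hz
        refine le_trans ?_ (le_max_left _ _)
        rw [Real.le_log_iff_exp_le (hMpos r hr), ← Complex.norm_exp]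
        apply hMle r hr.2
        rw [mem_closedBall_zero_iff] at hz ⊢
        rw [norm_mul, Complex.norm_real, Real.norm_of_nonneg hr.1.le]
        nlinarith [hr.1])
      (le_max_right _ _) hx.1 (hlog x hx)
    have h2 := mean_from_mass (fun z => S ((r:ℂ) * z)) (1 / r) T K0 x (hR1 r hr)
      (scale_diff S hS r hr) hx.1 hx.2 hK0 hm
    simp only [mul_zz] at h2
    have hexpT : Real.exp (T / 4) = (max (M r) (Real.exp (t1 + 3))) ^ (1/4 : ℝ) := by
      have : Real.exp T = max (M r) (Real.exp (t1 + 3)) := by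
        rw [hT, Real.exp_monotone.map_max, Real.exp_log (hMpos r hr)]
      rw [← this, ← Real.exp_mul]; congr 1; ring
    rw [hexpT] at h2
    refine le_trans h2 ?_
    have hx0 : 0 ≤ x ^ (-(1/2) : ℝ) := Real.rpow_nonneg hx.1.le _
    have hm0 : 0 ≤ (max (M r) (Real.exp (t1 + 3))) ^ (1/4 : ℝ) :=
      Real.rpow_nonneg (le_trans (Real.exp_pos _).le (le_max_right _ _)) _
    gcongr
    exact le_max_left _ _
  have hbb : ∀ r ∈ Ioo (0:ℝ) 1, ∀ x ∈ Ioc (0:ℝ) (Real.log 2),
      M (r * Real.exp (-x)) ≤ (max (2 * K0) 1) / x * I r := by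
    intro r hr x hx
    have hx0 := hx.1
    have hx1 := hlog x hx
    have hden : x / 2 ≤ 1 - Real.exp (-x) := by
      have h1 : Real.exp (-x) ≤ 1 / (1 + x) := by
        rw [Real.exp_neg, ← one_div]
        apply one_div_le_one_div_of_le (by linarith)
        linarith [Real.add_one_le_exp x]
      have h2 : 1 / (1 + x) ≤ 1 - x / 2 := by
        rw [div_le_iff₀ (by linarith)]; nlinarith
      linarith
    have hIr := hI0 r hr
    apply csSup_le
    · exact ⟨_, ⟨0, Metric.mem_closedBall_self (by have := hr.1; positivity), rfl⟩⟩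
    · rintro _ ⟨z, hz, rfl⟩
      have hr0 := hr.1
      have hrc : (r:ℂ) ≠ 0 := by exact_mod_cast hr0.ne'
      have h := cauchy_pt (fun z => Complex.exp (S ((r:ℂ) * z))) (1 / r) (hR1 r hr) (hdiffF r hr) x hx.1
        (z / r) (by
          rw [mem_closedBall_zero_iff] at hz
          rw [norm_div, Complex.norm_real, Real.norm_of_nonneg hr0.le, div_le_iff₀ hr0]
          linarith)
      have e2 : ∀ θ, (r:ℂ) * zz 0 θ = circleMap 0 r θ := by
        intro θ
        rw [mul_zz, neg_zero, Real.exp_zero, mul_one]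
      simp only [e2] at h
      have e3 : (r:ℂ) * (z / r) = z := by field_simp
      rw [e3] at h
      refine le_trans h ?_
      have hpi := Real.pi_gt_three
      have hstep : (1 / (2 * Real.pi)) * (1 / (1 - Real.exp (-x))) ≤ (max (2 * K0) 1) / x := by
        have h1 : 1 / (1 - Real.exp (-x)) ≤ 2 / x := by
          rw [div_le_div_iff₀ (by linarith) hx0]; linarith
        have h2 : 1 / (2 * Real.pi) ≤ 1 / 2 := by
          apply one_div_le_one_div_of_le (by norm_num); linarith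
        calc (1 / (2 * Real.pi)) * (1 / (1 - Real.exp (-x))) ≤ (1 / 2) * (2 / x) := by
              apply mul_le_mul h2 h1 _ (by norm_num)
              apply div_nonneg (by norm_num); linarith
          _ = 1 / x := by ring
          _ ≤ (max (2 * K0) 1) / x := by gcongr; exact le_max_right _ _
      exact mul_le_mul_of_nonneg_right hstep hIr
  obtain ⟨C, hC⟩ := ntrick M I (max (2 * K0) 1) (Real.exp (t1 + 3)) (lt_of_lt_of_le one_pos (le_max_right _ _))
    (Real.one_le_exp (by linarith)) hMmono hImono (fun r hr => (hMpos r hr).le) hI0 ha hbb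
  exact ⟨C, hC⟩

end

/-! ### Main -/

section

theorem main_thm (f : ℂ → ℂ) (w : ℕ → ℂ)
    (hf : DifferentiableOn ℂ f (Metric.ball (0 : ℂ) 1))
    (hom : ∀ z ∈ Metric.ball (0 : ℂ) 1, ∀ k : ℕ, f z ≠ w k)
    (h0 : 0 < ‖w 0‖) (hm : StrictMono (fun k : ℕ => ‖w k‖))
    (ht : Tendsto (fun k : ℕ => ‖w k‖) atTop atTop)
    (hs : Summable (fun n : ℕ => (Real.log (‖w (n + 1)‖ / ‖w n‖)) ^ 2)) :
    (∃ C : ℝ, ∀ r : ℝ, 0 ≤ r → r < 1 →
          (1 / (2 * Real.pi)) * ∫ θ in (0 : ℝ)..(2 * Real.pi), ‖f (circleMap 0 r θ)‖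
            ≤ C / (1 - r)) ∧
      (∃ C : ℝ, ∀ n : ℕ,
          ‖iteratedDeriv n f 0 / (n.factorial : ℂ)‖ ≤ C * ((n : ℝ) + 1)) := by
  have hne : ∀ k, w (k + 1) - w 0 ≠ 0 := by
    intro k h
    have h1 : ‖w 0‖ < ‖w (k + 1)‖ := hm (Nat.succ_pos k)
    rw [sub_eq_zero.1 h] at h1
    exact lt_irrefl _ h1
  have hF : DifferentiableOn ℂ (fun z => f z - w 0) (Metric.ball 0 1) := hf.sub_const _
  obtain ⟨S, hS, hexp⟩ := exists_log (fun z => f z - w 0) hF
    (fun z hz => sub_ne_zero.2 (hom z hz 0))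
  obtain ⟨d, t0, hwin⟩ := win_exists w h0 hm ht hs
  have homit : Omit S (fun k => Complex.log (w (k + 1) - w 0)) := by
    intro z hz j n h
    have h1 := hexp z hz
    rw [h, Complex.exp_add, Complex.exp_log (hne j)] at h1
    have h2 : Complex.exp (2 * (Real.pi : ℂ) * n * Complex.I) = 1 := by
      rw [show (2 * (Real.pi : ℂ) * n * Complex.I) = n * (2 * Real.pi * Complex.I) by ring]
      exact Complex.exp_int_mul_two_pi_mul_I n
    rw [h2, mul_one] at h1
    exact hom z hz (j + 1) (sub_left_injective h1.symm)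
  obtain ⟨C, hC⟩ := core_mean _ d t0 hwin S hS homit
  have hpi := Real.pi_pos
  have hpi1 : (1 : ℝ) ≤ 2 * Real.pi := by linarith [Real.pi_gt_three]
  have hA : ∃ C : ℝ, ∀ r : ℝ, 0 ≤ r → r < 1 →
          (1 / (2 * Real.pi)) * ∫ θ in (0 : ℝ)..(2 * Real.pi), ‖f (circleMap 0 r θ)‖
            ≤ C / (1 - r) := by
    refine ⟨|C| + ‖w 0‖ + ‖f 0‖, fun r hr0 hr1 => ?_⟩
    have h1r : 0 < 1 - r := by linarith
    rcases hr0.eq_or_lt with h | hr
    · subst h
      have e : ∀ θ : ℝ, circleMap 0 0 θ = 0 := by intro θ; simp [circleMap]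
      simp only [e, intervalIntegral.integral_const, sub_zero, smul_eq_mul, div_one]
      rw [← mul_assoc, one_div, inv_mul_cancel₀ (by positivity), one_mul]
      have := abs_nonneg C
      have := norm_nonneg (w 0)
      linarith
    · have hmem : ∀ θ : ℝ, circleMap 0 r θ ∈ Metric.ball (0 : ℂ) 1 := by
        intro θ
        rw [mem_ball_zero_iff, norm_circleMap_zero, abs_of_pos hr]
        exact hr1
      have c1 : Continuous (fun θ : ℝ => ‖f (circleMap 0 r θ)‖) :=
        (hf.continuousOn.comp_continuous (continuous_circleMap 0 r) hmem).norm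
      have c2 : Continuous (fun θ : ℝ => ‖Complex.exp (S (circleMap 0 r θ))‖) :=
        (Complex.continuous_exp.comp
          (hS.continuousOn.comp_continuous (continuous_circleMap 0 r) hmem)).norm
      have h2 : ∫ θ in (0 : ℝ)..(2 * Real.pi), ‖f (circleMap 0 r θ)‖ ≤
          ∫ θ in (0 : ℝ)..(2 * Real.pi), (‖Complex.exp (S (circleMap 0 r θ))‖ + ‖w 0‖) := by
        apply intervalIntegral.integral_mono_on (by positivity) (c1.intervalIntegrable _ _)
          ((c2.add continuous_const).intervalIntegrable _ _)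
        intro θ _
        show ‖f (circleMap 0 r θ)‖ ≤ ‖Complex.exp (S (circleMap 0 r θ))‖ + ‖w 0‖
        rw [hexp _ (hmem θ)]
        calc ‖f (circleMap 0 r θ)‖ = ‖(f (circleMap 0 r θ) - w 0) + w 0‖ := by rw [sub_add_cancel]
          _ ≤ _ := norm_add_le _ _
      rw [intervalIntegral.integral_add (c2.intervalIntegrable _ _)
        (continuous_const.intervalIntegrable _ _), intervalIntegral.integral_const, sub_zero,
        smul_eq_mul] at h2
      have h3 := hC r ⟨hr, hr1⟩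
      have h4 : C / (1 - r) ≤ |C| / (1 - r) := by gcongr; exact le_abs_self C
      calc (1 / (2 * Real.pi)) * ∫ θ in (0 : ℝ)..(2 * Real.pi), ‖f (circleMap 0 r θ)‖
          ≤ (1 / (2 * Real.pi)) * (|C| / (1 - r) + 2 * Real.pi * ‖w 0‖) := by
            gcongr
            linarith
        _ = (1 / (2 * Real.pi)) * (|C| / (1 - r)) + ‖w 0‖ := by
            field_simp
        _ ≤ 1 * (|C| / (1 - r)) + ‖w 0‖ := by
            have : 1 / (2 * Real.pi) ≤ 1 := by
              rw [div_le_one (by positivity)]; exact hpi1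
            gcongr
        _ ≤ (|C| + ‖w 0‖ + ‖f 0‖) / (1 - r) := by
            rw [le_div_iff₀ h1r, one_mul, add_mul, div_mul_cancel₀ _ h1r.ne']
            have := norm_nonneg (w 0)
            have := norm_nonneg (f 0)
            nlinarith
  refine ⟨hA, ?_⟩
  obtain ⟨C', hC'⟩ := hA
  exact coeff_bound f hf C' hC'

end

end HW287
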