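import Pool.Agent.Helper287.HW.Base

set_option autoImplicit false
set_option linter.all false

open MeasureTheory Set Filter Topology

namespace HW287

/-! ### Land -/

section

theorem logball_28747 (f : ℂ → ℂ) (hf : DifferentiableOn ℂ f (Metric.ball 0 1))
    (h0 : ∀ z ∈ Metric.ball (0:ℂ) 1, f z ≠ 0)
    (z0 : ℂ) (hz0 : z0 ∈ Metric.ball (0:ℂ) 1) (w0 : ℂ) (hw0 : Complex.exp w0 = f z0) :
    ∃ a : ℂ → ℂ, DifferentiableOn ℂ a (Metric.ball 0 1) ∧ a z0 = w0 ∧
      ∀ z ∈ Metric.ball (0:ℂ) 1, Complex.exp (a z) = f z := by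
  have hq : DifferentiableOn ℂ (fun z => deriv f z / f z) (Metric.ball 0 1) :=
    (hf.deriv Metric.isOpen_ball).div hf h0
  obtain ⟨a, ha0, ha⟩ := hq.isExactOn_ball.with_val_at z0 w0
  refine ⟨a, fun z hz => (ha z hz).differentiableAt.differentiableWithinAt, ha0, ?_⟩
  have hd : ∀ z ∈ Metric.ball (0:ℂ) 1,
      HasDerivWithinAt (fun z => f z * Complex.exp (-(a z))) ((fun _ => (0:ℂ)) z)
        (Metric.ball (0:ℂ) 1) z := by
    intro z hz
    have h1 : HasDerivAt f (deriv f z) z :=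
      (hf.differentiableAt (Metric.isOpen_ball.mem_nhds hz)).hasDerivAt
    have h2 : HasDerivAt (fun z => Complex.exp (-(a z)))
        (Complex.exp (-(a z)) * (-(deriv f z / f z))) z := (ha z hz).neg.cexp
    have h3 := h1.mul h2
    have h4 : deriv f z * Complex.exp (-(a z)) + f z * (Complex.exp (-(a z)) *
        (-(deriv f z / f z))) = 0 := by
      have := h0 z hz
      field_simp
      ring
    rw [h4] at h3
    exact h3.hasDerivWithinAt
  intro z hz
  have h5 := (convex_ball (0:ℂ) 1).norm_image_sub_le_of_norm_hasDerivWithin_le (C := 0) hd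
    (fun x _ => by simp) hz0 hz
  rw [zero_mul] at h5
  have h6 : f z * Complex.exp (-(a z)) = f z0 * Complex.exp (-(a z0)) := by
    have := norm_le_zero_iff.mp h5
    exact sub_eq_zero.mp this
  rw [ha0, ← hw0, ← Complex.exp_add, add_neg_cancel, Complex.exp_zero, Complex.exp_neg] at h6
  have h7 := Complex.exp_ne_zero (a z)
  field_simp at h6
  exact h6.symm

theorem bloch_28747 (g : ℂ → ℂ) (hg : DifferentiableOn ℂ g (Metric.ball 0 1)) (R : ℝ)
    (hR : 0 < R)
    (hom : ∀ w : ℂ, ∃ p ∈ Metric.ball w R, ∀ z ∈ Metric.ball (0:ℂ) 1, g z ≠ p) (z0 : ℂ)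
    (hz0 : z0 ∈ Metric.ball (0:ℂ) 1) : ‖deriv g z0‖ * (1 - ‖z0‖) ≤ 48 * R := by
  by_contra hcon
  push Not at hcon
  have hδ : 0 < 1 - ‖z0‖ := by
    rw [mem_ball_zero_iff] at hz0
    linarith
  have hD : 0 < ‖deriv g z0‖ := by
    by_contra h
    have : ‖deriv g z0‖ = 0 := le_antisymm (not_lt.mp h) (norm_nonneg _)
    rw [this, zero_mul] at hcon
    linarith
  obtain ⟨ρ, hρ1, hρ2⟩ : ∃ ρ, 48 * R / ‖deriv g z0‖ < ρ ∧ ρ < 1 - ‖z0‖ := by
    apply exists_between
    rw [div_lt_iff₀ hD]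
    linarith
  have hρ0 : 0 < ρ := lt_trans (by positivity) hρ1
  have hρD : 48 * R < ‖deriv g z0‖ * ρ := by
    rw [div_lt_iff₀ hD] at hρ1
    linarith
  have hKsub : Metric.closedBall z0 ρ ⊆ Metric.ball (0:ℂ) 1 := by
    intro z hz
    rw [mem_closedBall_iff_norm] at hz
    rw [mem_ball_zero_iff]
    have h1 := norm_add_le (z - z0) z0
    rw [sub_add_cancel] at h1
    linarith
  have hg' : DifferentiableOn ℂ (deriv g) (Metric.ball 0 1) := hg.deriv Metric.isOpen_ball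
  have hcont : ContinuousOn (fun z => ‖deriv g z‖ * (ρ - ‖z - z0‖)) (Metric.closedBall z0 ρ) := by
    apply ContinuousOn.mul
    · exact (hg'.continuousOn.mono hKsub).norm
    · fun_prop
  obtain ⟨a, haK, hamax⟩ := (isCompact_closedBall z0 ρ).exists_isMaxOn
    ⟨z0, Metric.mem_closedBall_self hρ0.le⟩ hcont
  have hmax : ∀ z ∈ Metric.closedBall z0 ρ, ‖deriv g z‖ * (ρ - ‖z - z0‖) ≤
      ‖deriv g a‖ * (ρ - ‖a - z0‖) := fun z hz => hamax hz
  have hN : 48 * R < ‖deriv g a‖ * (ρ - ‖a - z0‖) := by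
    have h1 := hmax z0 (Metric.mem_closedBall_self hρ0.le)
    rw [sub_self, norm_zero, sub_zero] at h1
    linarith
  set A := ‖deriv g a‖ with hA
  set r := (ρ - ‖a - z0‖) / 2 with hr
  have hr2 : ρ - ‖a - z0‖ = 2 * r := by rw [hr]; ring
  rw [hr2] at hN hmax
  have haK' : ‖a - z0‖ ≤ ρ := by rwa [mem_closedBall_iff_norm] at haK
  have hr_nn : 0 ≤ r := by rw [hr]; linarith
  have hr0 : 0 < r := by
    rcases hr_nn.lt_or_eq with h | h
    · exact h
    · rw [← h] at hN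
      linarith
  have hA0 : 0 < A := by
    by_contra h
    have h1 : A = 0 := le_antisymm (not_lt.mp h) (norm_nonneg _)
    rw [h1, zero_mul] at hN
    linarith
  have hsubK : Metric.closedBall a r ⊆ Metric.closedBall z0 ρ := by
    intro z hz
    rw [mem_closedBall_iff_norm] at hz ⊢
    have h1 := norm_add_le (z - a) (a - z0)
    rw [sub_add_sub_cancel] at h1
    linarith
  have hbd : ∀ z ∈ Metric.closedBall a r, ‖deriv g z‖ ≤ 2 * A := by
    intro z hz
    have h1 := hmax z (hsubK hz)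
    rw [mem_closedBall_iff_norm] at hz
    have h2 := norm_add_le (z - a) (a - z0)
    rw [sub_add_sub_cancel] at h2
    have h3 : r ≤ ρ - ‖z - z0‖ := by linarith
    have h4 : ‖deriv g z‖ * r ≤ ‖deriv g z‖ * (ρ - ‖z - z0‖) :=
      mul_le_mul_of_nonneg_left h3 (norm_nonneg _)
    have h5 : ‖deriv g z‖ * r ≤ (2 * A) * r := by nlinarith
    exact le_of_mul_le_mul_right h5 hr0
  have hball : Metric.ball a r ⊆ Metric.ball (0:ℂ) 1 :=
    Metric.ball_subset_closedBall.trans (hsubK.trans hKsub)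
  have hSchw : ∀ z ∈ Metric.ball a r, ‖deriv g z - deriv g a‖ ≤ 3 * A / r * ‖z - a‖ := by
    intro z hz
    have h1 := Complex.dist_le_div_mul_dist_of_mapsTo_ball (f := deriv g) (c := a) (R₁ := r)
      (R₂ := 3 * A) (z := z) (hg'.mono hball) (fun x hx => by
        rw [mem_closedBall_iff_norm]
        have h2 := hbd x (Metric.ball_subset_closedBall hx)
        have h3 := norm_sub_le (deriv g x) (deriv g a)
        linarith) hz
    rw [dist_eq_norm, dist_eq_norm] at h1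
    exact h1
  set s := r / 6 with hs
  have hs0 : 0 < s := by positivity
  have hsr : Metric.closedBall a s ⊆ Metric.ball a r := Metric.closedBall_subset_ball (by
    rw [hs]
    linarith)
  have hlow : ∀ z ∈ Metric.sphere a s, A * r / 12 ≤ ‖g z - g a‖ := by
    intro z hz
    have hzs : ‖z - a‖ = s := by rwa [mem_sphere_iff_norm] at hz
    have hd : ∀ x ∈ Metric.closedBall a s, HasDerivWithinAt (fun x => g x - deriv g a * x)
        ((fun x => deriv g x - deriv g a) x) (Metric.closedBall a s) x := by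
      intro x hx
      have h1 : HasDerivAt g (deriv g x) x :=
        (hg.differentiableAt (Metric.isOpen_ball.mem_nhds (hball (hsr hx)))).hasDerivAt
      have h2 : HasDerivAt (fun x => deriv g a * x) (deriv g a) x := by
        have := (hasDerivAt_id x).const_mul (deriv g a)
        rw [mul_one] at this
        exact this
      exact (h1.sub h2).hasDerivWithinAt
    have hb : ∀ x ∈ Metric.closedBall a s, ‖(fun x => deriv g x - deriv g a) x‖ ≤ A / 2 := by
      intro x hx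
      refine (hSchw x (hsr hx)).trans ?_
      rw [mem_closedBall_iff_norm] at hx
      have h1 : 3 * A / r * ‖x - a‖ ≤ 3 * A / r * s :=
        mul_le_mul_of_nonneg_left hx (by positivity)
      have h2 : 3 * A / r * s = A / 2 := by
        rw [hs]
        field_simp
        ring
      linarith
    have h3 := (convex_closedBall a s).norm_image_sub_le_of_norm_hasDerivWithin_le hd hb
      (Metric.mem_closedBall_self hs0.le) (Metric.sphere_subset_closedBall hz)
    rw [hzs] at h3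
    have h4 : (g z - deriv g a * z) - (g a - deriv g a * a) =
        (g z - g a) - deriv g a * (z - a) := by ring
    rw [h4] at h3
    have h5 : ‖deriv g a * (z - a)‖ = A * s := by rw [norm_mul, hzs]
    have h6 := norm_sub_norm_le (deriv g a * (z - a)) (g z - g a)
    rw [h5, norm_sub_rev (deriv g a * (z - a)) (g z - g a)] at h6
    have h7 : A * r / 12 = A * s / 2 := by
      rw [hs]
      ring
    rw [h7]
    linarith
  have hdc : DiffContOnCl ℂ g (Metric.ball a s) := hg.diffContOnCl_ball (hsr.trans hball)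
  have haball : a ∈ Metric.ball (0:ℂ) 1 := hball (Metric.mem_ball_self hr0)
  have hfreq : ∃ᶠ z in 𝓝 a, g z ≠ g a := by
    have h1 : HasDerivAt g (deriv g a) a :=
      (hg.differentiableAt (Metric.isOpen_ball.mem_nhds haball)).hasDerivAt
    have h2 : deriv g a ≠ 0 := norm_pos_iff.mp hA0
    have h3 : ∀ᶠ z in 𝓝[≠] a, g z ≠ g a := h1.eventually_ne h2
    exact h3.frequently.filter_mono nhdsWithin_le_nhds
  have himg := hdc.ball_subset_image_closedBall hs0 hlow hfreq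
  obtain ⟨p, hp, hpg⟩ := hom (g a)
  have hp' : p ∈ Metric.ball (g a) (A * r / 12 / 2) := by
    apply Metric.ball_subset_ball _ hp
    linarith
  obtain ⟨z, hz, hzp⟩ := himg hp'
  exact hpg z (hball (hsr hz)) hzp


theorem net_28747 (w : ℂ) : ∃ p ∈ Metric.ball w 4, ∃ n : ℤ, Complex.cos p = (n : ℂ) := by
  have hpi := Real.pi_pos
  have hpi4 := Real.pi_le_four
  -- the imaginary part
  have hc2 : (2 : ℝ) ≤ Real.cosh 2 := by
    have h1 := Real.quadratic_le_exp_of_nonneg (x := 2) (by norm_num)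
    have h2 := Real.exp_pos (-2)
    rw [Real.cosh_eq]
    linarith
  set Y : ℝ := |w.im| with hY
  have hY0 : 0 ≤ Y := abs_nonneg _
  have hcY : 1 ≤ Real.cosh Y := Real.one_le_cosh Y
  have hcY2 : Real.cosh Y + 1 ≤ Real.cosh (Y + 2) := by
    rw [Real.cosh_add]
    have h1 : 0 ≤ Real.sinh Y := Real.sinh_nonneg_iff.mpr hY0
    have h2 : 0 ≤ Real.sinh 2 := Real.sinh_nonneg_iff.mpr (by norm_num)
    nlinarith [mul_nonneg h1 h2]
  set k : ℤ := ⌈Real.cosh Y⌉ with hk
  have hk1 : Real.cosh Y ≤ (k : ℝ) := Int.le_ceil _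
  have hk2 : (k : ℝ) < Real.cosh Y + 1 := Int.ceil_lt_add_one _
  obtain ⟨y, ⟨hy1, hy2⟩, hy⟩ : (k : ℝ) ∈ Real.cosh '' Icc Y (Y + 2) :=
    intermediate_value_Icc (by linarith) Real.continuous_cosh.continuousOn
      ⟨hk1, hk2.le.trans hcY2⟩
  obtain ⟨y', hy'1, hy'2⟩ : ∃ y' : ℝ, Real.cosh y' = (k : ℝ) ∧ |y' - w.im| ≤ 2 := by
    rcases le_or_gt 0 w.im with h | h
    · refine ⟨y, hy, ?_⟩
      rw [hY, abs_of_nonneg h] at hy1 hy2
      rw [abs_le]
      constructor <;> linarith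
    · refine ⟨-y, by rw [Real.cosh_neg]; exact hy, ?_⟩
      rw [hY, abs_of_neg h] at hy1 hy2
      rw [abs_le]
      constructor <;> linarith
  -- the real part
  set m : ℤ := round (w.re / Real.pi) with hm
  have hm1 : |w.re / Real.pi - m| ≤ 1 / 2 := abs_sub_round _
  have hm2 : |(m : ℝ) * Real.pi - w.re| ≤ Real.pi / 2 := by
    have h1 : (m : ℝ) * Real.pi - w.re = -((w.re / Real.pi - m) * Real.pi) := by
      field_simp
      ring
    rw [h1, abs_neg, abs_mul, abs_of_pos hpi]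
    nlinarith
  obtain ⟨e, he⟩ : ∃ e : ℤ, ((-1 : ℝ) ^ m) = (e : ℝ) := by
    rcases Int.even_or_odd m with h | h
    · exact ⟨1, by rw [h.neg_one_zpow]; norm_num⟩
    · exact ⟨-1, by rw [h.neg_one_zpow]; norm_num⟩
  refine ⟨((m : ℝ) * Real.pi : ℝ) + (y' : ℝ) * Complex.I, ?_, e * k, ?_⟩
  · rw [mem_ball_iff_norm]
    have h1 := Complex.norm_le_abs_re_add_abs_im
      ((((m : ℝ) * Real.pi : ℝ) : ℂ) + (y' : ℝ) * Complex.I - w)
    have h2 : ((((m : ℝ) * Real.pi : ℝ) : ℂ) + (y' : ℝ) * Complex.I - w).re =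
        (m : ℝ) * Real.pi - w.re := by simp
    have h3 : ((((m : ℝ) * Real.pi : ℝ) : ℂ) + (y' : ℝ) * Complex.I - w).im = y' - w.im := by
      simp
    rw [h2, h3] at h1
    have hpi3 : Real.pi < 4 := Real.pi_lt_four
    linarith
  · rw [Complex.cos_add, Complex.cos_mul_I, Complex.sin_mul_I, ← Complex.ofReal_cosh, hy'1]
    have h1 : Complex.sin (((m : ℝ) * Real.pi : ℝ) : ℂ) = 0 := by
      rw [← Complex.ofReal_sin, Real.sin_int_mul_pi, Complex.ofReal_zero]
    have h2 : Complex.cos (((m : ℝ) * Real.pi : ℝ) : ℂ) = (((-1 : ℝ) ^ m : ℝ) : ℂ) := by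
      rw [← Complex.ofReal_cos, Real.cos_int_mul_pi]
    rw [h1, h2, zero_mul, sub_zero, he]
    push_cast
    ring


theorem real_bd_28747 (t : ℝ) (ht0 : 0 < t) (ht4 : t ≤ 4) :
    t * (3 * Real.pi + |Real.log t|) ≤ 36 * t ^ (5/6 : ℝ) := by
  set s : ℝ := t ^ (1/6 : ℝ) with hs
  have hs0 : 0 < s := Real.rpow_pos_of_pos ht0 _
  have hlog : Real.log t = 6 * Real.log s := by
    rw [hs, Real.log_rpow ht0]
    ring
  have hts : t = t ^ (5/6 : ℝ) * s := by
    rw [hs, ← Real.rpow_add ht0]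
    norm_num
  have hs2 : s ≤ 2 := by
    have h1 : t ^ (1/6 : ℝ) ≤ (2 ^ (6:ℝ) : ℝ) ^ (1/6 : ℝ) := by
      apply Real.rpow_le_rpow ht0.le _ (by norm_num)
      norm_num
      linarith
    rw [← Real.rpow_mul (by norm_num)] at h1
    norm_num at h1
    rw [hs]
    norm_num
    exact h1
  have hsl : s * |Real.log s| ≤ 2 := by
    rcases le_or_gt s 1 with h | h
    · have h1 := Real.abs_log_mul_self_lt s hs0 h
      rw [abs_mul, abs_of_pos hs0] at h1
      linarith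
    · have h1 : 0 ≤ Real.log s := Real.log_nonneg h.le
      have h2 : Real.log s ≤ s - 1 := Real.log_le_sub_one_of_pos hs0
      rw [abs_of_nonneg h1]
      nlinarith
  have hpi := Real.pi_le_four
  have hT : 0 ≤ t ^ (5/6 : ℝ) := Real.rpow_nonneg ht0.le _
  calc t * (3 * Real.pi + |Real.log t|)
      = t ^ (5/6 : ℝ) * (3 * Real.pi * s + 6 * (s * |Real.log s|)) := by
        rw [hlog, abs_mul, abs_of_pos (by norm_num : (0:ℝ) < 6)]
        conv_lhs => rw [hts]
        ring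
    _ ≤ t ^ (5/6 : ℝ) * 36 := by
        apply mul_le_mul_of_nonneg_left _ hT
        nlinarith
    _ = 36 * t ^ (5/6 : ℝ) := mul_comm _ _

theorem landau_metric : ∃ C : ℝ, 0 < C ∧ ∀ E : ℂ → ℂ, DifferentiableOn ℂ E (Metric.ball 0 1) →
    (∀ z ∈ Metric.ball (0:ℂ) 1, E z ≠ 0 ∧ E z ≠ 1) → ∀ z ∈ Metric.ball (0:ℂ) 1,
    ‖E z‖ ≤ 4 → ‖deriv E z‖ * (1 - ‖z‖ ^ 2) ≤ C * ‖E z‖ ^ (5/6 : ℝ) := by
  refine ⟨384 * 36, by norm_num, ?_⟩
  intro E hE hom z0 hz0 hE4
  have hpi := Real.pi_pos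
  set c : ℂ := 2 * Real.pi * Complex.I with hc
  have hc0 : c ≠ 0 := by
    rw [hc]
    simp [hpi.ne']
  have hcn : ‖c‖ = 2 * Real.pi := by
    rw [hc, norm_mul, norm_mul, Complex.norm_I, mul_one, Complex.norm_real,
      Real.norm_of_nonneg hpi.le]
    norm_num
  -- first logarithm
  obtain ⟨a, ha, haz, hae⟩ := logball_28747 E hE (fun z hz => (hom z hz).1) z0 hz0
    (Complex.log (E z0)) (Complex.exp_log (hom z0 hz0).1)
  set F : ℂ → ℂ := fun z => a z / c with hF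
  have hFd : DifferentiableOn ℂ F (Metric.ball 0 1) := ha.div_const c
  have hFE : ∀ z ∈ Metric.ball (0:ℂ) 1, E z = Complex.exp (c * F z) := by
    intro z hz
    rw [← hae z hz, hF]
    congr 1
    field_simp
  have hFint : ∀ z ∈ Metric.ball (0:ℂ) 1, ∀ n : ℤ, F z ≠ n := by
    intro z hz n hn
    apply (hom z hz).2
    rw [hFE z hz, hn, hc, mul_comm, Complex.exp_int_mul_two_pi_mul_I]
  -- square root
  have hsq0 : ∀ z ∈ Metric.ball (0:ℂ) 1, 1 - F z ^ 2 ≠ 0 := by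
    intro z hz h
    have h1 : (F z - 1) * (F z + 1) = 0 := by linear_combination -h
    rcases mul_eq_zero.mp h1 with h2 | h2
    · exact hFint z hz 1 (by push_cast; linear_combination h2)
    · exact hFint z hz (-1) (by push_cast; linear_combination h2)
  have hsqd : DifferentiableOn ℂ (fun z => 1 - F z ^ 2) (Metric.ball 0 1) :=
    (differentiableOn_const 1).sub (hFd.pow 2)
  obtain ⟨b, hb, _, hbe⟩ := logball_28747 (fun z => 1 - F z ^ 2) hsqd hsq0 z0 hz0
    (Complex.log (1 - F z0 ^ 2)) (Complex.exp_log (hsq0 z0 hz0))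
  set S : ℂ → ℂ := fun z => Complex.exp (b z / 2) with hS
  have hSd : DifferentiableOn ℂ S (Metric.ball 0 1) := (hb.div_const 2).cexp
  have hSS : ∀ z ∈ Metric.ball (0:ℂ) 1, S z ^ 2 = 1 - F z ^ 2 := by
    intro z hz
    rw [← hbe z hz, hS]
    show Complex.exp (b z / 2) ^ 2 = Complex.exp (b z)
    rw [← Complex.exp_nat_mul]
    congr 1
    push_cast
    ring
  set H : ℂ → ℂ := fun z => F z + Complex.I * S z with hH
  have hHd : DifferentiableOn ℂ H (Metric.ball 0 1) := hFd.add (hSd.const_mul Complex.I)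
  have hHinv : ∀ z ∈ Metric.ball (0:ℂ) 1, H z * (F z - Complex.I * S z) = 1 := by
    intro z hz
    have h1 := hSS z hz
    have h2 : Complex.I ^ 2 = -1 := Complex.I_sq
    rw [hH]
    show (F z + Complex.I * S z) * (F z - Complex.I * S z) = 1
    linear_combination (-(S z) ^ 2) * h2 + h1
  have hH0 : ∀ z ∈ Metric.ball (0:ℂ) 1, H z ≠ 0 := by
    intro z hz h
    have h1 := hHinv z hz
    rw [h, zero_mul] at h1
    exact zero_ne_one h1
  obtain ⟨e, he, _, hee⟩ := logball_28747 H hHd hH0 z0 hz0 (Complex.log (H z0))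
    (Complex.exp_log (hH0 z0 hz0))
  set g : ℂ → ℂ := fun z => -Complex.I * e z with hg
  have hgd : DifferentiableOn ℂ g (Metric.ball 0 1) := he.const_mul _
  have hcosg : ∀ z ∈ Metric.ball (0:ℂ) 1, Complex.cos (g z) = F z := by
    intro z hz
    have h1 : g z * Complex.I = e z := by
      show -Complex.I * e z * Complex.I = e z
      have h2 : Complex.I ^ 2 = -1 := Complex.I_sq
      linear_combination (-(e z)) * h2
    rw [Complex.cos, neg_mul, h1, Complex.exp_neg, hee z hz]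
    have h3 : (H z)⁻¹ = F z - Complex.I * S z := inv_eq_of_mul_eq_one_right (hHinv z hz)
    rw [h3]
    show (F z + Complex.I * S z + (F z - Complex.I * S z)) / 2 = F z
    ring
  have hbl := bloch_28747 g hgd 4 (by norm_num) (fun w => by
    obtain ⟨p, hp, n, hn⟩ := net_28747 w
    refine ⟨p, hp, ?_⟩
    rintro z hz rfl
    exact hFint z hz n (by rw [← hcosg z hz, hn])) z0 hz0
  -- the derivative
  have hEeq : ∀ z ∈ Metric.ball (0:ℂ) 1, E z = Complex.exp (c * Complex.cos (g z)) := by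
    intro z hz
    rw [hFE z hz, hcosg z hz]
  have hEd : HasDerivAt E (Complex.exp (c * Complex.cos (g z0)) *
      (c * (-Complex.sin (g z0) * deriv g z0))) z0 := by
    have hgz : HasDerivAt g (deriv g z0) z0 :=
      (hgd.differentiableAt (Metric.isOpen_ball.mem_nhds hz0)).hasDerivAt
    have h1 := (hgz.ccos.const_mul c).cexp
    apply h1.congr_of_eventuallyEq
    filter_upwards [Metric.isOpen_ball.mem_nhds hz0] with z hz
    exact hEeq z hz
  have hder : ‖deriv E z0‖ = ‖E z0‖ * (2 * Real.pi * (‖Complex.sin (g z0)‖ * ‖deriv g z0‖)) := by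
    rw [hEd.deriv, norm_mul (Complex.exp _), norm_mul c, norm_mul (-Complex.sin (g z0)), norm_neg, hcn, ← hEeq z0 hz0]
  have hF0 : ‖F z0‖ ≤ (|Real.log ‖E z0‖| + Real.pi) / (2 * Real.pi) := by
    have h1 : F z0 = Complex.log (E z0) / c := by
      show a z0 / c = _
      rw [haz]
    rw [h1, norm_div, hcn]
    apply div_le_div_of_nonneg_right _ (by positivity)
    have h2 := Complex.norm_le_abs_re_add_abs_im (Complex.log (E z0))
    rw [Complex.log_re, Complex.log_im] at h2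
    have h3 := Complex.abs_arg_le_pi (E z0)
    linarith
  have hsin : ‖Complex.sin (g z0)‖ ≤ 1 + ‖F z0‖ := by
    have h1 : Complex.sin (g z0) ^ 2 = 1 - F z0 ^ 2 := by
      have := Complex.sin_sq_add_cos_sq (g z0)
      rw [hcosg z0 hz0] at this
      linear_combination this
    have h2 : ‖Complex.sin (g z0)‖ ^ 2 ≤ (1 + ‖F z0‖) ^ 2 := by
      rw [← norm_pow, h1]
      have h3 := norm_sub_le (1 : ℂ) (F z0 ^ 2)
      rw [norm_one, norm_pow] at h3
      nlinarith [norm_nonneg (F z0)]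
    exact le_of_sq_le_sq h2 (by positivity)
  have ht0 : 0 < ‖E z0‖ := norm_pos_iff.mpr (hom z0 hz0).1
  have hz1 : ‖z0‖ < 1 := by rwa [mem_ball_zero_iff] at hz0
  have hz2 := norm_nonneg z0
  have hreal := real_bd_28747 ‖E z0‖ ht0 hE4
  have hgb : ‖deriv g z0‖ * (1 - ‖z0‖ ^ 2) ≤ 384 := by
    have h1 : 1 - ‖z0‖ ^ 2 = (1 - ‖z0‖) * (1 + ‖z0‖) := by ring
    rw [h1, ← mul_assoc]
    have h2 : 0 ≤ ‖deriv g z0‖ * (1 - ‖z0‖) := mul_nonneg (norm_nonneg _) (by linarith)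
    nlinarith
  have hsb : 2 * Real.pi * ‖Complex.sin (g z0)‖ ≤ 3 * Real.pi + |Real.log ‖E z0‖| := by
    have h1 : 2 * Real.pi * ‖Complex.sin (g z0)‖ ≤ 2 * Real.pi * (1 + ‖F z0‖) :=
      mul_le_mul_of_nonneg_left hsin (by positivity)
    have h2 : 2 * Real.pi * ‖F z0‖ ≤ |Real.log ‖E z0‖| + Real.pi := by
      rw [le_div_iff₀ (by positivity)] at hF0
      linarith
    linarith
  rw [hder]
  have hnn : 0 ≤ ‖deriv g z0‖ * (1 - ‖z0‖ ^ 2) := by
    apply mul_nonneg (norm_nonneg _)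
    nlinarith
  calc ‖E z0‖ * (2 * Real.pi * (‖Complex.sin (g z0)‖ * ‖deriv g z0‖)) * (1 - ‖z0‖ ^ 2)
      = ‖E z0‖ * (2 * Real.pi * ‖Complex.sin (g z0)‖) * (‖deriv g z0‖ * (1 - ‖z0‖ ^ 2)) := by
        ring
    _ ≤ ‖E z0‖ * (3 * Real.pi + |Real.log ‖E z0‖|) * 384 := by
        apply mul_le_mul _ hgb hnn (by positivity)
        exact mul_le_mul_of_nonneg_left hsb ht0.le
    _ ≤ (36 * ‖E z0‖ ^ (5/6 : ℝ)) * 384 :=
        mul_le_mul_of_nonneg_right hreal (by norm_num)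
    _ = 384 * 36 * ‖E z0‖ ^ (5/6 : ℝ) := by ring

end

/-! ### Gw -/

section

theorem grad_wall (C : ℝ) (hC : 0 < C)
    (hland : ∀ E : ℂ → ℂ, DifferentiableOn ℂ E (Metric.ball 0 1) →
    (∀ z ∈ Metric.ball (0:ℂ) 1, E z ≠ 0 ∧ E z ≠ 1) → ∀ z ∈ Metric.ball (0:ℂ) 1,
    ‖E z‖ ≤ 4 → ‖deriv E z‖ * (1 - ‖z‖ ^ 2) ≤ C * ‖E z‖ ^ (5/6 : ℝ))
    (S : ℂ → ℂ) (hS : DifferentiableOn ℂ S (Metric.ball 0 1)) (q1 q2 : ℂ) (D r : ℝ)
    (hD : ‖q2 - q1‖ ≤ D) (hq : q1 ≠ q2) (ho : ∀ z ∈ Metric.ball (0:ℂ) 1, S z ≠ q1 ∧ S z ≠ q2)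
    (x θ : ℝ) (hx : 0 < x) (hr : ‖S (zz x θ) - q1‖ ≤ r) (hr4 : r ≤ 4 * ‖q2 - q1‖) :
    x * ‖LL S x θ‖ ≤ (C / 2) * r ^ (5/6 : ℝ) * D ^ (1/6 : ℝ) := by
  have hzn := zz_norm x θ
  have hz : zz x θ ∈ Metric.ball (0:ℂ) 1 := by
    rw [mem_ball_zero_iff, hzn]
    exact Real.exp_lt_one_iff.2 (by linarith)
  unfold LL
  generalize zz x θ = z at hzn hz hr ⊢
  have hne : q2 - q1 ≠ 0 := sub_ne_zero.2 hq.symm
  have ha : 0 < ‖q2 - q1‖ := norm_pos_iff.2 hne
  have hr0 : 0 ≤ r := (norm_nonneg _).trans hr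
  have h := hland (fun w => (S w - q1) / (q2 - q1)) ((hS.sub_const _).div_const _) (fun w hw => by
    constructor
    · exact div_ne_zero (sub_ne_zero.2 (ho w hw).1) hne
    · intro h
      rw [div_eq_one_iff_eq hne] at h
      exact (ho w hw).2 (sub_left_inj.1 h)) z hz (by
    rw [norm_div, div_le_iff₀ ha]
    exact hr.trans hr4)
  have hSd : DifferentiableAt ℂ S z := hS.differentiableAt (Metric.isOpen_ball.mem_nhds hz)
  have hder : deriv (fun w => (S w - q1) / (q2 - q1)) z = deriv S z / (q2 - q1) := by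
    rw [deriv_div_const, deriv_sub_const]
  rw [hder, norm_div, norm_div] at h
  have hz1 : 0 ≤ 1 - ‖z‖ ^ 2 := by
    have h1 : ‖z‖ < 1 := by rwa [mem_ball_zero_iff] at hz
    nlinarith [norm_nonneg z]
  have h1 : (‖S z - q1‖ / ‖q2 - q1‖) ^ (5/6 : ℝ) ≤ (r / ‖q2 - q1‖) ^ (5/6 : ℝ) :=
    Real.rpow_le_rpow (by positivity) (div_le_div_of_nonneg_right hr ha.le) (by norm_num)
  have h2 : (r / ‖q2 - q1‖) ^ (5/6 : ℝ) * ‖q2 - q1‖ = r ^ (5/6 : ℝ) * ‖q2 - q1‖ ^ (1/6 : ℝ) := by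
    rw [Real.div_rpow hr0 ha.le]
    have e1 : ‖q2 - q1‖ ^ (5/6 : ℝ) * ‖q2 - q1‖ ^ (1/6 : ℝ) = ‖q2 - q1‖ := by
      rw [← Real.rpow_add ha]
      norm_num
    have e2 : 0 < ‖q2 - q1‖ ^ (5/6 : ℝ) := Real.rpow_pos_of_pos ha _
    rw [div_mul_eq_mul_div, div_eq_iff e2.ne']
    rw [mul_assoc, mul_comm (‖q2 - q1‖ ^ (1/6 : ℝ)), e1]
  have h3 : ‖deriv S z‖ * (1 - ‖z‖ ^ 2) ≤ C * (r ^ (5/6 : ℝ) * D ^ (1/6 : ℝ)) := by
    have e1 : ‖deriv S z‖ * (1 - ‖z‖ ^ 2) =
        (‖deriv S z‖ / ‖q2 - q1‖ * (1 - ‖z‖ ^ 2)) * ‖q2 - q1‖ := by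
      field_simp
    rw [e1]
    calc
      _ ≤ (C * (‖S z - q1‖ / ‖q2 - q1‖) ^ (5/6 : ℝ)) * ‖q2 - q1‖ :=
        mul_le_mul_of_nonneg_right h ha.le
      _ ≤ (C * (r / ‖q2 - q1‖) ^ (5/6 : ℝ)) * ‖q2 - q1‖ :=
        mul_le_mul_of_nonneg_right (mul_le_mul_of_nonneg_left h1 hC.le) ha.le
      _ = C * (r ^ (5/6 : ℝ) * ‖q2 - q1‖ ^ (1/6 : ℝ)) := by rw [mul_assoc, h2]
      _ ≤ _ := by
        refine mul_le_mul_of_nonneg_left ?_ hC.le
        refine mul_le_mul_of_nonneg_left ?_ (Real.rpow_nonneg hr0 _)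
        exact Real.rpow_le_rpow ha.le hD (by norm_num)
  have h4 : x * ‖z‖ ≤ (1 - ‖z‖ ^ 2) / 2 := by
    have e1 := (Real.self_le_sinh_iff (x := x)).2 hx.le
    rw [Real.sinh_eq] at e1
    rw [hzn]
    have e2 : 0 < Real.exp (-x) := Real.exp_pos _
    have e3 : Real.exp x * Real.exp (-x) = 1 := by rw [← Real.exp_add]; simp
    nlinarith [mul_le_mul_of_nonneg_right e1 e2.le]
  rw [norm_mul]
  calc
    x * (‖z‖ * ‖deriv S z‖) = (x * ‖z‖) * ‖deriv S z‖ := by ring
    _ ≤ ((1 - ‖z‖ ^ 2) / 2) * ‖deriv S z‖ := mul_le_mul_of_nonneg_right h4 (norm_nonneg _)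
    _ = (‖deriv S z‖ * (1 - ‖z‖ ^ 2)) / 2 := by ring
    _ ≤ (C * (r ^ (5/6 : ℝ) * D ^ (1/6 : ℝ))) / 2 := by linarith
    _ = _ := by ring

end

/-! ### Greg -/

section

theorem grad_region (C : ℝ) (hC : 0 < C) (hland : Land C) : ∃ κ : ℝ, 0 < κ ∧
    ∀ (S : ℂ → ℂ), DifferentiableOn ℂ S (Metric.ball 0 1) → ∀ q : ℂ,
    (∀ z ∈ Metric.ball (0:ℂ) 1, ∀ n : ℤ, S z ≠ q + 2 * Real.pi * n * Complex.I) →
    ∀ x θ : ℝ, 0 < x → |(S (zz x θ)).re - q.re| ≤ 6 → x * ‖LL S x θ‖ ≤ κ := by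
  have hpi := Real.pi_pos
  refine ⟨(C / 2) * (10 : ℝ) ^ (5/6 : ℝ) * (2 * Real.pi) ^ (1/6 : ℝ), by positivity,
    fun S hS q hq x θ hx hre => ?_⟩
  obtain ⟨n, hn⟩ : ∃ n : ℤ, |(S (zz x θ)).im - q.im - 2 * Real.pi * n| ≤ Real.pi := by
    refine ⟨round (((S (zz x θ)).im - q.im) / (2 * Real.pi)), ?_⟩
    have h1 := abs_sub_round (((S (zz x θ)).im - q.im) / (2 * Real.pi))
    have h2 : (S (zz x θ)).im - q.im -
        2 * Real.pi * (round (((S (zz x θ)).im - q.im) / (2 * Real.pi)) : ℤ) =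
        (2 * Real.pi) * (((S (zz x θ)).im - q.im) / (2 * Real.pi) -
          (round (((S (zz x θ)).im - q.im) / (2 * Real.pi)) : ℤ)) := by
      rw [mul_sub, mul_div_cancel₀ _ (by positivity)]
    rw [h2, abs_mul, abs_of_pos (by positivity : (0 : ℝ) < 2 * Real.pi)]
    calc 2 * Real.pi * _ ≤ 2 * Real.pi * (1 / 2) := mul_le_mul_of_nonneg_left h1 (by positivity)
      _ = Real.pi := by ring
  have hdiff : (q + 2 * Real.pi * ((n + 1 : ℤ) : ℂ) * Complex.I) -
      (q + 2 * Real.pi * (n : ℂ) * Complex.I) = ((2 * Real.pi : ℝ) : ℂ) * Complex.I := by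
    push_cast
    ring
  have hnorm : ‖(q + 2 * Real.pi * ((n + 1 : ℤ) : ℂ) * Complex.I) -
      (q + 2 * Real.pi * (n : ℂ) * Complex.I)‖ = 2 * Real.pi := by
    rw [hdiff, norm_mul, Complex.norm_I, mul_one, Complex.norm_real, Real.norm_eq_abs,
      abs_of_pos (by positivity)]
  refine grad_wall C hC hland S hS (q + 2 * Real.pi * (n : ℂ) * Complex.I)
    (q + 2 * Real.pi * ((n + 1 : ℤ) : ℂ) * Complex.I) (2 * Real.pi) 10 hnorm.le ?_ ?_ x θ hx ?_ ?_
  · intro h
    rw [← h, sub_self, norm_zero] at hnorm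
    linarith
  · intro z hz
    exact ⟨hq z hz n, hq z hz (n + 1)⟩
  · have h1 := Complex.norm_le_abs_re_add_abs_im
      (S (zz x θ) - (q + 2 * Real.pi * (n : ℂ) * Complex.I))
    have h2 : (S (zz x θ) - (q + 2 * Real.pi * (n : ℂ) * Complex.I)).re =
        (S (zz x θ)).re - q.re := by simp
    have h3 : (S (zz x θ) - (q + 2 * Real.pi * (n : ℂ) * Complex.I)).im =
        (S (zz x θ)).im - q.im - 2 * Real.pi * n := by
      simp
      ring
    rw [h2, h3] at h1
    have h4 := Real.pi_lt_four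
    linarith
  · rw [hnorm]
    have h4 := Real.pi_gt_three
    linarith

end

/-! ### Elog -/

section

theorem exists_log_one (g : ℂ → ℂ) (hg : DifferentiableOn ℂ g (Metric.ball 0 1))
    (hne : ∀ z ∈ Metric.ball (0 : ℂ) 1, g z ≠ 0) (h1 : g 0 = 1) :
    ∃ G : ℂ → ℂ, DifferentiableOn ℂ G (Metric.ball 0 1) ∧ G 0 = 0 ∧
      ∀ z ∈ Metric.ball (0 : ℂ) 1, Complex.exp (G z) = g z := by
  have hopen : IsOpen (Metric.ball (0 : ℂ) 1) := Metric.isOpen_ball
  have h0 : (0 : ℂ) ∈ Metric.ball (0 : ℂ) 1 := Metric.mem_ball_self one_pos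
  have hdg : DifferentiableOn ℂ (deriv g) (Metric.ball 0 1) := hg.deriv hopen
  have hq : DifferentiableOn ℂ (fun z => deriv g z / g z) (Metric.ball 0 1) := hdg.div hg hne
  obtain ⟨G, hG0, hG⟩ := (hq.isExactOn_ball).with_val_at 0 0
  refine ⟨G, fun z hz => (hG z hz).differentiableAt.differentiableWithinAt, hG0, ?_⟩
  have hF : ∀ z ∈ Metric.ball (0 : ℂ) 1,
      HasDerivAt (fun z => g z * Complex.exp (-G z)) 0 z := by
    intro z hz
    have a1 : HasDerivAt g (deriv g z) z := (hg.differentiableAt (hopen.mem_nhds hz)).hasDerivAt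
    have a2 := (hG z hz).neg.cexp
    have a3 := a1.mul a2
    have e : deriv g z * Complex.exp (-G z) + g z * (Complex.exp (-G z) * -(deriv g z / g z)) = 0 := by
      have h7 : g z * (deriv g z / g z) = deriv g z := mul_div_cancel₀ _ (hne z hz)
      linear_combination (-Complex.exp (-G z)) * h7
    have e' : deriv g z * Complex.exp ((-G) z) + g z * (Complex.exp ((-G) z) * -(deriv g z / g z)) = 0 := e
    rw [e'] at a3
    exact a3
  intro z hz
  have h2 := hopen.is_const_of_deriv_eq_zero (convex_ball (0:ℂ) 1).isPreconnected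
    (fun z hz => (hF z hz).differentiableAt.differentiableWithinAt)
    (fun z hz => (hF z hz).deriv) hz h0
  simp only [hG0, neg_zero, Complex.exp_zero, mul_one, h1] at h2
  rw [Complex.exp_neg] at h2
  have := Complex.exp_ne_zero (G z)
  field_simp at h2
  exact h2.symm



theorem exists_log (F : ℂ → ℂ) (hF : DifferentiableOn ℂ F (Metric.ball 0 1))
    (h0 : ∀ z ∈ Metric.ball (0:ℂ) 1, F z ≠ 0) :
    ∃ S : ℂ → ℂ, DifferentiableOn ℂ S (Metric.ball 0 1) ∧
      ∀ z ∈ Metric.ball (0:ℂ) 1, Complex.exp (S z) = F z := by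
  have hb : (0 : ℂ) ∈ Metric.ball (0 : ℂ) 1 := Metric.mem_ball_self one_pos
  have hF0 := h0 0 hb
  obtain ⟨G, hG, _, hGe⟩ := exists_log_one (fun z => F z / F 0) (hF.div_const _)
    (fun z hz => div_ne_zero (h0 z hz) hF0) (div_self hF0)
  refine ⟨fun z => G z + Complex.log (F 0), hG.add_const _, fun z hz => ?_⟩
  rw [Complex.exp_add, hGe z hz, Complex.exp_log hF0, div_mul_cancel₀ _ hF0]

end

/-! ### Coef -/

section

theorem coeff_bound (f : ℂ → ℂ) (hf : DifferentiableOn ℂ f (Metric.ball 0 1)) (C : ℝ)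
    (h : ∀ r : ℝ, 0 ≤ r → r < 1 →
      (1 / (2 * Real.pi)) * ∫ θ in (0 : ℝ)..(2 * Real.pi), ‖f (circleMap 0 r θ)‖ ≤ C / (1 - r)) :
    ∃ C : ℝ, ∀ n : ℕ, ‖iteratedDeriv n f 0 / (n.factorial : ℂ)‖ ≤ C * ((n : ℝ) + 1) := by
  refine ⟨2 * Real.exp 1 * |C|, fun n => ?_⟩
  have hn1 : (0:ℝ) < n + 1 := by positivity
  have hn2 : (0:ℝ) < n + 2 := by positivity
  obtain ⟨r, hr⟩ : ∃ r : NNReal, (r : ℝ) = (n + 1) / (n + 2) :=
    ⟨⟨(n + 1) / (n + 2), by positivity⟩, rfl⟩
  have hr0 : 0 < (r : ℝ) := by rw [hr]; positivity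
  have hr1 : (r : ℝ) < 1 := by rw [hr, div_lt_one hn2]; linarith
  have hd : DiffContOnCl ℂ f (Metric.ball 0 r) := by
    apply DifferentiableOn.diffContOnCl
    rw [closure_ball _ hr0.ne']
    exact hf.mono (Metric.closedBall_subset_ball hr1)
  have hp := hd.hasFPowerSeriesOnBall (by exact_mod_cast hr0)
  have h1 := hp.factorial_smul (1 : ℂ) n
  rw [← iteratedDeriv_eq_iteratedFDeriv] at h1
  have hfac : (n.factorial : ℂ) ≠ 0 := by exact_mod_cast n.factorial_ne_zero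
  have h2 : iteratedDeriv n f 0 / (n.factorial : ℂ) = cauchyPowerSeries f 0 r n (fun _ => 1) := by
    rw [← h1, nsmul_eq_mul, mul_div_cancel_left₀ _ hfac]
  rw [h2]
  have h3 : ‖cauchyPowerSeries f 0 r n (fun _ => 1)‖ ≤ ‖cauchyPowerSeries f 0 r n‖ := by
    have := (cauchyPowerSeries f 0 r n).le_opNorm (fun _ => 1)
    simpa using this
  have h4 := norm_cauchyPowerSeries_le f 0 r n
  have h5 := h r hr0.le hr1
  rw [one_div] at h5
  have h6 : (0 : ℝ) ≤ |(r : ℝ)|⁻¹ ^ n := by positivity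
  have h7 : ‖cauchyPowerSeries f 0 r n‖ ≤ C / (1 - r) * |(r : ℝ)|⁻¹ ^ n :=
    h4.trans (mul_le_mul_of_nonneg_right h5 h6)
  have h8 : C / (1 - (r : ℝ)) = C * (n + 2) := by
    rw [hr]
    have : 1 - ((n : ℝ) + 1) / (n + 2) = 1 / (n + 2) := by field_simp; ring
    rw [this]; field_simp
  have h9 : |(r : ℝ)|⁻¹ ^ n ≤ Real.exp 1 := by
    rw [abs_of_pos hr0, hr, inv_div]
    have e1 : ((n : ℝ) + 2) / (n + 1) = 1 / (n + 1) + 1 := by field_simp; ring
    have e2 : ((n : ℝ) + 2) / (n + 1) ≤ Real.exp (1 / (n + 1)) := by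
      rw [e1]; exact Real.add_one_le_exp _
    calc (((n : ℝ) + 2) / (n + 1)) ^ n ≤ (Real.exp (1 / (n + 1))) ^ n :=
          pow_le_pow_left₀ (by positivity) e2 n
      _ = Real.exp (n * (1 / (n + 1))) := by rw [← Real.exp_nat_mul]
      _ ≤ Real.exp 1 := by
          apply Real.exp_le_exp.2
          rw [mul_one_div, div_le_one hn1]
          linarith
  refine (h3.trans h7).trans ?_
  rw [h8]
  have h10 : C * (n + 2) ≤ |C| * (2 * (n + 1)) := by
    have := le_abs_self C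
    have h0 := abs_nonneg C
    have hn0 : (0 : ℝ) ≤ n := by positivity
    nlinarith
  have h11 : 0 ≤ |C| * (2 * ((n : ℝ) + 1)) := by positivity
  calc C * (n + 2) * |(r : ℝ)|⁻¹ ^ n ≤ |C| * (2 * (n + 1)) * |(r : ℝ)|⁻¹ ^ n :=
        mul_le_mul_of_nonneg_right h10 h6
    _ ≤ |C| * (2 * (n + 1)) * Real.exp 1 := mul_le_mul_of_nonneg_left h9 h11
    _ = _ := by ring

end

/-! ### Mmono -/

section

theorem mm_zz (x θ : ℝ) : zz x θ = ((Real.exp (-x) : ℝ) : ℂ) * Complex.exp ((θ : ℂ) * Complex.I) := by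
  unfold zz
  rw [Complex.exp_add]
  push_cast
  rfl

theorem mm_norm (w : ℂ) (θ : ℝ) : ‖w * Complex.exp ((θ : ℂ) * Complex.I)‖ = ‖w‖ := by
  rw [norm_mul, Complex.norm_exp_ofReal_mul_I, mul_one]

theorem mm_cont (F : ℂ → ℂ) (R : ℝ) (hF : ContinuousOn F (Metric.ball 0 R)) (w : ℂ) (hw : ‖w‖ < R) :
    Continuous (fun θ : ℝ => F (w * Complex.exp ((θ : ℂ) * Complex.I))) := by
  apply hF.comp_continuous (by fun_prop)
  intro θ
  rw [mem_ball_zero_iff, mm_norm]
  exact hw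

theorem mm_int (F : ℂ → ℂ) (R : ℝ) (hF : ContinuousOn F (Metric.ball 0 R)) (w : ℂ) (hw : ‖w‖ < R)
    (c : ℝ → ℂ) (hc : Measurable c) (hc1 : ∀ θ, ‖c θ‖ ≤ 1) (a b : ℝ) :
    IntervalIntegrable (fun θ : ℝ => F (w * Complex.exp ((θ : ℂ) * Complex.I)) * c θ) volume a b := by
  have h1 := mm_cont F R hF w hw
  apply IntervalIntegrable.mono_fun (h1.intervalIntegrable a b)
  · exact (h1.aestronglyMeasurable.mul hc.aestronglyMeasurable)
  · refine Filter.Eventually.of_forall (fun θ => ?_)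
    simp only [norm_mul]
    have := hc1 θ
    have h2 := norm_nonneg (F (w * Complex.exp ((θ : ℂ) * Complex.I)))
    nlinarith

theorem mm_diff (F : ℂ → ℂ) (R : ℝ) (hF : DifferentiableOn ℂ F (Metric.ball 0 R))
    (c : ℝ → ℂ) (hc : Measurable c) (hc1 : ∀ θ, ‖c θ‖ ≤ 1) (w0 : ℂ) (hw0 : ‖w0‖ < R) :
    DifferentiableAt ℂ (fun w : ℂ => ∫ θ in (0:ℝ)..(2 * Real.pi),
      F (w * Complex.exp ((θ : ℂ) * Complex.I)) * c θ) w0 := by
  obtain ⟨ρ, hρ1, hρ2⟩ := exists_between hw0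
  have hdc : ContinuousOn (deriv F) (Metric.ball 0 R) := (hF.deriv Metric.isOpen_ball).continuousOn
  have hsub : Metric.closedBall (0:ℂ) ρ ⊆ Metric.ball 0 R := Metric.closedBall_subset_ball hρ2
  obtain ⟨M, hM⟩ := (isCompact_closedBall (0:ℂ) ρ).exists_bound_of_continuousOn (hdc.mono hsub)
  have key := intervalIntegral.hasDerivAt_integral_of_dominated_loc_of_deriv_le
    (μ := volume) (a := 0) (b := 2 * Real.pi)
    (F := fun (w : ℂ) (θ : ℝ) => F (w * Complex.exp ((θ : ℂ) * Complex.I)) * c θ)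
    (F' := fun (w : ℂ) (θ : ℝ) => (deriv F (w * Complex.exp ((θ : ℂ) * Complex.I))
      * Complex.exp ((θ : ℂ) * Complex.I)) * c θ) (x₀ := w0) (s := Metric.ball 0 ρ)
    (bound := fun _ => M)
    (Metric.isOpen_ball.mem_nhds (by rwa [mem_ball_zero_iff])) ?_ ?_ ?_ ?_ ?_ ?_
  · exact key.2.differentiableAt
  · filter_upwards [Metric.isOpen_ball.mem_nhds (show w0 ∈ Metric.ball (0:ℂ) ρ by
      rwa [mem_ball_zero_iff])] with w hw
    rw [mem_ball_zero_iff] at hw
    exact ((mm_cont F R hF.continuousOn w (hw.trans hρ2)).aestronglyMeasurable.mul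
      hc.aestronglyMeasurable)
  · exact mm_int F R hF.continuousOn w0 hw0 c hc hc1 _ _
  · have h2 : Continuous (fun θ : ℝ => deriv F (w0 * Complex.exp ((θ : ℂ) * Complex.I))
      * Complex.exp ((θ : ℂ) * Complex.I)) :=
      (mm_cont (deriv F) R hdc w0 hw0).mul (by fun_prop)
    exact (h2.aestronglyMeasurable.mul hc.aestronglyMeasurable)
  · refine Filter.Eventually.of_forall (fun θ _ w hw => ?_)
    rw [mem_ball_zero_iff] at hw
    have h3 : ‖deriv F (w * Complex.exp ((θ : ℂ) * Complex.I))‖ ≤ M := by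
      apply hM
      rw [mem_closedBall_zero_iff, mm_norm]
      exact hw.le
    rw [norm_mul, norm_mul, Complex.norm_exp_ofReal_mul_I, mul_one]
    have := hc1 θ
    have h4 := norm_nonneg (deriv F (w * Complex.exp ((θ : ℂ) * Complex.I)))
    have h5 := norm_nonneg (c θ)
    nlinarith
  · exact intervalIntegrable_const
  · refine Filter.Eventually.of_forall (fun θ _ w hw => ?_)
    rw [mem_ball_zero_iff] at hw
    have hmem : w * Complex.exp ((θ : ℂ) * Complex.I) ∈ Metric.ball (0:ℂ) R := by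
      rw [mem_ball_zero_iff, mm_norm]
      exact hw.trans hρ2
    have hd : HasDerivAt F (deriv F (w * Complex.exp ((θ : ℂ) * Complex.I)))
        (w * Complex.exp ((θ : ℂ) * Complex.I)) :=
      ((hF _ hmem).differentiableAt (Metric.isOpen_ball.mem_nhds hmem)).hasDerivAt
    have hl : HasDerivAt (fun w : ℂ => w * Complex.exp ((θ : ℂ) * Complex.I))
        (Complex.exp ((θ : ℂ) * Complex.I)) w := by
      simpa using (hasDerivAt_id w).mul_const (Complex.exp ((θ : ℂ) * Complex.I))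
    exact (hd.comp w hl).mul_const (c θ)

theorem mm_shift (F : ℂ → ℂ) (x1 : ℝ) (w : ℂ) (hw : ‖w‖ = Real.exp (-x1)) :
    ∫ θ in (0:ℝ)..(2 * Real.pi), ‖F (w * Complex.exp ((θ : ℂ) * Complex.I))‖
      = ∫ θ in (0:ℝ)..(2 * Real.pi), ‖F (zz x1 θ)‖ := by
  have h1 : ∀ θ : ℝ, w * Complex.exp ((θ : ℂ) * Complex.I) = zz x1 (θ + Complex.arg w) := by
    intro θ
    have h2 := Complex.norm_mul_exp_arg_mul_I w
    rw [hw] at h2
    rw [mm_zz]
    conv_lhs => rw [← h2]
    rw [mul_assoc, ← Complex.exp_add]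
    congr 2
    push_cast
    ring
  have h3 : ∀ θ : ℝ, ‖F (w * Complex.exp ((θ : ℂ) * Complex.I))‖
      = (fun u : ℝ => ‖F (zz x1 u)‖) (θ + Complex.arg w) := by
    intro θ
    rw [h1]
  simp_rw [h3]
  rw [intervalIntegral.integral_comp_add_right (fun u : ℝ => ‖F (zz x1 u)‖)]
  have hper : Function.Periodic (fun u : ℝ => ‖F (zz x1 u)‖) (2 * Real.pi) := by
    intro u
    simp only
    rw [zz_per]
  have h4 := hper.intervalIntegral_add_eq (Complex.arg w) 0
  rw [zero_add] at h4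
  rw [zero_add, add_comm (2 * Real.pi)]
  exact h4



theorem mean_mono (F : ℂ → ℂ) (R : ℝ) (hR : 1 < R) (hF : DifferentiableOn ℂ F (Metric.ball 0 R))
    (x1 x2 : ℝ) (h1 : 0 ≤ x1) (h12 : x1 ≤ x2) :
    ∫ θ in (0:ℝ)..(2 * Real.pi), ‖F (zz x2 θ)‖ ≤ ∫ θ in (0:ℝ)..(2 * Real.pi), ‖F (zz x1 θ)‖ := by
  have hR0 : (0:ℝ) < R := by linarith
  set c : ℝ → ℂ := fun θ => (starRingEnd ℂ) (F (zz x2 θ)) / ((‖F (zz x2 θ)‖ : ℝ) : ℂ) with hc
  have hr2 : ‖((Real.exp (-x2) : ℝ) : ℂ)‖ = Real.exp (-x2) := by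
    rw [Complex.norm_real, Real.norm_eq_abs, abs_of_pos (Real.exp_pos _)]
  have e2 : Real.exp (-x2) ≤ Real.exp (-x1) := Real.exp_le_exp.mpr (by linarith)
  have e1 : Real.exp (-x1) ≤ 1 := by
    rw [← Real.exp_zero]
    exact Real.exp_le_exp.mpr (by linarith)
  have hcont2 : Continuous (fun θ : ℝ => F (zz x2 θ)) := by
    have h := mm_cont F R hF.continuousOn ((Real.exp (-x2) : ℝ) : ℂ) (by rw [hr2]; linarith)
    simpa only [mm_zz] using h
  have hcm : Measurable c := by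
    apply Measurable.div
    · exact (Complex.continuous_conj.comp hcont2).measurable
    · exact (Complex.continuous_ofReal.comp hcont2.norm).measurable
  have hc1 : ∀ θ, ‖c θ‖ ≤ 1 := by
    intro θ
    simp only [hc]
    rw [norm_div, Complex.norm_real, RCLike.norm_conj, norm_norm]
    exact div_self_le_one _
  have hcmul : ∀ θ, F (zz x2 θ) * c θ = ((‖F (zz x2 θ)‖ : ℝ) : ℂ) := by
    intro θ
    simp only [hc]
    rcases eq_or_ne (F (zz x2 θ)) 0 with h0 | h0
    · simp [h0]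
    · have h0' : ((‖F (zz x2 θ)‖ : ℝ) : ℂ) ≠ 0 := by
        rw [Complex.ofReal_ne_zero]
        exact norm_ne_zero_iff.mpr h0
      rw [mul_div_assoc', div_eq_iff h0', Complex.mul_conj, Complex.normSq_eq_norm_sq]
      push_cast
      ring
  set H : ℂ → ℂ := fun w : ℂ => ∫ θ in (0:ℝ)..(2 * Real.pi),
      F (w * Complex.exp ((θ : ℂ) * Complex.I)) * c θ with hH
  have hHd : ∀ w : ℂ, ‖w‖ < R → DifferentiableAt ℂ H w := fun w hw =>
    mm_diff F R hF c hcm hc1 w hw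
  have hHx2 : H ((Real.exp (-x2) : ℝ) : ℂ)
      = ((∫ θ in (0:ℝ)..(2 * Real.pi), ‖F (zz x2 θ)‖ : ℝ) : ℂ) := by
    rw [← intervalIntegral.integral_ofReal]
    simp only [hH]
    apply intervalIntegral.integral_congr
    intro θ _
    simp only
    rw [← mm_zz, hcmul]
  have hbd : ∀ w : ℂ, ‖w‖ = Real.exp (-x1) →
      ‖H w‖ ≤ ∫ θ in (0:ℝ)..(2 * Real.pi), ‖F (zz x1 θ)‖ := by
    intro w hw
    rw [← mm_shift F x1 w hw]
    apply intervalIntegral.norm_integral_le_of_norm_le (by positivity)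
    · refine Filter.Eventually.of_forall (fun θ _ => ?_)
      rw [norm_mul]
      have := hc1 θ
      have h2 := norm_nonneg (F (w * Complex.exp ((θ : ℂ) * Complex.I)))
      nlinarith
    · exact (mm_cont F R hF.continuousOn w (by rw [hw]; linarith)).norm.intervalIntegrable _ _
  have hmax := Complex.norm_le_of_forall_mem_frontier_norm_le (f := H)
    (U := Metric.ball (0:ℂ) (Real.exp (-x1))) Metric.isBounded_ball
    (C := ∫ θ in (0:ℝ)..(2 * Real.pi), ‖F (zz x1 θ)‖) ?_ ?_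
    (z := ((Real.exp (-x2) : ℝ) : ℂ)) ?_
  · rw [hHx2, Complex.norm_real, Real.norm_eq_abs] at hmax
    exact (le_abs_self _).trans hmax
  · apply DifferentiableOn.diffContOnCl
    intro w hw
    rw [closure_ball (0:ℂ) (Real.exp_pos _).ne', mem_closedBall_zero_iff] at hw
    exact (hHd w (by linarith)).differentiableWithinAt
  · intro w hw
    rw [frontier_ball (0:ℂ) (Real.exp_pos _).ne', mem_sphere_zero_iff_norm] at hw
    exact hbd w hw
  · rw [closure_ball (0:ℂ) (Real.exp_pos _).ne', mem_closedBall_zero_iff, hr2]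
    exact e2


theorem cauchy_pt (F : ℂ → ℂ) (R : ℝ) (hR : 1 < R) (hF : DifferentiableOn ℂ F (Metric.ball 0 R))
    (x : ℝ) (hx : 0 < x) (z : ℂ) (hz : ‖z‖ ≤ Real.exp (-x)) :
    ‖F z‖ ≤ (1 / (2 * Real.pi)) * (1 / (1 - Real.exp (-x)))
      * ∫ θ in (0:ℝ)..(2 * Real.pi), ‖F (zz 0 θ)‖ := by
  have e1 : Real.exp (-x) < 1 := by
    rw [← Real.exp_zero]
    exact Real.exp_lt_exp.mpr (by linarith)
  have hz1 : ‖z‖ < 1 := lt_of_le_of_lt hz e1
  have hd : DiffContOnCl ℂ F (Metric.ball 0 |(1:ℝ)|) := by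
    apply DifferentiableOn.diffContOnCl
    rw [abs_one, closure_ball (0:ℂ) one_ne_zero]
    exact hF.mono (Metric.closedBall_subset_ball hR)
  have h := hd.circleAverage_smul_div (w := z) (by rw [abs_one, mem_ball_zero_iff]; exact hz1)
  rw [Real.circleAverage_def] at h
  have hmap : ∀ θ : ℝ, circleMap 0 1 θ = zz 0 θ := by
    intro θ
    rw [mm_zz]
    simp [circleMap]
  have hpos : 0 < 1 - Real.exp (-x) := by linarith
  have hcont0 : Continuous (fun θ : ℝ => ‖F (zz 0 θ)‖) := by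
    have h := mm_cont F R hF.continuousOn ((Real.exp (-0) : ℝ) : ℂ) (by simpa using hR)
    have h' := h.norm
    simpa only [mm_zz] using h'
  have hI : ‖∫ θ in (0:ℝ)..(2 * Real.pi), ((circleMap 0 1 θ - 0) / (circleMap 0 1 θ - z))
        • F (circleMap 0 1 θ)‖ ≤ ∫ θ in (0:ℝ)..(2 * Real.pi), (1 / (1 - Real.exp (-x))) * ‖F (zz 0 θ)‖ := by
    apply intervalIntegral.norm_integral_le_of_norm_le (by positivity)
    · refine Filter.Eventually.of_forall (fun θ _ => ?_)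
      rw [hmap, norm_smul]
      apply mul_le_mul_of_nonneg_right _ (norm_nonneg _)
      rw [norm_div, sub_zero, zz_norm]
      have h1 : 1 - Real.exp (-x) ≤ ‖zz 0 θ - z‖ := by
        have h2 := norm_sub_norm_le (zz 0 θ) z
        rw [zz_norm] at h2
        simp only [neg_zero, Real.exp_zero] at h2
        linarith
      simp only [neg_zero, Real.exp_zero]
      exact one_div_le_one_div_of_le hpos h1
    · exact (continuous_const.mul hcont0).intervalIntegrable _ _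
  rw [← h, norm_smul, norm_inv, Real.norm_of_nonneg (by positivity : (0:ℝ) ≤ 2 * Real.pi), ← one_div,
    mul_assoc]
  apply mul_le_mul_of_nonneg_left _ (by positivity)
  rw [← intervalIntegral.integral_const_mul]
  exact hI

end

/-! ### Mfm -/

section

theorem mean_from_mass (S : ℂ → ℂ) (R T K x : ℝ) (hR : 1 < R)
    (hS : DifferentiableOn ℂ S (Metric.ball 0 R)) (hx : 0 < x) (hx2 : x ≤ Real.log 2)
    (hK : 0 < K)
    (hm : ∫ u in (0:ℝ)..(Real.log 2), ∫ θ in (0:ℝ)..(2 * Real.pi),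
      Real.exp ((S (zz u θ)).re) * (u + x) ^ (-(1/2) : ℝ) ≤ K * Real.exp (T / 4)) :
    ∫ θ in (0:ℝ)..(2 * Real.pi), ‖Complex.exp (S (zz x θ))‖ ≤
      2 * K * x ^ (-(1/2) : ℝ) * Real.exp (T / 4) := by
  have hpw : ∀ y : ℝ, 0 < y → y ^ (-(1/2) : ℝ) = (√y)⁻¹ := by
    intro y hy
    rw [Real.rpow_neg hy.le, ← Real.sqrt_eq_rpow]
  have hpi : (0:ℝ) ≤ 2 * Real.pi := by positivity
  obtain ⟨I, hI⟩ : ∃ I : ℝ → ℝ, ∀ u, I u = ∫ θ in (0:ℝ)..(2 * Real.pi),
    ‖Complex.exp (S (zz u θ))‖ := ⟨_, fun u => rfl⟩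
  have hI0 : ∀ u, 0 ≤ I u := by
    intro u
    rw [hI]
    exact intervalIntegral.integral_nonneg hpi (fun _ _ => norm_nonneg _)
  have hanti : AntitoneOn I (Ici 0) := by
    intro a ha b hb hab
    rw [hI, hI]
    exact mean_mono (fun z => Complex.exp (S z)) R hR hS.cexp a b ha hab
  have hinner : ∀ u, (∫ θ in (0:ℝ)..(2 * Real.pi),
      Real.exp ((S (zz u θ)).re) * (u + x) ^ (-(1/2) : ℝ)) = I u * (u + x) ^ (-(1/2) : ℝ) := by
    intro u
    rw [intervalIntegral.integral_mul_const, hI]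
    congr 1
    apply intervalIntegral.integral_congr
    intro θ _
    exact (Complex.norm_exp _).symm
  simp only [hinner] at hm
  have hlog : 0 < Real.log 2 := Real.log_pos one_lt_two
  have hint : IntervalIntegrable (fun u => I u * (u + x) ^ (-(1/2) : ℝ)) volume 0 (Real.log 2) := by
    apply IntervalIntegrable.mul_continuousOn
    · apply AntitoneOn.intervalIntegrable
      apply hanti.mono
      rw [uIcc_of_le hlog.le]
      exact fun u hu => hu.1
    · apply ContinuousOn.rpow_const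
      · exact (continuous_id.add continuous_const).continuousOn
      · intro u hu
        rw [uIcc_of_le hlog.le] at hu
        left
        have := hu.1
        exact (by linarith : (0:ℝ) < u + x).ne'
  have h1 : ∫ u in (0:ℝ)..x, I u * (u + x) ^ (-(1/2) : ℝ) ≤
      ∫ u in (0:ℝ)..(Real.log 2), I u * (u + x) ^ (-(1/2) : ℝ) := by
    apply intervalIntegral.integral_mono_interval le_rfl hx.le hx2 _ hint
    rw [Filter.EventuallyLE, ae_restrict_iff' measurableSet_Ioc]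
    refine Filter.Eventually.of_forall fun u hu => ?_
    have h0 : 0 ≤ u + x := by linarith [hu.1]
    exact mul_nonneg (hI0 u) (Real.rpow_nonneg h0 _)
  have hsx : 0 < √x := Real.sqrt_pos.2 hx
  have h2 : x * (I x * (2 * √x)⁻¹) ≤ ∫ u in (0:ℝ)..x, I u * (u + x) ^ (-(1/2) : ℝ) := by
    have h3 : ∫ u in (0:ℝ)..x, I x * (2 * √x)⁻¹ = x * (I x * (2 * √x)⁻¹) := by
      rw [intervalIntegral.integral_const]
      simp
    rw [← h3]
    apply intervalIntegral.integral_mono_on hx.le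
    · simp
    · apply hint.mono_set
      rw [uIcc_of_le hx.le, uIcc_of_le hlog.le]
      exact Icc_subset_Icc le_rfl hx2
    · intro u hu
      have hux : 0 < u + x := by linarith [hu.1]
      have h4 : I x ≤ I u := hanti hu.1 hx.le hu.2
      have h5 : (2 * √x)⁻¹ ≤ (u + x) ^ (-(1/2) : ℝ) := by
        rw [hpw _ hux]
        apply inv_anti₀ (Real.sqrt_pos.2 hux)
        rw [Real.sqrt_le_left (by positivity), mul_pow, Real.sq_sqrt hx.le]
        linarith [hu.2]
      exact mul_le_mul h4 h5 (by positivity) (hI0 u)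
  have h6 := h2.trans (h1.trans hm)
  rw [← hI, hpw x hx]
  have h7 : x * (I x * (2 * √x)⁻¹) = I x * √x / 2 := by
    have : x = √x * √x := (Real.mul_self_sqrt hx.le).symm
    field_simp
    rw [Real.sq_sqrt hx.le]
    ring
  rw [h7] at h6
  have h8 : I x * √x ≤ 2 * K * Real.exp (T / 4) := by linarith
  calc I x = (I x * √x) * (√x)⁻¹ := by field_simp
    _ ≤ (2 * K * Real.exp (T / 4)) * (√x)⁻¹ :=
        mul_le_mul_of_nonneg_right h8 (by positivity)
    _ = 2 * K * (√x)⁻¹ * Real.exp (T / 4) := by ring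

end

end HW287
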