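import Pool.Agent.Helper287.HW.Base

set_option autoImplicit false
set_option linter.all false

open MeasureTheory Set Filter Topology

namespace HW287

/-! ### Ibp1 -/

section

theorem ibp1 (S : ℂ → ℂ) (R X σ : ℝ) (hR : 1 < R) (hS : DifferentiableOn ℂ S (Metric.ball 0 R))
    (hX : 0 < X) (hσ : 0 < σ) (p : ℂ → ℝ) (hp : ContDiff ℝ 1 p) (t φ : ℝ)
    (hz : ∀ θ, p (pt t φ - S (zz X θ)) = 0) :
    JJ S X (d1 p) (fun x θ => hh σ x * ‖LL S x θ‖ ^ 2) t φ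
      = -JJ S X p (fun x θ => hh1 σ x * (LL S x θ).re) t φ := by
  have hpd : Differentiable ℝ p := hp.differentiable (by norm_num)
  have hfp : Continuous (fun s => fderiv ℝ p s) := hp.continuous_fderiv (by norm_num)
  obtain ⟨hSc, hLc⟩ := S_cont S R hR hS
  obtain ⟨hhc, hh1c, -⟩ := hh_cont σ hσ
  have hfst : ContinuousOn (fun q : ℝ × ℝ => q.1) {q | 0 ≤ q.1} := continuous_fst.continuousOn
  have hmt : MapsTo (fun q : ℝ × ℝ => q.1) {q | 0 ≤ q.1} (Ici 0) := fun q hq => hq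
  have hwc : ContinuousOn (fun q : ℝ × ℝ => pt t φ - S (zz q.1 q.2)) {q | 0 ≤ q.1} :=
    continuousOn_const.sub hSc
  have hhq : ContinuousOn (fun q : ℝ × ℝ => hh σ q.1) {q | 0 ≤ q.1} := hhc.comp hfst hmt
  have hh1q : ContinuousOn (fun q : ℝ × ℝ => hh1 σ q.1) {q | 0 ≤ q.1} := hh1c.comp hfst hmt
  have hkq : ContinuousOn (fun q : ℝ × ℝ => p (pt t φ - S (zz q.1 q.2))) {q | 0 ≤ q.1} :=
    hp.continuous.comp_continuousOn hwc
  have hd1q : ContinuousOn (fun q : ℝ × ℝ => d1 p (pt t φ - S (zz q.1 q.2))) {q | 0 ≤ q.1} :=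
    (hfp.clm_apply continuous_const).comp_continuousOn hwc
  have hreq : ContinuousOn (fun q : ℝ × ℝ => (LL S q.1 q.2).re) {q | 0 ≤ q.1} :=
    Complex.continuous_re.comp_continuousOn hLc
  have himq : ContinuousOn (fun q : ℝ × ℝ => (LL S q.1 q.2).im) {q | 0 ≤ q.1} :=
    Complex.continuous_im.comp_continuousOn hLc
  -- the two integrands
  set A : ℝ × ℝ → ℝ := fun q => d1 p (pt t φ - S (zz q.1 q.2)) * (hh σ q.1 * ‖LL S q.1 q.2‖ ^ 2) with hAdef
  set B : ℝ × ℝ → ℝ := fun q => p (pt t φ - S (zz q.1 q.2)) * (hh1 σ q.1 * (LL S q.1 q.2).re) with hBdef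
  have hA : ContinuousOn A {q | 0 ≤ q.1} := hd1q.mul (hhq.mul (hLc.norm.pow 2))
  have hB : ContinuousOn B {q | 0 ≤ q.1} := hkq.mul (hh1q.mul hreq)
  set f : ℝ × ℝ → ℝ := fun q => p (pt t φ - S (zz q.1 q.2)) * hh σ q.1 * (LL S q.1 q.2).re with hfdef
  set g : ℝ × ℝ → ℝ := fun q => p (pt t φ - S (zz q.1 q.2)) * hh σ q.1 * (LL S q.1 q.2).im with hgdef
  have hfc : ContinuousOn f {q | 0 ≤ q.1} := (hkq.mul hhq).mul hreq
  have hgc : ContinuousOn g {q | 0 ≤ q.1} := (hkq.mul hhq).mul himq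
  -- differentiability
  have hZ : Differentiable ℝ (fun q : ℝ × ℝ => zz q.1 q.2) := by
    have h1 : Differentiable ℝ (fun q : ℝ × ℝ => (q.1 : ℂ)) :=
      Complex.ofRealCLM.differentiable.comp differentiable_fst
    have h2 : Differentiable ℝ (fun q : ℝ × ℝ => (q.2 : ℂ)) :=
      Complex.ofRealCLM.differentiable.comp differentiable_snd
    have h3 : Differentiable ℝ (fun q : ℝ × ℝ => -(q.1 : ℂ) + (q.2 : ℂ) * Complex.I) :=
      h1.neg.add (h2.mul_const Complex.I)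
    exact h3.cexp
  have hzz : ∀ q : ℝ × ℝ, 0 ≤ q.1 → zz q.1 q.2 ∈ Metric.ball (0:ℂ) R := by
    intro q hq
    rw [mem_ball_zero_iff, zz_norm]
    have : Real.exp (-q.1) ≤ 1 := Real.exp_le_one_iff.2 (by linarith)
    linarith
  have hSd : ∀ q : ℝ × ℝ, 0 ≤ q.1 → DifferentiableAt ℝ (fun q : ℝ × ℝ => S (zz q.1 q.2)) q := by
    intro q hq
    have h1 : DifferentiableAt ℂ S (zz q.1 q.2) :=
      hS.differentiableAt (Metric.isOpen_ball.mem_nhds (hzz q hq))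
    exact (h1.restrictScalars ℝ).comp q (hZ q)
  have hLd : ∀ q : ℝ × ℝ, 0 ≤ q.1 → DifferentiableAt ℝ (fun q : ℝ × ℝ => LL S q.1 q.2) q := by
    intro q hq
    have h1 : DifferentiableAt ℂ (deriv S) (zz q.1 q.2) :=
      (hS.deriv Metric.isOpen_ball).differentiableAt (Metric.isOpen_ball.mem_nhds (hzz q hq))
    have h2 : DifferentiableAt ℝ (deriv S ∘ (fun q : ℝ × ℝ => zz q.1 q.2)) q :=
      DifferentiableAt.comp q (h1.restrictScalars ℝ) (hZ q)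
    exact (hZ q).mul h2
  have hkd : ∀ q : ℝ × ℝ, 0 ≤ q.1 →
      DifferentiableAt ℝ (fun q : ℝ × ℝ => p (pt t φ - S (zz q.1 q.2))) q := by
    intro q hq
    exact (hpd _).comp q ((differentiableAt_const _).sub (hSd q hq))
  have hhd : ∀ q : ℝ × ℝ, 0 ≤ q.1 → DifferentiableAt ℝ (fun q : ℝ × ℝ => hh σ q.1) q := by
    intro q hq
    exact (hh_props σ q.1 hσ hq).1.differentiableAt.comp q differentiableAt_fst
  have hred : ∀ q : ℝ × ℝ, 0 ≤ q.1 → DifferentiableAt ℝ (fun q : ℝ × ℝ => (LL S q.1 q.2).re) q := by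
    intro q hq
    exact Complex.reCLM.differentiableAt.comp q (hLd q hq)
  have himd : ∀ q : ℝ × ℝ, 0 ≤ q.1 → DifferentiableAt ℝ (fun q : ℝ × ℝ => (LL S q.1 q.2).im) q := by
    intro q hq
    exact Complex.imCLM.differentiableAt.comp q (hLd q hq)
  have hfd : ∀ q : ℝ × ℝ, 0 ≤ q.1 → DifferentiableAt ℝ f q := fun q hq =>
    ((hkd q hq).mul (hhd q hq)).mul (hred q hq)
  have hgd : ∀ q : ℝ × ℝ, 0 ≤ q.1 → DifferentiableAt ℝ g q := fun q hq =>
    ((hkd q hq).mul (hhd q hq)).mul (himd q hq)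
  -- the divergence
  have hdiv : ∀ q : ℝ × ℝ, 0 ≤ q.1 →
      fderiv ℝ f q (1, 0) + fderiv ℝ g q (0, 1) = A q + B q := by
    rintro ⟨x, θ⟩ hq
    have hx : 0 ≤ x := hq
    obtain ⟨hs1, hs2, L', hl1, hl2, -⟩ := S_derivs S R hR hS x θ hx
    have hhx := (hh_props σ x hσ hx).1
    have hw1 : HasDerivAt (fun u : ℝ => pt t φ - S (zz u θ)) (LL S x θ) x := by
      have := hs1.const_sub (pt t φ)
      rwa [neg_neg] at this
    have hw2 : HasDerivAt (fun u : ℝ => pt t φ - S (zz x u)) (-(Complex.I * LL S x θ)) θ :=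
      hs2.const_sub (pt t φ)
    have hk1 : HasDerivAt (fun u : ℝ => p (pt t φ - S (zz u θ)))
        (fderiv ℝ p (pt t φ - S (zz x θ)) (LL S x θ)) x :=
      (hpd (pt t φ - S (zz x θ))).hasFDerivAt.comp_hasDerivAt x hw1
    have hk2 : HasDerivAt (fun u : ℝ => p (pt t φ - S (zz x u)))
        (fderiv ℝ p (pt t φ - S (zz x θ)) (-(Complex.I * LL S x θ))) θ :=
      (hpd (pt t φ - S (zz x θ))).hasFDerivAt.comp_hasDerivAt θ hw2
    have hre1 : HasDerivAt (fun u : ℝ => (LL S u θ).re) (-L').re x :=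
      Complex.reCLM.hasFDerivAt.comp_hasDerivAt x hl1
    have him2 : HasDerivAt (fun u : ℝ => (LL S x u).im) (Complex.I * L').im θ :=
      Complex.imCLM.hasFDerivAt.comp_hasDerivAt θ hl2
    have hF := (hk1.mul hhx).mul hre1
    have hG := (hk2.mul_const (hh σ x)).mul him2
    have hline1 : HasDerivAt (fun u : ℝ => ((u, θ) : ℝ × ℝ)) (1, 0) x :=
      (hasDerivAt_id x).prodMk (hasDerivAt_const x θ)
    have hline2 : HasDerivAt (fun u : ℝ => ((x, u) : ℝ × ℝ)) (0, 1) θ :=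
      (hasDerivAt_const θ x).prodMk (hasDerivAt_id θ)
    have hF' : HasDerivAt (f ∘ (fun u : ℝ => ((u, θ) : ℝ × ℝ))) (fderiv ℝ f (x, θ) (1, 0)) x :=
      HasFDerivAt.comp_hasDerivAt x (hfd (x, θ) hx).hasFDerivAt hline1
    have hG' : HasDerivAt (g ∘ (fun u : ℝ => ((x, u) : ℝ × ℝ))) (fderiv ℝ g (x, θ) (0, 1)) θ :=
      HasFDerivAt.comp_hasDerivAt θ (hgd (x, θ) hx).hasFDerivAt hline2
    have e1 := hF'.unique hF
    have e2 := hG'.unique hG
    rw [e1, e2]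
    set w := pt t φ - S (zz x θ) with hw
    set L := LL S x θ with hL
    have hv1 : fderiv ℝ p w L = L.re * d1 p w + L.im * d2 p w := by
      have hdec : L = L.re • (1 : ℂ) + L.im • Complex.I := by
        apply Complex.ext <;> simp
      conv_lhs => rw [hdec]
      rw [map_add, map_smul, map_smul]
      rfl
    have hv2 : fderiv ℝ p w (-(Complex.I * L)) = L.im * d1 p w - L.re * d2 p w := by
      have hdec : -(Complex.I * L) = L.im • (1 : ℂ) + (-L.re) • Complex.I := by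
        apply Complex.ext <;> simp
      rw [hdec, map_add, map_smul, map_smul]
      show L.im * d1 p w + (-L.re) * d2 p w = _
      ring
    have hn : ‖L‖ ^ 2 = L.re ^ 2 + L.im ^ 2 := by
      rw [← Complex.normSq_eq_norm_sq, Complex.normSq_apply]; ring
    show _ = d1 p w * (hh σ x * ‖L‖ ^ 2) + p w * (hh1 σ x * L.re)
    rw [hv1, hv2, hn]
    have i1 : (-L').re = -L'.re := rfl
    have i2 : (Complex.I * L').im = L'.re := by simp
    rw [i1, i2]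
    simp only [Pi.mul_apply]
    ring
  -- apply the divergence theorem
  have hpi : (0:ℝ) ≤ 2 * Real.pi := by positivity
  have hrect : (uIcc (0:ℝ) X ×ˢ uIcc (0:ℝ) (2 * Real.pi) : Set (ℝ × ℝ)) ⊆ {q | 0 ≤ q.1} := by
    intro q hq
    have := hq.1
    rw [uIcc_of_le hX.le] at this
    exact this.1
  classical
  set U : Set (ℝ × ℝ) := {q | 0 ≤ q.1} with hU
  set f' : ℝ × ℝ → ℝ × ℝ →L[ℝ] ℝ := fun q => if q ∈ U then fderiv ℝ f q else
    (A q + B q) • ContinuousLinearMap.fst ℝ ℝ ℝ with hf'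
  set g' : ℝ × ℝ → ℝ × ℝ →L[ℝ] ℝ := fun q => if q ∈ U then fderiv ℝ g q else 0 with hg'
  have hsum : ∀ q, f' q (1, 0) + g' q (0, 1) = A q + B q := by
    intro q
    by_cases hq : q ∈ U
    · simp only [hf', hg', if_pos hq]
      exact hdiv q hq
    · simp only [hf', hg', if_neg hq]
      simp
  have hopen : ∀ q ∈ Ioo (min (0:ℝ) X) (max 0 X) ×ˢ Ioo (min (0:ℝ) (2 * Real.pi)) (max 0 (2 * Real.pi)),
      q ∈ U := by
    intro q hq
    have := hq.1.1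
    rw [min_eq_left hX.le] at this
    exact this.le
  have hmain := integral2_divergence_prod_of_hasFDerivAt f g f' g' 0 0 X (2 * Real.pi)
    (hfc.mono hrect) (hgc.mono hrect)
    (fun q hq => by
      have h := hopen q hq
      simp only [hf', if_pos h]
      exact (hfd q h).hasFDerivAt)
    (fun q hq => by
      have h := hopen q hq
      simp only [hg', if_pos h]
      exact (hgd q h).hasFDerivAt)
    (by
      simp only [hsum]
      exact ((hA.add hB).mono hrect).integrableOn_compact (isCompact_uIcc.prod isCompact_uIcc))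
  simp only [hsum] at hmain
  have hb1 : ∀ x, g (x, 2 * Real.pi) = g (x, 0) := by
    intro x
    have hz2 : zz x (2 * Real.pi) = zz x 0 := by
      have := zz_per x 0
      rwa [zero_add] at this
    simp only [hgdef, LL, hz2]
  have hb2 : ∀ y, f (X, y) = 0 := by
    intro y
    simp only [hfdef, hz y, zero_mul]
  have hb3 : ∀ y, f (0, y) = 0 := by
    intro y
    have : hh σ 0 = 0 := (hh_props σ 0 hσ le_rfl).2.2.2.2.2.2.2.2.2.1
    simp only [hfdef, this, mul_zero, zero_mul]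
  simp only [hb1, hb2, hb3, sub_self, intervalIntegral.integral_zero, add_zero] at hmain
  -- split the integral
  have hmaxc : Continuous (fun q : ℝ × ℝ => ((max q.1 0, q.2) : ℝ × ℝ)) := by fun_prop
  have hmaxm : ∀ q : ℝ × ℝ, ((max q.1 0, q.2) : ℝ × ℝ) ∈ U := fun q => by
    show (0:ℝ) ≤ max q.1 0
    exact le_max_right _ _
  have hA' : Continuous (fun q : ℝ × ℝ => A (max q.1 0, q.2)) :=
    hA.comp_continuous hmaxc hmaxm
  have hB' : Continuous (fun q : ℝ × ℝ => B (max q.1 0, q.2)) :=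
    hB.comp_continuous hmaxc hmaxm
  have hAi : Continuous (fun x : ℝ => ∫ y in (0:ℝ)..(2 * Real.pi), A (max x 0, y)) :=
    intervalIntegral.continuous_parametric_intervalIntegral_of_continuous' hA' 0 (2 * Real.pi)
  have hBi : Continuous (fun x : ℝ => ∫ y in (0:ℝ)..(2 * Real.pi), B (max x 0, y)) :=
    intervalIntegral.continuous_parametric_intervalIntegral_of_continuous' hB' 0 (2 * Real.pi)
  have hJ1 : JJ S X (d1 p) (fun x θ => hh σ x * ‖LL S x θ‖ ^ 2) t φ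
      = ∫ x in (0:ℝ)..X, ∫ y in (0:ℝ)..(2 * Real.pi), A (max x 0, y) := by
    unfold JJ
    apply intervalIntegral.integral_congr
    intro x hx
    rw [uIcc_of_le hX.le] at hx
    simp only [max_eq_left hx.1]
    rfl
  have hJ2 : JJ S X p (fun x θ => hh1 σ x * (LL S x θ).re) t φ
      = ∫ x in (0:ℝ)..X, ∫ y in (0:ℝ)..(2 * Real.pi), B (max x 0, y) := by
    unfold JJ
    apply intervalIntegral.integral_congr
    intro x hx
    rw [uIcc_of_le hX.le] at hx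
    simp only [max_eq_left hx.1]
    rfl
  have hJ3 : (∫ x in (0:ℝ)..X, ∫ y in (0:ℝ)..(2 * Real.pi), (A (x, y) + B (x, y)))
      = ∫ x in (0:ℝ)..X, ((∫ y in (0:ℝ)..(2 * Real.pi), A (max x 0, y)) +
        ∫ y in (0:ℝ)..(2 * Real.pi), B (max x 0, y)) := by
    apply intervalIntegral.integral_congr
    intro x hx
    rw [uIcc_of_le hX.le] at hx
    have h1 : Continuous (fun y : ℝ => A (max x 0, y)) := hA'.comp (by fun_prop : Continuous (fun y : ℝ => ((x, y) : ℝ × ℝ)))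
    have h2 : Continuous (fun y : ℝ => B (max x 0, y)) := hB'.comp (by fun_prop : Continuous (fun y : ℝ => ((x, y) : ℝ × ℝ)))
    simp only []
    rw [← intervalIntegral.integral_add (h1.intervalIntegrable _ _) (h2.intervalIntegrable _ _)]
    simp only [max_eq_left hx.1]
  rw [hJ3, intervalIntegral.integral_add (hAi.intervalIntegrable _ _) (hBi.intervalIntegrable _ _)] at hmain
  rw [hJ1, hJ2]
  linarith

end

/-! ### Ibp2 -/

section

theorem ibp2_div (X : ℝ) (hX : 0 < X) (f g F : ℝ × ℝ → ℝ)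
    (hf : ∀ q : ℝ × ℝ, 0 ≤ q.1 → DifferentiableAt ℝ f q)
    (hg : ∀ q : ℝ × ℝ, 0 ≤ q.1 → DifferentiableAt ℝ g q)
    (hF : ContinuousOn F {q : ℝ × ℝ | 0 ≤ q.1})
    (hd : ∀ q : ℝ × ℝ, 0 ≤ q.1 → fderiv ℝ f q (1, 0) + fderiv ℝ g q (0, 1) = F q)
    (hf0 : ∀ θ, f (0, θ) = 0) (hfX : ∀ θ, f (X, θ) = 0)
    (hper : ∀ x, g (x, 2 * Real.pi) = g (x, 0)) :
    ∫ x in (0:ℝ)..X, ∫ θ in (0:ℝ)..(2 * Real.pi), F (x, θ) = 0 := by
  have hpi : (0 : ℝ) ≤ 2 * Real.pi := by positivity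
  have hsub : uIcc (0:ℝ) X ×ˢ uIcc (0:ℝ) (2 * Real.pi) ⊆ {q : ℝ × ℝ | 0 ≤ q.1} := by
    rintro ⟨x, θ⟩ ⟨h1, _⟩
    rw [uIcc_of_le hX.le] at h1
    exact h1.1
  have hint : IntegrableOn (fun q : ℝ × ℝ => fderiv ℝ f q (1, 0) + fderiv ℝ g q (0, 1))
      (uIcc (0:ℝ) X ×ˢ uIcc (0:ℝ) (2 * Real.pi)) := by
    have h1 : ContinuousOn (fun q : ℝ × ℝ => fderiv ℝ f q (1, 0) + fderiv ℝ g q (0, 1))
        (uIcc (0:ℝ) X ×ˢ uIcc (0:ℝ) (2 * Real.pi)) :=
      (hF.mono hsub).congr fun q hq => hd q (hsub hq)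
    exact h1.integrableOn_compact (isCompact_uIcc.prod isCompact_uIcc)
  have hmem : ∀ q ∈ Ioo (min (0:ℝ) X) (max (0:ℝ) X) ×ˢ
      Ioo (min (0:ℝ) (2 * Real.pi)) (max (0:ℝ) (2 * Real.pi)), 0 ≤ q.1 := by
    rintro q ⟨h1, _⟩
    rw [min_eq_left hX.le] at h1
    exact h1.1.le
  have key := integral2_divergence_prod_of_hasFDerivAt f g (fun q => fderiv ℝ f q)
    (fun q => fderiv ℝ g q) 0 0 X (2 * Real.pi)
    (fun q hq => (hf q (hsub hq)).continuousAt.continuousWithinAt)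
    (fun q hq => (hg q (hsub hq)).continuousAt.continuousWithinAt)
    (fun q hq => (hf q (hmem q hq)).hasFDerivAt) (fun q hq => (hg q (hmem q hq)).hasFDerivAt) hint
  have h2 : (∫ x in (0:ℝ)..X, ∫ θ in (0:ℝ)..(2 * Real.pi), F (x, θ)) =
      ∫ x in (0:ℝ)..X, ∫ θ in (0:ℝ)..(2 * Real.pi),
        (fderiv ℝ f (x, θ) (1, 0) + fderiv ℝ g (x, θ) (0, 1)) := by
    refine intervalIntegral.integral_congr fun x hx => ?_
    rw [uIcc_of_le hX.le] at hx
    refine intervalIntegral.integral_congr fun θ _ => ?_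
    exact (hd (x, θ) hx.1).symm
  rw [h2]
  refine key.trans ?_
  simp only [hf0, hfX, hper, intervalIntegral.integral_zero]
  ring

theorem ibp2_add (X : ℝ) (hX : 0 < X) (F G : ℝ × ℝ → ℝ)
    (hF : ContinuousOn F {q : ℝ × ℝ | 0 ≤ q.1}) (hG : ContinuousOn G {q : ℝ × ℝ | 0 ≤ q.1}) :
    ∫ x in (0:ℝ)..X, ∫ θ in (0:ℝ)..(2 * Real.pi), (F (x, θ) + G (x, θ)) =
      (∫ x in (0:ℝ)..X, ∫ θ in (0:ℝ)..(2 * Real.pi), F (x, θ)) +
        ∫ x in (0:ℝ)..X, ∫ θ in (0:ℝ)..(2 * Real.pi), G (x, θ) := by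
  have hc : ∀ H : ℝ × ℝ → ℝ, ContinuousOn H {q : ℝ × ℝ | 0 ≤ q.1} →
      Continuous (fun q : ℝ × ℝ => H (max q.1 0, q.2)) := by
    intro H hH
    exact hH.comp_continuous (by fun_prop) fun q => (le_max_right q.1 0 : 0 ≤ max q.1 0)
  have hr : ∀ H : ℝ × ℝ → ℝ, (∫ x in (0:ℝ)..X, ∫ θ in (0:ℝ)..(2 * Real.pi), H (x, θ)) =
      ∫ x in (0:ℝ)..X, ∫ θ in (0:ℝ)..(2 * Real.pi), H (max x 0, θ) := by
    intro H
    refine intervalIntegral.integral_congr fun x hx => ?_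
    rw [uIcc_of_le hX.le] at hx
    show (∫ θ in (0:ℝ)..(2 * Real.pi), H (x, θ)) = ∫ θ in (0:ℝ)..(2 * Real.pi), H (max x 0, θ)
    rw [max_eq_left hx.1]
  have hI : ∀ H : ℝ × ℝ → ℝ, ContinuousOn H {q : ℝ × ℝ | 0 ≤ q.1} → ∀ x,
      IntervalIntegrable (fun θ => H (max x 0, θ)) volume 0 (2 * Real.pi) := by
    intro H hH x
    have h1 : Continuous (fun θ : ℝ => H (max x 0, θ)) :=
      (hc H hH).comp (by fun_prop : Continuous fun θ : ℝ => ((x, θ) : ℝ × ℝ))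
    exact h1.intervalIntegrable _ _
  have hJ : ∀ H : ℝ × ℝ → ℝ, ContinuousOn H {q : ℝ × ℝ | 0 ≤ q.1} →
      IntervalIntegrable (fun x => ∫ θ in (0:ℝ)..(2 * Real.pi), H (max x 0, θ)) volume 0 X := by
    intro H hH
    have h1 : Continuous (fun x : ℝ => ∫ θ in (0:ℝ)..(2 * Real.pi), H (max x 0, θ)) :=
      intervalIntegral.continuous_parametric_intervalIntegral_of_continuous'
        (f := fun x θ => H (max x 0, θ)) (hc H hH) 0 (2 * Real.pi)
    exact h1.intervalIntegrable _ _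
  rw [hr F, hr G, hr (fun q => F q + G q), ← intervalIntegral.integral_add (hJ F hF) (hJ G hG)]
  refine intervalIntegral.integral_congr fun x _ => ?_
  exact intervalIntegral.integral_add (hI F hF x) (hI G hG x)

theorem ibp2_mem (R : ℝ) (hR : 1 < R) (x θ : ℝ) (hx : 0 ≤ x) : zz x θ ∈ Metric.ball (0 : ℂ) R := by
  rw [Metric.mem_ball, dist_zero_right, zz_norm]
  refine lt_of_le_of_lt ?_ hR
  rw [Real.exp_le_one_iff]
  linarith

theorem ibp2_zz : Differentiable ℝ (fun q : ℝ × ℝ => zz q.1 q.2) := by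
  have h1 : Differentiable ℝ (fun q : ℝ × ℝ => (q.1 : ℂ)) :=
    Complex.ofRealCLM.differentiable.comp differentiable_fst
  have h2 : Differentiable ℝ (fun q : ℝ × ℝ => (q.2 : ℂ)) :=
    Complex.ofRealCLM.differentiable.comp differentiable_snd
  unfold zz
  exact (h1.neg.add (h2.mul_const _)).cexp

theorem ibp2_S (S : ℂ → ℂ) (R : ℝ) (hR : 1 < R) (hS : DifferentiableOn ℂ S (Metric.ball 0 R))
    (q : ℝ × ℝ) (hq : 0 ≤ q.1) : DifferentiableAt ℝ (fun q : ℝ × ℝ => S (zz q.1 q.2)) q := by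
  have h1 : DifferentiableAt ℂ S (zz q.1 q.2) :=
    hS.differentiableAt (Metric.isOpen_ball.mem_nhds (ibp2_mem R hR q.1 q.2 hq))
  exact (h1.restrictScalars ℝ).comp q (ibp2_zz q)

theorem ibp2_L (S : ℂ → ℂ) (R : ℝ) (hR : 1 < R) (hS : DifferentiableOn ℂ S (Metric.ball 0 R))
    (q : ℝ × ℝ) (hq : 0 ≤ q.1) : DifferentiableAt ℝ (fun q : ℝ × ℝ => LL S q.1 q.2) q := by
  unfold LL
  exact (ibp2_zz q).mul (ibp2_S (deriv S) R hR (hS.deriv Metric.isOpen_ball) q hq)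

theorem ibp2_fd (p : ℂ → ℝ) (s : ℂ) (a b : ℝ) :
    fderiv ℝ p s ((a : ℂ) + (b : ℂ) * Complex.I) = a * d1 p s + b * d2 p s := by
  have h1 : ((a : ℂ) + (b : ℂ) * Complex.I) = a • (1 : ℂ) + b • Complex.I := by
    rw [Complex.real_smul, Complex.real_smul, mul_one]
  rw [h1, map_add, map_smul, map_smul]
  rfl

theorem ibp2_dd (p : ℂ → ℝ) (hp : ContDiff ℝ 1 p) :
    Continuous (d1 p) ∧ Continuous (d2 p) := by
  have h1 : Continuous (fderiv ℝ p) := hp.continuous_fderiv (by norm_num)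
  exact ⟨h1.clm_apply continuous_const, h1.clm_apply continuous_const⟩



theorem ibp2 (S : ℂ → ℂ) (R X σ : ℝ) (hR : 1 < R) (hS : DifferentiableOn ℂ S (Metric.ball 0 R))
    (hX : 0 < X) (hσ : 0 < σ) (p : ℂ → ℝ) (hp : ContDiff ℝ 1 p) (t φ : ℝ)
    (hz : ∀ θ, p (pt t φ - S (zz X θ)) = 0) :
    JJ S X (d2 p) (fun x θ => hh σ x * ‖LL S x θ‖ ^ 2) t φ
      = -JJ S X p (fun x θ => hh1 σ x * (LL S x θ).im) t φ := by
  obtain ⟨hSc, hLc⟩ := S_cont S R hR hS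
  obtain ⟨hd1, hd2⟩ := ibp2_dd p hp
  obtain ⟨hhc, hh1c, _⟩ := hh_cont σ hσ
  have hpd : Differentiable ℝ p := hp.differentiable (by norm_num)
  have hh0 : hh σ 0 = 0 := (hh_props σ 0 hσ le_rfl).2.2.2.2.2.2.2.2.2.1
  have hfst : ContinuousOn (fun q : ℝ × ℝ => q.1) {q : ℝ × ℝ | 0 ≤ q.1} :=
    continuous_fst.continuousOn
  have hmaps : MapsTo (fun q : ℝ × ℝ => q.1) {q : ℝ × ℝ | 0 ≤ q.1} (Ici 0) := fun q hq => hq
  have hF1 : ContinuousOn (fun q : ℝ × ℝ =>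
      d2 p (pt t φ - S (zz q.1 q.2)) * (hh σ q.1 * ‖LL S q.1 q.2‖ ^ 2)) {q : ℝ × ℝ | 0 ≤ q.1} :=
    (hd2.comp_continuousOn (continuousOn_const.sub hSc)).mul
      ((hhc.comp hfst hmaps).mul (hLc.norm.pow 2))
  have hF2 : ContinuousOn (fun q : ℝ × ℝ =>
      p (pt t φ - S (zz q.1 q.2)) * (hh1 σ q.1 * (LL S q.1 q.2).im)) {q : ℝ × ℝ | 0 ≤ q.1} :=
    (hp.continuous.comp_continuousOn (continuousOn_const.sub hSc)).mul
      ((hh1c.comp hfst hmaps).mul (Complex.continuous_im.comp_continuousOn hLc))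
  have hdk : ∀ q : ℝ × ℝ, 0 ≤ q.1 →
      DifferentiableAt ℝ (fun q : ℝ × ℝ => p (pt t φ - S (zz q.1 q.2))) q := by
    intro q hq
    exact (hpd _).comp q ((differentiableAt_const _).sub (ibp2_S S R hR hS q hq))
  have hdh : ∀ q : ℝ × ℝ, 0 ≤ q.1 → DifferentiableAt ℝ (fun q : ℝ × ℝ => hh σ q.1) q := by
    intro q hq
    exact ((hh_props σ q.1 hσ hq).1.differentiableAt).comp q differentiableAt_fst
  have hdre : ∀ q : ℝ × ℝ, 0 ≤ q.1 → DifferentiableAt ℝ (fun q : ℝ × ℝ => (LL S q.1 q.2).re) q := by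
    intro q hq
    exact Complex.reCLM.differentiableAt.comp q (ibp2_L S R hR hS q hq)
  have hdim : ∀ q : ℝ × ℝ, 0 ≤ q.1 → DifferentiableAt ℝ (fun q : ℝ × ℝ => (LL S q.1 q.2).im) q := by
    intro q hq
    exact Complex.imCLM.differentiableAt.comp q (ibp2_L S R hR hS q hq)
  have hf : ∀ q : ℝ × ℝ, 0 ≤ q.1 → DifferentiableAt ℝ (fun q : ℝ × ℝ =>
      p (pt t φ - S (zz q.1 q.2)) * (hh σ q.1 * (LL S q.1 q.2).im)) q := fun q hq =>
    (hdk q hq).mul ((hdh q hq).mul (hdim q hq))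
  have hg : ∀ q : ℝ × ℝ, 0 ≤ q.1 → DifferentiableAt ℝ (fun q : ℝ × ℝ =>
      -(p (pt t φ - S (zz q.1 q.2)) * (hh σ q.1 * (LL S q.1 q.2).re))) q := fun q hq =>
    ((hdk q hq).mul ((hdh q hq).mul (hdre q hq))).neg
  have key := ibp2_div X hX
    (fun q : ℝ × ℝ => p (pt t φ - S (zz q.1 q.2)) * (hh σ q.1 * (LL S q.1 q.2).im))
    (fun q : ℝ × ℝ => -(p (pt t φ - S (zz q.1 q.2)) * (hh σ q.1 * (LL S q.1 q.2).re)))
    (fun q : ℝ × ℝ => d2 p (pt t φ - S (zz q.1 q.2)) * (hh σ q.1 * ‖LL S q.1 q.2‖ ^ 2) +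
      p (pt t φ - S (zz q.1 q.2)) * (hh1 σ q.1 * (LL S q.1 q.2).im))
    hf hg (hF1.add hF2) ?_ ?_ ?_ ?_
  · have h1 := ibp2_add X hX _ _ hF1 hF2
    have h2 : JJ S X (d2 p) (fun x θ => hh σ x * ‖LL S x θ‖ ^ 2) t φ +
        JJ S X p (fun x θ => hh1 σ x * (LL S x θ).im) t φ = 0 := h1.symm.trans key
    linarith
  · rintro ⟨x, θ⟩ hq
    have hx : 0 ≤ x := hq
    obtain ⟨e1, e2, L', e3, e4, _⟩ := S_derivs S R hR hS x θ hx
    obtain ⟨s, hs⟩ : ∃ s, s = pt t φ - S (zz x θ) := ⟨_, rfl⟩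
    have k1 : HasDerivAt (fun u : ℝ => p (pt t φ - S (zz u θ))) (fderiv ℝ p s (LL S x θ)) x := by
      have h3 : HasDerivAt (fun u : ℝ => pt t φ - S (zz u θ)) (LL S x θ) x := by
        have h4 := e1.const_sub (pt t φ)
        rw [neg_neg] at h4
        exact h4
      have h5 := (hpd (pt t φ - S (zz x θ))).hasFDerivAt.comp_hasDerivAt x h3
      rw [← hs] at h5
      exact h5
    have k2 : HasDerivAt (fun u : ℝ => p (pt t φ - S (zz x u)))
        (fderiv ℝ p s (-(Complex.I * LL S x θ))) θ := by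
      have h3 : HasDerivAt (fun u : ℝ => pt t φ - S (zz x u)) (-(Complex.I * LL S x θ)) θ :=
        e2.const_sub (pt t φ)
      have h5 := (hpd (pt t φ - S (zz x θ))).hasFDerivAt.comp_hasDerivAt θ h3
      rw [← hs] at h5
      exact h5
    have m1 : HasDerivAt (fun u : ℝ => (LL S u θ).im) (-L').im x :=
      Complex.imCLM.hasFDerivAt.comp_hasDerivAt x e3
    have m2 : HasDerivAt (fun u : ℝ => (LL S x u).re) (Complex.I * L').re θ :=
      Complex.reCLM.hasFDerivAt.comp_hasDerivAt θ e4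
    have hhd := (hh_props σ x hσ hx).1
    have fx := k1.mul (hhd.mul m1)
    have gy := (k2.mul (m2.const_mul (hh σ x))).neg
    have c1 : HasDerivAt (fun u : ℝ => ((u, θ) : ℝ × ℝ)) ((1 : ℝ), (0 : ℝ)) x :=
      (hasDerivAt_id x).prodMk (hasDerivAt_const x θ)
    have c2 : HasDerivAt (fun u : ℝ => ((x, u) : ℝ × ℝ)) ((0 : ℝ), (1 : ℝ)) θ :=
      (hasDerivAt_const θ x).prodMk (hasDerivAt_id θ)
    have fx' := (hf (x, θ) hx).hasFDerivAt.comp_hasDerivAt x c1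
    have gy' := (hg (x, θ) hx).hasFDerivAt.comp_hasDerivAt θ c2
    rw [fx'.unique fx, gy'.unique gy]
    have hL : LL S x θ = ((LL S x θ).re : ℂ) + ((LL S x θ).im : ℂ) * Complex.I :=
      (Complex.re_add_im _).symm
    have q1 : fderiv ℝ p s (LL S x θ) = (LL S x θ).re * d1 p s + (LL S x θ).im * d2 p s := by
      conv_lhs => rw [hL]
      exact ibp2_fd p s _ _
    have q2 : fderiv ℝ p s (-(Complex.I * LL S x θ)) =
        (LL S x θ).im * d1 p s + (-(LL S x θ).re) * d2 p s := by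
      have h6 : -(Complex.I * LL S x θ) =
          ((LL S x θ).im : ℂ) + ((-(LL S x θ).re : ℝ) : ℂ) * Complex.I := by
        conv_lhs => rw [hL]
        apply Complex.ext
        · simp
        · simp
      rw [h6]
      exact ibp2_fd p s _ _
    have q3 : ‖LL S x θ‖ ^ 2 = (LL S x θ).re ^ 2 + (LL S x θ).im ^ 2 := by
      rw [← Complex.normSq_eq_norm_sq, Complex.normSq_apply]
      ring
    have q4 : (Complex.I * L').re = -L'.im := by simp
    have q5 : (-L').im = -L'.im := by simp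
    show fderiv ℝ p s (LL S x θ) * (hh σ x * (LL S x θ).im) +
        p (pt t φ - S (zz x θ)) * (hh1 σ x * (LL S x θ).im + hh σ x * (-L').im) +
        -(fderiv ℝ p s (-(Complex.I * LL S x θ)) * (hh σ x * (LL S x θ).re) +
          p (pt t φ - S (zz x θ)) * (hh σ x * (Complex.I * L').re)) =
      d2 p (pt t φ - S (zz x θ)) * (hh σ x * ‖LL S x θ‖ ^ 2) +
        p (pt t φ - S (zz x θ)) * (hh1 σ x * (LL S x θ).im)
    rw [← hs, q1, q2, q3, q4, q5]
    ring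
  · intro θ
    show p (pt t φ - S (zz 0 θ)) * (hh σ 0 * (LL S 0 θ).im) = 0
    rw [hh0]
    ring
  · intro θ
    show p (pt t φ - S (zz X θ)) * (hh σ X * (LL S X θ).im) = 0
    rw [hz]
    ring
  · intro x
    have h7 : zz x (2 * Real.pi) = zz x 0 := by
      have := zz_per x 0
      rw [zero_add] at this
      exact this
    show -(p (pt t φ - S (zz x (2 * Real.pi))) * (hh σ x * (zz x (2 * Real.pi) *
      deriv S (zz x (2 * Real.pi))).re)) = -(p (pt t φ - S (zz x 0)) * (hh σ x * (zz x 0 *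
      deriv S (zz x 0)).re))
    rw [h7]

end

/-! ### Ibp3 -/

section

theorem ibp3_int (f : ℝ × ℝ → ℝ) (hf : ContinuousOn f {q | 0 ≤ q.1}) (X T : ℝ) :
    IntegrableOn f (Ioc 0 X ×ˢ Ioc 0 T) := by
  have hc : IsCompact (Icc (0:ℝ) X ×ˢ Icc (0:ℝ) T) := isCompact_Icc.prod isCompact_Icc
  have h1 : IntegrableOn f (Icc (0:ℝ) X ×ˢ Icc (0:ℝ) T) :=
    (hf.mono (fun q hq => hq.1.1)).integrableOn_compact hc
  exact h1.mono_set (Set.prod_mono Ioc_subset_Icc_self Ioc_subset_Icc_self)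

theorem ibp3_prod (f : ℝ × ℝ → ℝ) (hf : ContinuousOn f {q | 0 ≤ q.1}) (X T : ℝ) (hX : 0 ≤ X)
    (hT : 0 ≤ T) : ∫ x in (0:ℝ)..X, ∫ θ in (0:ℝ)..T, f (x, θ) =
      ∫ z in Ioc (0:ℝ) X ×ˢ Ioc (0:ℝ) T, f z := by
  have h := setIntegral_prod (μ := volume) (ν := volume) f (s := Ioc (0:ℝ) X) (t := Ioc (0:ℝ) T)
    (ibp3_int f hf X T)
  rw [Measure.volume_eq_prod, h, intervalIntegral.integral_of_le hX]
  refine integral_congr_ae (Filter.Eventually.of_forall fun x => ?_)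
  simp only [intervalIntegral.integral_of_le hT]

theorem ibp3_swap (f : ℝ × ℝ → ℝ) (hf : ContinuousOn f {q | 0 ≤ q.1}) (X T : ℝ) (hX : 0 ≤ X)
    (hT : 0 ≤ T) : ∫ x in (0:ℝ)..X, ∫ θ in (0:ℝ)..T, f (x, θ) =
      ∫ θ in (0:ℝ)..T, ∫ x in (0:ℝ)..X, f (x, θ) := by
  refine intervalIntegral_intervalIntegral_swap (F := fun x θ => f (x, θ)) ?_
  rw [uIoc_of_le hX, uIoc_of_le hT]
  exact ibp3_int f hf X T

theorem ibp3_fd (q : ℂ → ℝ) (s w : ℂ) : fderiv ℝ q s w = w.re * d1 q s + w.im * d2 q s := by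
  have h : w = w.re • (1 : ℂ) + w.im • Complex.I := by
    apply Complex.ext <;> simp
  conv_lhs => rw [h]
  rw [map_add, map_smul, map_smul]
  rfl

theorem ibp3 (S : ℂ → ℂ) (R X σ : ℝ) (hR : 1 < R) (hS : DifferentiableOn ℂ S (Metric.ball 0 R))
    (hX : 0 < X) (hσ : 0 < σ) (p : ℂ → ℝ) (hp : ContDiff ℝ 1 p) (t φ : ℝ)
    (hz : ∀ θ, p (pt t φ - S (zz X θ)) = 0) :
    JJ S X (d1 p) (fun x θ => hh1 σ x * (LL S x θ).re) t φ
      + JJ S X (d2 p) (fun x θ => hh1 σ x * (LL S x θ).im) t φ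
      = -JJ S X p (fun x θ => hh2 σ x) t φ := by
  obtain ⟨hS0, hL0⟩ := S_cont S R hR hS
  obtain ⟨-, hh1c, hh2c⟩ := hh_cont σ hσ
  have hfst : MapsTo (fun q : ℝ × ℝ => q.1) {q | 0 ≤ q.1} (Ici (0:ℝ)) := fun q hq => hq
  have ch1 : ContinuousOn (fun q : ℝ × ℝ => hh1 σ q.1) {q | 0 ≤ q.1} :=
    hh1c.comp continuous_fst.continuousOn hfst
  have ch2 : ContinuousOn (fun q : ℝ × ℝ => hh2 σ q.1) {q | 0 ≤ q.1} :=
    hh2c.comp continuous_fst.continuousOn hfst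
  have cA : ContinuousOn (fun q : ℝ × ℝ => pt t φ - S (zz q.1 q.2)) {q | 0 ≤ q.1} :=
    continuousOn_const.sub hS0
  have hfc : Continuous (fderiv ℝ p) := hp.continuous_fderiv (by norm_num)
  have cd1 : Continuous (d1 p) := by
    unfold d1
    exact hfc.clm_apply continuous_const
  have cd2 : Continuous (d2 p) := by
    unfold d2
    exact hfc.clm_apply continuous_const
  have cre : ContinuousOn (fun q : ℝ × ℝ => (LL S q.1 q.2).re) {q | 0 ≤ q.1} :=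
    Complex.continuous_re.comp_continuousOn hL0
  have cim : ContinuousOn (fun q : ℝ × ℝ => (LL S q.1 q.2).im) {q | 0 ≤ q.1} :=
    Complex.continuous_im.comp_continuousOn hL0
  obtain ⟨f1, hf1⟩ : ∃ f1 : ℝ × ℝ → ℝ, f1 = fun q => d1 p (pt t φ - S (zz q.1 q.2)) *
    (hh1 σ q.1 * (LL S q.1 q.2).re) := ⟨_, rfl⟩
  obtain ⟨f2, hf2⟩ : ∃ f2 : ℝ × ℝ → ℝ, f2 = fun q => d2 p (pt t φ - S (zz q.1 q.2)) *
    (hh1 σ q.1 * (LL S q.1 q.2).im) := ⟨_, rfl⟩
  obtain ⟨f3, hf3⟩ : ∃ f3 : ℝ × ℝ → ℝ, f3 = fun q => p (pt t φ - S (zz q.1 q.2)) *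
    hh2 σ q.1 := ⟨_, rfl⟩
  have c1 : ContinuousOn f1 {q | 0 ≤ q.1} := by
    rw [hf1]
    exact (cd1.comp_continuousOn cA).mul (ch1.mul cre)
  have c2 : ContinuousOn f2 {q | 0 ≤ q.1} := by
    rw [hf2]
    exact (cd2.comp_continuousOn cA).mul (ch1.mul cim)
  have c3 : ContinuousOn f3 {q | 0 ≤ q.1} := by
    rw [hf3]
    exact (hp.continuous.comp_continuousOn cA).mul ch2
  have hT : (0:ℝ) ≤ 2 * Real.pi := by positivity
  have j1 : JJ S X (d1 p) (fun x θ => hh1 σ x * (LL S x θ).re) t φ =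
      ∫ z in Ioc (0:ℝ) X ×ˢ Ioc (0:ℝ) (2 * Real.pi), f1 z := by
    rw [← ibp3_prod f1 c1 X _ hX.le hT, hf1]
    rfl
  have j2 : JJ S X (d2 p) (fun x θ => hh1 σ x * (LL S x θ).im) t φ =
      ∫ z in Ioc (0:ℝ) X ×ˢ Ioc (0:ℝ) (2 * Real.pi), f2 z := by
    rw [← ibp3_prod f2 c2 X _ hX.le hT, hf2]
    rfl
  have j3 : JJ S X p (fun x θ => hh2 σ x) t φ =
      ∫ z in Ioc (0:ℝ) X ×ˢ Ioc (0:ℝ) (2 * Real.pi), f3 z := by
    rw [← ibp3_prod f3 c3 X _ hX.le hT, hf3]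
    rfl
  have i1 := ibp3_int f1 c1 X (2 * Real.pi)
  have i2 := ibp3_int f2 c2 X (2 * Real.pi)
  have i3 := ibp3_int f3 c3 X (2 * Real.pi)
  have hsum : ∫ z in Ioc (0:ℝ) X ×ˢ Ioc (0:ℝ) (2 * Real.pi), (f1 z + f2 z + f3 z) =
      (∫ z in Ioc (0:ℝ) X ×ˢ Ioc (0:ℝ) (2 * Real.pi), f1 z) +
      (∫ z in Ioc (0:ℝ) X ×ˢ Ioc (0:ℝ) (2 * Real.pi), f2 z) +
      ∫ z in Ioc (0:ℝ) X ×ˢ Ioc (0:ℝ) (2 * Real.pi), f3 z := by
    have h12 : IntegrableOn (fun z => f1 z + f2 z) (Ioc (0:ℝ) X ×ˢ Ioc (0:ℝ) (2 * Real.pi)) :=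
      i1.add i2
    rw [integral_add h12 i3, integral_add i1 i2]
  have c123 : ContinuousOn (fun z => f1 z + f2 z + f3 z) {q : ℝ × ℝ | 0 ≤ q.1} := (c1.add c2).add c3
  have hzero : ∫ z in Ioc (0:ℝ) X ×ˢ Ioc (0:ℝ) (2 * Real.pi), (f1 z + f2 z + f3 z) = 0 := by
    rw [← ibp3_prod (fun z => f1 z + f2 z + f3 z) c123 X _ hX.le hT,
      ibp3_swap (fun z => f1 z + f2 z + f3 z) c123 X _ hX.le hT]
    have hin : ∀ θ : ℝ, ∫ x in (0:ℝ)..X, (f1 (x, θ) + f2 (x, θ) + f3 (x, θ)) = 0 := by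
      intro θ
      have hder : ∀ x ∈ uIcc (0:ℝ) X, HasDerivAt (fun u => p (pt t φ - S (zz u θ)) * hh1 σ u)
          (f1 (x, θ) + f2 (x, θ) + f3 (x, θ)) x := by
        intro x hx
        rw [uIcc_of_le hX.le] at hx
        have h1 := (S_derivs S R hR hS x θ hx.1).1
        have h2 : HasDerivAt (fun u : ℝ => pt t φ - S (zz u θ)) (LL S x θ) x := by
          have := h1.const_sub (pt t φ)
          rwa [neg_neg] at this
        have h3 : HasDerivAt (fun u : ℝ => p (pt t φ - S (zz u θ)))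
            (fderiv ℝ p (pt t φ - S (zz x θ)) (LL S x θ)) x :=
          ((hp.differentiable (by norm_num)) _).hasFDerivAt.comp_hasDerivAt x h2
        have h4 := h3.mul (hh_props σ x hσ hx.1).2.1
        refine h4.congr_deriv ?_
        rw [ibp3_fd, hf1, hf2, hf3]
        ring
      have hcont : ContinuousOn (fun x : ℝ => f1 (x, θ) + f2 (x, θ) + f3 (x, θ)) (uIcc 0 X) := by
        rw [uIcc_of_le hX.le]
        have hm : MapsTo (fun x : ℝ => (x, θ)) (Icc (0:ℝ) X) {q : ℝ × ℝ | 0 ≤ q.1} :=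
          fun x hx => hx.1
        have hcc : ContinuousOn (fun x : ℝ => (x, θ)) (Icc (0:ℝ) X) := by fun_prop
        exact c123.comp hcc hm
      rw [intervalIntegral.integral_eq_sub_of_hasDerivAt hder hcont.intervalIntegrable, hz θ,
        (hh_props σ 0 hσ le_rfl).2.2.2.2.2.2.2.2.2.2]
      ring
    simp only [hin]
    simp
  rw [j1, j2, j3]
  linarith

end

/-! ### Ggrad -/

section

/-- continuity of integrands on the half plane -/
def CCw (F : ℝ → ℝ → ℝ) : Prop := ContinuousOn (fun q : ℝ × ℝ => F q.1 q.2) {q : ℝ × ℝ | 0 ≤ q.1}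

noncomputable def IIw (X : ℝ) (F : ℝ → ℝ → ℝ) : ℝ :=
  ∫ x in (0:ℝ)..X, ∫ θ in (0:ℝ)..(2 * Real.pi), F x θ

theorem CCw_mul {F G : ℝ → ℝ → ℝ} (hF : CCw F) (hG : CCw G) : CCw (fun x θ => F x θ * G x θ) :=
  ContinuousOn.mul hF hG

theorem CCw_add {F G : ℝ → ℝ → ℝ} (hF : CCw F) (hG : CCw G) : CCw (fun x θ => F x θ + G x θ) :=
  ContinuousOn.add hF hG

theorem CCw_smul {F : ℝ → ℝ → ℝ} (c : ℝ) (hF : CCw F) : CCw (fun x θ => c * F x θ) :=
  ContinuousOn.mul continuousOn_const hF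

theorem CCw_inner {F : ℝ → ℝ → ℝ} (hF : CCw F) {x : ℝ} (hx : 0 ≤ x) : Continuous (fun θ => F x θ) :=
  ContinuousOn.comp_continuous (f := fun θ : ℝ => ((x, θ) : ℝ × ℝ)) hF
    (Continuous.prodMk_right x) (fun _ => hx)

theorem CCw_outer {F : ℝ → ℝ → ℝ} (hF : CCw F) {X : ℝ} (hX : 0 ≤ X) :
    IntervalIntegrable (fun x => ∫ θ in (0:ℝ)..(2 * Real.pi), F x θ) volume 0 X := by
  have hc : Continuous (Function.uncurry fun (x θ : ℝ) => F (max x 0) θ) :=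
    ContinuousOn.comp_continuous (f := fun q : ℝ × ℝ => ((max q.1 0, q.2) : ℝ × ℝ)) hF
      (by fun_prop) (fun q => (le_max_right q.1 0 : (0:ℝ) ≤ max q.1 0))
  have hc2 : Continuous (fun x => ∫ θ in (0:ℝ)..(2 * Real.pi), F (max x 0) θ) :=
    intervalIntegral.continuous_parametric_intervalIntegral_of_continuous' hc _ _
  refine ContinuousOn.intervalIntegrable ?_
  refine hc2.continuousOn.congr ?_
  intro x hx
  rw [Set.uIcc_of_le hX] at hx
  simp only [max_eq_left hx.1]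

theorem IIw_add {F G : ℝ → ℝ → ℝ} (hF : CCw F) (hG : CCw G) {X : ℝ} (hX : 0 ≤ X) :
    IIw X (fun x θ => F x θ + G x θ) = IIw X F + IIw X G := by
  unfold IIw
  rw [← intervalIntegral.integral_add (CCw_outer hF hX) (CCw_outer hG hX)]
  refine intervalIntegral.integral_congr ?_
  intro x hx
  rw [Set.uIcc_of_le hX] at hx
  exact intervalIntegral.integral_add ((CCw_inner hF hx.1).intervalIntegrable _ _)
    ((CCw_inner hG hx.1).intervalIntegrable _ _)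

theorem IIw_smul (c : ℝ) (F : ℝ → ℝ → ℝ) (X : ℝ) :
    IIw X (fun x θ => c * F x θ) = c * IIw X F := by
  unfold IIw
  simp only [intervalIntegral.integral_const_mul]

theorem IIw_nonneg {F : ℝ → ℝ → ℝ} {X : ℝ} (hX : 0 ≤ X) (h : ∀ x θ, 0 ≤ x → 0 ≤ F x θ) :
    0 ≤ IIw X F := by
  unfold IIw
  refine intervalIntegral.integral_nonneg hX fun x hx => ?_
  exact intervalIntegral.integral_nonneg (by positivity) fun θ _ => h x θ hx.1

theorem IIw_mono {F G : ℝ → ℝ → ℝ} (hF : CCw F) (hG : CCw G) {X : ℝ} (hX : 0 ≤ X)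
    (h : ∀ x θ, 0 < x → x < X → F x θ ≤ G x θ) : IIw X F ≤ IIw X G := by
  unfold IIw
  refine intervalIntegral.integral_mono_on_of_le_Ioo hX (CCw_outer hF hX) (CCw_outer hG hX) ?_
  intro x hx
  exact intervalIntegral.integral_mono_on (by positivity)
    ((CCw_inner hF hx.1.le).intervalIntegrable _ _)
    ((CCw_inner hG hx.1.le).intervalIntegrable _ _) fun θ _ => h x θ hx.1 hx.2

theorem CCw_k (S : ℂ → ℂ) (R : ℝ) (hR : 1 < R) (hS : DifferentiableOn ℂ S (Metric.ball 0 R))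
    (p : ℂ → ℝ) (hp : Continuous p) (t φ : ℝ) : CCw (fun x θ => p (pt t φ - S (zz x θ))) :=
  hp.comp_continuousOn (continuousOn_const.sub (S_cont S R hR hS).1)

theorem CCw_h {h : ℝ → ℝ} (hh : ContinuousOn h (Ici 0)) : CCw (fun x θ => h x) :=
  hh.comp continuous_fst.continuousOn (fun q hq => hq)

theorem quad_nonneg' {A B C u : ℝ} (hA : 0 ≤ A) (hC : 0 ≤ C) (hB : B ^ 2 ≤ A * C) :
    0 ≤ u ^ 2 * A + 2 * u * B + C := by
  rcases hA.eq_or_lt with h | h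
  · rw [← h, zero_mul] at hB
    have : B = 0 := by
      have := sq_nonneg B
      exact pow_eq_zero_iff (two_ne_zero) |>.1 (le_antisymm hB this)
    rw [← h, this]
    linarith
  · by_contra hn
    push Not at hn
    have h1 : A * (u ^ 2 * A + 2 * u * B + C) < 0 := mul_neg_of_pos_of_neg h hn
    nlinarith [sq_nonneg (A * u + B)]

theorem G_grad (S : ℂ → ℂ) (R X σ : ℝ) (hR : 1 < R) (hS : DifferentiableOn ℂ S (Metric.ball 0 R))
    (hX : 0 ≤ X) (hσ : 0 < σ) (p : ℂ → ℝ) (hp : Continuous p) (hp0 : ∀ s, 0 ≤ p s) (t φ : ℝ) :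
    (JJ S X p (fun x θ => hh1 σ x * (LL S x θ).re) t φ) ^ 2
      + (JJ S X p (fun x θ => hh1 σ x * (LL S x θ).im) t φ) ^ 2
      ≤ 3 * JJ S X p (fun x θ => hh σ x * ‖LL S x θ‖ ^ 2) t φ
        * JJ S X p (fun x θ => hh2 σ x) t φ := by
  obtain ⟨hc0, hc1, hc2⟩ := hh_cont σ hσ
  have hL := (S_cont S R hR hS).2
  have hk := CCw_k S R hR hS p hp t φ
  have hRe : CCw (fun x θ => (LL S x θ).re) := Complex.continuous_re.comp_continuousOn hL
  have hIm : CCw (fun x θ => (LL S x θ).im) := Complex.continuous_im.comp_continuousOn hL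
  have hN : CCw (fun x θ => ‖LL S x θ‖ ^ 2) := (hL.norm).pow 2
  have hFP := CCw_mul hk (CCw_mul (CCw_h hc1) hRe)
  have hFQ := CCw_mul hk (CCw_mul (CCw_h hc1) hIm)
  have hFG := CCw_mul hk (CCw_mul (CCw_h hc0) hN)
  have hFD := CCw_mul hk (CCw_h hc2)
  obtain ⟨P, hP⟩ : ∃ P, P = JJ S X p (fun x θ => hh1 σ x * (LL S x θ).re) t φ := ⟨_, rfl⟩
  obtain ⟨Q, hQ⟩ : ∃ Q, Q = JJ S X p (fun x θ => hh1 σ x * (LL S x θ).im) t φ := ⟨_, rfl⟩
  obtain ⟨G, hG⟩ : ∃ G, G = JJ S X p (fun x θ => hh σ x * ‖LL S x θ‖ ^ 2) t φ := ⟨_, rfl⟩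
  obtain ⟨D, hD⟩ : ∃ D, D = JJ S X p (fun x θ => hh2 σ x) t φ := ⟨_, rfl⟩
  rw [← hP, ← hQ, ← hG, ← hD]
  have hh2nn : ∀ x, 0 ≤ x → 0 ≤ hh2 σ x := by
    intro x hx
    have h1 := (hh_props σ x hσ hx).2.2.2.2.2.1
    have h2 : 0 ≤ (x + σ) ^ (-(1/2) : ℝ) := Real.rpow_nonneg (by linarith) _
    linarith
  have hhnn : ∀ x, 0 ≤ x → 0 ≤ hh σ x := fun x hx => (hh_props σ x hσ hx).2.2.1
  have hG0 : 0 ≤ G := by
    rw [hG]
    exact IIw_nonneg hX fun x θ hx => mul_nonneg (hp0 _) (mul_nonneg (hhnn x hx) (by positivity))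
  have hD0 : 0 ≤ D := by
    rw [hD]
    exact IIw_nonneg hX fun x θ hx => mul_nonneg (hp0 _) (hh2nn x hx)
  have key : ∀ u : ℝ, 0 ≤ G * (u * u) + (2 * (P ^ 2 + Q ^ 2)) * u + 3 * (P ^ 2 + Q ^ 2) * D := by
    intro u
    have h1 : 0 ≤ IIw X (fun x θ => (u ^ 2 * (p (pt t φ - S (zz x θ)) * (hh σ x * ‖LL S x θ‖ ^ 2)) +
        (2 * u * P) * (p (pt t φ - S (zz x θ)) * (hh1 σ x * (LL S x θ).re))) +
        ((2 * u * Q) * (p (pt t φ - S (zz x θ)) * (hh1 σ x * (LL S x θ).im)) +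
        (3 * (P ^ 2 + Q ^ 2)) * (p (pt t φ - S (zz x θ)) * hh2 σ x))) := by
      refine IIw_nonneg hX fun x θ hx => ?_
      have hk0 := hp0 (pt t φ - S (zz x θ))
      have hp1 := (hh_props σ x hσ hx).2.2.2.2.1
      have hN2 : ‖LL S x θ‖ ^ 2 = (LL S x θ).re ^ 2 + (LL S x θ).im ^ 2 := by
        rw [Complex.sq_norm, Complex.normSq_apply]; ring
      have hq := quad_nonneg' (A := hh σ x * ‖LL S x θ‖ ^ 2)
        (B := hh1 σ x * (P * (LL S x θ).re + Q * (LL S x θ).im))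
        (C := 3 * (P ^ 2 + Q ^ 2) * hh2 σ x) (u := u)
        (mul_nonneg (hhnn x hx) (by positivity))
        (mul_nonneg (by positivity) (hh2nn x hx)) (by
          have h3 : (P * (LL S x θ).re + Q * (LL S x θ).im) ^ 2 ≤
              (P ^ 2 + Q ^ 2) * ((LL S x θ).re ^ 2 + (LL S x θ).im ^ 2) := by
            nlinarith [sq_nonneg (P * (LL S x θ).im - Q * (LL S x θ).re)]
          calc (hh1 σ x * (P * (LL S x θ).re + Q * (LL S x θ).im)) ^ 2
              = hh1 σ x ^ 2 * (P * (LL S x θ).re + Q * (LL S x θ).im) ^ 2 := by ring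
            _ ≤ (3 * hh σ x * hh2 σ x) *
                ((P ^ 2 + Q ^ 2) * ((LL S x θ).re ^ 2 + (LL S x θ).im ^ 2)) :=
                mul_le_mul hp1 h3 (sq_nonneg _)
                  (mul_nonneg (mul_nonneg (by norm_num) (hhnn x hx)) (hh2nn x hx))
            _ = _ := by rw [hN2]; ring)
      have := mul_nonneg hk0 hq
      calc (0 : ℝ) ≤ _ := this
        _ = _ := by ring
    rw [IIw_add (CCw_add (CCw_smul _ hFG) (CCw_smul _ hFP)) (CCw_add (CCw_smul _ hFQ) (CCw_smul _ hFD)) hX,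
      IIw_add (CCw_smul _ hFG) (CCw_smul _ hFP) hX, IIw_add (CCw_smul _ hFQ) (CCw_smul _ hFD) hX,
      IIw_smul, IIw_smul, IIw_smul, IIw_smul] at h1
    have eG : IIw X (fun x θ => p (pt t φ - S (zz x θ)) * (hh σ x * ‖LL S x θ‖ ^ 2)) = G := hG.symm
    have eP : IIw X (fun x θ => p (pt t φ - S (zz x θ)) * (hh1 σ x * (LL S x θ).re)) = P := hP.symm
    have eQ : IIw X (fun x θ => p (pt t φ - S (zz x θ)) * (hh1 σ x * (LL S x θ).im)) = Q := hQ.symm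
    have eD : IIw X (fun x θ => p (pt t φ - S (zz x θ)) * hh2 σ x) = D := hD.symm
    rw [eG, eP, eQ, eD] at h1
    calc (0 : ℝ) ≤ _ := h1
      _ = _ := by ring
  have hdis := discrim_le_zero key
  unfold discrim at hdis
  rcases (by positivity : 0 ≤ P ^ 2 + Q ^ 2).eq_or_lt with h0 | h0
  · rw [← h0]
    positivity
  · by_contra hn
    push Not at hn
    have h5 : (P ^ 2 + Q ^ 2) * (3 * G * D) < (P ^ 2 + Q ^ 2) * (P ^ 2 + Q ^ 2) :=
      mul_lt_mul_of_pos_left hn h0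
    nlinarith

theorem G_wall (S : ℂ → ℂ) (R X σ κ : ℝ) (hR : 1 < R)
    (hS : DifferentiableOn ℂ S (Metric.ball 0 R))
    (hX : 0 ≤ X) (hσ : 0 < σ) (hκ : 0 < κ) (p : ℂ → ℝ) (hp : Continuous p) (hp0 : ∀ s, 0 ≤ p s)
    (t φ : ℝ)
    (hw : ∀ x θ : ℝ, 0 < x → x < X → p (pt t φ - S (zz x θ)) ≠ 0 → x * ‖LL S x θ‖ ≤ κ) :
    (3/4) * JJ S X p (fun x θ => hh σ x * ‖LL S x θ‖ ^ 2) t φ / κ ^ 2
      ≤ JJ S X p (fun x θ => hh2 σ x) t φ := by
  obtain ⟨hc0, hc1, hc2⟩ := hh_cont σ hσ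
  have hL := (S_cont S R hR hS).2
  have hk := CCw_k S R hR hS p hp t φ
  have hN : CCw (fun x θ => ‖LL S x θ‖ ^ 2) := (hL.norm).pow 2
  have hFG := CCw_mul hk (CCw_mul (CCw_h hc0) hN)
  have hFD := CCw_mul hk (CCw_h hc2)
  have h1 : IIw X (fun x θ => p (pt t φ - S (zz x θ)) * (hh σ x * ‖LL S x θ‖ ^ 2)) ≤
      IIw X (fun x θ => (4 / 3 * κ ^ 2) * (p (pt t φ - S (zz x θ)) * hh2 σ x)) := by
    refine IIw_mono hFG (CCw_smul _ hFD) hX ?_
    intro x θ hx0 hxX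
    by_cases hk0 : p (pt t φ - S (zz x θ)) = 0
    · rw [hk0]; simp
    · have hb := hw x θ hx0 hxX hk0
      have hpk := hp0 (pt t φ - S (zz x θ))
      have h2 := (hh_props σ x hσ hx0.le).2.2.2.2.2.1
      have h3 : 0 ≤ (x + σ) ^ (-(1/2) : ℝ) := Real.rpow_nonneg (by linarith) _
      have h4 : (x * ‖LL S x θ‖) ^ 2 ≤ κ ^ 2 := pow_le_pow_left₀ (by positivity) hb 2
      have h5 : hh σ x * ‖LL S x θ‖ ^ 2 ≤ (4 / 3 * κ ^ 2) * hh2 σ x := by
        calc hh σ x * ‖LL S x θ‖ ^ 2 = (x * ‖LL S x θ‖) ^ 2 * (x + σ) ^ (-(1/2) : ℝ) := by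
              unfold hh; ring
          _ ≤ κ ^ 2 * (x + σ) ^ (-(1/2) : ℝ) := mul_le_mul_of_nonneg_right h4 h3
          _ ≤ κ ^ 2 * ((4 / 3) * hh2 σ x) := mul_le_mul_of_nonneg_left (by linarith) (by positivity)
          _ = _ := by ring
      calc _ ≤ p (pt t φ - S (zz x θ)) * ((4 / 3 * κ ^ 2) * hh2 σ x) :=
            mul_le_mul_of_nonneg_left h5 hpk
        _ = _ := by ring
  rw [IIw_smul] at h1
  have eG : IIw X (fun x θ => p (pt t φ - S (zz x θ)) * (hh σ x * ‖LL S x θ‖ ^ 2)) =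
      JJ S X p (fun x θ => hh σ x * ‖LL S x θ‖ ^ 2) t φ := rfl
  have eD : IIw X (fun x θ => p (pt t φ - S (zz x θ)) * hh2 σ x) =
      JJ S X p (fun x θ => hh2 σ x) t φ := rfl
  rw [eG, eD] at h1
  rw [div_le_iff₀ (by positivity)]
  linarith

theorem JJ_nonneg (S : ℂ → ℂ) (X : ℝ) (hX : 0 ≤ X) (q : ℂ → ℝ) (hq : ∀ s, 0 ≤ q s)
    (η : ℝ → ℝ → ℝ) (hη : ∀ x θ, 0 ≤ x → 0 ≤ η x θ) (t φ : ℝ) : 0 ≤ JJ S X q η t φ :=
  IIw_nonneg hX fun x θ hx => mul_nonneg (hq _) (hη x θ hx)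

end

end HW287
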