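import Pool.Agent.Helper287.HW.Parts
import Pool.Agent.Helper287.HW.Circle
import Pool.Agent.Helper287.HW.Land

set_option autoImplicit false
set_option linter.all false

open MeasureTheory Set Filter Topology

namespace HW287

/-! ### Fam -/

section

theorem fm_d_smooth (p : ℂ → ℝ) (hp : ContDiff ℝ 3 p) : ContDiff ℝ 1 (d1 p) ∧ ContDiff ℝ 1 (d2 p) := by
  have h : ContDiff ℝ 1 (fderiv ℝ p) := hp.fderiv_right (by norm_num)
  exact ⟨h.clm_apply contDiff_const, h.clm_apply contDiff_const⟩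

theorem fm_d_per (p : ℂ → ℝ) (hp : ∀ s, p (s + 2 * Real.pi * Complex.I) = p s) :
    (∀ s, d1 p (s + 2 * Real.pi * Complex.I) = d1 p s) ∧
    (∀ s, d2 p (s + 2 * Real.pi * Complex.I) = d2 p s) := by
  have h : ∀ s, fderiv ℝ p (s + 2 * Real.pi * Complex.I) = fderiv ℝ p s := by
    intro s
    have h1 := fderiv_comp_add_right (𝕜 := ℝ) (f := p) (x := s) (2 * Real.pi * Complex.I)
    have h2 : (fun x => p (x + 2 * Real.pi * Complex.I)) = p := funext hp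
    rw [h2] at h1
    exact h1.symm
  constructor
  · intro s
    unfold d1
    rw [h]
  · intro s
    unfold d2
    rw [h]

theorem fm_alg (P Q G D E N : ℝ) (hPQ : P ^ 2 + Q ^ 2 ≤ 3 * G * D) (hG : 0 ≤ G) (hD : 0 ≤ D)
    (hE : 0 < E) (hN : 0 < N) :
    (-P + N * E) ^ 2 + Q ^ 2 ≤ 3 * (G + E) * (D + N ^ 2 * E) := by
  have h1 : (2 * P * N) ^ 2 ≤ (3 * G * N ^ 2 + 3 * D) ^ 2 := by
    have h2 : P ^ 2 ≤ 3 * G * D := by nlinarith [sq_nonneg Q]
    have h3 : P ^ 2 * N ^ 2 ≤ 3 * G * D * N ^ 2 := mul_le_mul_of_nonneg_right h2 (sq_nonneg N)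
    nlinarith [sq_nonneg (G * N ^ 2 - D), mul_nonneg (mul_nonneg hG hD) (sq_nonneg N)]
  have h4 := abs_le_of_sq_le_sq h1 (by positivity)
  have h5 : -(2 * P * N) ≤ 3 * G * N ^ 2 + 3 * D := (neg_le_abs _).trans h4
  have h6 : -(2 * P * N) * E ≤ (3 * G * N ^ 2 + 3 * D) * E := mul_le_mul_of_nonneg_right h5 hE.le
  nlinarith [sq_nonneg (N * E)]

theorem fam_mk (S : ℂ → ℂ) (R X σ τ N ε ta : ℝ) (hR : 1 < R)
    (hS : DifferentiableOn ℂ S (Metric.ball 0 R)) (hX : 0 < X) (hσ : 0 < σ) (hτ : 0 < τ)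
    (hN : 0 < N) (p : ℂ → ℝ) (a : ℝ → ℝ) (hk : Ker ε p a)
    (hta : ∀ θ, (S (zz X θ)).re + ε ≤ ta) :
    Fam (GT S X σ τ N p) (GT1 S X σ τ N p) (GT2 S X σ p) (GT11 S X σ τ N p) (GT22 S X σ p) ta ∧
    ∀ t φ, ta ≤ t → GT11 S X σ τ N p t φ + GT22 S X σ p t φ =
      JJ S X p (fun x θ => hh2 σ x) t φ + τ * N ^ 2 * Real.exp (N * t) := by
  obtain ⟨hS1, hL1⟩ := S_cont S R hR hS
  obtain ⟨hc0, hc1, hc2⟩ := hh_cont σ hσ
  have hfst : ContinuousOn (fun q : ℝ × ℝ => q.1) {q : ℝ × ℝ | 0 ≤ q.1} := continuousOn_fst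
  have hmaps : MapsTo (fun q : ℝ × ℝ => q.1) {q : ℝ × ℝ | 0 ≤ q.1} (Ici 0) := fun q hq => hq
  have k0 : ContinuousOn (fun q : ℝ × ℝ => hh σ q.1) {q : ℝ × ℝ | 0 ≤ q.1} := hc0.comp hfst hmaps
  have k1 : ContinuousOn (fun q : ℝ × ℝ => hh1 σ q.1) {q : ℝ × ℝ | 0 ≤ q.1} := hc1.comp hfst hmaps
  have k2 : ContinuousOn (fun q : ℝ × ℝ => hh2 σ q.1) {q : ℝ × ℝ | 0 ≤ q.1} := hc2.comp hfst hmaps
  have hη0 : ContinuousOn (Function.uncurry (fun x θ => hh σ x * ‖LL S x θ‖ ^ 2))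
      {r : ℝ × ℝ | 0 ≤ r.1} := k0.mul (hL1.norm.pow 2)
  have hη1 : ContinuousOn (Function.uncurry (fun x θ => hh1 σ x * (LL S x θ).re))
      {r : ℝ × ℝ | 0 ≤ r.1} := k1.mul (Complex.continuous_re.comp_continuousOn hL1)
  have hη2 : ContinuousOn (Function.uncurry (fun x θ => hh1 σ x * (LL S x θ).im))
      {r : ℝ × ℝ | 0 ≤ r.1} := k1.mul (Complex.continuous_im.comp_continuousOn hL1)
  have hη3 : ContinuousOn (Function.uncurry (fun x (θ : ℝ) => hh2 σ x))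
      {r : ℝ × ℝ | 0 ≤ r.1} := k2
  obtain ⟨hd1, hd2⟩ := fm_d_smooth p hk.smooth
  obtain ⟨hp1, hp2⟩ := fm_d_per p hk.per
  have hpC : ContDiff ℝ 1 p := hk.smooth.of_le (by norm_num)
  have hz : ∀ t φ, ta ≤ t → ∀ θ, p (pt t φ - S (zz X θ)) = 0 := by
    intro t φ ht θ
    by_contra hne
    have h1 := (hk.supp _ hne).1
    have h2 : (pt t φ - S (zz X θ)).re = t - (S (zz X θ)).re := by
      rw [Complex.sub_re]
      unfold pt
      simp
    rw [h2] at h1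
    have h3 := hta θ
    have h4 := (le_abs_self (t - (S (zz X θ)).re))
    linarith
  have hlast : ∀ t φ, ta ≤ t → GT11 S X σ τ N p t φ + GT22 S X σ p t φ =
      JJ S X p (fun x θ => hh2 σ x) t φ + τ * N ^ 2 * Real.exp (N * t) := by
    intro t φ ht
    have h := ibp3 S R X σ hR hS hX hσ p hpC t φ (hz t φ ht)
    unfold GT11 GT22
    linarith
  have hexp : ∀ (c : ℝ), Continuous (fun r : ℝ × ℝ => c * Real.exp (N * r.1)) := by
    intro c
    fun_prop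
  have hGnn : ∀ t φ, 0 ≤ JJ S X p (fun x θ => hh σ x * ‖LL S x θ‖ ^ 2) t φ := fun t φ =>
    JJ_nonneg S X hX.le p hk.nonneg _ (fun x θ hx =>
      mul_nonneg (hh_props σ x hσ hx).2.2.1 (sq_nonneg _)) t φ
  have hDnn : ∀ t φ, 0 ≤ JJ S X p (fun x (θ : ℝ) => hh2 σ x) t φ := fun t φ =>
    JJ_nonneg S X hX.le p hk.nonneg _ (fun x θ hx => by
      have h1 := (hh_props σ x hσ hx).2.2.2.2.2.1
      have h2 : 0 ≤ (x + σ) ^ (-(1/2) : ℝ) := Real.rpow_nonneg (by linarith) _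
      linarith) t φ
  have hexpd : ∀ (c t : ℝ), HasDerivAt (fun u : ℝ => c * Real.exp (N * u))
      (c * (Real.exp (N * t) * N)) t := by
    intro c t
    have h1 : HasDerivAt (fun u : ℝ => N * u) N t := by
      simpa using (hasDerivAt_id t).const_mul N
    exact (h1.exp).const_mul c
  refine ⟨⟨?_, ?_, ?_, ?_, ?_, ?_, ?_, ?_, ?_, ?_, ?_, ?_, ?_, ?_, ?_, ?_⟩, hlast⟩
  · exact (JJ_cont S R X hR hS hX.le p hk.smooth.continuous _ hη0).add (hexp τ)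
  · exact (JJ_cont S R X hR hS hX.le p hk.smooth.continuous _ hη1).neg.add (hexp (τ * N))
  · exact (JJ_cont S R X hR hS hX.le p hk.smooth.continuous _ hη2).neg
  · exact (JJ_cont S R X hR hS hX.le (d1 p) hd1.continuous _ hη1).neg.add (hexp (τ * N ^ 2))
  · exact (JJ_cont S R X hR hS hX.le (d2 p) hd2.continuous _ hη2).neg
  · intro t φ _
    have h1 := hGnn t φ
    have h2 : 0 < τ * Real.exp (N * t) := mul_pos hτ (Real.exp_pos _)
    show 0 < JJ S X p (fun x θ => hh σ x * ‖LL S x θ‖ ^ 2) t φ + τ * Real.exp (N * t)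
    linarith
  · intro t φ
    unfold GT
    rw [JJ_per S X p hk.per]
  · intro t φ
    unfold GT1
    rw [JJ_per S X p hk.per]
  · intro t φ
    unfold GT2
    rw [JJ_per S X p hk.per]
  · intro t φ
    unfold GT11
    rw [JJ_per S X (d1 p) hp1]
  · intro t φ
    unfold GT22
    rw [JJ_per S X (d2 p) hp2]
  · intro t φ ht
    have h1 := (JJ_deriv1 S R X hR hS hX.le p hpC _ hη0 t φ).add (hexpd τ t)
    rw [ibp1 S R X σ hR hS hX hσ p hpC t φ (hz t φ ht)] at h1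
    refine h1.congr_deriv ?_
    unfold GT1
    ring
  · intro t φ ht
    have h1 := (JJ_deriv2 S R X hR hS hX.le p hpC _ hη0 t φ).add_const (τ * Real.exp (N * t))
    rw [ibp2 S R X σ hR hS hX hσ p hpC t φ (hz t φ ht)] at h1
    exact h1
  · intro t φ ht
    have h1 := (JJ_deriv1 S R X hR hS hX.le p hpC _ hη1 t φ).neg.add (hexpd (τ * N) t)
    refine h1.congr_deriv ?_
    unfold GT11
    ring
  · intro t φ ht
    exact (JJ_deriv2 S R X hR hS hX.le p hpC _ hη2 t φ).neg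
  · intro t φ ht
    rw [hlast t φ ht]
    have h1 := G_grad S R X σ hR hS hX.le hσ p hk.smooth.continuous hk.nonneg t φ
    have h2 := fm_alg _ _ _ _ (τ * Real.exp (N * t)) N h1 (hGnn t φ) (hDnn t φ)
      (mul_pos hτ (Real.exp_pos _)) hN
    unfold GT1 GT2 GT
    calc _ = (-JJ S X p (fun x θ => hh1 σ x * (LL S x θ).re) t φ + N * (τ * Real.exp (N * t))) ^ 2
          + JJ S X p (fun x θ => hh1 σ x * (LL S x θ).im) t φ ^ 2 := by ring
      _ ≤ _ := h2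
      _ = _ := by ring

end

/-! ### Arc -/

section

theorem wall_arc (C : ℝ) (hC : 0 < C) (hland : Land C)
    (S : ℂ → ℂ) (R X σ ε : ℝ) (hR : 1 < R)
    (hS : DifferentiableOn ℂ S (Metric.ball 0 R)) (hX : 0 < X) (hσ : 0 < σ)
    (p : ℂ → ℝ) (a : ℝ → ℝ) (hk : Ker ε p a) (q1 q2 : ℂ) (d D t φ : ℝ) (hd : 0 < d)
    (hε : ε ≤ d / 4) (hre : |q1.re - t| ≤ 2 * d) (hne : d ≤ ‖q2 - q1‖) (hD : ‖q2 - q1‖ ≤ D)
    (ho : ∀ z ∈ Metric.ball (0:ℂ) 1, ∀ n : ℤ,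
      S z ≠ q1 + 2 * Real.pi * n * Complex.I ∧ S z ≠ q2 + 2 * Real.pi * n * Complex.I)
    (hφ : |φ - q1.im| ≤ d) :
    (3/4) * JJ S X p (fun x θ => hh σ x * ‖LL S x θ‖ ^ 2) t φ
      / ((C / 2) * (3 * d) ^ (5/6 : ℝ) * D ^ (1/6 : ℝ)) ^ 2
      ≤ JJ S X p (fun x θ => hh2 σ x) t φ := by
  have hD0 : 0 < D := by linarith
  have hκ : 0 < (C / 2) * (3 * d) ^ (5/6 : ℝ) * D ^ (1/6 : ℝ) := by positivity
  refine G_wall S R X σ _ hR hS hX.le hσ hκ p hk.smooth.continuous hk.nonneg t φ ?_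
  intro x θ hx _ hp
  obtain ⟨h1, n, h2⟩ := hk.supp _ hp
  have hre1 : (pt t φ - S (zz x θ)).re = t - (S (zz x θ)).re := by
    simp [pt]
  have him1 : (pt t φ - S (zz x θ)).im = φ - (S (zz x θ)).im := by
    simp [pt]
  rw [hre1] at h1
  rw [him1] at h2
  set q1' : ℂ := q1 + 2 * Real.pi * ((-n : ℤ) : ℂ) * Complex.I with hq1'
  set q2' : ℂ := q2 + 2 * Real.pi * ((-n : ℤ) : ℂ) * Complex.I with hq2'
  have hdiff : q2' - q1' = q2 - q1 := by rw [hq1', hq2']; ring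
  have hre2 : (S (zz x θ) - q1').re = (S (zz x θ)).re - q1.re := by
    rw [hq1']; simp
  have him2 : (S (zz x θ) - q1').im = (S (zz x θ)).im - q1.im + 2 * Real.pi * n := by
    rw [hq1']; simp; ring
  have hnorm : ‖S (zz x θ) - q1'‖ ≤ 3 * d := by
    have hsq : ‖S (zz x θ) - q1'‖ ^ 2 = (S (zz x θ) - q1').re ^ 2 + (S (zz x θ) - q1').im ^ 2 := by
      rw [Complex.sq_norm, Complex.normSq_apply]; ring
    rw [hre2, him2] at hsq
    have a1 := abs_lt.mp h1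
    have a2 := abs_lt.mp h2
    have a3 := abs_le.mp hre
    have a4 := abs_le.mp hφ
    have b1 : |(S (zz x θ)).re - q1.re| ≤ 9 / 4 * d := abs_le.mpr ⟨by linarith, by linarith⟩
    have b2 : |(S (zz x θ)).im - q1.im + 2 * Real.pi * n| ≤ 5 / 4 * d :=
      abs_le.mpr ⟨by linarith, by linarith⟩
    have c1 : ((S (zz x θ)).re - q1.re) ^ 2 ≤ (9 / 4 * d) ^ 2 := by
      rw [← sq_abs ((S (zz x θ)).re - q1.re)]
      exact pow_le_pow_left₀ (abs_nonneg _) b1 2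
    have c2 : ((S (zz x θ)).im - q1.im + 2 * Real.pi * n) ^ 2 ≤ (5 / 4 * d) ^ 2 := by
      rw [← sq_abs ((S (zz x θ)).im - q1.im + 2 * Real.pi * n)]
      exact pow_le_pow_left₀ (abs_nonneg _) b2 2
    refine (pow_le_pow_iff_left₀ (norm_nonneg _) (by positivity) two_ne_zero).mp ?_
    rw [hsq]
    nlinarith [sq_nonneg d]
  refine grad_wall C hC hland S (hS.mono (Metric.ball_subset_ball hR.le)) q1' q2' D (3 * d)
    (by rw [hdiff]; exact hD) ?_ ?_ x θ hx hnorm (by rw [hdiff]; linarith)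
  · intro h
    have : q2 - q1 = 0 := by rw [← hdiff, h, sub_self]
    rw [this, norm_zero] at hne
    linarith
  · intro z hz
    exact ho z hz (-n)

end

/-! ### Level -/

section

theorem level_wall (C CN : ℝ) (hC : 0 < C) (hland : Land C)
    (S : ℂ → ℂ) (R X σ τ N ε ta : ℝ) (hR : 1 < R)
    (hS : DifferentiableOn ℂ S (Metric.ball 0 R)) (hX : 0 < X) (hσ : 0 < σ) (hτ : 0 < τ)
    (p : ℂ → ℝ) (a : ℝ → ℝ) (hk : Ker ε p a)
    (heq : ∀ t φ, ta ≤ t → GT11 S X σ τ N p t φ + GT22 S X σ p t φ =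
      JJ S X p (fun x θ => hh2 σ x) t φ + τ * N ^ 2 * Real.exp (N * t))
    (q1 q2 : ℂ) (d D t : ℝ) (ht : ta ≤ t) (hd : 0 < d)
    (hε : ε ≤ d / 4) (hre : |q1.re - t| ≤ 2 * d) (hne : d ≤ ‖q2 - q1‖) (hD : ‖q2 - q1‖ ≤ D)
    (hNd : CN / d ^ 2 ≤ N ^ 2)
    (hΛ : 1 / ((C / 2) * (3 * d) ^ (5/6 : ℝ) * D ^ (1/6 : ℝ)) ^ 2 ≤ CN / d ^ 2)
    (ho : ∀ z ∈ Metric.ball (0:ℂ) 1, ∀ n : ℤ,
      S z ≠ q1 + 2 * Real.pi * n * Complex.I ∧ S z ≠ q2 + 2 * Real.pi * n * Complex.I) :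
    ∀ φ, |φ - q1.im| ≤ d →
      (3/4) * (1 / ((C / 2) * (3 * d) ^ (5/6 : ℝ) * D ^ (1/6 : ℝ)) ^ 2) * GT S X σ τ N p t φ ≤
        GT11 S X σ τ N p t φ + GT22 S X σ p t φ := by
  intro φ hφ
  have h1 := wall_arc C hC hland S R X σ ε hR hS hX hσ p a hk q1 q2 d D t φ hd hε hre hne hD ho hφ
  rw [heq t φ ht]
  have hW : 0 ≤ 1 / ((C / 2) * (3 * d) ^ (5/6 : ℝ) * D ^ (1/6 : ℝ)) ^ 2 := by positivity
  set W : ℝ := 1 / ((C / 2) * (3 * d) ^ (5/6 : ℝ) * D ^ (1/6 : ℝ)) ^ 2 with hWd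
  have h2 : (3/4) * JJ S X p (fun x θ => hh σ x * ‖LL S x θ‖ ^ 2) t φ
      / ((C / 2) * (3 * d) ^ (5/6 : ℝ) * D ^ (1/6 : ℝ)) ^ 2 =
      (3/4) * W * JJ S X p (fun x θ => hh σ x * ‖LL S x θ‖ ^ 2) t φ := by
    rw [hWd]; ring
  rw [h2] at h1
  have h3 : (3/4) * W * (τ * Real.exp (N * t)) ≤ τ * N ^ 2 * Real.exp (N * t) := by
    have h4 : (3/4) * W ≤ N ^ 2 := by linarith
    have h5 : 0 ≤ τ * Real.exp (N * t) := by positivity
    calc (3/4) * W * (τ * Real.exp (N * t)) ≤ N ^ 2 * (τ * Real.exp (N * t)) :=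
          mul_le_mul_of_nonneg_right h4 h5
      _ = _ := by ring
  unfold GT
  rw [mul_add]
  linarith

theorem level_aux (C C1 K d0 CN : ℝ) (hC : 0 < C) (hland : Land C) (hn : Nums C C1 K d0 CN)
    (S : ℂ → ℂ) (R X σ τ N ε ta : ℝ) (hR : 1 < R)
    (hS : DifferentiableOn ℂ S (Metric.ball 0 R)) (hX : 0 < X) (hσ : 0 < σ) (hτ : 0 < τ)
    (hN : 0 < N) (p : ℂ → ℝ) (a : ℝ → ℝ) (hk : Ker ε p a)
    (hta : ∀ θ, (S (zz X θ)).re + ε ≤ ta) (q1 q2 : ℂ) (d t : ℝ) (ht : ta ≤ t) (hd : 0 < d)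
    (hd0 : d ≤ d0) (hε : ε ≤ d / 4) (h1 : q1.re ∈ Icc (t - d) t)
    (h2 : q2.re ∈ Icc (t + d) (t + 2 * d)) (hNd : CN / d ^ 2 ≤ N ^ 2)
    (him : |q2.im - q1.im| ≤ Real.pi)
    (ho : ∀ z ∈ Metric.ball (0:ℂ) 1, ∀ n : ℤ,
      S z ≠ q1 + 2 * Real.pi * n * Complex.I ∧ S z ≠ q2 + 2 * Real.pi * n * Complex.I)
    (hb : -AA (GT S X σ τ N p) t ≤ AA1 (GT S X σ τ N p) (GT1 S X σ τ N p) t)
    (hb0 : AA1 (GT S X σ τ N p) (GT1 S X σ τ N p) t ≤ 0) :
    AA1 (GT S X σ τ N p) (GT1 S X σ τ N p) t ^ 2 / (2 * AA (GT S X σ τ N p) t)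
      + 2 * (1/4 - C1 * d) * AA (GT S X σ τ N p) t
      ≤ AA2 (GT S X σ τ N p) (GT1 S X σ τ N p) (GT11 S X σ τ N p) t := by
  obtain ⟨F, heq⟩ := fam_mk S R X σ τ N ε ta hR hS hX hσ hτ hN p a hk hta
  have hAA : 0 ≤ AA (GT S X σ τ N p) t := by linarith
  have hC1 := hn.hc1
  have hcd : C1 * d ≤ 1/8 := by
    have := hn.hcd
    have h3 : C1 * d ≤ C1 * d0 := mul_le_mul_of_nonneg_left hd0 hC1.le
    linarith
  have hC1d : 0 < C1 * d := mul_pos hC1 hd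
  have hK := hn.hk4
  have hd1 : d ≤ 1/10 := hd0.trans hn.hd01
  have hne : d ≤ ‖q2 - q1‖ := by
    have h3 := Complex.abs_re_le_norm (q2 - q1)
    rw [Complex.sub_re] at h3
    have h4 := le_abs_self (q2.re - q1.re)
    have h5 := h1.2
    have h6 := h2.1
    linarith
  have hup : ‖q2 - q1‖ ≤ 3 * d + |q2.im - q1.im| := by
    have h3 := Complex.norm_le_abs_re_add_abs_im (q2 - q1)
    rw [Complex.sub_re, Complex.sub_im] at h3
    have h4 : |q2.re - q1.re| ≤ 3 * d := by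
      have h5 := h1.1
      have h6 := h2.2
      have h7 := h1.2
      have h8 := h2.1
      rw [abs_le]; constructor <;> linarith
    linarith
  have hre1 : |q1.re - t| ≤ 2 * d := by
    have h5 := h1.1
    have h7 := h1.2
    rw [abs_le]; constructor <;> linarith
  have hre2 : |q2.re - t| ≤ 2 * d := by
    have h6 := h2.2
    have h8 := h2.1
    rw [abs_le]; constructor <;> linarith
  by_cases hA : |q2.im - q1.im| ≤ K * d
  · have hD : ‖q2 - q1‖ ≤ (K + 3) * d := by linarith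
    have hw := level_wall C CN hC hland S R X σ τ N ε ta hR hS hX hσ hτ p a hk heq q1 q2 d
      ((K + 3) * d) t ht hd hε hre1 hne hD hNd (hn.honen d hd hd0) ho
    have hβ : 0 < 1/2 - C1 * d := by linarith
    have hβ2 : 1/2 - C1 * d < 1/2 := by linarith
    have hc := carl_one _ _ _ _ _ ta F t ht q1.im d _ (1/2 - C1 * d) hd (by linarith) hw hβ hβ2
      (hn.hone d hd hd0) hb hb0
    have h3 : 2 * (1/4 - C1 * d) * AA (GT S X σ τ N p) t ≤
        2 * (1/2 - C1 * d) ^ 2 * AA (GT S X σ τ N p) t := by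
      apply mul_le_mul_of_nonneg_right _ hAA
      nlinarith [sq_nonneg (C1 * d)]
    linarith
  · push Not at hA
    set Δ : ℝ := |q2.im - q1.im| with hΔ
    have hKd : 4 * d ≤ K * d := mul_le_mul_of_nonneg_right hK hd.le
    have hD : ‖q2 - q1‖ ≤ 2 * Δ := by linarith
    have hD' : ‖q1 - q2‖ ≤ 2 * Δ := by rw [norm_sub_rev]; exact hD
    have hne' : d ≤ ‖q1 - q2‖ := by rw [norm_sub_rev]; exact hne
    have hΛn := hn.htwon d Δ hd hd0 hA.le him
    have hw1 := level_wall C CN hC hland S R X σ τ N ε ta hR hS hX hσ hτ p a hk heq q1 q2 d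
      (2 * Δ) t ht hd hε hre1 hne hD hNd hΛn ho
    have hw2 := level_wall C CN hC hland S R X σ τ N ε ta hR hS hX hσ hτ p a hk heq q2 q1 d
      (2 * Δ) t ht hd hε hre2 hne' hD' hNd hΛn (fun z hz n => ⟨(ho z hz n).2, (ho z hz n).1⟩)
    have hpi := Real.pi_gt_three
    have hΛt := hn.htwo d Δ hd hd0 hA.le him
    have hfin : AA1 (GT S X σ τ N p) (GT1 S X σ τ N p) t ^ 2 / (2 * AA (GT S X σ τ N p) t)
        + 2 * (1/4) * AA (GT S X σ τ N p) t
        ≤ AA2 (GT S X σ τ N p) (GT1 S X σ τ N p) (GT11 S X σ τ N p) t := by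
      rcases le_total q1.im q2.im with hle | hle
      · have hΔ' : Δ = q2.im - q1.im := by rw [hΔ, abs_of_nonneg (by linarith)]
        refine carl_two _ _ _ _ _ ta F t ht q1.im q2.im d _ (Δ / 2) hd (by linarith) (by linarith)
          (by linarith) (by linarith) ?_ hΛt hb hb0
        intro φ hφ
        rcases hφ with h | h
        · exact hw1 φ h
        · exact hw2 φ h
      · have hΔ' : Δ = q1.im - q2.im := by
          rw [hΔ, abs_of_nonpos (by linarith)]; ring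
        refine carl_two _ _ _ _ _ ta F t ht q2.im q1.im d _ (Δ / 2) hd (by linarith) (by linarith)
          (by linarith) (by linarith) ?_ hΛt hb hb0
        intro φ hφ
        rcases hφ with h | h
        · exact hw2 φ h
        · exact hw1 φ h
    have h3 : 2 * (1/4 - C1 * d) * AA (GT S X σ τ N p) t ≤
        2 * (1/4) * AA (GT S X σ τ N p) t := by
      apply mul_le_mul_of_nonneg_right _ hAA
      linarith
    linarith

theorem level_ineq (C C1 K d0 CN : ℝ) (hC : 0 < C) (hland : Land C) (hn : Nums C C1 K d0 CN)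
    (S : ℂ → ℂ) (R X σ τ N ε ta : ℝ) (hR : 1 < R)
    (hS : DifferentiableOn ℂ S (Metric.ball 0 R)) (hX : 0 < X) (hσ : 0 < σ) (hτ : 0 < τ)
    (hN : 0 < N) (p : ℂ → ℝ) (a : ℝ → ℝ) (hk : Ker ε p a)
    (hta : ∀ θ, (S (zz X θ)).re + ε ≤ ta) (q1 q2 : ℂ) (d t : ℝ) (ht : ta ≤ t) (hd : 0 < d)
    (hd0 : d ≤ d0) (hε : ε ≤ d / 4) (h1 : q1.re ∈ Icc (t - d) t)
    (h2 : q2.re ∈ Icc (t + d) (t + 2 * d)) (hNd : CN / d ^ 2 ≤ N ^ 2)
    (ho : ∀ z ∈ Metric.ball (0:ℂ) 1, ∀ n : ℤ,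
      S z ≠ q1 + 2 * Real.pi * n * Complex.I ∧ S z ≠ q2 + 2 * Real.pi * n * Complex.I)
    (hb : -AA (GT S X σ τ N p) t ≤ AA1 (GT S X σ τ N p) (GT1 S X σ τ N p) t)
    (hb0 : AA1 (GT S X σ τ N p) (GT1 S X σ τ N p) t ≤ 0) :
    AA1 (GT S X σ τ N p) (GT1 S X σ τ N p) t ^ 2 / (2 * AA (GT S X σ τ N p) t)
      + 2 * (1/4 - C1 * d) * AA (GT S X σ τ N p) t
      ≤ AA2 (GT S X σ τ N p) (GT1 S X σ τ N p) (GT11 S X σ τ N p) t := by
  set r : ℤ := round ((q2.im - q1.im) / (2 * Real.pi)) with hr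
  have hpi := Real.pi_pos
  have hrb : |q2.im - q1.im - 2 * Real.pi * r| ≤ Real.pi := by
    have h3 := abs_sub_round ((q2.im - q1.im) / (2 * Real.pi))
    rw [← hr] at h3
    have h4 : q2.im - q1.im - 2 * Real.pi * r =
        (2 * Real.pi) * ((q2.im - q1.im) / (2 * Real.pi) - r) := by
      field_simp
    rw [h4, abs_mul, abs_of_pos (by positivity : (0:ℝ) < 2 * Real.pi)]
    nlinarith
  have hre : (q2 - 2 * Real.pi * (r : ℂ) * Complex.I).re = q2.re := by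
    simp
  have him : (q2 - 2 * Real.pi * (r : ℂ) * Complex.I).im = q2.im - 2 * Real.pi * r := by
    simp
  refine level_aux C C1 K d0 CN hC hland hn S R X σ τ N ε ta hR hS hX hσ hτ hN p a hk hta q1
    (q2 - 2 * Real.pi * (r : ℂ) * Complex.I) d t ht hd hd0 hε h1 (by rw [hre]; exact h2) hNd ?_ ?_
    hb hb0
  · rw [him]
    have h5 : q2.im - 2 * Real.pi * r - q1.im = q2.im - q1.im - 2 * Real.pi * r := by ring
    rw [h5]; exact hrb
  · intro z hz n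
    refine ⟨(ho z hz n).1, ?_⟩
    have h6 := (ho z hz (n - r)).2
    intro h7
    apply h6
    rw [h7]
    push_cast
    ring

end

/-! ### Marg -/

section

theorem JJ_marg_swap (F : ℝ → ℝ → ℝ) (hF : Continuous (Function.uncurry F)) (a b c d : ℝ) :
    ∫ x in a..b, ∫ y in c..d, F x y = ∫ y in c..d, ∫ x in a..b, F x y := by
  apply intervalIntegral_intervalIntegral_swap
  exact (hF.continuousOn.integrableOn_compact (isCompact_uIcc.prod isCompact_uIcc)).mono_set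
    (prod_mono uIoc_subset_uIcc uIoc_subset_uIcc)

theorem JJ_marg (S : ℂ → ℂ) (R X ε : ℝ) (hR : 1 < R)
    (hS : DifferentiableOn ℂ S (Metric.ball 0 R)) (hX : 0 ≤ X) (p : ℂ → ℝ) (a : ℝ → ℝ)
    (hk : Ker ε p a) (η : ℝ → ℝ → ℝ)
    (hη : ContinuousOn (Function.uncurry η) {r : ℝ × ℝ | 0 ≤ r.1}) (t : ℝ) :
    ∫ φ in (0:ℝ)..(2 * Real.pi), JJ S X p η t φ =
      ∫ x in (0:ℝ)..X, ∫ θ in (0:ℝ)..(2 * Real.pi), a (t - (S (zz x θ)).re) * η x θ := by
  have hmap : Continuous (fun q : ℝ × ℝ => (max q.1 0, q.2)) := by fun_prop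
  have hSx : Continuous (fun q : ℝ × ℝ => S (zz (max q.1 0) q.2)) :=
    (S_cont S R hR hS).1.comp_continuous hmap (fun q => le_max_right q.1 0)
  have hηx : Continuous (fun q : ℝ × ℝ => η (max q.1 0) q.2) :=
    hη.comp_continuous hmap (fun q => le_max_right q.1 0)
  have hp : Continuous p := hk.smooth.continuous
  have hF : Continuous (fun r : (ℝ × ℝ) × ℝ =>
      p (pt t r.1.1 - S (zz (max r.1.2 0) r.2)) * η (max r.1.2 0) r.2) := by
    apply Continuous.mul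
    · apply hp.comp
      apply Continuous.sub
      · unfold pt
        fun_prop
      · exact hSx.comp (f := fun r : (ℝ × ℝ) × ℝ => (r.1.2, r.2)) (by fun_prop)
    · exact hηx.comp (f := fun r : (ℝ × ℝ) × ℝ => (r.1.2, r.2)) (by fun_prop)
  have hA : ∀ φ, JJ S X p η t φ = ∫ x in (0:ℝ)..X, ∫ θ in (0:ℝ)..(2 * Real.pi),
      p (pt t φ - S (zz (max x 0) θ)) * η (max x 0) θ := by
    intro φ
    unfold JJ
    apply intervalIntegral.integral_congr
    intro x hx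
    rw [uIcc_of_le hX] at hx
    have hx0 : max x 0 = x := max_eq_left hx.1
    simp only [hx0]
  simp only [hA]
  have hB := JJ_marg_swap (fun φ x => ∫ θ in (0:ℝ)..(2 * Real.pi),
      p (pt t φ - S (zz (max x 0) θ)) * η (max x 0) θ)
      (intervalIntegral.continuous_parametric_intervalIntegral_of_continuous'
        (f := fun (q : ℝ × ℝ) (θ : ℝ) => p (pt t q.1 - S (zz (max q.2 0) θ)) * η (max q.2 0) θ)
        hF 0 (2 * Real.pi)) 0 (2 * Real.pi) 0 X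
  rw [hB]
  apply intervalIntegral.integral_congr
  intro x hx
  rw [uIcc_of_le hX] at hx
  have hx0 : max x 0 = x := max_eq_left hx.1
  have hC := JJ_marg_swap (fun φ θ => p (pt t φ - S (zz (max x 0) θ)) * η (max x 0) θ)
    (hF.comp (f := fun r : ℝ × ℝ => ((r.1, x), r.2)) (by fun_prop)) 0 (2 * Real.pi)
    0 (2 * Real.pi)
  simp only [hx0] at hC
  simp only [hx0]
  rw [hC]
  apply intervalIntegral.integral_congr
  intro θ hθ
  simp only
  rw [intervalIntegral.integral_mul_const]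
  congr 1
  rw [← hk.marg (t - (S (zz x θ)).re) (S (zz x θ)).im]
  apply intervalIntegral.integral_congr
  intro φ hφ
  simp only
  congr 1
  apply Complex.ext <;> simp [pt]

end

/-! ### Mle -/

section

theorem mle_holder (g : ℝ → ℝ) (hg : Continuous g) (h0 : ∀ φ, 0 ≤ g φ) :
    ∫ φ in (0:ℝ)..(2 * Real.pi), g φ ≤ (2 * Real.pi) ^ (1/4 : ℝ) *
      (∫ φ in (0:ℝ)..(2 * Real.pi), g φ ^ (4/3 : ℝ)) ^ (3/4 : ℝ) := by
  have hpi : (0:ℝ) ≤ 2 * Real.pi := by positivity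
  rw [intervalIntegral.integral_of_le hpi, intervalIntegral.integral_of_le hpi]
  have hpq : (4/3 : ℝ).HolderConjugate 4 := by
    rw [Real.holderConjugate_iff]
    norm_num
  obtain ⟨C, hC⟩ := (isCompact_Icc (a := (0:ℝ)) (b := 2 * Real.pi)).exists_bound_of_continuousOn
    hg.continuousOn
  have hfin : IsFiniteMeasure (volume.restrict (Ioc 0 (2 * Real.pi))) := by
    constructor
    rw [Measure.restrict_apply_univ, Real.volume_Ioc]
    exact ENNReal.ofReal_lt_top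
  have hm1 : MemLp g (ENNReal.ofReal (4/3)) (volume.restrict (Ioc 0 (2 * Real.pi))) := by
    refine MemLp.of_bound hg.aestronglyMeasurable C ?_
    refine (ae_restrict_iff' measurableSet_Ioc).2 (Eventually.of_forall fun x hx => ?_)
    exact hC x (Ioc_subset_Icc_self hx)
  have hm2 : MemLp (fun _ : ℝ => (1 : ℝ)) (ENNReal.ofReal 4)
      (volume.restrict (Ioc 0 (2 * Real.pi))) := memLp_const 1
  have h := integral_mul_le_Lp_mul_Lq_of_nonneg hpq (Eventually.of_forall h0)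
    (Eventually.of_forall fun _ => zero_le_one) hm1 hm2
  have e1 : ∫ x in Ioc 0 (2 * Real.pi), g x * (1 : ℝ) = ∫ x in Ioc 0 (2 * Real.pi), g x := by
    simp only [mul_one]
  have e2 : ∫ _ in Ioc 0 (2 * Real.pi), (1 : ℝ) ^ (4 : ℝ) = 2 * Real.pi := by
    simp only [Real.one_rpow]
    rw [setIntegral_const, smul_eq_mul, mul_one, Real.volume_real_Ioc_of_le hpi, sub_zero]
  rw [e1, e2] at h
  have e3 : (1 / (4/3) : ℝ) = 3/4 := by norm_num
  rw [e3] at h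
  rw [mul_comm ((2 * Real.pi) ^ (1/4 : ℝ))]
  exact h

theorem m_le_AA (S : ℂ → ℂ) (R X σ τ N ε : ℝ) (hR : 1 < R)
    (hS : DifferentiableOn ℂ S (Metric.ball 0 R)) (hX : 0 < X) (hσ : 0 < σ) (hτ : 0 < τ)
    (p : ℂ → ℝ) (a : ℝ → ℝ) (hk : Ker ε p a) (t : ℝ) :
    ∫ φ in (0:ℝ)..(2 * Real.pi), JJ S X p (fun x θ => hh σ x * ‖LL S x θ‖ ^ 2) t φ
      ≤ (2 * Real.pi) ^ (1/4 : ℝ) * AA (GT S X σ τ N p) t ^ (3/4 : ℝ) := by
  have hη : ContinuousOn (Function.uncurry fun x θ => hh σ x * ‖LL S x θ‖ ^ 2)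
      {r : ℝ × ℝ | 0 ≤ r.1} := by
    have h1 : ContinuousOn (fun q : ℝ × ℝ => hh σ q.1) {q | 0 ≤ q.1} :=
      (hh_cont σ hσ).1.comp continuousOn_fst (fun q hq => hq)
    exact h1.mul ((S_cont S R hR hS).2.norm.pow 2)
  have hJc := JJ_cont S R X hR hS hX.le p hk.smooth.continuous _ hη
  have hJφ : Continuous (fun φ => JJ S X p (fun x θ => hh σ x * ‖LL S x θ‖ ^ 2) t φ) :=
    hJc.comp (Continuous.prodMk_right t)
  have hJ0 : ∀ φ, 0 ≤ JJ S X p (fun x θ => hh σ x * ‖LL S x θ‖ ^ 2) t φ := fun φ =>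
    JJ_nonneg S X hX.le p hk.nonneg _ (fun x θ hx =>
      mul_nonneg (hh_props σ x hσ hx).2.2.1 (sq_nonneg _)) t φ
  have hc : 0 < τ * Real.exp (N * t) := mul_pos hτ (Real.exp_pos _)
  have hg : Continuous (fun φ => GT S X σ τ N p t φ) := hJφ.add continuous_const
  have hle : ∀ φ, JJ S X p (fun x θ => hh σ x * ‖LL S x θ‖ ^ 2) t φ ≤ GT S X σ τ N p t φ := by
    intro φ
    unfold GT
    linarith
  have hg0 : ∀ φ, 0 ≤ GT S X σ τ N p t φ := fun φ => (hJ0 φ).trans (hle φ)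
  have hpi : (0:ℝ) ≤ 2 * Real.pi := by positivity
  refine (intervalIntegral.integral_mono hpi (hJφ.intervalIntegrable _ _)
    (hg.intervalIntegrable _ _) hle).trans ?_
  exact mle_holder _ hg hg0

end

end HW287
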